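import Mathlib

/-!
# Derivations of polynomial rings and differential polynomial rings
-/

open MvPolynomial

namespace KN

theorem dual_mul {A : Type} [CommRing A] (x y : TrivSqZeroExt A A) :
    (x * y).snd = x.fst * y.snd + y.fst * x.snd := by
  simp [TrivSqZeroExt.snd_mul, mul_comm]

/-- the dual number `a + b ε` -/
def dn {A : Type} (a b : A) : TrivSqZeroExt A A := (a, b)

@[simp] theorem dn_fst {A : Type} (a b : A) : (dn a b).fst = a := rfl
@[simp] theorem dn_snd {A : Type} (a b : A) : (dn a b).snd = b := rfl

/-- derivation from a ring homomorphism to the dual numbers -/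
noncomputable def derOfDual {A : Type} [CommRing A] [Algebra ℝ A] (φ : A →+* TrivSqZeroExt A A)
    (hfst : ∀ x, (φ x).fst = x) (hR : ∀ c : ℝ, (φ (algebraMap ℝ A c)).snd = 0) :
    Derivation ℝ A A where
  toFun x := (φ x).snd
  map_add' x y := by simp
  map_smul' c x := by
    rw [Algebra.smul_def, map_mul, dual_mul, hfst, hR, mul_zero, add_zero]
    simp [Algebra.smul_def]
  map_one_eq_zero' := by simp
  leibniz' x y := by
    change (φ (x * y)).snd = x * (φ y).snd + y * (φ x).snd
    rw [map_mul, dual_mul, hfst, hfst]

/-- the ring homomorphism `s ↦ s + E s ε`, `X i ↦ X i + v i ε` -/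
noncomputable def exdHom {σ S : Type} [CommRing S] [Algebra ℝ S] (E : Derivation ℝ S S)
    (v : σ → MvPolynomial σ S) :
    MvPolynomial σ S →+* TrivSqZeroExt (MvPolynomial σ S) (MvPolynomial σ S) :=
  eval₂Hom
    { toFun := fun s => dn (C s) (C (E s))
      map_one' := by
        apply TrivSqZeroExt.ext <;> simp
      map_mul' := by
        intro x y
        apply TrivSqZeroExt.ext
        · simp
        · rw [dual_mul]; simp
      map_zero' := by
        apply TrivSqZeroExt.ext <;> simp
      map_add' := by
        intro x y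
        apply TrivSqZeroExt.ext <;> simp }
    (fun i => dn (X i) (v i))

theorem exdHom_C {σ S : Type} [CommRing S] [Algebra ℝ S] (E : Derivation ℝ S S)
    (v : σ → MvPolynomial σ S) (s : S) : exdHom E v (C s) = dn (C s) (C (E s)) := by
  rw [exdHom, coe_eval₂Hom, eval₂_C]; rfl

theorem exdHom_X {σ S : Type} [CommRing S] [Algebra ℝ S] (E : Derivation ℝ S S)
    (v : σ → MvPolynomial σ S) (i : σ) : exdHom E v (X i) = dn (X i) (v i) := by
  rw [exdHom, coe_eval₂Hom, eval₂_X]

theorem exdHom_fst {σ S : Type} [CommRing S] [Algebra ℝ S] (E : Derivation ℝ S S)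
    (v : σ → MvPolynomial σ S) (x : MvPolynomial σ S) : (exdHom E v x).fst = x := by
  induction x using MvPolynomial.induction_on with
  | C s => rw [exdHom_C]; rfl
  | add p q hp hq => rw [map_add, TrivSqZeroExt.fst_add, hp, hq]
  | mul_X p i hp => rw [map_mul, TrivSqZeroExt.fst_mul, hp, exdHom_X]; rfl

/-- derivations of a polynomial ring with prescribed values on coefficients and variables -/
noncomputable def exd {σ S : Type} [CommRing S] [Algebra ℝ S] (E : Derivation ℝ S S)
    (v : σ → MvPolynomial σ S) : Derivation ℝ (MvPolynomial σ S) (MvPolynomial σ S) :=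
  derOfDual (exdHom E v) (exdHom_fst E v) (by
    intro c
    have : algebraMap ℝ (MvPolynomial σ S) c = C (algebraMap ℝ S c) := rfl
    rw [this, exdHom_C]
    simp)

@[simp] theorem exd_C {σ S : Type} [CommRing S] [Algebra ℝ S] (E : Derivation ℝ S S)
    (v : σ → MvPolynomial σ S) (s : S) : exd E v (C s) = C (E s) := by
  change (exdHom E v (C s)).snd = _
  rw [exdHom_C]; rfl

@[simp] theorem exd_X {σ S : Type} [CommRing S] [Algebra ℝ S] (E : Derivation ℝ S S)
    (v : σ → MvPolynomial σ S) (i : σ) : exd E v (X i) = v i := by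
  change (exdHom E v (X i)).snd = _
  rw [exdHom_X]; rfl

/-- two derivations of a polynomial ring which agree on coefficients and variables are equal -/
theorem der_ext {σ S M : Type} [CommRing S] [Algebra ℝ S] [AddCommGroup M]
    [Module (MvPolynomial σ S) M] [Module ℝ M]
    (D₁ D₂ : Derivation ℝ (MvPolynomial σ S) M)
    (hC : ∀ s, D₁ (C s) = D₂ (C s)) (hX : ∀ i, D₁ (X i) = D₂ (X i)) : D₁ = D₂ := by
  ext x
  induction x using MvPolynomial.induction_on with
  | C s => exact hC s
  | add p q hp hq => rw [map_add, map_add, hp, hq]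
  | mul_X p i hp => rw [Derivation.leibniz, Derivation.leibniz, hp, hX]

/-- The ring of differential polynomials in the fields `φ ∈ Φ` in dimension `d` over `S`:
the variable `X (φ, K)` stands for the derivative of multi-index `K` of the field `φ`. -/
abbrev DP (Φ : Type) (d : ℕ) (S : Type) [CommRing S] := MvPolynomial (Φ × (Fin d →₀ ℕ)) S

/-- The total derivative in the direction `i`. -/
noncomputable def der {Φ : Type} {d : ℕ} {S : Type} [CommRing S] [Algebra ℝ S]
    (E : Fin d → Derivation ℝ S S) (i : Fin d) : Derivation ℝ (DP Φ d S) (DP Φ d S) :=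
  exd (E i) (fun v => X (v.1, v.2 + Finsupp.single i 1))

section
variable {Φ : Type} {d : ℕ} {S : Type} [CommRing S] [Algebra ℝ S]
  (E : Fin d → Derivation ℝ S S)

@[simp] theorem der_C (i : Fin d) (s : S) : der (Φ := Φ) E i (C s) = C (E i s) := by
  rw [der, exd_C]

@[simp] theorem der_X (i : Fin d) (c : Φ) (K : Fin d →₀ ℕ) :
    der E i (X (c, K)) = X (c, K + Finsupp.single i 1) := by
  rw [der, exd_X]

/-- the total derivatives commute -/
theorem der_comm (hE : ∀ i j x, E i (E j x) = E j (E i x)) (i j : Fin d) (x : DP Φ d S) :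
    der E i (der E j x) = der E j (der E i x) := by
  induction x using MvPolynomial.induction_on with
  | C s => simp [hE i j s]
  | add p q hp hq => simp only [map_add, hp, hq]
  | mul_X p v hp =>
    obtain ⟨c, K⟩ := v
    simp only [Derivation.leibniz, map_add, smul_eq_mul, hp, der_X]
    rw [add_right_comm K]
    ring

end

/-- A family of commuting derivations. -/
def Comm {d : ℕ} {R : Type} [CommRing R] [Algebra ℝ R] (D : Fin d → Derivation ℝ R R) : Prop :=
  ∀ i j x, D i (D j x) = D j (D i x)

/-- homogeneity of degree `n` (in the grading given by the weights `w` of the variables),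
as an abbreviation -/
abbrev Hom {σ S : Type} [CommRing S] (w : σ → ℕ) (n : ℕ) (x : MvPolynomial σ S) : Prop :=
  IsWeightedHomogeneous w x n

end KN
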