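import Pool.Agent.Work.MP_e214ac_gt.N.Defs
import Pool.Agent.Work.MP_e214ac_gt.N.DP

/-!
# Algebraic definitions (fixed file)
-/

open MvPolynomial

namespace KN

/-- a family of derivations as a family of functions -/
abbrev fn {ι R : Type} [CommRing R] [Algebra ℝ R] (D : ι → Derivation ℝ R R) : ι → R → R :=
  fun i x => D i x

/-- weight counting the variables of the field `c` -/
def wt {Φ : Type} [DecidableEq Φ] {d : ℕ} (c : Φ) : Φ × (Fin d →₀ ℕ) → ℕ :=
  fun v => if v.1 = c then 1 else 0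

/-- The evolutionary derivation: it kills the coefficients, commutes with the total derivatives
and sends the field `c` to `v c`. -/
noncomputable def evo {Φ : Type} {d : ℕ} {S : Type} [CommRing S] [Algebra ℝ S]
    (E : Fin d → Derivation ℝ S S) (v : Φ → DP Φ d S) : Derivation ℝ (DP Φ d S) (DP Φ d S) :=
  exd 0 (fun w => DK (fn (der E)) w.2 (v w.1))

/-- The Hamiltonian vector field `X^i = Σ_l P^{li} D_l g`. -/
def ham {ι R : Type} [Fintype ι] [CommRing R] (D : ι → R → R) (P : ι → ι → R) (g : R) (i : ι) : R :=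
  ∑ l, P l i * D l g

/-- The commutator of two vector fields. -/
def vbr {ι R : Type} [Fintype ι] [CommRing R] (D : ι → R → R) (X V : ι → R) (k : ι) : R :=
  ∑ l, (X l * D l (V k) - V l * D l (X k))

/-- The frame `E_a = Σ_k M k a • D_k`. -/
noncomputable def frame {d : ℕ} {R : Type} [CommRing R] [Algebra ℝ R]
    (D : Fin d → Derivation ℝ R R) (M : Fin d → Fin d → R) (a : Fin d) : Derivation ℝ R R :=
  ∑ k, M k a • D k

/-- the matrix with rows `e_i, e_j, G_0, …, G_{m-1}` -/
def nmat {m : ℕ} {R : Type} [CommRing R] (G : Fin m → Fin (m + 2) → R) (i j : Fin (m + 2)) :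
    Matrix (Fin (m + 2)) (Fin (m + 2)) R :=
  Matrix.of (Fin.cons (Pi.single i 1) (Fin.cons (Pi.single j 1)
    (fun k l => G k l) : Fin (m + 1) → Fin (m + 2) → R) : Fin (m + 2) → Fin (m + 2) → R)

/-- `N^{ij} = det (e_i, e_j, G_0, …, G_{m-1})` -/
noncomputable def nam {m : ℕ} {R : Type} [CommRing R] (G : Fin m → Fin (m + 2) → R)
    (i j : Fin (m + 2)) : R :=
  (nmat G i j).det

theorem nambu_eq {m : ℕ} {R : Type} [CommRing R] (D : Fin (m + 2) → R → R) (ρ : R)
    (a : Fin m → R) (i j : Fin (m + 2)) :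
    nambu D ρ a i j = ρ * nam (fun k l => D l (a k)) i j := rfl

/-- The bivector `P + (V + ∂_s) ∧ ∂_t` on the index set `ι ⊕ Fin 2`, `s = inr 0`, `t = inr 1`. -/
def Pt {ι R : Type} [CommRing R] (P : ι → ι → R) (V : ι → R) : ι ⊕ Fin 2 → ι ⊕ Fin 2 → R
  | Sum.inl i, Sum.inl j => P i j
  | Sum.inl i, Sum.inr c => if c = 1 then V i else 0
  | Sum.inr c, Sum.inl i => if c = 1 then - V i else 0
  | Sum.inr c, Sum.inr e => if c = 0 ∧ e = 1 then 1 else if c = 1 ∧ e = 0 then -1 else 0

/-- The derivations on the index set `ι ⊕ Fin 2`: `D i`, `∂_s = Ds`, `∂_t = 0`. -/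
def Dt {ι R : Type} [CommRing R] (D : ι → R → R) (Ds : R → R) : ι ⊕ Fin 2 → R → R
  | Sum.inl i => D i
  | Sum.inr c => if c = 0 then Ds else fun _ => 0

/-- The ring of differential polynomials in the two fields `ρ` (`false`) and `b` (`true`). -/
abbrev TT (d : ℕ) (S : Type) [CommRing S] := DP Bool d S

section
variable {d : ℕ} {S : Type} [CommRing S]

/-- the field `ρ` (also called `f` in an adapted frame) -/
noncomputable def ρv : TT d S := X (false, 0)
/-- the field `b` -/
noncomputable def bv : TT d S := X (true, 0)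

end

/-- The bivector `f e_0 ∧ e_1`. -/
def P0 {m : ℕ} {R : Type} [CommRing R] (f : R) (i j : Fin (m + 2)) : R :=
  if i = 0 ∧ j = 1 then f else if i = 1 ∧ j = 0 then - f else 0

/-- The values of the derivation `∂_s` on the fields in the adapted frame: `ρ ↦ ρ² E_0 b`,
`b ↦ 0`. -/
noncomputable def vs {m : ℕ} {S : Type} [CommRing S] [Algebra ℝ S]
    (E : Fin (m + 2) → Derivation ℝ S S) : Bool → TT (m + 2) S
  | false => ρv ^ 2 * der E 0 bv
  | true => 0

/-- The vector field `V = ρ b e_0` of the adapted frame. -/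
noncomputable def V0 {m : ℕ} {S : Type} [CommRing S] (k : Fin (m + 2)) : TT (m + 2) S :=
  if k = 0 then ρv * bv else 0

/-- `N^{ij}` for the functions `a_k ∈ S`, as elements of the ring `TT` -/
noncomputable def NN {m : ℕ} {S : Type} [CommRing S] [Algebra ℝ S]
    (D : Fin (m + 2) → Derivation ℝ S S) (a : Fin m → S) (i j : Fin (m + 2)) : TT (m + 2) S :=
  C (nam (fun k l => D l (a k)) i j)

/-- The Nambu bivector `P^{ij} = ρ N^{ij}` in the ring `TT`. -/
noncomputable def PP {m : ℕ} {S : Type} [CommRing S] [Algebra ℝ S]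
    (D : Fin (m + 2) → Derivation ℝ S S) (a : Fin m → S) (i j : Fin (m + 2)) : TT (m + 2) S :=
  ρv * NN D a i j

/-- The values of `∂_s` on the fields in the frame `D`: `ρ ↦ ρ² Σ_l N^{lq} D_l b`, `b ↦ 0`. -/
noncomputable def vD {m : ℕ} {S : Type} [CommRing S] [Algebra ℝ S]
    (D : Fin (m + 2) → Derivation ℝ S S) (a : Fin m → S) (q : Fin (m + 2)) :
    Bool → TT (m + 2) S
  | false => ρv ^ 2 * ∑ l, NN D a l q * der D l bv
  | true => 0

/-- The vector field `V^k = ρ b N^{kq}`. -/
noncomputable def VD {m : ℕ} {S : Type} [CommRing S] [Algebra ℝ S]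
    (D : Fin (m + 2) → Derivation ℝ S S) (a : Fin m → S) (q k : Fin (m + 2)) : TT (m + 2) S :=
  ρv * bv * NN D a k q

end KN
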