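import Pool.Agent.Work.MP_e214ac_gt.N.Cech

/-!
# MODULE Bridge (size M)

From the local theorems over `S = Localization.Away s` (`s ≠ 0` in `CC m`) to statements in
`TT (m+2) (KK m)` with denominators.

Fix `s ≠ 0`, `S = Localization.Away s` with derivations `dS` (`exists_fam_loc`), the injective ring
homomorphism `h : S → KK m` over `CC m` (`IsLocalization.lift` or
`IsLocalization.map`/`Localization.awayLift`; `algebraMap s` is a unit of the field); `h` intertwines
`dS` and `dK` (`loc_intertwine`).  It induces `hT = MvPolynomial.map h : TT S → TT (KK m)`, injective,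
which intertwines `der dS i` and `der (dK) i`, sends `PP dS a_S` to `PP dK aK`
(`a_S = algebraMap (aC)`; `nam_map`), preserves `Hom`, and its image is exactly `Den m s`
(`IsLocalization.Away`: every element of `S` is `c / s^N`; for a polynomial take a common `N`).

* `den_local`: if `nam (GG m) p q ∣ s^?`… here `s = nam (GG m) p q` itself: apply `local_main` over
  `S` and push forward by `hT` (`val_map`, `lie_map`).
* `den_K1`: `s = nam (GG m) p q * s'`: `nam` is a unit of `S`; pull back `Y` to `TT S`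
  (image = `Den`), apply `K1D`, push forward.
* `den_K0`: over the field `KK m` itself (`nam (GG m) p q ≠ 0` is a unit): `K0D`.
-/

open MvPolynomial

namespace KN

theorem ιK_inj (m : ℕ) : Function.Injective (ιK m) :=
  MvPolynomial.map_injective _ (IsFractionRing.injective (CC m) (KK m))

/-- maps of coefficients intertwine the total derivatives -/
private theorem br_map_der {m : ℕ} {S S' : Type} [CommRing S] [Algebra ℝ S] [CommRing S']
    [Algebra ℝ S'] (h : S →+* S') (D : Fin (m + 2) → Derivation ℝ S S)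
    (D' : Fin (m + 2) → Derivation ℝ S' S') (hh : ∀ i a, h (D i a) = D' i (h a))
    (i : Fin (m + 2)) (x : TT (m + 2) S) :
    MvPolynomial.map h (der D i x) = der D' i (MvPolynomial.map h x) := by
  induction x using MvPolynomial.induction_on with
  | C s => rw [der_C, map_C, map_C, der_C, hh]
  | add p q hp hq => simp only [map_add, hp, hq]
  | mul_X p w hp =>
    obtain ⟨c, K⟩ := w
    simp only [map_mul, Derivation.leibniz, smul_eq_mul, map_add, hp, map_X, der_X]

theorem ιK_der (m : ℕ) (i : Fin (m + 2)) (x : TT (m + 2) (CC m)) :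
    ιK m (der (dC m) i x) = der (dK m) i (ιK m x) :=
  br_map_der _ (dC m) (dK m) (fun i a => (dK_algebraMap m i a).symm) i x

private theorem br_map_PP {m : ℕ} {S S' : Type} [CommRing S] [Algebra ℝ S] [CommRing S']
    [Algebra ℝ S'] (h : S →+* S') (D : Fin (m + 2) → Derivation ℝ S S)
    (D' : Fin (m + 2) → Derivation ℝ S' S') (hh : ∀ i a, h (D i a) = D' i (h a))
    (a : Fin m → S) (a' : Fin m → S') (ha : ∀ k, h (a k) = a' k) (i j : Fin (m + 2)) :
    MvPolynomial.map h (PP D a i j) = PP D' a' i j := by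
  unfold PP NN
  have h1 : h (nam (fun k l => D l (a k)) i j) = nam (fun k l => D' l (a' k)) i j := by
    rw [nam_map]
    congr 1
    funext k l
    rw [hh, ha]
  rw [map_mul, map_C, h1]
  congr 1
  unfold ρv
  rw [map_X]

theorem ιK_PP (m : ℕ) (i j : Fin (m + 2)) :
    ιK m (PP (dC m) (aC m) i j) = PP (dK m) (aK m) i j :=
  br_map_PP _ (dC m) (dK m) (fun i a => (dK_algebraMap m i a).symm) (aC m) (aK m)
    (fun _ => rfl) i j

private theorem br_map_val {m : ℕ} {S S' : Type} [CommRing S] [Algebra ℝ S] [CommRing S']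
    [Algebra ℝ S'] (h : S →ₐ[ℝ] S') (D : Fin (m + 2) → Derivation ℝ S S)
    (D' : Fin (m + 2) → Derivation ℝ S' S') (hh : ∀ i a, h (D i a) = D' i (h a))
    (a : Fin m → S) (a' : Fin m → S') (ha : ∀ k, h (a k) = a' k) (F : Formula)
    (i j : Fin (m + 2)) :
    MvPolynomial.map (h : S →+* S') (F.val (fn (der D)) (PP D a) i j) =
      F.val (fn (der D')) (PP D' a') i j := by
  have h1 := val_map (R := TT (m + 2) S) (R' := TT (m + 2) S') (fn (der D)) (fn (der D'))
    (MvPolynomial.mapAlgHom h) (fun i x => br_map_der (h : S →+* S') D D' hh i x) F (PP D a) i j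
  have h2 : (fun i j => (MvPolynomial.mapAlgHom (σ := Bool × (Fin (m + 2) →₀ ℕ)) h) (PP D a i j)) =
      PP D' a' := by
    funext i j
    exact br_map_PP (h : S →+* S') D D' hh a a' ha i j
  rw [h2] at h1
  exact h1

/-- the inclusion as a map of algebras -/
private noncomputable def brA (m : ℕ) : CC m →ₐ[ℝ] KK m := IsScalarTower.toAlgHom ℝ (CC m) (KK m)

theorem ιK_val (m : ℕ) (F : Formula) (i j : Fin (m + 2)) :
    ιK m (F.val (fn (der (dC m))) (PP (dC m) (aC m)) i j)
      = F.val (fn (der (dK m))) (PP (dK m) (aK m)) i j :=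
  br_map_val (brA m) (dC m) (dK m) (fun i a => (dK_algebraMap m i a).symm) (aC m) (aK m)
    (fun _ => rfl) F i j

private theorem br_hom {σ S S' : Type} [CommRing S] [CommRing S'] (w : σ → ℕ) (n : ℕ)
    (h : S →+* S') (hinj : Function.Injective h) (x : MvPolynomial σ S) :
    Hom w n (MvPolynomial.map h x) ↔ Hom w n x := by
  constructor
  · intro hx μ hμ
    apply hx
    rw [coeff_map]
    intro h0
    exact hμ (hinj (by rw [h0, map_zero]))
  · intro hx μ hμ
    apply hx
    rw [coeff_map] at hμ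
    intro h0
    exact hμ (by rw [h0, map_zero])

/-- The localization at `s`. -/
private structure BrS (m : ℕ) (s : CC m) where
  S : Type
  r1 : CommRing S
  r2 : Algebra ℝ S
  d : Fin (m + 2) → Derivation ℝ S S
  dcomm : Comm d
  g : CC m →+* S
  h : S →ₐ[ℝ] KK m
  hinj : Function.Injective h
  hg : ∀ c, h (g c) = algebraMap (CC m) (KK m) c
  unit : IsUnit (g s)
  surj : ∀ z : S, ∃ (n : ℕ) (c : CC m), g s ^ n * z = g c
  hd : ∀ i z, h (d i z) = dK m i (h z)
  gd : ∀ i c, d i (g c) = g (dC m i c)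

private theorem br_exists (m : ℕ) (s : CC m) (hs : s ≠ 0) : Nonempty (BrS m s) := by
  have hs0 : ∀ y : Submonoid.powers s, (y : CC m) ≠ 0 := by
    intro y
    obtain ⟨n, hn⟩ := y.2
    rw [← hn]
    exact pow_ne_zero n hs
  have hK : ∀ y : Submonoid.powers s, IsUnit (brA m (y : CC m)) := by
    intro y
    rw [isUnit_iff_ne_zero]
    intro h0
    exact hs0 y (IsFractionRing.injective (CC m) (KK m) (by
      rw [map_zero]
      exact h0))
  obtain ⟨d, hd, hdc⟩ := exists_fam_loc (A := CC m) (B := Localization (Submonoid.powers s))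
    (Submonoid.powers s) (dC m) (dC_comm m)
  let h : Localization (Submonoid.powers s) →ₐ[ℝ] KK m :=
    IsLocalization.liftAlgHom (M := Submonoid.powers s) (f := brA m) hK
  have hh : ∀ c : CC m, h (algebraMap (CC m) (Localization (Submonoid.powers s)) c) =
      algebraMap (CC m) (KK m) c := fun c => IsLocalization.lift_eq hK c
  have hhd : ∀ i z, h (d i z) = dK m i (h z) := by
    intro i z
    refine loc_intertwine (A := CC m) (Submonoid.powers s) (h : _ →+* KK m) (d i) (dK m i)
      (fun a => ?_) z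
    change h (d i (algebraMap (CC m) (Localization (Submonoid.powers s)) a)) =
      dK m i (h (algebraMap (CC m) (Localization (Submonoid.powers s)) a))
    rw [hd, hh, hh, dK_algebraMap]
  refine ⟨{
    S := Localization (Submonoid.powers s)
    r1 := inferInstance
    r2 := inferInstance
    d := d
    dcomm := hdc
    g := algebraMap (CC m) (Localization (Submonoid.powers s))
    h := h
    hinj := ?_
    hg := hh
    unit := IsLocalization.map_units (M := Submonoid.powers s) _ ⟨s, Submonoid.mem_powers s⟩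
    surj := ?_
    hd := hhd
    gd := hd }⟩
  · rw [injective_iff_map_eq_zero]
    intro z hz
    obtain ⟨⟨c, y⟩, hcy⟩ := IsLocalization.surj (Submonoid.powers s) z
    simp only at hcy
    have h1 := congrArg h hcy
    rw [map_mul, hz, zero_mul, hh] at h1
    have h2 : c = 0 := IsFractionRing.injective (CC m) (KK m) (by rw [← h1, map_zero])
    rw [h2, map_zero] at hcy
    obtain ⟨u, hu⟩ := IsLocalization.map_units (M := Submonoid.powers s)
      (Localization (Submonoid.powers s)) y
    rw [← hu] at hcy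
    exact (Units.mul_left_eq_zero u).1 hcy
  · intro z
    obtain ⟨⟨c, y⟩, hcy⟩ := IsLocalization.surj (Submonoid.powers s) z
    obtain ⟨n, hn⟩ := y.2
    refine ⟨n, c, ?_⟩
    simp only at hcy
    rw [← hcy, ← map_pow, mul_comm]
    congr 2

private theorem br_C (m : ℕ) (s : CC m) : C (algebraMap (CC m) (KK m) s) = ιK m (C s) := by
  rw [ιK, map_C]

private theorem br_den (m : ℕ) (s : CC m) {S : Type} [CommRing S] [Algebra ℝ S] (g : CC m →+* S)
    (h : S →ₐ[ℝ] KK m) (hg : ∀ c, h (g c) = algebraMap (CC m) (KK m) c)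
    (hs : ∀ z : S, ∃ (n : ℕ) (c : CC m), g s ^ n * z = g c) (x : TT (m + 2) S) :
    Den m s (MvPolynomial.map (h : S →+* KK m) x) := by
  induction x using MvPolynomial.induction_on with
  | C z =>
    obtain ⟨n, c, hc⟩ := hs z
    refine ⟨n, C c, ?_⟩
    rw [map_C, ← br_C, ← hg c, ← hc, map_mul, map_pow, hg, C_mul, C_pow]
    rfl
  | add p q hp hq =>
    rw [map_add]
    exact den_add m s _ _ hp hq
  | mul_X p v hp =>
    rw [map_mul]
    refine den_mul m s _ _ hp ⟨0, X v, ?_⟩
    rw [pow_zero, one_mul, map_X, ιK, map_X]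

private theorem br_pull (m : ℕ) (s : CC m) {S : Type} [CommRing S] [Algebra ℝ S] (g : CC m →+* S)
    (h : S →ₐ[ℝ] KK m) (hg : ∀ c, h (g c) = algebraMap (CC m) (KK m) c)
    (hu : IsUnit (g s)) (y : TT (m + 2) (KK m)) (hy : Den m s y) :
    ∃ x : TT (m + 2) S, MvPolynomial.map (h : S →+* KK m) x = y := by
  obtain ⟨N, z, hz⟩ := hy
  obtain ⟨t, ht⟩ := hu.exists_right_inv
  refine ⟨C t ^ N * MvPolynomial.map g z, ?_⟩
  have h1 : MvPolynomial.map (h : S →+* KK m) (MvPolynomial.map g z) = ιK m z := by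
    rw [MvPolynomial.map_map, ιK]
    congr 1
    congr 1
    exact RingHom.ext hg
  have h2 : C (algebraMap (CC m) (KK m) s) * C (h t) = (1 : TT (m + 2) (KK m)) := by
    rw [← C_mul, ← hg, ← map_mul, ht, map_one, C_1]
  have h3 : C (algebraMap (CC m) (KK m) s) ^ N * C (h t) ^ N = (1 : TT (m + 2) (KK m)) := by
    rw [← mul_pow, h2, one_pow]
  rw [map_mul, map_pow, map_C, h1, ← hz]
  change C (h t) ^ N * _ = _
  linear_combination y * h3

private theorem br_nam (m : ℕ) (p q : Fin (m + 2)) {S : Type} [CommRing S] [Algebra ℝ S]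
    (g : CC m →+* S) (d : Fin (m + 2) → Derivation ℝ S S)
    (gd : ∀ i c, d i (g c) = g (dC m i c)) :
    nam (fun k l => d l (g (aC m k))) p q = g (nam (GG m) p q) := by
  rw [← GG_eq, nam_map]
  congr 1
  funext k l
  exact gd l _

private theorem br_lie {m : ℕ} {S S' : Type} [CommRing S] [Algebra ℝ S] [CommRing S']
    [Algebra ℝ S'] (h : S →+* S') (D : Fin (m + 2) → Derivation ℝ S S)
    (D' : Fin (m + 2) → Derivation ℝ S' S') (hh : ∀ i a, h (D i a) = D' i (h a))
    (a : Fin m → S) (a' : Fin m → S') (ha : ∀ k, h (a k) = a' k)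
    (Y : Fin (m + 2) → TT (m + 2) S) (i j : Fin (m + 2)) :
    MvPolynomial.map h (lie (fn (der D)) Y (PP D a) i j) =
      lie (fn (der D')) (fun k => MvPolynomial.map h (Y k)) (PP D' a') i j := by
  rw [lie_map (fn (der D)) (fn (der D')) (MvPolynomial.map h)
    (fun i x => br_map_der h D D' hh i x)]
  congr 1
  funext i j
  exact br_map_PP h D D' hh a a' ha i j

private theorem br_ham {m : ℕ} {S S' : Type} [CommRing S] [Algebra ℝ S] [CommRing S']
    [Algebra ℝ S'] (h : S →+* S') (D : Fin (m + 2) → Derivation ℝ S S)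
    (D' : Fin (m + 2) → Derivation ℝ S' S') (hh : ∀ i a, h (D i a) = D' i (h a))
    (a : Fin m → S) (a' : Fin m → S') (ha : ∀ k, h (a k) = a' k)
    (g : TT (m + 2) S) (i : Fin (m + 2)) :
    MvPolynomial.map h (ham (fn (der D)) (PP D a) g i) =
      ham (fn (der D')) (PP D' a') (MvPolynomial.map h g) i := by
  unfold ham
  rw [map_sum]
  refine Finset.sum_congr rfl fun l _ => ?_
  rw [map_mul, br_map_PP h D D' hh a a' ha, fn, br_map_der h D D' hh]

theorem den_local (F : Formula) (n : ℕ) (hn : 3 ≤ n) (hF : ∀ cg ∈ F, cg.2.n = n)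
    (hA : AlgSymm F) (m : ℕ) (p q : Fin (m + 2)) (hpq : nam (GG m) p q ≠ 0) :
    ∃ X : Fin (m + 2) → TT (m + 2) (KK m), (∀ k, Den m (nam (GG m) p q) (X k)) ∧
      (∀ k, Hom (wt false) (n - 1) (X k)) ∧ (∀ k, Hom (wt true) 0 (X k)) ∧
      ∀ i j, lie (fn (der (dK m))) X (PP (dK m) (aK m)) i j
        = F.val (fn (der (dK m))) (PP (dK m) (aK m)) i j := by
  obtain ⟨⟨S, r1, r2, d, dcomm, g, h, hinj, hg, hu, hs, hd, gd⟩⟩ := br_exists m _ hpq
  obtain ⟨X, h1, h2, h3⟩ := local_main F n hn hF hA d dcomm (fun k => g (aC m k)) p q (by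
    rw [br_nam m p q g d gd]
    exact hu)
  have ha : ∀ k, (h : S →+* KK m) (g (aC m k)) = aK m k := fun k => hg _
  refine ⟨fun k => MvPolynomial.map (h : S →+* KK m) (X k), fun k => br_den m _ g h hg hs _,
    fun k => (br_hom _ _ _ hinj _).2 (h1 k), fun k => (br_hom _ _ _ hinj _).2 (h2 k),
    fun i j => ?_⟩
  rw [← br_lie (h : S →+* KK m) d (dK m) hd (fun k => g (aC m k)) (aK m) ha, h3,
    br_map_val h d (dK m) hd _ _ ha]

theorem den_K1 (m : ℕ) (p q : Fin (m + 2)) (s' : CC m) (hs : nam (GG m) p q * s' ≠ 0)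
    (j k : ℕ) (hj : 2 ≤ j) (Y : Fin (m + 2) → TT (m + 2) (KK m))
    (hY : ∀ l, Den m (nam (GG m) p q * s') (Y l))
    (h0 : ∀ l, Hom (wt false) j (Y l)) (h0b : ∀ l, Hom (wt true) k (Y l))
    (h : ∀ i l, lie (fn (der (dK m))) Y (PP (dK m) (aK m)) i l = 0) :
    ∃ g : TT (m + 2) (KK m), Den m (nam (GG m) p q * s') g ∧ Hom (wt false) (j - 1) g ∧
      Hom (wt true) k g ∧ ∀ i, Y i = ham (fn (der (dK m))) (PP (dK m) (aK m)) g i := by
  obtain ⟨⟨S, r1, r2, d, dcomm, g, f, hinj, hg, hu, hsj, hd, gd⟩⟩ := br_exists m _ hs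
  have ha : ∀ k, (f : S →+* KK m) (g (aC m k)) = aK m k := fun k => hg _
  choose Z hZ using fun l => br_pull m _ g f hg hu (Y l) (hY l)
  have hfinj : Function.Injective (MvPolynomial.map (σ := Bool × (Fin (m + 2) →₀ ℕ))
    (f : S →+* KK m)) := MvPolynomial.map_injective _ hinj
  have hYZ : (fun l => MvPolynomial.map (f : S →+* KK m) (Z l)) = Y := funext hZ
  obtain ⟨G, h1, h2, h3⟩ := K1D d dcomm (fun k => g (aC m k)) p q (by
    rw [br_nam m p q g d gd]
    rw [map_mul] at hu
    exact isUnit_of_mul_isUnit_left hu) j k hj Z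
    (fun l => (br_hom _ _ (f : S →+* KK m) hinj _).1 (by rw [hZ]; exact h0 l))
    (fun l => (br_hom _ _ (f : S →+* KK m) hinj _).1 (by rw [hZ]; exact h0b l)) (fun i l => by
      apply hfinj
      rw [map_zero, br_lie (f : S →+* KK m) d (dK m) hd (fun k => g (aC m k)) (aK m) ha, hYZ]
      exact h i l)
  refine ⟨MvPolynomial.map (f : S →+* KK m) G, br_den m _ g f hg hsj _,
    (br_hom _ _ _ hinj _).2 h1, (br_hom _ _ _ hinj _).2 h2, fun i => ?_⟩
  rw [← hZ i, h3 i, br_ham (f : S →+* KK m) d (dK m) hd (fun k => g (aC m k)) (aK m) ha]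

theorem den_K0 (m n : ℕ) (hn : 1 ≤ n) (g : TT (m + 2) (KK m)) (hg : Hom (wt false) n g)
    (h : ∀ i, ham (fn (der (dK m))) (PP (dK m) (aK m)) g i = 0) : g = 0 := by
  have h1 : nam (fun k l => dK m l (aK m k)) (pq m 0).1 (pq m 0).2 =
      algebraMap (CC m) (KK m) (mnr m 0) :=
    br_nam m _ _ (algebraMap (CC m) (KK m)) (dK m) (dK_algebraMap m)
  refine K0D (dK m) (dK_comm m) (aK m) (pq m 0).1 (pq m 0).2 ?_ n hn g hg h
  rw [h1, isUnit_iff_ne_zero]
  intro h0
  apply mnr_ne_zero m 0
  apply IsFractionRing.injective (CC m) (KK m)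
  rw [h0, map_zero]

end KN
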