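import Pool.Agent.Work.MP_e214ac_gt.N.GluDefs

/-!
# MODULE Cech (size M)

`s_e = mnr m e`, `e = 0, 1, 2`, are three elements of `CC m` whose powers satisfy Koszul exactness
(`mnr_kos`, `mnr_coprime`).  The same holds over `TT (m+2) (CC m)`, which is a free `CC m`-module
(coefficientwise: apply `mnr_kos` to every coefficient; supports are finite).

* `cech_split`: let `g01, g12, g20 ∈ TT (KK m)` with denominators powers of `s0 s1`, `s1 s2`, `s2 s0`
  and `g01 + g12 + g20 = 0`.  Then there are `g0, g1, g2` with denominators powers of `s0`, `s1`, `s2`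
  with `g01 = g0 - g1`, `g12 = g1 - g2`, `g20 = g2 - g0`.
  Proof: take a common exponent `N`: `g01 = u / (s0 s1)^N`, `g12 = v / (s1 s2)^N`,
  `g20 = w / (s2 s0)^N` with `u, v, w ∈ TT (CC m)`; multiply the sum by (s0 s1 s2)^N`:
  `v s0^N + w s1^N + u s2^N = 0`.  Koszul: `v = s1^N r - s2^N q'`, `w = s2^N p' - s0^N r`,
  `u = s0^N q' - s1^N p'`.  So `g01 = q'/s1^N - p'/s0^N`, `g12 = r/s2^N - q'/s1^N`,
  `g20 = p'/s0^N - r/s2^N`.  Put `g0 = - p'/s0^N`, `g1 = - q'/s1^N`, `g2 = - r/s2^N`.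
* `den_inter`: an element with denominators powers of `s0` and also powers of `s1` comes from
  `TT (CC m)`: `s0^N x = ι y`, `s1^N x = ι z` (common `N`), so `s1^N y = s0^N z`,
  `mnr_coprime` (coefficientwise) gives `s1^N ∣ z`… precisely `z s0^N = y s1^N` gives `s1^N ∣ z`,
  `z = s1^N t`, `x = ι t`.
* `proj_den`: homogeneous components keep denominators (used to make `g_e` homogeneous).
-/

open MvPolynomial

namespace KN

private theorem ce_inj (m : ℕ) : Function.Injective (ιK m) :=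
  MvPolynomial.map_injective _ (IsFractionRing.injective (CC m) (KK m))

private theorem ce_C (m : ℕ) (s : CC m) : C (algebraMap (CC m) (KK m) s) = ιK m (C s) := by
  rw [ιK, map_C]

private theorem ce_der (m : ℕ) (i : Fin (m + 2)) (x : TT (m + 2) (CC m)) :
    der (dK m) i (ιK m x) = ιK m (der (dC m) i x) := by
  induction x using MvPolynomial.induction_on with
  | C s => rw [← ce_C, der_C, dK_algebraMap, der_C, ce_C]
  | add p q hp hq => simp only [map_add, hp, hq]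
  | mul_X p w hp =>
    obtain ⟨c, K⟩ := w
    have hX : ∀ K : Fin (m + 2) →₀ ℕ, ιK m (X (c, K)) = X (c, K) := fun K => by
      rw [ιK, map_X]
    simp only [map_mul, Derivation.leibniz, smul_eq_mul, map_add, hp, hX, der_X]

/-- larger exponents -/
private theorem ce_exp (m : ℕ) (s : CC m) (x : TT (m + 2) (KK m)) (hx : Den m s x) :
    ∃ N₀ : ℕ, ∀ N, N₀ ≤ N → ∃ y : TT (m + 2) (CC m),
      C (algebraMap (CC m) (KK m) s) ^ N * x = ιK m y := by
  obtain ⟨N₀, y, hy⟩ := hx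
  refine ⟨N₀, fun N hN => ⟨C s ^ (N - N₀) * y, ?_⟩⟩
  rw [map_mul, map_pow, ← ce_C, ← hy, ← mul_assoc, ← pow_add, Nat.sub_add_cancel hN]

theorem den_add (m : ℕ) (s : CC m) (x y : TT (m + 2) (KK m)) (hx : Den m s x) (hy : Den m s y) :
    Den m s (x + y) := by
  obtain ⟨N, hN⟩ := ce_exp m s x hx
  obtain ⟨M, hM⟩ := ce_exp m s y hy
  obtain ⟨u, hu⟩ := hN (N + M) (by omega)
  obtain ⟨v, hv⟩ := hM (N + M) (by omega)
  exact ⟨N + M, u + v, by rw [mul_add, hu, hv, map_add]⟩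

theorem den_neg (m : ℕ) (s : CC m) (x : TT (m + 2) (KK m)) (hx : Den m s x) : Den m s (-x) := by
  obtain ⟨N, u, hu⟩ := hx
  refine ⟨N, -u, ?_⟩
  rw [map_neg, ← hu]
  ring

theorem den_mul (m : ℕ) (s : CC m) (x y : TT (m + 2) (KK m)) (hx : Den m s x) (hy : Den m s y) :
    Den m s (x * y) := by
  obtain ⟨N, u, hu⟩ := hx
  obtain ⟨M, v, hv⟩ := hy
  refine ⟨N + M, u * v, ?_⟩
  rw [map_mul, ← hu, ← hv, pow_add]
  ring

theorem den_sum (m : ℕ) (s : CC m) {κ : Type} (t : Finset κ) (x : κ → TT (m + 2) (KK m))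
    (hx : ∀ i ∈ t, Den m s (x i)) : Den m s (∑ i ∈ t, x i) := by
  classical
  induction t using Finset.induction_on with
  | empty => exact ⟨0, 0, by simp⟩
  | insert a t ha ih =>
    rw [Finset.sum_insert ha]
    exact den_add m s _ _ (hx a (Finset.mem_insert_self a t))
      (ih fun i hi => hx i (Finset.mem_insert_of_mem hi))

theorem den_mono (m : ℕ) (s t : CC m) (x : TT (m + 2) (KK m)) (hx : Den m s x) :
    Den m (s * t) x := by
  obtain ⟨N, u, hu⟩ := hx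
  refine ⟨N, C t ^ N * u, ?_⟩
  rw [map_mul (algebraMap (CC m) (KK m)), C_mul, mul_pow, map_mul, map_pow, ← ce_C, ← hu]
  ring

theorem den_der (m : ℕ) (s : CC m) (hs : s ≠ 0) (i : Fin (m + 2)) (x : TT (m + 2) (KK m))
    (hx : Den m s x) : Den m s (der (dK m) i x) := by
  obtain ⟨N, y, hy⟩ := hx
  refine ⟨N + 1, C s * der (dC m) i y - (N : TT (m + 2) (CC m)) * C (dC m i s) * y, ?_⟩
  have h1 := congrArg (der (dK m) i) hy
  rw [Derivation.leibniz, Derivation.leibniz_pow, der_C, dK_algebraMap, ce_der, smul_eq_mul,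
    smul_eq_mul] at h1
  rw [map_sub, map_mul, map_mul, map_mul, map_natCast, ← ce_C, ← ce_C, ← h1, ← hy]
  rcases N with _ | N
  · simp
  · rw [Nat.add_sub_cancel]
    simp only [nsmul_eq_mul, smul_eq_mul]
    ring

theorem den_PP (m : ℕ) (s : CC m) (i j : Fin (m + 2)) : Den m s (PP (dK m) (aK m) i j) := by
  refine ⟨0, PP (dC m) (aC m) i j, ?_⟩
  rw [pow_zero, one_mul]
  unfold PP NN
  have h1 : nam (fun k l => dK m l (aK m k)) i j =
      algebraMap (CC m) (KK m) (nam (fun k l => dC m l (aC m k)) i j) := by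
    rw [nam_map]
    congr 1
    funext k l
    rw [← dK_algebraMap]
    rfl
  rw [map_mul, ← ce_C, h1]
  congr 1
  unfold ρv
  rw [ιK, map_X]

private theorem ce_proj (m : ℕ) (c : Bool) (n : ℕ) (y : TT (m + 2) (CC m)) :
    proj c n (ιK m y) = ιK m (proj c n y) := by
  classical
  ext μ
  unfold proj ιK
  rw [coeff_weightedHomogeneousComponent, coeff_map, coeff_map,
    coeff_weightedHomogeneousComponent]
  split_ifs
  · rfl
  · rw [map_zero]

private theorem ce_homC (m : ℕ) (c : Bool) (N : ℕ) (a : KK m) :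
    Hom (wt c) 0 ((C a : TT (m + 2) (KK m)) ^ N) := by
  rw [← C_pow]
  exact isWeightedHomogeneous_C _ _

theorem den_proj (m : ℕ) (s : CC m) (hs : s ≠ 0) (c : Bool) (n : ℕ) (x : TT (m + 2) (KK m))
    (hx : Den m s x) : Den m s (proj c n x) := by
  obtain ⟨N, y, hy⟩ := hx
  refine ⟨N, proj c n y, ?_⟩
  rw [← ce_proj, ← hy, ← proj_mul c n 0 _ _ (ce_homC m c N _), zero_add]

private theorem ce_coeff {σ R : Type} [CommRing R] (S : Finset (σ →₀ ℕ)) (f : (σ →₀ ℕ) → R)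
    (μ : σ →₀ ℕ) [Decidable (μ ∈ S)] :
    coeff μ (∑ k ∈ S, monomial k (f k)) = if μ ∈ S then f μ else 0 := by
  classical
  rw [coeff_sum]
  simp only [coeff_monomial]
  rw [Finset.sum_ite_eq']
  congr

private theorem ce_mulC {σ R : Type} [CommRing R] (μ : σ →₀ ℕ) (x : MvPolynomial σ R) (a : R) :
    coeff μ (x * C a) = coeff μ x * a := by
  rw [mul_comm, coeff_C_mul, mul_comm]

private theorem ce_kos (m N : ℕ) (x y z : TT (m + 2) (CC m))
    (h : x * C (mnr m 0) ^ N + y * C (mnr m 1) ^ N + z * C (mnr m 2) ^ N = 0) :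
    ∃ p q r : TT (m + 2) (CC m), x = C (mnr m 1) ^ N * r - C (mnr m 2) ^ N * q ∧
      y = C (mnr m 2) ^ N * p - C (mnr m 0) ^ N * r ∧
      z = C (mnr m 0) ^ N * q - C (mnr m 1) ^ N * p := by
  classical
  have hμ : ∀ μ, coeff μ x * mnr m 0 ^ N + coeff μ y * mnr m 1 ^ N +
      coeff μ z * mnr m 2 ^ N = 0 := by
    intro μ
    have h1 := congrArg (coeff μ) h
    rw [← C_pow, ← C_pow, ← C_pow, coeff_add, coeff_add, ce_mulC, ce_mulC, ce_mulC,
      coeff_zero] at h1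
    exact h1
  choose p q r hx hy hz using fun μ => mnr_kos m N _ _ _ (hμ μ)
  set S := x.support ∪ y.support ∪ z.support with hS
  have hSx : ∀ μ, μ ∉ S → coeff μ x = 0 := fun μ hμ => by
    rw [← notMem_support_iff]
    intro h1
    exact hμ (Finset.mem_union_left _ (Finset.mem_union_left _ h1))
  have hSy : ∀ μ, μ ∉ S → coeff μ y = 0 := fun μ hμ => by
    rw [← notMem_support_iff]
    intro h1
    exact hμ (Finset.mem_union_left _ (Finset.mem_union_right _ h1))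
  have hSz : ∀ μ, μ ∉ S → coeff μ z = 0 := fun μ hμ => by
    rw [← notMem_support_iff]
    intro h1
    exact hμ (Finset.mem_union_right _ h1)
  refine ⟨∑ μ ∈ S, monomial μ (p μ), ∑ μ ∈ S, monomial μ (q μ), ∑ μ ∈ S, monomial μ (r μ),
    ?_, ?_, ?_⟩
  · ext1 μ
    rw [← C_pow, ← C_pow, coeff_sub, coeff_C_mul, coeff_C_mul, ce_coeff, ce_coeff]
    split_ifs with h1
    · exact hx μ
    · rw [hSx μ h1, mul_zero, mul_zero, sub_zero]
  · ext1 μ
    rw [← C_pow, ← C_pow, coeff_sub, coeff_C_mul, coeff_C_mul, ce_coeff, ce_coeff]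
    split_ifs with h1
    · exact hy μ
    · rw [hSy μ h1, mul_zero, mul_zero, sub_zero]
  · ext1 μ
    rw [← C_pow, ← C_pow, coeff_sub, coeff_C_mul, coeff_C_mul, ce_coeff, ce_coeff]
    split_ifs with h1
    · exact hz μ
    · rw [hSz μ h1, mul_zero, mul_zero, sub_zero]

/-- inverse of a minor -/
private theorem ce_inv (m : ℕ) (e : Fin 3) : ∃ c : TT (m + 2) (KK m),
    C (algebraMap (CC m) (KK m) (mnr m e)) * c = 1 := by
  have h1 : algebraMap (CC m) (KK m) (mnr m e) ≠ 0 := by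
    intro h
    apply mnr_ne_zero m e
    apply IsFractionRing.injective (CC m) (KK m)
    rw [h, map_zero]
  refine ⟨C (algebraMap (CC m) (KK m) (mnr m e))⁻¹, ?_⟩
  rw [← C_mul, mul_inv_cancel₀ h1, C_1]

theorem cech_split (m : ℕ) (g01 g12 g20 : TT (m + 2) (KK m))
    (h01 : Den m (mnr m 0 * mnr m 1) g01) (h12 : Den m (mnr m 1 * mnr m 2) g12)
    (h20 : Den m (mnr m 2 * mnr m 0) g20) (h : g01 + g12 + g20 = 0) :
    ∃ g0 g1 g2 : TT (m + 2) (KK m), Den m (mnr m 0) g0 ∧ Den m (mnr m 1) g1 ∧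
      Den m (mnr m 2) g2 ∧ g01 = g0 - g1 ∧ g12 = g1 - g2 ∧ g20 = g2 - g0 := by
  obtain ⟨N1, H1⟩ := ce_exp m _ _ h01
  obtain ⟨N2, H2⟩ := ce_exp m _ _ h12
  obtain ⟨N3, H3⟩ := ce_exp m _ _ h20
  set N := N1 + N2 + N3 with hN
  obtain ⟨u, hu⟩ := H1 N (by omega)
  obtain ⟨v, hv⟩ := H2 N (by omega)
  obtain ⟨w, hw⟩ := H3 N (by omega)
  rw [map_mul (algebraMap (CC m) (KK m)), C_mul] at hu hv hw
  obtain ⟨c0, hc0⟩ := ce_inv m 0
  obtain ⟨c1, hc1⟩ := ce_inv m 1
  obtain ⟨c2, hc2⟩ := ce_inv m 2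
  have hk : v * C (mnr m 0) ^ N + w * C (mnr m 1) ^ N + u * C (mnr m 2) ^ N = 0 := by
    apply ce_inj m
    rw [map_zero, map_add, map_add, map_mul, map_mul, map_mul, map_pow, map_pow, map_pow,
      ← ce_C, ← ce_C, ← ce_C, ← hu, ← hv, ← hw]
    generalize C (algebraMap (CC m) (KK m) (mnr m 0)) = s0
    generalize C (algebraMap (CC m) (KK m) (mnr m 1)) = s1
    generalize C (algebraMap (CC m) (KK m) (mnr m 2)) = s2
    rw [mul_pow, mul_pow, mul_pow]
    linear_combination (s0 ^ N * s1 ^ N * s2 ^ N) * h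
  obtain ⟨P, Q, R, e1, e2, e3⟩ := ce_kos m N v w u hk
  have e1' := congrArg (ιK m) e1
  have e2' := congrArg (ιK m) e2
  have e3' := congrArg (ιK m) e3
  rw [map_sub, map_mul, map_mul, map_pow, map_pow, ← ce_C, ← ce_C] at e1' e2' e3'
  rw [← hu] at e3'
  rw [← hv] at e1'
  rw [← hw] at e2'
  generalize hs0 : C (algebraMap (CC m) (KK m) (mnr m 0)) = s0 at *
  generalize hs1 : C (algebraMap (CC m) (KK m) (mnr m 1)) = s1 at *
  generalize hs2 : C (algebraMap (CC m) (KK m) (mnr m 2)) = s2 at *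
  have k0 : s0 ^ N * c0 ^ N = 1 := by rw [← mul_pow, hc0, one_pow]
  have k1 : s1 ^ N * c1 ^ N = 1 := by rw [← mul_pow, hc1, one_pow]
  have k2 : s2 ^ N * c2 ^ N = 1 := by rw [← mul_pow, hc2, one_pow]
  rw [mul_pow] at e1' e2' e3'
  refine ⟨-(c0 ^ N * ιK m P), -(c1 ^ N * ιK m Q), -(c2 ^ N * ιK m R), ⟨N, -P, ?_⟩, ⟨N, -Q, ?_⟩,
    ⟨N, -R, ?_⟩, ?_, ?_, ?_⟩
  · rw [hs0, map_neg]
    linear_combination (-ιK m P) * k0
  · rw [hs1, map_neg]
    linear_combination (-ιK m Q) * k1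
  · rw [hs2, map_neg]
    linear_combination (-ιK m R) * k2
  · linear_combination (c0 ^ N * c1 ^ N) * e3' + (-g01 * s1 ^ N * c1 ^ N + c1 ^ N * ιK m Q) * k0 +
      (-g01 - c0 ^ N * ιK m P) * k1
  · linear_combination (c1 ^ N * c2 ^ N) * e1' + (-g12 * s2 ^ N * c2 ^ N + c2 ^ N * ιK m R) * k1 +
      (-g12 - c1 ^ N * ιK m Q) * k2
  · linear_combination (c2 ^ N * c0 ^ N) * e2' + (-g20 * s0 ^ N * c0 ^ N + c0 ^ N * ιK m P) * k2 +
      (-g20 - c2 ^ N * ιK m R) * k0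

theorem den_inter (m : ℕ) (x : TT (m + 2) (KK m)) (h0 : Den m (mnr m 0) x)
    (h1 : Den m (mnr m 1) x) : ∃ y : TT (m + 2) (CC m), x = ιK m y := by
  classical
  obtain ⟨N0, H0⟩ := ce_exp m _ _ h0
  obtain ⟨N1, H1⟩ := ce_exp m _ _ h1
  set N := N0 + N1 with hN
  obtain ⟨y, hy⟩ := H0 N (by omega)
  obtain ⟨z, hz⟩ := H1 N (by omega)
  have hk : z * C (mnr m 0) ^ N = y * C (mnr m 1) ^ N := by
    apply ce_inj m
    rw [map_mul, map_mul, map_pow, map_pow, ← ce_C, ← ce_C, ← hy, ← hz]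
    ring
  have hμ : ∀ μ, ∃ t, coeff μ z = mnr m 1 ^ N * t := by
    intro μ
    have h2 := congrArg (coeff μ) hk
    rw [← C_pow, ← C_pow, ce_mulC, ce_mulC] at h2
    exact mnr_coprime m N _ _ h2
  choose t ht using hμ
  have hzt : z = C (mnr m 1) ^ N * ∑ μ ∈ z.support, monomial μ (t μ) := by
    ext1 μ
    rw [← C_pow, coeff_C_mul, ce_coeff]
    split_ifs with h2
    · exact ht μ
    · rw [notMem_support_iff.1 h2, mul_zero]
  refine ⟨∑ μ ∈ z.support, monomial μ (t μ), ?_⟩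
  obtain ⟨c1, hc1⟩ := ce_inv m 1
  have k1 : C (algebraMap (CC m) (KK m) (mnr m 1)) ^ N * c1 ^ N = 1 := by
    rw [← mul_pow, hc1, one_pow]
  have h3 := congrArg (ιK m) hzt
  rw [map_mul, map_pow, ← ce_C, ← hz] at h3
  linear_combination c1 ^ N * h3 - (x - ιK m (∑ μ ∈ z.support, monomial μ (t μ))) * k1

end KN
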