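import Pool.Agent.Work.MP_e214ac_gt.N.HomB

/-!
# MODULE K0 (size S)

A differential polynomial killed by a total derivative is a coefficient.

Proof: claim: for every `M`, if `pderiv (c, K) G = 0` for all `c` and all `K` with `K i ≥ M + 1` then
the same holds for all `K` with `K i ≥ M`.  Indeed if `K i = M`, apply `pderiv (c, K + e_i)` to
`der E i G = 0` (`pderiv_der`): `0 = der E i (pderiv (c, K + e_i) G) + pderiv (c, K) G =
pderiv (c, K) G`.  Start from `exists_bound` and descend to `M = 0`; then `eq_C_of_pderiv`.
If `G` is homogeneous of positive degree in a field, a coefficient is zero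
(`IsWeightedHomogeneous` of `C s` has degree `0` unless `s = 0`).
-/

open MvPolynomial

namespace KN

variable {Φ : Type} [DecidableEq Φ] {d : ℕ} {S : Type} [CommRing S] [Algebra ℝ S]
  (E : Fin d → Derivation ℝ S S)

/-- the descent step, in the form used in module `K1` -/
theorem descent (i : Fin d) (x : DP Φ d S)
    (h : ∀ (c : Φ) (K : Fin d →₀ ℕ),
      (∀ (c' : Φ) (K' : Fin d →₀ ℕ), K i + 1 ≤ K' i → pderiv (c', K') x = 0) →
        pderiv (c, K) x = 0) : ∃ s, x = C s := by
  obtain ⟨N, hN⟩ := exists_bound i x
  have key : ∀ N : ℕ, (∀ (c : Φ) (K : Fin d →₀ ℕ), N ≤ K i → pderiv (c, K) x = 0) →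
      ∀ (c : Φ) (K : Fin d →₀ ℕ), pderiv (c, K) x = 0 := by
    intro N
    induction N with
    | zero => exact fun h c K => h c K (Nat.zero_le _)
    | succ M ih =>
      intro hM
      apply ih
      intro c K hK
      rcases Nat.lt_or_ge M (K i) with h1 | h1
      · exact hM c K h1
      · exact h c K fun c' K' hK' => hM c' K' (by omega)
  exact eq_C_of_pderiv x fun v => key N hN v.1 v.2

theorem K0 (i : Fin d) (G : DP Φ d S) (h : der E i G = 0) : ∃ s, G = C s := by
  apply descent i G
  intro c K hK
  have h1 := pderiv_der E c (K + Finsupp.single i 1) i G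
  rw [h, map_zero, hK c _ (by simp), map_zero, zero_add, if_neg (by simp),
    add_tsub_cancel_right] at h1
  exact h1.symm

theorem K0h (i : Fin d) (c : Φ) (n : ℕ) (hn : 1 ≤ n) (G : DP Φ d S) (hG : Hom (wt c) n G)
    (h : der E i G = 0) : G = 0 := by
  obtain ⟨s, rfl⟩ := K0 E i G h
  have hs : s = 0 := by
    by_contra hs
    have h := hG (d := 0) (by simpa using hs)
    simp at h
    omega
  rw [hs, map_zero]

end KN
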