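import Pool.Agent.Work.MP_e214ac_gt.N.HomB

/-!
# MODULE Proj (homogeneous components, size S/M)

`proj c n x = weightedHomogeneousComponent (wt c) n x` is the component of degree `n` in the field
`c`.

* `proj_hom`, `proj_of_hom`, `proj_of_hom_ne`: Mathlib
  (`weightedHomogeneousComponent_isWeightedHomogeneous`,
  `IsWeightedHomogeneous.weightedHomogeneousComponent_same / _ne` or by `coeff`).
* `proj_der`: write `x = Σ_n proj c n x` (finite sum, `sum_weightedHomogeneousComponent`, or induct on
  `x` by `MvPolynomial.induction_on'`: for a monomial it is clear by `hom_der`), use `hom_der`.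
* `proj_mul`: same method.
* `proj_pres`: the component of an element homogeneous in another field (or another weight `w'`) is
  homogeneous: its monomials are monomials of `x` (`coeff_weightedHomogeneousComponent`).
* `lie_proj`: apply `proj` to `lie X P = Q` termwise.
-/

open MvPolynomial

namespace KN

variable {Φ : Type} [DecidableEq Φ] {d : ℕ} {S : Type} [CommRing S] [Algebra ℝ S]
  (E : Fin d → Derivation ℝ S S)

/-- component of degree `n` in the field `c` -/
noncomputable def proj (c : Φ) (n : ℕ) (x : DP Φ d S) : DP Φ d S :=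
  weightedHomogeneousComponent (wt c) n x

theorem proj_hom (c : Φ) (n : ℕ) (x : DP Φ d S) : Hom (wt c) n (proj c n x) :=
  weightedHomogeneousComponent_isWeightedHomogeneous n x

theorem proj_of_hom (c : Φ) (n : ℕ) (x : DP Φ d S) (hx : Hom (wt c) n x) : proj c n x = x :=
  IsWeightedHomogeneous.weightedHomogeneousComponent_same hx

theorem proj_of_hom_ne (c : Φ) (n k : ℕ) (hk : k ≠ n) (x : DP Φ d S) (hx : Hom (wt c) n x) :
    proj c k x = 0 :=
  IsWeightedHomogeneous.weightedHomogeneousComponent_ne k hx hk

theorem proj_add (c : Φ) (n : ℕ) (x y : DP Φ d S) :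
    proj c n (x + y) = proj c n x + proj c n y := map_add _ _ _

theorem proj_der (c : Φ) (n : ℕ) (i : Fin d) (x : DP Φ d S) :
    proj c n (der E i x) = der E i (proj c n x) := by
  induction x using MvPolynomial.induction_on' with
  | monomial u a =>
    have h : Hom (wt c) (Finsupp.weight (wt c) u) (monomial u a : DP Φ d S) :=
      isWeightedHomogeneous_monomial _ _ _ rfl
    by_cases hn : n = Finsupp.weight (wt c) u
    · rw [hn, proj_of_hom c _ _ h, proj_of_hom c _ _ (hom_der E c _ i _ h)]
    · rw [proj_of_hom_ne c _ n hn _ h, proj_of_hom_ne c _ n hn _ (hom_der E c _ i _ h), map_zero]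
  | add p q hp hq => rw [map_add, proj_add, proj_add, map_add, hp, hq]

theorem proj_mul (c : Φ) (n k : ℕ) (p x : DP Φ d S) (hp : Hom (wt c) k p) :
    proj c (k + n) (p * x) = p * proj c n x := by
  induction x using MvPolynomial.induction_on' with
  | monomial u a =>
    have h : Hom (wt c) (Finsupp.weight (wt c) u) (monomial u a : DP Φ d S) :=
      isWeightedHomogeneous_monomial _ _ _ rfl
    by_cases hn : n = Finsupp.weight (wt c) u
    · rw [hn, proj_of_hom c _ _ h, proj_of_hom c _ _ (IsWeightedHomogeneous.mul hp h)]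
    · rw [proj_of_hom_ne c _ n hn _ h, mul_zero,
        proj_of_hom_ne c _ (k + n) (by omega) _ (IsWeightedHomogeneous.mul hp h)]
  | add p q hp hq => rw [mul_add, proj_add, proj_add, hp, hq, mul_add]

theorem proj_pres (c e : Φ) (n k : ℕ) (x : DP Φ d S) (hx : Hom (wt e) k x) :
    Hom (wt e) k (proj c n x) := by
  classical
  intro m hm
  apply hx
  unfold proj at hm
  rw [coeff_weightedHomogeneousComponent] at hm
  intro h0
  rw [h0] at hm
  simp at hm

theorem lie_proj (c : Φ) (n k : ℕ) (X : Fin d → DP Φ d S) (P Q : Fin d → Fin d → DP Φ d S)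
    (hP : ∀ i j, Hom (wt c) k (P i j)) (hQ : ∀ i j, Hom (wt c) (k + n) (Q i j))
    (h : ∀ i j, lie (fn (der E)) X P i j = Q i j) (i j : Fin d) :
    lie (fn (der E)) (fun l => proj c n (X l)) P i j = Q i j := by
  have hsub : ∀ x y : DP Φ d S, proj c (k + n) (x - y) = proj c (k + n) x - proj c (k + n) y :=
    fun x y => map_sub _ _ _
  have hsum : ∀ f : Fin d → DP Φ d S, proj c (k + n) (∑ l, f l) = ∑ l, proj c (k + n) (f l) :=
    fun f => map_sum _ _ _
  rw [← proj_of_hom c (k + n) (Q i j) (hQ i j), ← h i j]
  unfold lie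
  rw [hsum]
  refine Finset.sum_congr rfl fun l _ => ?_
  rw [hsub, hsub]
  congr 1
  · congr 1
    · rw [mul_comm, mul_comm (X l)]
      exact (proj_mul c n k _ _ (hom_der E c k l _ (hP i j))).symm
    · change _ * der E l _ = _
      rw [← proj_der]
      exact (proj_mul c n k _ _ (hP l j)).symm
  · change _ * der E l _ = _
    rw [← proj_der]
    exact (proj_mul c n k _ _ (hP i l)).symm

end KN
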