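import Pool.Agent.Work.MP_e214ac_gt.N.OpB
import Pool.Agent.Work.MP_e214ac_gt.N.Proj
import Pool.Agent.Work.MP_e214ac_gt.N.K0

/-!
# MODULE Curl (size M)

A divergence free pair of differential polynomials of positive degree is a curl.

`lz c : DP → OP d DP` is the linearisation in the field `c`: the derivation with
`lz c (X (c, K)) = single K 1`, zero on the other variables and on coefficients.

* `lz_der`: `lz c (D_i x) = op i (lz c x)`: the difference `δ` satisfies
  `δ (x y) = x δ y + y δ x` (`op_smul`) and vanishes on coefficients and variables; induct with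
  `MvPolynomial.induction_on`.
* `ev_lz`: `ev (lz c x) (X (c, 0)) = eu c x`: both sides are derivations in `x`; check on variables
  with `DK_X`.
* `curl`: apply `lz c` to `D_u W0 + D_v W1 = 0`: `op u (lz W0) + op v (lz W1) = 0`, so
  `lz W0 = - op v h`, `lz W1 = op u h` (`curlOp` over the ring `DP Φ d S` with the commuting
  derivations `der E`); evaluate at `X (c, 0)` (`ev_op`): `n W0 = - D_v g'`, `n W1 = D_u g'` with
  `g' = ev h (X (c, 0))` (`hom_iff_eu`).  Divide by `n`, and take the component of degree `n`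
  (`proj_der`, `proj_of_hom`).
-/

open MvPolynomial

namespace KN

variable {Φ : Type} [DecidableEq Φ] {d : ℕ} {S : Type} [CommRing S] [Algebra ℝ S]
  (E : Fin d → Derivation ℝ S S)

/-- linearisation in the field `c` -/
noncomputable def lz (c : Φ) : Derivation S (DP Φ d S) (OP d (DP Φ d S)) :=
  mkDerivation S (fun v => if v.1 = c then Finsupp.single v.2 1 else 0)

private theorem lz_C (c : Φ) (s : S) : lz (d := d) c (C s) = 0 := by
  unfold lz
  exact derivation_C _ _

private theorem lz_X (c e : Φ) (K : Fin d →₀ ℕ) :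
    lz (S := S) c (X (e, K)) = if e = c then Finsupp.single K 1 else 0 := by
  unfold lz
  exact mkDerivation_X _ _ _

private theorem curl_ev_zero (φ : DP Φ d S) : ev (der E) 0 φ = 0 := Finsupp.sum_zero_index

theorem lz_der (c : Φ) (i : Fin d) (x : DP Φ d S) :
    lz c (der E i x) = op (der E) i (lz c x) := by
  induction x using MvPolynomial.induction_on with
  | C s => rw [der_C, lz_C, lz_C, op_zero]
  | add p q hp hq => simp only [map_add, op_add, hp, hq]
  | mul_X p v hp =>
    obtain ⟨e, K⟩ := v
    have h1 : op (der E) i (lz (S := S) c (X (e, K))) = lz c (X (e, K + Finsupp.single i 1)) := by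
      rw [lz_X, lz_X]
      split_ifs
      · unfold op
        rw [Finsupp.mapRange_single, shf_single]
        simp
      · exact op_zero _ _
    rw [Derivation.leibniz, Derivation.leibniz, smul_eq_mul, smul_eq_mul, map_add,
      Derivation.leibniz, Derivation.leibniz, op_add, op_smul, op_smul, h1, hp, der_X]
    abel

theorem ev_lz (hE : Comm E) (c : Φ) (x : DP Φ d S) :
    ev (der E) (lz c x) (X (c, 0)) = eu c x := by
  have heC : ∀ s : S, eu c (C s : DP Φ d S) = 0 := by
    intro s; rw [eu, exd_C]; simp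
  have heX : ∀ (e : Φ) (K : Fin d →₀ ℕ), eu c (X (e, K) : DP Φ d S)
      = (if e = c then 1 else 0 : DP Φ d S) * X (e, K) := by
    intro e K
    rw [eu, exd_X]
    simp [wt]
  induction x using MvPolynomial.induction_on with
  | C s => rw [lz_C, heC, curl_ev_zero]
  | add p q hp hq => simp only [map_add, ev_add, hp, hq]
  | mul_X p v hp =>
    obtain ⟨e, K⟩ := v
    have h1 : ev (der E) (lz (S := S) c (X (e, K))) (X (c, 0)) = eu c (X (e, K)) := by
      rw [lz_X, heX]
      split_ifs with h
      · rw [ev_single, DK_X E hE, zero_add, h]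
      · rw [curl_ev_zero, zero_mul]
    rw [Derivation.leibniz, Derivation.leibniz, ev_add, ev_smul, ev_smul, h1, hp, smul_eq_mul,
      smul_eq_mul]

theorem curl (hE : Comm E) (u v : Fin d) (huv : u ≠ v) (c : Φ) (n : ℕ) (hn : 1 ≤ n)
    (W0 W1 : DP Φ d S) (h0 : Hom (wt c) n W0) (h1 : Hom (wt c) n W1)
    (h : der E u W0 + der E v W1 = 0) :
    ∃ g, Hom (wt c) n g ∧ W0 = - der E v g ∧ W1 = der E u g := by
  have hD : Comm (der (Φ := Φ) E) := fun i j x => der_comm E hE i j x
  have h2 := congrArg (lz c) h
  rw [map_add, lz_der, lz_der, map_zero] at h2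
  obtain ⟨k, hk0, hk1⟩ := curlOp (der E) hD u v huv _ _ h2
  have e0 := ev_lz E hE c W0
  have e1 := ev_lz E hE c W1
  rw [hk0, ev_neg, ev_op _ hD, (hom_iff_eu c n W0).1 h0] at e0
  rw [hk1, ev_op _ hD, (hom_iff_eu c n W1).1 h1] at e1
  have hn0 : (n : ℝ) ≠ 0 := by
    have : (1 : ℝ) ≤ n := by exact_mod_cast hn
    linarith
  have hsm : ∀ W : DP Φ d S, (n : ℝ)⁻¹ • ((n : DP Φ d S) * W) = W := by
    intro W
    have : (n : DP Φ d S) * W = (n : ℝ) • W := by
      rw [Algebra.smul_def, map_natCast]
    rw [this, smul_smul, inv_mul_cancel₀ hn0, one_smul]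
  set g' : DP Φ d S := (n : ℝ)⁻¹ • ev (der E) k (X (c, 0)) with hg'
  have f0 : W0 = - der E v g' := by
    rw [hg', Derivation.map_smul, ← smul_neg, e0, hsm]
  have f1 : W1 = der E u g' := by
    rw [hg', Derivation.map_smul, e1, hsm]
  have pz : proj c n (0 : DP Φ d S) = 0 := by
    have h := proj_add c n (0 : DP Φ d S) 0
    rw [add_zero] at h
    exact left_eq_add.1 h
  have pn : ∀ x : DP Φ d S, proj c n (-x) = - proj c n x := by
    intro x
    have h := proj_add c n x (-x)
    rw [add_neg_cancel, pz] at h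
    exact (neg_eq_of_add_eq_zero_right h.symm).symm
  refine ⟨proj c n g', proj_hom _ _ _, ?_, ?_⟩
  · rw [← proj_der, ← pn, ← f0, proj_of_hom c n W0 h0]
  · rw [← proj_der, ← f1, proj_of_hom c n W1 h1]

end KN
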