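import Pool.Agent.Work.MP_e214ac_gt.N.AlgDefs

/-!
# Basic properties of iterated derivatives and of the evolutionary derivations (proved, fixed)
-/

open MvPolynomial

namespace KN

theorem DK_map {d : ℕ} {R R' : Type} (D : Fin d → R → R) (D' : Fin d → R' → R') (h : R → R')
    (hh : ∀ i x, h (D i x) = D' i (h x)) (K : Fin d →₀ ℕ) (f : R) :
    h (DK D K f) = DK D' K (h f) := by
  unfold DK
  induction List.finRange d with
  | nil => rfl
  | cons i l ih =>
    simp only [List.foldr_cons]
    rw [← ih]
    generalize l.foldr (fun i g => (D i)^[K i] g) f = g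
    induction K i with
    | zero => rfl
    | succ n ihn => rw [Function.iterate_succ_apply', Function.iterate_succ_apply', hh, ihn]

theorem DK_comm_op {d : ℕ} {R : Type} (D : Fin d → R → R) (T : R → R)
    (hT : ∀ i x, T (D i x) = D i (T x)) (K : Fin d →₀ ℕ) (f : R) :
    T (DK D K f) = DK D K (T f) := DK_map D D T hT K f

theorem DK_zero {d : ℕ} {R : Type} (D : Fin d → R → R) (f : R) : DK D 0 f = f := by
  unfold DK
  induction List.finRange d with
  | nil => rfl
  | cons i l ih => simp [ih]

theorem foldr_iter_notMem {d : ℕ} {R : Type} (D : Fin d → R → R) (K : Fin d →₀ ℕ) (i : Fin d)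
    (n : ℕ) (f : R) (l : List (Fin d)) (hl : i ∉ l) :
    l.foldr (fun j g => (D j)^[(K + Finsupp.single i n) j] g) f
      = l.foldr (fun j g => (D j)^[K j] g) f := by
  induction l with
  | nil => rfl
  | cons j l ih =>
    simp only [List.mem_cons, not_or] at hl
    simp only [List.foldr_cons]
    rw [ih hl.2]
    have : (K + Finsupp.single i n) j = K j := by
      rw [Finsupp.add_apply, Finsupp.single_apply, if_neg hl.1, add_zero]
    rw [this]

theorem iterate_comm_op {R : Type} (A B : R → R) (h : ∀ x, A (B x) = B (A x)) (n : ℕ) (x : R) :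
    A (B^[n] x) = B^[n] (A x) := by
  induction n with
  | zero => rfl
  | succ n ih => rw [Function.iterate_succ_apply', h, ih, Function.iterate_succ_apply']

theorem foldr_iter_comm {d : ℕ} {R : Type} (D : Fin d → R → R)
    (hD : ∀ i j x, D i (D j x) = D j (D i x)) (K : Fin d →₀ ℕ) (i : Fin d) (l : List (Fin d))
    (f : R) :
    l.foldr (fun j g => (D j)^[K j] g) (D i f) = D i (l.foldr (fun j g => (D j)^[K j] g) f) := by
  induction l with
  | nil => rfl
  | cons j l ih =>
    simp only [List.foldr_cons]
    rw [ih, iterate_comm_op (D i) (D j) (hD i j)]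

theorem foldr_iter_mem {d : ℕ} {R : Type} (D : Fin d → R → R)
    (hD : ∀ i j x, D i (D j x) = D j (D i x)) (K : Fin d →₀ ℕ) (i : Fin d) (f : R)
    (l : List (Fin d)) (hl : i ∈ l) (hn : l.Nodup) :
    l.foldr (fun j g => (D j)^[(K + Finsupp.single i 1 : Fin d →₀ ℕ) j] g) f
      = D i (l.foldr (fun j g => (D j)^[K j] g) f) := by
  induction l with
  | nil => simp at hl
  | cons j l ih =>
    rw [List.nodup_cons] at hn
    by_cases hij : i = j
    · subst hij
      simp only [List.foldr_cons]
      rw [foldr_iter_notMem D K i 1 f l hn.1]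
      simp [Function.iterate_succ_apply']
    · have hil : i ∈ l := by
        rcases List.mem_cons.1 hl with h | h
        · exact absurd h hij
        · exact h
      simp only [List.foldr_cons]
      have : (K + Finsupp.single i 1 : Fin d →₀ ℕ) j = K j := by
        rw [Finsupp.add_apply, Finsupp.single_apply, if_neg hij, add_zero]
      rw [ih hil hn.2, this, iterate_comm_op (D i) (D j) (hD i j)]

/-- For commuting operators, raising the multi-index applies the operator. -/
theorem DK_add_single {d : ℕ} {R : Type} (D : Fin d → R → R)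
    (hD : ∀ i j x, D i (D j x) = D j (D i x)) (K : Fin d →₀ ℕ) (i : Fin d) (f : R) :
    DK D (K + Finsupp.single i 1) f = D i (DK D K f) :=
  foldr_iter_mem D hD K i f _ (List.mem_finRange i) (List.nodup_finRange d)

/-- the inductive principle for multi-indices used everywhere -/
theorem mi_induction {d : ℕ} {p : (Fin d →₀ ℕ) → Prop} (h0 : p 0)
    (h1 : ∀ K i, p K → p (K + Finsupp.single i 1)) (K : Fin d →₀ ℕ) : p K := by
  obtain ⟨n, hn⟩ : ∃ n, K.degree = n := ⟨_, rfl⟩
  induction n generalizing K with
  | zero =>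
    rw [Finsupp.degree_eq_zero_iff] at hn
    rw [hn]; exact h0
  | succ n ih =>
    have hK : K ≠ 0 := by
      rintro rfl
      simp at hn
    obtain ⟨i, hi⟩ := Finsupp.ne_iff.1 hK
    have hle : Finsupp.single i 1 ≤ K := by
      rw [Finsupp.single_le_iff]
      exact Nat.one_le_iff_ne_zero.2 hi
    obtain ⟨L, rfl⟩ := exists_add_of_le hle
    rw [add_comm] at hn ⊢
    apply h1
    apply ih
    rw [map_add, Finsupp.degree_single] at hn
    omega

theorem DK_add {d : ℕ} {R : Type} (D : Fin d → R → R)
    (hD : ∀ i j x, D i (D j x) = D j (D i x)) (K L : Fin d →₀ ℕ) (f : R) :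
    DK D (K + L) f = DK D K (DK D L f) := by
  induction K using mi_induction with
  | h0 => rw [zero_add, DK_zero]
  | h1 K i ih => rw [add_right_comm, DK_add_single D hD, ih, DK_add_single D hD]

section
variable {Φ : Type} {d : ℕ} {S : Type} [CommRing S] [Algebra ℝ S]
  (E : Fin d → Derivation ℝ S S)

theorem DK_C (K : Fin d →₀ ℕ) (s : S) :
    DK (fn (der (Φ := Φ) E)) K (C s) = C (DK (fn E) K s) :=
  (DK_map (fn E) (fn (der (Φ := Φ) E)) (fun s => (C s : DP Φ d S)) (fun i x => (der_C E i x).symm)
    K s).symm

theorem DK_X (hE : Comm E) (K L : Fin d →₀ ℕ) (c : Φ) :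
    DK (fn (der E)) K (X (c, L) : DP Φ d S) = X (c, L + K) := by
  have hD : ∀ i j (x : DP Φ d S), fn (der E) i (fn (der E) j x) = fn (der E) j (fn (der E) i x) :=
    fun i j x => der_comm E hE i j x
  induction K using mi_induction with
  | h0 => rw [DK_zero, add_zero]
  | h1 K i ih =>
    rw [DK_add_single _ hD, ih]
    change der E i (X (c, L + K)) = _
    rw [der_X, add_assoc]

@[simp] theorem evo_C (v : Φ → DP Φ d S) (s : S) : evo E v (C s) = 0 := by
  rw [evo, exd_C]; simp

theorem evo_X (v : Φ → DP Φ d S) (c : Φ) (K : Fin d →₀ ℕ) :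
    evo E v (X (c, K)) = DK (fn (der E)) K (v c) := by
  rw [evo, exd_X]

/-- evolutionary derivations commute with the total derivatives -/
theorem evo_der (hE : Comm E) (v : Φ → DP Φ d S) (i : Fin d) (x : DP Φ d S) :
    evo E v (der E i x) = der E i (evo E v x) := by
  have hD : ∀ i j (x : DP Φ d S), fn (der E) i (fn (der E) j x) = fn (der E) j (fn (der E) i x) :=
    fun i j x => der_comm E hE i j x
  induction x using MvPolynomial.induction_on with
  | C s => simp
  | add p q hp hq => simp only [map_add, hp, hq]
  | mul_X p w hp =>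
    obtain ⟨c, K⟩ := w
    simp only [Derivation.leibniz, map_add, smul_eq_mul, hp, der_X, evo_X]
    rw [DK_add_single _ hD]
    change _ = p * (der E i (DK (fn (der E)) K (v c))) + _ + _
    ring

end

end KN
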