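import Mathlib

/-!
# Universal graph formulas, Schouten brackets, Nambu-determinant bivectors

Everything is written for a commutative ring `R` with a family of operators `D i : R → R`
(`i` in the finite index set `ι` of the coordinates), so that the same definitions are used for
smooth functions (`R` = functions on `ι → ℝ`, `D = pd`) and for abstract differential rings.
-/

open scoped ContDiff

namespace KN

/-- A directed graph with `n` internal vertices, each with two ordered outgoing edges, and two
sinks `0`, `1`, each of them hit by exactly one edge. -/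
structure Gr where
  /-- number of internal vertices -/
  n : ℕ
  /-- target of the edge number `c` leaving the vertex `v` -/
  tgt : Fin n → Fin 2 → Fin n ⊕ Fin 2
  /-- each sink is the target of exactly one edge -/
  sink : ∀ s : Fin 2, ∃! e : Fin n × Fin 2, tgt e.1 e.2 = Sum.inr s

/-- The edges ending at the internal vertex `k`. -/
def Gr.inc (G : Gr) (k : Fin G.n) : List (Fin G.n × Fin 2) :=
  (List.finRange G.n ×ˢ List.finRange 2).filter (fun e => G.tgt e.1 e.2 = Sum.inl k)

/-- Apply the operators `D i`, `i` in the list `l`. -/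
def iter {ι R : Type} (D : ι → R → R) (l : List ι) (f : R) : R := l.foldr D f

/-- The value of the graph `G` at the array `P`: sum over all labellings `I` of the edges by
indices, the edges ending at the sinks `0`, `1` being labelled `i`, `j`, of the product over the
vertices `k` of `∂_{labels of the edges ending at k} P^{I(k,0) I(k,1)}`. -/
noncomputable def Gr.val {ι R : Type} [Fintype ι] [DecidableEq ι] [CommRing R]
    (G : Gr) (D : ι → R → R) (P : ι → ι → R) (i j : ι) : R :=
  ∑ I : Fin G.n → Fin 2 → ι,
    if ∀ v c, (G.tgt v c = Sum.inr 0 → I v c = i) ∧ (G.tgt v c = Sum.inr 1 → I v c = j) then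
      ∏ k : Fin G.n, iter D ((G.inc k).map fun e => I e.1 e.2) (P (I k 0) (I k 1))
    else 0

/-- A universal formula: a real linear combination of graphs. -/
abbrev Formula := List (ℝ × Gr)

/-- The bivector given by a universal formula: the skew-symmetrised sum of the values of its
graphs. -/
noncomputable def Formula.val {ι R : Type} [Fintype ι] [DecidableEq ι] [CommRing R] [Algebra ℝ R]
    (F : Formula) (D : ι → R → R) (P : ι → ι → R) (i j : ι) : R :=
  (F.map fun cg => cg.1 • (cg.2.val D P i j - cg.2.val D P j i)).sum

/-- The Schouten bracket `[[P, Q]]^{ijk}` of two bivectors. -/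
def jac {ι R : Type} [Fintype ι] [CommRing R] (D : ι → R → R) (P Q : ι → ι → R) (i j k : ι) : R :=
  ∑ l, (P i l * D l (Q j k) + P j l * D l (Q k i) + P k l * D l (Q i j)
    + Q i l * D l (P j k) + Q j l * D l (P k i) + Q k l * D l (P i j))

/-- The Schouten bracket `[[X, P]]^{ij}` of a vector field and a bivector, that is the Lie
derivative of `P` along `X`. -/
def lie {ι R : Type} [Fintype ι] [CommRing R] (D : ι → R → R) (X : ι → R) (P : ι → ι → R)
    (i j : ι) : R :=
  ∑ l, (X l * D l (P i j) - P l j * D l (X i) - P i l * D l (X j))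

/-- The derivative of a function of the coordinates `x i`, `i : ι`. -/
noncomputable def pd {ι : Type} [Fintype ι] [DecidableEq ι] (i : ι) (f : (ι → ℝ) → ℝ) :
    (ι → ℝ) → ℝ :=
  fun x => fderiv ℝ f x (Pi.single i 1)

/-- `F` is a universal infinitesimal symmetry: in every dimension, on every open set, for every
smooth Poisson bivector `P`, `[[P, F(P)]] = 0`. -/
def IsSymmetry (F : Formula) : Prop :=
  ∀ (ι : Type) [Fintype ι] [DecidableEq ι] (U : Set (ι → ℝ)) (P : ι → ι → (ι → ℝ) → ℝ),
    IsOpen U → (∀ i j, ContDiffOn ℝ ∞ (P i j) U) → (∀ i j, ∀ x ∈ U, P i j x = - P j i x) →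
    (∀ i j k, ∀ x ∈ U, jac pd P P i j k x = 0) →
    ∀ i j k, ∀ x ∈ U, jac pd P (F.val pd P) i j k x = 0

/-- The Nambu-determinant bivector `P^{ij} = ρ det(e_i, e_j, ∇a_1, …, ∇a_m)` in dimension
`m + 2`. -/
noncomputable def nambu {m : ℕ} {R : Type} [CommRing R] (D : Fin (m + 2) → R → R) (ρ : R)
    (a : Fin m → R) (i j : Fin (m + 2)) : R :=
  ρ * Matrix.det (Matrix.of (Fin.cons (Pi.single i 1) (Fin.cons (Pi.single j 1)
    (fun k l => D l (a k)) : Fin (m + 1) → Fin (m + 2) → R) : Fin (m + 2) → Fin (m + 2) → R))

/-- The iterated derivative of multi-index `K`. -/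
noncomputable def DK {d : ℕ} {R : Type} (D : Fin d → R → R) (K : Fin d →₀ ℕ) (f : R) : R :=
  (List.finRange d).foldr (fun i g => (D i)^[K i] g) f

end KN
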