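import Pool.Agent.Work.MP_e214ac_gt.N.AlgDefs

/-!
# MODULE GrMap (size S)

Naturality of the graph formulas under homomorphisms compatible with the derivations: `h` commutes
with the finite sums and products and `h (iter D l x) = iter D' l (h x)` by induction on the list.
-/

namespace KN

theorem iter_map {ι R R' : Type} (D : ι → R → R) (D' : ι → R' → R') (h : R → R')
    (hh : ∀ i x, h (D i x) = D' i (h x)) (l : List ι) (x : R) :
    h (iter D l x) = iter D' l (h x) := by
  induction l with
  | nil => rfl
  | cons a l ih =>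
    change h (D a (iter D l x)) = D' a (iter D' l (h x))
    rw [hh, ih]

theorem gr_map {ι R R' : Type} [Fintype ι] [DecidableEq ι] [CommRing R] [CommRing R']
    (D : ι → R → R) (D' : ι → R' → R') (h : R →+* R')
    (hh : ∀ i x, h (D i x) = D' i (h x)) (G : Gr) (P : ι → ι → R) (i j : ι) :
    h (G.val D P i j) = G.val D' (fun a b => h (P a b)) i j := by
  unfold Gr.val
  rw [map_sum]
  refine Finset.sum_congr rfl fun I _ => ?_
  rw [apply_ite h, map_zero, map_prod]
  refine if_congr Iff.rfl ?_ rfl
  exact Finset.prod_congr rfl fun k _ => iter_map D D' h hh _ _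

theorem val_map {ι R R' : Type} [Fintype ι] [DecidableEq ι] [CommRing R] [CommRing R']
    [Algebra ℝ R] [Algebra ℝ R'] (D : ι → R → R) (D' : ι → R' → R') (h : R →ₐ[ℝ] R')
    (hh : ∀ i x, h (D i x) = D' i (h x)) (F : Formula) (P : ι → ι → R) (i j : ι) :
    h (F.val D P i j) = F.val D' (fun a b => h (P a b)) i j := by
  unfold Formula.val
  rw [map_list_sum, List.map_map]
  congr 1
  refine List.map_congr_left fun cg _ => ?_
  simp only [Function.comp]
  rw [map_smul, map_sub]
  have h1 := gr_map D D' (h : R →+* R') hh cg.2 P i j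
  have h2 := gr_map D D' (h : R →+* R') hh cg.2 P j i
  simp only [AlgHom.coe_toRingHom] at h1 h2
  rw [h1, h2]

theorem val_skew {ι R : Type} [Fintype ι] [DecidableEq ι] [CommRing R] [Algebra ℝ R]
    (F : Formula) (D : ι → R → R) (P : ι → ι → R) (i j : ι) :
    F.val D P i j = - F.val D P j i := by
  unfold Formula.val
  induction F with
  | nil => simp
  | cons a F ih =>
    rw [List.map_cons, List.sum_cons, ih, List.map_cons, List.sum_cons, neg_add, ← smul_neg,
      neg_sub]

theorem jac_map {ι R R' : Type} [Fintype ι] [CommRing R] [CommRing R']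
    (D : ι → R → R) (D' : ι → R' → R') (h : R →+* R')
    (hh : ∀ i x, h (D i x) = D' i (h x)) (P Q : ι → ι → R) (i j k : ι) :
    h (jac D P Q i j k) = jac D' (fun a b => h (P a b)) (fun a b => h (Q a b)) i j k := by
  unfold jac
  simp only [map_sum, map_add, map_mul, hh]

theorem lie_map {ι R R' : Type} [Fintype ι] [CommRing R] [CommRing R']
    (D : ι → R → R) (D' : ι → R' → R') (h : R →+* R')
    (hh : ∀ i x, h (D i x) = D' i (h x)) (X : ι → R) (P : ι → ι → R) (i j : ι) :
    h (lie D X P i j) = lie D' (fun a => h (X a)) (fun a b => h (P a b)) i j := by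
  unfold lie
  simp only [map_sum, map_sub, map_mul, hh]

theorem nam_map {m : ℕ} {R R' : Type} [CommRing R] [CommRing R'] (h : R →+* R')
    (G : Fin m → Fin (m + 2) → R) (i j : Fin (m + 2)) :
    h (nam G i j) = nam (fun k l => h (G k l)) i j := by
  unfold nam
  rw [RingHom.map_det]
  congr 1
  ext a b
  unfold nmat
  simp only [RingHom.mapMatrix_apply, Matrix.map_apply, Matrix.of_apply]
  refine Fin.cases ?_ (fun a => ?_) a
  · simp only [Fin.cons_zero, Pi.single_apply]
    split_ifs <;> simp
  · simp only [Fin.cons_succ]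
    refine Fin.cases ?_ (fun a => ?_) a
    · simp only [Fin.cons_zero, Pi.single_apply]
      split_ifs <;> simp
    · simp only [Fin.cons_succ]

theorem nambu_map {m : ℕ} {R R' : Type} [CommRing R] [CommRing R']
    (D : Fin (m + 2) → R → R) (D' : Fin (m + 2) → R' → R') (h : R →+* R')
    (hh : ∀ i x, h (D i x) = D' i (h x)) (ρ : R) (a : Fin m → R) (i j : Fin (m + 2)) :
    h (nambu D ρ a i j) = nambu D' (h ρ) (fun k => h (a k)) i j := by
  rw [nambu_eq, nambu_eq, map_mul, nam_map]
  simp only [hh]

end KN
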