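import Pool.Agent.Work.MP_e214ac_gt.N.PdBasic
import Pool.Agent.Work.MP_e214ac_gt.N.GrMap

/-!
# MODULE EvalJet (calculus, size M)

Evaluation of differential polynomials (with real constant coefficients) on smooth functions.

`ι` is a finite index set of coordinates, `inc : Fin d → ι` the directions of the jets, `u c` smooth
functions on the open set `U ⊆ (ι → ℝ)`; `evj inc u w x` is the value at `x` of the differential
polynomial `w`, the variable `X (c, K)` being the iterated derivative `DK (pd ∘ inc) K (u c)`.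

(The basic facts on `pd` are in `PdBasic`.)

* `evj_smooth`, `pd_evj`: induct on `w` (sum and product rules for `fderiv`).
* `pd_evj_s`: if in the direction `s` the fields satisfy `pd s (u c) = evj (v c)` on `U` then
  `pd s (evj w) = evj (evo v w)` on `U`: induct on `w`, on variables commute `pd s` with
  `DK (pd ∘ inc) K` and use `evj (DK (der) K (v c)) = DK (pd ∘ inc) K (evj (v c))` on `U`.
* `iter_evj`: iterated operators: for a family `D~ : κ → …` of operators on differential polynomials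
  with `pd k (evj w) = evj (D~ k w)` on `U` for all `w`, `iter pd l (evj w) = evj (iter D~ l w)` on `U`.
* `val_evj`, `jac_evj`, `lie_evj`: the operations computed on functions agree at the points of `U`
  with the evaluation of those computed on differential polynomials.
-/

open MvPolynomial
open scoped ContDiff

namespace KN

/-- evaluation of a differential polynomial on functions -/
noncomputable def evj {ι : Type} [Fintype ι] [DecidableEq ι] {Φ : Type} {d : ℕ}
    (inc : Fin d → ι) (u : Φ → (ι → ℝ) → ℝ) (w : DP Φ d ℝ) (x : ι → ℝ) : ℝ :=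
  eval (fun v => DK (fun i => pd (inc i)) v.2 (u v.1) x) w

section
variable {ι : Type} [Fintype ι] [DecidableEq ι] {U : Set (ι → ℝ)}
  {Φ : Type} {d : ℕ} (inc : Fin d → ι) (u : Φ → (ι → ℝ) → ℝ)

private theorem ej_C (s : ℝ) : evj inc u (C s) = fun _ => s := by
  funext x
  unfold evj
  rw [eval_C]

private theorem ej_add (p q : DP Φ d ℝ) :
    evj inc u (p + q) = fun x => evj inc u p x + evj inc u q x := by
  funext x
  unfold evj
  rw [map_add]

private theorem ej_mul (p q : DP Φ d ℝ) :
    evj inc u (p * q) = fun x => evj inc u p x * evj inc u q x := by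
  funext x
  unfold evj
  rw [map_mul]

private theorem ej_X (c : Φ) (K : Fin d →₀ ℕ) :
    evj inc u (X (c, K)) = DK (fun i => pd (inc i)) K (u c) := by
  funext x
  unfold evj
  rw [eval_X]

private theorem ej_iter_congr (hU : IsOpen U) (l : List ι) (f g : (ι → ℝ) → ℝ)
    (h : ∀ x ∈ U, f x = g x) (x : ι → ℝ) (hx : x ∈ U) : iter pd l f x = iter pd l g x := by
  induction l generalizing x with
  | nil => exact h x hx
  | cons a l ih =>
    change pd a (iter pd l f) x = pd a (iter pd l g) x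
    exact pd_congr hU a _ _ ih x hx

private theorem ej_DK_congr (hU : IsOpen U) (K : Fin d →₀ ℕ) (f g : (ι → ℝ) → ℝ)
    (h : ∀ x ∈ U, f x = g x) (x : ι → ℝ) (hx : x ∈ U) :
    DK (fun i => pd (inc i)) K f x = DK (fun i => pd (inc i)) K g x := by
  unfold DK
  have key : ∀ l : List (Fin d), ∀ x ∈ U,
      l.foldr (fun i g => (pd (inc i))^[K i] g) f x =
        l.foldr (fun i g => (pd (inc i))^[K i] g) g x := by
    intro l
    induction l with
    | nil => exact h
    | cons a l ih =>
      intro x hx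
      simp only [List.foldr_cons]
      generalize hF : l.foldr (fun i g => (pd (inc i))^[K i] g) f = F at ih ⊢
      generalize hG : l.foldr (fun i g => (pd (inc i))^[K i] g) g = G at ih ⊢
      induction K a generalizing x with
      | zero => exact ih x hx
      | succ n ihn =>
        rw [Function.iterate_succ_apply', Function.iterate_succ_apply']
        exact pd_congr hU _ _ _ ihn x hx
  exact key _ x hx

private theorem ej_pd_add {x : ι → ℝ} (i : ι) {f g : (ι → ℝ) → ℝ} (hf : DifferentiableAt ℝ f x)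
    (hg : DifferentiableAt ℝ g x) : pd i (fun y => f y + g y) x = pd i f x + pd i g x := by
  unfold pd
  rw [fderiv_fun_add hf hg]
  rfl

private theorem ej_pd_mul {x : ι → ℝ} (i : ι) {f g : (ι → ℝ) → ℝ} (hf : DifferentiableAt ℝ f x)
    (hg : DifferentiableAt ℝ g x) :
    pd i (fun y => f y * g y) x = f x * pd i g x + g x * pd i f x := by
  unfold pd
  rw [fderiv_fun_mul hf hg]
  rfl

private theorem ej_pd_const (i : ι) (s : ℝ) (x : ι → ℝ) : pd i (fun _ => s) x = 0 := by
  unfold pd
  simp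

omit [DecidableEq ι] in
private theorem ej_diff (hU : IsOpen U) {f : (ι → ℝ) → ℝ} (hf : ContDiffOn ℝ ∞ f U) {x : ι → ℝ}
    (hx : x ∈ U) : DifferentiableAt ℝ f x :=
  (hf.differentiableOn (by simp)).differentiableAt (hU.mem_nhds hx)

private theorem ej_pd_DK (hU : IsOpen U) (s : ι) (K : Fin d →₀ ℕ) (f : (ι → ℝ) → ℝ)
    (hf : ContDiffOn ℝ ∞ f U) :
    ∀ x ∈ U, pd s (DK (fun i => pd (inc i)) K f) x = DK (fun i => pd (inc i)) K (pd s f) x := by
  induction K using mi_induction with
  | h0 =>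
    intro x _
    rw [DK_zero, DK_zero]
  | h1 K i ih =>
    intro x hx
    rw [pd_congr hU s _ _ (fun y hy => DK_pd_add_single hU inc K i f hf y hy) x hx,
      pd_comm hU s (inc i) _ (DK_pd_smooth hU inc K f hf) x hx,
      pd_congr hU (inc i) _ _ ih x hx,
      DK_pd_add_single hU inc K i _ (pd_smooth hU s f hf) x hx]

end

section
variable {ι : Type} [Fintype ι] [DecidableEq ι] {U : Set (ι → ℝ)} (hU : IsOpen U)
  {Φ : Type} {d : ℕ} (inc : Fin d → ι) (u : Φ → (ι → ℝ) → ℝ)
  (hu : ∀ c, ContDiffOn ℝ ∞ (u c) U)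

include hU hu

theorem evj_smooth (w : DP Φ d ℝ) : ContDiffOn ℝ ∞ (evj inc u w) U := by
  induction w using MvPolynomial.induction_on with
  | C s =>
    rw [ej_C]
    exact contDiffOn_const
  | add p q hp hq =>
    rw [ej_add]
    exact hp.add hq
  | mul_X p v hp =>
    obtain ⟨c, K⟩ := v
    rw [ej_mul, ej_X]
    exact hp.mul (DK_pd_smooth hU inc K _ (hu c))

theorem pd_evj (i : Fin d) (w : DP Φ d ℝ) (x : ι → ℝ) (hx : x ∈ U) :
    pd (inc i) (evj inc u w) x = evj inc u (der (fun _ => 0) i w) x := by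
  induction w using MvPolynomial.induction_on with
  | C s =>
    rw [ej_C, ej_pd_const, der_C, ej_C]
    simp
  | add p q hp hq =>
    rw [ej_add, ej_pd_add _ (ej_diff hU (evj_smooth hU inc u hu p) hx)
      (ej_diff hU (evj_smooth hU inc u hu q) hx), hp, hq, map_add, ej_add]
  | mul_X p v hp =>
    obtain ⟨c, K⟩ := v
    rw [ej_mul, ej_X, ej_pd_mul _ (ej_diff hU (evj_smooth hU inc u hu p) hx)
      (ej_diff hU (DK_pd_smooth hU inc K _ (hu c)) hx), hp, Derivation.leibniz, smul_eq_mul,
      smul_eq_mul, der_X, ej_add]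
    simp only [ej_mul, ej_X]
    rw [DK_pd_add_single hU inc K i _ (hu c) x hx]

private theorem ej_evj_DK (K : Fin d →₀ ℕ) (w : DP Φ d ℝ) : ∀ x ∈ U,
    evj inc u (DK (fn (der fun _ => 0)) K w) x = DK (fun i => pd (inc i)) K (evj inc u w) x := by
  have hD : ∀ i j (x : DP Φ d ℝ), fn (der fun _ => 0) i (fn (der fun _ => 0) j x) =
      fn (der fun _ => 0) j (fn (der fun _ => 0) i x) :=
    fun i j x => der_comm (fun _ => 0) (fun _ _ _ => rfl) i j x
  induction K using mi_induction with
  | h0 =>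
    intro x _
    rw [DK_zero, DK_zero]
  | h1 K i ih =>
    intro x hx
    rw [DK_add_single _ hD]
    change evj inc u (der (fun _ => 0) i (DK (fn (der fun _ => 0)) K w)) x = _
    rw [← pd_evj hU inc u hu i _ x hx, pd_congr hU (inc i) _ _ ih x hx,
      DK_pd_add_single hU inc K i _ (evj_smooth hU inc u hu w) x hx]

theorem pd_evj_s (s : ι) (v : Φ → DP Φ d ℝ)
    (hs : ∀ c, ∀ x ∈ U, pd s (u c) x = evj inc u (v c) x) (w : DP Φ d ℝ) (x : ι → ℝ)
    (hx : x ∈ U) :
    pd s (evj inc u w) x = evj inc u (evo (fun _ => 0) v w) x := by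
  induction w using MvPolynomial.induction_on with
  | C t =>
    rw [ej_C, ej_pd_const, evo_C]
    unfold evj
    rw [map_zero]
  | add p q hp hq =>
    rw [ej_add, ej_pd_add _ (ej_diff hU (evj_smooth hU inc u hu p) hx)
      (ej_diff hU (evj_smooth hU inc u hu q) hx), hp, hq, map_add, ej_add]
  | mul_X p w hp =>
    obtain ⟨c, K⟩ := w
    rw [ej_mul, ej_X, ej_pd_mul _ (ej_diff hU (evj_smooth hU inc u hu p) hx)
      (ej_diff hU (DK_pd_smooth hU inc K _ (hu c)) hx), hp, Derivation.leibniz, smul_eq_mul,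
      smul_eq_mul, evo_X, ej_add]
    simp only [ej_mul, ej_X]
    rw [ej_pd_DK inc hU s K (u c) (hu c) x hx,
      ej_DK_congr inc hU K _ _ (hs c) x hx, ← ej_evj_DK hU inc u hu K (v c) x hx]

end

section
variable {ι : Type} [Fintype ι] [DecidableEq ι] {U : Set (ι → ℝ)}
  {Φ : Type} {d : ℕ} (inc : Fin d → ι) (u : Φ → (ι → ℝ) → ℝ)

private theorem ej_iter {D : ι → DP Φ d ℝ → DP Φ d ℝ} (hU : IsOpen U)
    (hD : ∀ i w, ∀ x ∈ U, pd i (evj inc u w) x = evj inc u (D i w) x) (l : List ι)
    (w : DP Φ d ℝ) (x : ι → ℝ) (hx : x ∈ U) :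
    iter pd l (evj inc u w) x = evj inc u (iter D l w) x := by
  induction l generalizing x with
  | nil => rfl
  | cons a l ih =>
    change pd a (iter pd l (evj inc u w)) x = evj inc u (D a (iter D l w)) x
    rw [pd_congr hU a _ _ ih x hx, hD a _ x hx]

private theorem ej_gr_apply (G : Gr) (P : ι → ι → (ι → ℝ) → ℝ) (i j : ι) (x : ι → ℝ) :
    G.val pd P i j x = ∑ I : Fin G.n → Fin 2 → ι,
      if ∀ v c, (G.tgt v c = Sum.inr 0 → I v c = i) ∧ (G.tgt v c = Sum.inr 1 → I v c = j) then
        ∏ k : Fin G.n, iter pd ((G.inc k).map fun e => I e.1 e.2) (P (I k 0) (I k 1)) x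
      else 0 := by
  unfold Gr.val
  rw [Finset.sum_apply]
  refine Finset.sum_congr rfl fun I _ => ?_
  split_ifs
  · rw [Finset.prod_apply]
  · rfl

private theorem ej_val_apply (F : Formula) (P : ι → ι → (ι → ℝ) → ℝ) (i j : ι) (x : ι → ℝ) :
    F.val pd P i j x =
      (F.map fun cg => cg.1 • (cg.2.val pd P i j x - cg.2.val pd P j i x)).sum := by
  unfold Formula.val
  induction F with
  | nil => rfl
  | cons a F ih =>
    rw [List.map_cons, List.sum_cons, List.map_cons, List.sum_cons, ← ih]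
    rfl

private theorem ej_gr {D : ι → DP Φ d ℝ → DP Φ d ℝ} (hU : IsOpen U)
    (hD : ∀ i w, ∀ x ∈ U, pd i (evj inc u w) x = evj inc u (D i w) x)
    (G : Gr) (P : ι → ι → DP Φ d ℝ) (i j : ι) (x : ι → ℝ) (hx : x ∈ U) :
    G.val pd (fun i j => evj inc u (P i j)) i j x = evj inc u (G.val D P i j) x := by
  rw [ej_gr_apply]
  unfold Gr.val evj
  rw [map_sum]
  refine Finset.sum_congr rfl fun I _ => ?_
  rw [apply_ite (eval fun v : Φ × (Fin d →₀ ℕ) => DK (fun i => pd (inc i)) v.2 (u v.1) x),
    map_zero, map_prod]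
  refine if_congr Iff.rfl ?_ rfl
  exact Finset.prod_congr rfl fun k _ => ej_iter inc u hU hD _ _ x hx

end

section
variable {ι : Type} [Fintype ι] [DecidableEq ι] {U : Set (ι → ℝ)} (hU : IsOpen U)
  {Φ : Type} {d : ℕ} (inc : Fin d → ι) (u : Φ → (ι → ℝ) → ℝ)
  (hu : ∀ c, ContDiffOn ℝ ∞ (u c) U)

include hU hu

theorem val_evj {D : ι → DP Φ d ℝ → DP Φ d ℝ}
    (hD : ∀ i w, ∀ x ∈ U, pd i (evj inc u w) x = evj inc u (D i w) x)
    (F : Formula) (P : ι → ι → DP Φ d ℝ) (i j : ι) (x : ι → ℝ) (hx : x ∈ U) :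
    F.val pd (fun i j => evj inc u (P i j)) i j x = evj inc u (F.val D P i j) x := by
  rw [ej_val_apply]
  unfold Formula.val
  induction F with
  | nil =>
    unfold evj
    simp
  | cons a F ih =>
    rw [List.map_cons, List.sum_cons, ih, List.map_cons, List.sum_cons, ej_add,
      ej_gr inc u hU hD _ P i j x hx, ej_gr inc u hU hD _ P j i x hx]
    congr 1
    unfold evj
    rw [smul_eq_mul, smul_eq_C_mul, map_mul, eval_C, map_sub]

theorem jac_evj {D : ι → DP Φ d ℝ → DP Φ d ℝ}
    (hD : ∀ i w, ∀ x ∈ U, pd i (evj inc u w) x = evj inc u (D i w) x)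
    (P Q : ι → ι → DP Φ d ℝ) (i j k : ι) (x : ι → ℝ) (hx : x ∈ U) :
    jac pd (fun i j => evj inc u (P i j)) (fun i j => evj inc u (Q i j)) i j k x
      = evj inc u (jac D P Q i j k) x := by
  unfold jac
  rw [Finset.sum_apply]
  have h1 : evj inc u (∑ l, (P i l * D l (Q j k) + P j l * D l (Q k i) + P k l * D l (Q i j)
      + Q i l * D l (P j k) + Q j l * D l (P k i) + Q k l * D l (P i j))) x =
      ∑ l, evj inc u (P i l * D l (Q j k) + P j l * D l (Q k i) + P k l * D l (Q i j)
      + Q i l * D l (P j k) + Q j l * D l (P k i) + Q k l * D l (P i j)) x := by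
    unfold evj
    rw [map_sum]
  rw [h1]
  refine Finset.sum_congr rfl fun l _ => ?_
  simp only [ej_add, ej_mul, Pi.add_apply, Pi.mul_apply, hD l _ x hx]

theorem lie_evj {D : ι → DP Φ d ℝ → DP Φ d ℝ}
    (hD : ∀ i w, ∀ x ∈ U, pd i (evj inc u w) x = evj inc u (D i w) x)
    (X : ι → DP Φ d ℝ) (P : ι → ι → DP Φ d ℝ) (i j : ι) (x : ι → ℝ) (hx : x ∈ U) :
    lie pd (fun i => evj inc u (X i)) (fun i j => evj inc u (P i j)) i j x
      = evj inc u (lie D X P i j) x := by
  unfold lie
  rw [Finset.sum_apply]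
  have h1 : evj inc u (∑ l, (X l * D l (P i j) - P l j * D l (X i) - P i l * D l (X j))) x =
      ∑ l, (evj inc u (X l * D l (P i j)) x - evj inc u (P l j * D l (X i)) x
        - evj inc u (P i l * D l (X j)) x) := by
    unfold evj
    rw [map_sum]
    simp only [map_sub]
  rw [h1]
  refine Finset.sum_congr rfl fun l _ => ?_
  simp only [ej_mul, Pi.sub_apply, Pi.mul_apply, hD l _ x hx]

end

/-- the values of the graph formulas and brackets at a point of an open set depend only on the
restrictions of the functions to this set -/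
theorem val_congr {ι : Type} [Fintype ι] [DecidableEq ι] {U : Set (ι → ℝ)} (hU : IsOpen U)
    (F : Formula) (P P' : ι → ι → (ι → ℝ) → ℝ) (h : ∀ i j, ∀ x ∈ U, P i j x = P' i j x)
    (i j : ι) (x : ι → ℝ) (hx : x ∈ U) : F.val pd P i j x = F.val pd P' i j x := by
  have h1 : ∀ (G : Gr) (i j : ι), G.val pd P i j x = G.val pd P' i j x := by
    intro G i j
    rw [ej_gr_apply, ej_gr_apply]
    refine Finset.sum_congr rfl fun I _ => if_congr Iff.rfl ?_ rfl
    exact Finset.prod_congr rfl fun k _ => ej_iter_congr hU _ _ _ (h _ _) x hx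
  rw [ej_val_apply, ej_val_apply]
  simp only [h1]

theorem jac_congr {ι : Type} [Fintype ι] [DecidableEq ι] {U : Set (ι → ℝ)} (hU : IsOpen U)
    (P P' Q Q' : ι → ι → (ι → ℝ) → ℝ) (h : ∀ i j, ∀ x ∈ U, P i j x = P' i j x)
    (h' : ∀ i j, ∀ x ∈ U, Q i j x = Q' i j x)
    (i j k : ι) (x : ι → ℝ) (hx : x ∈ U) : jac pd P Q i j k x = jac pd P' Q' i j k x := by
  unfold jac
  rw [Finset.sum_apply, Finset.sum_apply]
  refine Finset.sum_congr rfl fun l _ => ?_
  simp only [Pi.add_apply, Pi.mul_apply, h _ _ x hx, h' _ _ x hx,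
    pd_congr hU l _ _ (h _ _) x hx, pd_congr hU l _ _ (h' _ _) x hx]

end KN
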