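import Pool.Agent.Work.MP_e214ac_gt.N.AlgDefs

/-!
# MODULE LieComm (ring identities with finite sums, size M)

`lie D X P` is the Lie derivative of the 2-tensor `P` along the vector field `X`, with commuting
derivations `D i`.

* `lie_comm`: `[L_X, L_V] P = L_{[X,V]} P` for an arbitrary 2-tensor `P` (no skewness needed).
  Proof: expand; `lie D X P i j = Σ_l (X^l D_l P^{ij} - P^{lj} D_l X^i - P^{il} D_l X^j)`.  Use the
  Leibniz rule, `Derivation.leibniz`, `map_sum`, and the commutation of the derivations; exchange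
  names of summation indices (`Finset.sum_comm`).
* `lie_ham`: the Hamiltonian vector fields `X^i = Σ_m P^{mi} D_m g` of a Poisson bivector preserve
  it.  Expand: the terms with second derivatives of `g` are
  `Σ_{l,m} (-P^{lj} P^{mi} + P^{li} P^{mj}) D_l D_m g = 0` (exchange `l`, `m`), the others are
  `Σ_m D_m g * Σ_l (P^{ml} D_l P^{ij} + P^{il} D_l P^{jm} + P^{jl} D_l P^{mi})`, and the inner sum
  is half of `jac D P P m i j`.
* `der_lie`: a derivation `T` commuting with all the `D i` satisfies
  `T (L_X P) = L_{T X} P + L_X (T P)`.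
* the additivity statements.
-/

namespace KN

variable {ι R : Type} [Fintype ι] [CommRing R] [Algebra ℝ R] (D : ι → Derivation ℝ R R)

omit [Fintype ι] in
private theorem liecomm_two (x : R) (h : x + x = 0) : x = 0 := by
  have h1 : (2 : ℝ) • x = 0 := by
    rw [two_smul]
    exact h
  have h2 : (2⁻¹ : ℝ) • ((2 : ℝ) • x) = x := by
    rw [smul_smul]
    norm_num
  rw [← h2, h1, smul_zero]

private theorem liecomm_anti (F : ι → ι → R) (h : ∀ l m, F l m + F m l = 0) :
    ∑ l, ∑ m, F l m = 0 := by
  apply liecomm_two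
  have h1 : ∑ l, ∑ m, F l m = ∑ l, ∑ m, F m l := Finset.sum_comm
  calc ∑ l, ∑ m, F l m + ∑ l, ∑ m, F l m = ∑ l, ∑ m, F l m + ∑ l, ∑ m, F m l := by rw [← h1]
    _ = ∑ l, ∑ m, (F l m + F m l) := by
        rw [← Finset.sum_add_distrib]
        exact Finset.sum_congr rfl fun l _ => Finset.sum_add_distrib.symm
    _ = 0 := Finset.sum_eq_zero fun l _ => Finset.sum_eq_zero fun m _ => h l m

private theorem liecomm_lie (X V : ι → R) (P : ι → ι → R) (i j : ι) :
    lie (fn D) X (lie (fn D) V P) i j = ∑ l, ∑ m,
      (X l * D l (V m * D m (P i j) - P m j * D m (V i) - P i m * D m (V j))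
        - (V m * D m (P l j) - P m j * D m (V l) - P l m * D m (V j)) * D l (X i)
        - (V m * D m (P i l) - P m l * D m (V i) - P i m * D m (V l)) * D l (X j)) := by
  unfold lie
  refine Finset.sum_congr rfl fun l _ => ?_
  simp only [fn]
  rw [map_sum, Finset.mul_sum, Finset.sum_mul, Finset.sum_mul, ← Finset.sum_sub_distrib,
    ← Finset.sum_sub_distrib]

private theorem liecomm_vbr (X V : ι → R) (P : ι → ι → R) (i j : ι) :
    lie (fn D) (vbr (fn D) X V) P i j = ∑ l, ∑ m,
      ((X m * D m (V l) - V m * D m (X l)) * D l (P i j)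
        - P l j * D l (X m * D m (V i) - V m * D m (X i))
        - P i l * D l (X m * D m (V j) - V m * D m (X j))) := by
  unfold lie vbr
  refine Finset.sum_congr rfl fun l _ => ?_
  simp only [fn]
  rw [map_sum, map_sum, Finset.mul_sum, Finset.sum_mul, Finset.mul_sum, ← Finset.sum_sub_distrib,
    ← Finset.sum_sub_distrib]

theorem lie_comm (hD : ∀ i j x, D i (D j x) = D j (D i x)) (X V : ι → R) (P : ι → ι → R)
    (i j : ι) :
    lie (fn D) X (lie (fn D) V P) i j - lie (fn D) V (lie (fn D) X P) i j
      = lie (fn D) (vbr (fn D) X V) P i j := by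
  rw [← sub_eq_zero, liecomm_lie, liecomm_lie, liecomm_vbr, ← Finset.sum_sub_distrib,
    ← Finset.sum_sub_distrib]
  simp only [← Finset.sum_sub_distrib]
  refine liecomm_anti _ fun l m => ?_
  simp only [map_sub, Derivation.leibniz, smul_eq_mul, hD m l]
  ring

theorem lie_ham (hD : ∀ i j x, D i (D j x) = D j (D i x)) (P : ι → ι → R)
    (hP : ∀ i j, P i j = - P j i) (hJ : ∀ i j k, jac (fn D) P P i j k = 0) (g : R) (i j : ι) :
    lie (fn D) (ham (fn D) P g) P i j = 0 := by
  have h1 : lie (fn D) (ham (fn D) P g) P i j = ∑ l, ∑ m,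
      ((P m l * D m g) * D l (P i j) - P l j * D l (P m i * D m g) -
        P i l * D l (P m j * D m g)) := by
    unfold lie ham
    refine Finset.sum_congr rfl fun l _ => ?_
    simp only [fn]
    rw [map_sum, map_sum, Finset.mul_sum, Finset.sum_mul, Finset.mul_sum,
      ← Finset.sum_sub_distrib, ← Finset.sum_sub_distrib]
  have h2 : ∑ l, ∑ m, D m g * (P m l * D l (P i j) + P i l * D l (P j m) + P j l * D l (P m i)
      + P m l * D l (P i j) + P i l * D l (P j m) + P j l * D l (P m i)) = 0 := by
    rw [Finset.sum_comm]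
    refine Finset.sum_eq_zero fun m _ => ?_
    rw [← Finset.mul_sum]
    have := hJ m i j
    unfold jac at this
    simp only [fn] at this
    rw [this, mul_zero]
  apply liecomm_two
  have h3 : lie (fn D) (ham (fn D) P g) P i j + lie (fn D) (ham (fn D) P g) P i j -
      ∑ l, ∑ m, D m g * (P m l * D l (P i j) + P i l * D l (P j m) + P j l * D l (P m i)
      + P m l * D l (P i j) + P i l * D l (P j m) + P j l * D l (P m i)) = 0 := by
    rw [h1]
    simp only [← Finset.sum_sub_distrib, ← Finset.sum_add_distrib]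
    refine liecomm_anti _ fun l m => ?_
    simp only [Derivation.leibniz, smul_eq_mul, hD m l, hP i l, hP j l, hP i m, hP j m, hP m l,
      map_neg]
    ring
  rw [h2, sub_zero] at h3
  exact h3

theorem der_lie (T : Derivation ℝ R R) (hT : ∀ i x, T (D i x) = D i (T x)) (X : ι → R)
    (P : ι → ι → R) (i j : ι) :
    T (lie (fn D) X P i j)
      = lie (fn D) (fun k => T (X k)) P i j + lie (fn D) X (fun k l => T (P k l)) i j := by
  unfold lie
  rw [map_sum, ← Finset.sum_add_distrib]
  refine Finset.sum_congr rfl fun l _ => ?_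
  simp only [fn, map_sub, Derivation.leibniz, smul_eq_mul, hT]
  ring

theorem lie_add_left (X Y : ι → R) (P : ι → ι → R) (i j : ι) :
    lie (fn D) (fun k => X k + Y k) P i j = lie (fn D) X P i j + lie (fn D) Y P i j := by
  unfold lie
  rw [← Finset.sum_add_distrib]
  refine Finset.sum_congr rfl fun l _ => ?_
  simp only [fn, map_add]
  ring

theorem lie_sub_left (X Y : ι → R) (P : ι → ι → R) (i j : ι) :
    lie (fn D) (fun k => X k - Y k) P i j = lie (fn D) X P i j - lie (fn D) Y P i j := by
  unfold lie
  rw [← Finset.sum_sub_distrib]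
  refine Finset.sum_congr rfl fun l _ => ?_
  simp only [fn, map_sub]
  ring

theorem lie_sub_right (X : ι → R) (P Q : ι → ι → R) (i j : ι) :
    lie (fn D) X (fun k l => P k l - Q k l) i j = lie (fn D) X P i j - lie (fn D) X Q i j := by
  unfold lie
  rw [← Finset.sum_sub_distrib]
  refine Finset.sum_congr rfl fun l _ => ?_
  simp only [fn, map_sub]
  ring

end KN
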