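import Pool.Agent.Work.MP_e214ac_gt.N.Nam

/-!
# MODULE NamDiv (size M)

`N^{ij} = det (e_i, e_j, ∇a_1, …, ∇a_m)` is divergence free and satisfies the Jacobi identity.

* `nam_div`: `D_j` is a derivation; expand the determinant (`Matrix.det_apply`) and apply the
  Leibniz rule: `D_j N^{ij} = Σ_k det (…, D_j ∇a_k in the row k, …)`.  Then
  `Σ_j D_j N^{ij} = Σ_k Σ_{j,l} (D_j D_l a_k) det (e_i, e_j, …, e_l in the row of a_k, …)`, and the
  determinant is skew in (j, l)` while `D_j D_l a_k` is symmetric, so each `Σ_{j,l}` vanishes (the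
  sum is equal to its opposite; or pair the terms by `Finset.sum_comm`, then `2 x = 0` and `R` is an
  `ℝ`-algebra).
* `nam_jacobi`: differentiate the Plücker relation
  `N^{jk} N^{il} + N^{ki} N^{jl} + N^{ij} N^{kl} = 0` (a form of `nam_plucker` + `nam_skew`) with
  respect to `D_l` and sum over `l`: the terms `N^{jk} D_l N^{il}` vanish by `nam_div`, what remains
  is the claim.
-/

namespace KN

variable {m : ℕ} {R : Type} [CommRing R] [Algebra ℝ R]
  (D : Fin (m + 2) → Derivation ℝ R R) (a : Fin m → R)

private theorem namdiv_two (x : R) (h : x + x = 0) : x = 0 := by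
  have h1 : (2 : ℝ) • x = 0 := by
    rw [two_smul]
    exact h
  have h2 : (2⁻¹ : ℝ) • ((2 : ℝ) • x) = x := by
    rw [smul_smul]
    norm_num
  rw [← h2, h1, smul_zero]

private theorem namdiv_anti {ι : Type} [Fintype ι] (F : ι → ι → R)
    (h : ∀ l m, F l m + F m l = 0) : ∑ l, ∑ m, F l m = 0 := by
  apply namdiv_two
  have h1 : ∑ l, ∑ m, F l m = ∑ l, ∑ m, F m l := Finset.sum_comm
  calc ∑ l, ∑ m, F l m + ∑ l, ∑ m, F l m = ∑ l, ∑ m, F l m + ∑ l, ∑ m, F m l := by rw [← h1]
    _ = ∑ l, ∑ m, (F l m + F m l) := by
        rw [← Finset.sum_add_distrib]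
        exact Finset.sum_congr rfl fun l _ => Finset.sum_add_distrib.symm
    _ = 0 := Finset.sum_eq_zero fun l _ => Finset.sum_eq_zero fun m _ => h l m

private theorem namdiv_prod {α : Type} [DecidableEq α] (T : Derivation ℝ R R) (s : Finset α)
    (f : α → R) : T (∏ i ∈ s, f i) = ∑ r ∈ s, T (f r) * ∏ i ∈ s.erase r, f i := by
  induction s using Finset.induction_on with
  | empty => simp
  | insert b s hb ih =>
    rw [Finset.prod_insert hb, Derivation.leibniz, ih, Finset.sum_insert hb,
      Finset.erase_insert hb, smul_eq_mul, smul_eq_mul, Finset.mul_sum, add_comm, mul_comm]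
    congr 1
    refine Finset.sum_congr rfl fun r hr => ?_
    have hrb : r ≠ b := fun h => hb (h ▸ hr)
    rw [Finset.erase_insert_of_ne hrb.symm, Finset.prod_insert (fun h => hb (Finset.mem_of_mem_erase h))]
    ring

omit [Algebra ℝ R] in
private theorem namdiv_det_apply {n : ℕ} (A : Matrix (Fin n) (Fin n) R) :
    A.det = ∑ σ : Equiv.Perm (Fin n), ((Equiv.Perm.sign σ : ℤˣ) : ℤ) • ∏ i, A i (σ i) := by
  rw [← Matrix.det_transpose, Matrix.det_apply]
  refine Finset.sum_congr rfl fun σ _ => ?_
  rfl

private theorem namdiv_det {n : ℕ} (T : Derivation ℝ R R) (A : Matrix (Fin n) (Fin n) R) :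
    T A.det = ∑ r, (A.updateRow r fun c => T (A r c)).det := by
  rw [namdiv_det_apply, map_sum]
  simp only [namdiv_det_apply]
  rw [Finset.sum_comm]
  refine Finset.sum_congr rfl fun σ _ => ?_
  rw [map_zsmul, namdiv_prod, Finset.smul_sum]
  refine Finset.sum_congr rfl fun r _ => ?_
  congr 1
  rw [← Finset.mul_prod_erase Finset.univ _ (Finset.mem_univ r), Matrix.updateRow_self]
  congr 1
  refine Finset.prod_congr rfl fun i hi => ?_
  rw [Matrix.updateRow_ne (Finset.ne_of_mem_erase hi)]

omit [Algebra ℝ R] in
private theorem namdiv_lin {n : ℕ} (A : Matrix (Fin n) (Fin n) R) (r : Fin n) (v : Fin n → R) :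
    (A.updateRow r v).det = ∑ l, v l * (A.updateRow r (Pi.single l 1)).det := by
  set L : (Fin n → R) →ₗ[R] R :=
    (Matrix.detRowAlternating (n := Fin n) (R := R)).toMultilinearMap.toLinearMap
      (fun i => A i : Fin n → Fin n → R) r with hL
  have h1 : ∀ w, L w = (A.updateRow r w).det := by
    intro w
    rw [hL, MultilinearMap.toLinearMap_apply]
    rfl
  rw [← h1, LinearMap.pi_apply_eq_sum_univ]
  refine Finset.sum_congr rfl fun b _ => ?_
  rw [smul_eq_mul, ← h1]
  congr 2
  funext c
  rw [Pi.single_apply]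
  exact if_congr eq_comm rfl rfl

omit [Algebra ℝ R] in
private theorem namdiv_swap (G : Fin m → Fin (m + 2) → R) (i j l : Fin (m + 2)) (k : Fin m) :
    ((nmat G i j).updateRow k.succ.succ (Pi.single l 1)).det =
      - ((nmat G i l).updateRow k.succ.succ (Pi.single j 1)).det := by
  have h01 : (1 : Fin (m + 2)) ≠ k.succ.succ := by
    intro hc
    exact absurd (congrArg Fin.val hc) (by simp)
  have h1 : (nmat G i j).updateRow k.succ.succ (Pi.single l 1) =
      ((nmat G i l).updateRow k.succ.succ (Pi.single j 1)).submatrix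
        (Equiv.swap 1 k.succ.succ) id := by
    ext x y
    rw [Matrix.submatrix_apply, id]
    by_cases hx : x = k.succ.succ
    · subst hx
      rw [Equiv.swap_apply_right, Matrix.updateRow_self, Matrix.updateRow_ne h01]
      rfl
    · by_cases hx1 : x = 1
      · subst hx1
        rw [Equiv.swap_apply_left, Matrix.updateRow_self, Matrix.updateRow_ne h01]
        rfl
      · rw [Equiv.swap_apply_of_ne_of_ne hx1 hx, Matrix.updateRow_ne hx, Matrix.updateRow_ne hx]
        revert hx hx1
        refine Fin.cases ?_ (fun x => ?_) x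
        · intro _ _
          rfl
        · refine Fin.cases ?_ (fun x => ?_) x
          · intro _ hx1
            exact absurd rfl hx1
          · intro _ _
            rfl
  rw [h1, Matrix.det_permute, Equiv.Perm.sign_swap h01]
  simp

theorem nam_div (hD : Comm D) (i : Fin (m + 2)) :
    ∑ j, D j (nam (fun k l => D l (a k)) i j) = 0 := by
  set G : Fin m → Fin (m + 2) → R := fun k l => D l (a k) with hG
  have h1 : ∀ j, D j (nam G i j) =
      ∑ k : Fin m, ∑ l, D j (D l (a k)) * ((nmat G i j).updateRow k.succ.succ (Pi.single l 1)).det := by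
    intro j
    unfold nam
    rw [namdiv_det, Fin.sum_univ_succ, Fin.sum_univ_succ]
    have e0 : ((nmat G i j).updateRow 0 fun c => D j (nmat G i j 0 c)).det = 0 := by
      refine Matrix.det_eq_zero_of_row_eq_zero 0 fun c => ?_
      rw [Matrix.updateRow_self]
      change D j ((Pi.single i 1 : Fin (m + 2) → R) c) = 0
      rw [Pi.single_apply]
      split_ifs
      · exact Derivation.map_one_eq_zero _
      · exact map_zero _
    have e1 : ((nmat G i j).updateRow (Fin.succ 0) fun c => D j (nmat G i j (Fin.succ 0) c)).det = 0 := by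
      refine Matrix.det_eq_zero_of_row_eq_zero (Fin.succ 0) fun c => ?_
      rw [Matrix.updateRow_self]
      change D j ((Pi.single j 1 : Fin (m + 2) → R) c) = 0
      rw [Pi.single_apply]
      split_ifs
      · exact Derivation.map_one_eq_zero _
      · exact map_zero _
    rw [e0, e1, zero_add, zero_add]
    refine Finset.sum_congr rfl fun k _ => ?_
    rw [namdiv_lin]
    rfl
  simp only [h1]
  rw [Finset.sum_comm]
  refine Finset.sum_eq_zero fun k _ => ?_
  refine namdiv_anti _ fun l j => ?_
  rw [namdiv_swap G i j l k, hD l j]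
  ring

theorem nam_jacobi (hD : Comm D) (i j k : Fin (m + 2)) :
    ∑ l, (nam (fun k l => D l (a k)) i l * D l (nam (fun k l => D l (a k)) j k)
      + nam (fun k l => D l (a k)) j l * D l (nam (fun k l => D l (a k)) k i)
      + nam (fun k l => D l (a k)) k l * D l (nam (fun k l => D l (a k)) i j)) = 0 := by
  have hdiv := nam_div D a hD
  set G : Fin m → Fin (m + 2) → R := fun k l => D l (a k) with hG
  have h1 : ∑ l, (nam G i l * D l (nam G j k) + nam G j l * D l (nam G k i)
      + nam G k l * D l (nam G i j)) = ∑ l, (- nam G i j * D l (nam G k l)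
        + nam G i k * D l (nam G j l) - nam G j k * D l (nam G i l)) := by
    refine Finset.sum_congr rfl fun l _ => ?_
    have h2 := congrArg (D l) (nam_plucker G i j k l)
    simp only [map_add, map_sub, map_zero, Derivation.leibniz, smul_eq_mul] at h2
    rw [nam_skew G k i, map_neg]
    linear_combination h2
  rw [h1, Finset.sum_sub_distrib, Finset.sum_add_distrib, ← Finset.mul_sum, ← Finset.mul_sum,
    ← Finset.mul_sum, hdiv, hdiv, hdiv]
  ring

end KN
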