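import Pool.Agent.Work.MP_e214ac_gt.N.FrameIso
import Pool.Agent.Work.MP_e214ac_gt.N.NamDiv
import Pool.Agent.Work.MP_e214ac_gt.N.LieComm

/-!
# MODULE FSetup (size M/L)

The adapted frame of a Nambu bivector with an invertible minor.

Setting: `D` commuting derivations of `S`, `a_k ∈ S`, `G_{kl} = D_l a_k`, and for some `p, q` the
determinant `δ = nam G p q = det J₀`, `J₀ = nmat G p q`, is a unit of `S`.  `M₀ = J₀⁻¹`
(`Matrix.nonsing_inv`; `J₀ M₀ = 1 = M₀ J₀`), the rows of `J₀` are closed (`e_p`, `e_q` constant;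
`D_i D_k a = D_k D_i a`), `E = frame D M₀` (commuting by `frame_comm`).
`N^{ij} = δ (M₀_{i0} M₀_{j1} - M₀_{i1} M₀_{j0})` (`nam_frame`), `N^{kq} = δ M₀_{k0}`
(`nmat_row_q`: `M₀_{q0} = 0`, `M₀_{q1} = 1`).
Take `Ψ` from `exists_frame_iso` with `w false = δ`, `w true = 1`: `Ψ ρ = δ ρ`, `Ψ b = b`, and
`M = C ∘ M₀`, `J = C ∘ J₀` over `TT`, `F = frame (der D) M`.
* `toD2 M (Ψ ∘ P0 ρ)^{ij} = δ ρ (M_{i0} M_{j1} - M_{i1} M_{j0}) = PP^{ij}`;
* `toD1 M (Ψ ∘ V0)^k = M_{k0} δ ρ b = ρ b N^{kq} = VD^k`;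
* `Ψ (evo E (vs E) x) = evo D (vD D a q) (Ψ x)`: both sides satisfy the Leibniz rule along `Ψ`
  (induct on `x`); on coefficients `0`; on the variable `X (c, K) = DK (der E) K (X (c, 0))`
  (`DK_X`) use `evo_der`, and `DK_map` for `Ψ` and for `evo D _` (which commutes with `F_a` because it
  commutes with the `der D k` and kills `M = C M₀`): reduces to `K = 0`; on `b` both are `0`; on `ρ`:
  `Ψ (ρ² der E 0 b) = δ² ρ² F_0 b = δ² ρ² Σ_l M_{l0} D_l b` and
  `evo D (vD) (δ ρ) = δ ρ² Σ_l N^{lq} D_l b`, equal.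
-/

open MvPolynomial

namespace KN

variable {m : ℕ} {S : Type} [CommRing S] [Algebra ℝ S]

/-- The list of properties of an adapted frame (see the header). -/
structure FrameData (D : Fin (m + 2) → Derivation ℝ S S) (a : Fin m → S) (q : Fin (m + 2)) where
  /-- the frame on `S` -/
  E : Fin (m + 2) → Derivation ℝ S S
  hE : Comm E
  /-- the transition matrix and its inverse, over the ring `TT` -/
  M : Fin (m + 2) → Fin (m + 2) → TT (m + 2) S
  J : Fin (m + 2) → Fin (m + 2) → TT (m + 2) S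
  hMJ : ∀ i j, ∑ l, M i l * J l j = if i = j then 1 else 0
  hJM : ∀ i j, ∑ l, J i l * M l j = if i = j then 1 else 0
  /-- the isomorphism -/
  Ψ : TT (m + 2) S ≃+* TT (m + 2) S
  hΨ : ∀ b x, Ψ (der E b x) = frame (der D) M b (Ψ x)
  hM : ∀ b c k, frame (der D) M b (M k c) = frame (der D) M c (M k b)
  hdeg : ∀ c n x, Hom (wt c) n x ↔ Hom (wt c) n (Ψ x)
  hMdeg : ∀ c i j, Hom (wt c) 0 (M i j) ∧ Hom (wt c) 0 (J i j)
  hP : ∀ i j, toD2 M (fun b c => Ψ (P0 ρv b c)) i j = PP D a i j
  hV : ∀ k, toD1 M (fun b => Ψ (V0 b)) k = VD D a q k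
  hevo : ∀ x, Ψ (evo E (vs E) x) = evo D (vD D a q) (Ψ x)
  hevoM : ∀ i j, evo D (vD D a q) (M i j) = 0

private theorem fs_closed (D : Fin (m + 2) → Derivation ℝ S S) (hD : Comm D) (a : Fin m → S)
    (p q : Fin (m + 2)) (r i k : Fin (m + 2)) :
    D i (nmat (fun k l => D l (a k)) p q r k) = D k (nmat (fun k l => D l (a k)) p q r i) := by
  have hs : ∀ i p k : Fin (m + 2), D i ((Pi.single p 1 : Fin (m + 2) → S) k) = 0 := by
    intro i p k
    by_cases h : k = p
    · rw [h, Pi.single_eq_same, Derivation.map_one_eq_zero]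
    · rw [Pi.single_eq_of_ne h, map_zero]
  unfold nmat
  refine Fin.cases ?_ (fun r => ?_) r
  · simp only [Matrix.of_apply, Fin.cons_zero, hs]
  · refine Fin.cases ?_ (fun r => ?_) r
    · simp only [Matrix.of_apply, Fin.cons_succ, Fin.cons_zero, hs]
    · simp only [Matrix.of_apply, Fin.cons_succ]
      exact hD i k (a r)

private theorem fs_sum2 {R : Type} [CommRing R] (f : R) (x y : Fin (m + 2) → R) :
    ∑ b, ∑ c, x b * y c * P0 f b c = (x 0 * y 1 - x 1 * y 0) * f := by
  have h : ∀ b c, x b * y c * P0 f b c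
      = (if b = 0 then (if c = 1 then x b * y c * f else 0) else 0)
        - (if b = 1 then (if c = 0 then x b * y c * f else 0) else 0) := by
    intro b c
    unfold P0
    by_cases hb : b = 0
    · subst hb
      by_cases hc : c = 1
      · simp [hc]
      · simp [hc]
    · by_cases hb1 : b = 1
      · subst hb1
        by_cases hc : c = 0
        · simp [hc]
        · simp [hc]
      · simp [hb, hb1]
  simp only [h, Finset.sum_sub_distrib]
  have e1 : ∑ b : Fin (m + 2), ∑ c : Fin (m + 2),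
      (if b = 0 then (if c = 1 then x b * y c * f else 0) else 0) = x 0 * y 1 * f := by
    rw [Finset.sum_eq_single 0, Finset.sum_eq_single 1]
    · simp
    · intro c _ hc; simp [hc]
    · intro h; exact absurd (Finset.mem_univ _) h
    · intro b _ hb; simp [hb]
    · intro h; exact absurd (Finset.mem_univ _) h
  have e2 : ∑ b : Fin (m + 2), ∑ c : Fin (m + 2),
      (if b = 1 then (if c = 0 then x b * y c * f else 0) else 0) = x 1 * y 0 * f := by
    rw [Finset.sum_eq_single 1, Finset.sum_eq_single 0]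
    · simp
    · intro c _ hc; simp [hc]
    · intro h; exact absurd (Finset.mem_univ _) h
    · intro b _ hb; simp [hb]
    · intro h; exact absurd (Finset.mem_univ _) h
  rw [e1, e2]
  ring

theorem exists_frameData (D : Fin (m + 2) → Derivation ℝ S S) (hD : Comm D) (a : Fin m → S)
    (p q : Fin (m + 2)) (hu : IsUnit (nam (fun k l => D l (a k)) p q)) :
    Nonempty (FrameData D a q) := by
  classical
  set G : Fin m → Fin (m + 2) → S := fun k l => D l (a k) with hG
  set δ : S := nam G p q with hδ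
  have hdet : IsUnit (nmat G p q).det := hu
  set M₀ : Matrix (Fin (m + 2)) (Fin (m + 2)) S := (nmat G p q)⁻¹ with hM₀
  have hJM₀ : nmat G p q * M₀ = 1 := Matrix.mul_nonsing_inv _ hdet
  have hMJ₀ : M₀ * nmat G p q = 1 := Matrix.nonsing_inv_mul _ hdet
  have hJ₀ := fs_closed D hD a p q
  set w : Bool → S := fun c => if c = false then δ else 1 with hw
  have hwu : ∀ c, IsUnit (w c) := by
    intro c
    cases c
    · exact hu
    · exact isUnit_one
  obtain ⟨Ψ, hΨ0, hΨD, hΨd⟩ := exists_frame_iso D hD (nmat G p q) M₀ hJM₀ hMJ₀ hJ₀ w hwu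
  have hΨC : ∀ s, Ψ (C s) = C s := fun s => Ψ.commutes s
  have hΨρ : Ψ ρv = C δ * ρv := hΨ0 false
  have hΨb : Ψ bv = bv := by
    have := hΨ0 true
    rw [show w true = 1 by rw [hw]; simp, map_one, one_mul] at this
    exact this
  have hEa : ∀ (a : Fin (m + 2)) (x : S), frame D M₀ a x = ∑ k, M₀ k a * D k x := fun a x =>
    frame_apply D (fun k a => M₀ k a) a x
  set F : Fin (m + 2) → Derivation ℝ (TT (m + 2) S) (TT (m + 2) S) :=
    frame (der D) (fun k a => C (M₀ k a)) with hF
  have hFa : ∀ b x, F b x = ∑ k, C (M₀ k b) * der D k x := fun b x => frame_apply _ _ _ _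
  have hFC : ∀ b s, F b (C s) = C (frame D M₀ b s) := by
    intro b s
    rw [hFa, hEa, map_sum]
    refine Finset.sum_congr rfl fun k _ => ?_
    rw [der_C, map_mul]
  have hnq : ∀ k, nam G k q = δ * M₀ k 0 := by
    intro k
    rw [nam_frame G p q M₀ hJM₀, nmat_row_q G p q M₀ hJM₀, nmat_row_q G p q M₀ hJM₀]
    simp [hδ]
  have hP0map : ∀ b c : Fin (m + 2), Ψ (P0 ρv b c) = P0 (C δ * ρv) b c := by
    intro b c
    unfold P0
    split_ifs
    · exact hΨρ
    · rw [map_neg, hΨρ]
    · exact map_zero _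
  have hevoF : ∀ b x, evo D (vD D a q) (F b x) = F b (evo D (vD D a q) x) := by
    intro b x
    rw [hFa, hFa, map_sum]
    refine Finset.sum_congr rfl fun k _ => ?_
    rw [Derivation.leibniz, evo_C, smul_zero, add_zero, smul_eq_mul, evo_der D hD]
  have hval : ∀ c, Ψ (vs (frame D M₀) c) = C (w c) * vD D a q c := by
    intro c
    cases c
    · change Ψ (ρv ^ 2 * der (frame D M₀) 0 bv) = C δ * (ρv ^ 2 * ∑ l, NN D a l q * der D l bv)
      rw [map_mul, map_pow, hΨρ, hΨD, hΨb]
      have e : F 0 bv = ∑ k, C (M₀ k 0) * der D k bv := hFa 0 bv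
      rw [e, Finset.mul_sum, Finset.mul_sum, Finset.mul_sum]
      refine Finset.sum_congr rfl fun k _ => ?_
      have e2 : NN D a k q = C δ * C (M₀ k 0) := by
        unfold NN
        rw [← hG, hnq, map_mul]
      rw [e2]
      ring
    · change Ψ 0 = C (w true) * 0
      rw [map_zero, mul_zero]
  refine ⟨{
    E := frame D M₀
    hE := frame_comm D hD (nmat G p q) M₀ hJM₀ hMJ₀ hJ₀
    M := fun i j => C (M₀ i j)
    J := fun i j => C (nmat G p q i j)
    hMJ := ?_
    hJM := ?_
    Ψ := Ψ.toRingEquiv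
    hΨ := hΨD
    hM := ?_
    hdeg := hΨd
    hMdeg := fun c i j => ⟨isWeightedHomogeneous_C _ _, isWeightedHomogeneous_C _ _⟩
    hP := ?_
    hV := ?_
    hevo := ?_
    hevoM := fun i j => evo_C _ _ _ }⟩
  · intro i j
    have h := congrFun (congrFun hMJ₀ i) j
    rw [Matrix.mul_apply, Matrix.one_apply] at h
    simp only [← map_mul, ← map_sum]
    rw [h]
    split_ifs <;> simp
  · intro i j
    have h := congrFun (congrFun hJM₀ i) j
    rw [Matrix.mul_apply, Matrix.one_apply] at h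
    simp only [← map_mul, ← map_sum]
    rw [h]
    split_ifs <;> simp
  · intro b c k
    rw [← hF, hFC, hFC, frame_M D (nmat G p q) M₀ hJM₀ hMJ₀ hJ₀ b c k]
  · intro i j
    change ∑ b, ∑ c, C (M₀ i b) * C (M₀ j c) * Ψ (P0 ρv b c) = ρv * NN D a i j
    simp only [hP0map]
    rw [fs_sum2 (C δ * ρv) (fun b => C (M₀ i b)) (fun c => C (M₀ j c))]
    unfold NN
    rw [← hG, nam_frame G p q M₀ hJM₀ i j, ← hδ]
    simp only [map_mul, map_sub]
    ring
  · intro k
    change ∑ b, C (M₀ k b) * Ψ (V0 b) = ρv * bv * NN D a k q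
    rw [Finset.sum_eq_single 0]
    · unfold V0
      rw [if_pos rfl, map_mul, hΨρ, hΨb]
      unfold NN
      rw [← hG, hnq, map_mul]
      ring
    · intro b _ hb
      unfold V0
      rw [if_neg hb, map_zero, mul_zero]
    · intro h; exact absurd (Finset.mem_univ _) h
  · intro x
    change Ψ (evo (frame D M₀) (vs (frame D M₀)) x) = evo D (vD D a q) (Ψ x)
    induction x using MvPolynomial.induction_on with
    | C s => rw [evo_C, hΨC, evo_C, map_zero]
    | add x y hp hq => simp only [map_add, hp, hq]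
    | mul_X x v hp =>
      obtain ⟨c, K⟩ := v
      have hEc := frame_comm D hD (nmat G p q) M₀ hJM₀ hMJ₀ hJ₀
      have e1 : Ψ (evo (frame D M₀) (vs (frame D M₀)) (X (c, K)))
          = DK (fn F) K (Ψ (vs (frame D M₀) c)) := by
        rw [evo_X]
        exact DK_map (fn (der (frame D M₀))) (fn F) (fun x => Ψ x) (fun b x => hΨD b x) K _
      have e2 : evo D (vD D a q) (Ψ (X (c, K)))
          = DK (fn F) K (evo D (vD D a q) (Ψ (X (c, 0)))) := by
        have e3 : Ψ (X (c, K)) = DK (fn F) K (Ψ (X (c, 0))) := by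
          rw [← DK_map (fn (der (frame D M₀))) (fn F) (fun x => Ψ x) (fun b x => hΨD b x) K
            (X (c, 0)), DK_X _ hEc, zero_add]
        rw [e3]
        exact DK_map (fn F) (fn F) (fun x => evo D (vD D a q) x) (fun b x => hevoF b x) K _
      have e4 : evo D (vD D a q) (Ψ (X (c, 0))) = Ψ (vs (frame D M₀) c) := by
        rw [hΨ0, hval, Derivation.leibniz, evo_C, smul_zero, add_zero, smul_eq_mul, evo_X,
          DK_zero]
      rw [e4] at e2
      rw [Derivation.leibniz, map_add, map_mul, Derivation.leibniz, smul_eq_mul, smul_eq_mul,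
        smul_eq_mul, smul_eq_mul, map_mul, map_mul, e1, e2, hp]

end KN
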