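import Pool.Agent.Work.MP_e214ac_gt.N.Bridge
import Pool.Agent.Work.MP_e214ac_gt.N.Cech

/-!
# MODULE Glue (size M)

The global solution over `CC m`.

Proof.  For `e = 0, 1, 2` let `X_e` be the solution of `den_local` for the minor `mnr m e`
(`mnr_ne_zero`).  `Y = X_0 - X_1` satisfies `L_Y P = 0`, has denominators powers of
`mnr m 0 * mnr m 1` (`den_mono`, commutativity), degree `n - 1 ≥ 2` in `ρ`, `0` in `b`; `den_K1` gives
`g01` with `X_0 - X_1 = ham P g01`, similarly `g12`, `g20`, all of degree `n - 2 ≥ 1`.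
`ham P (g01 + g12 + g20) = 0`, so `g01 + g12 + g20 = 0` by `den_K0`.  `cech_split` gives `g0, g1, g2`;
replace them by their components of degrees (n - 2, 0)` if convenient (not necessary).
`X = X_0 - ham P g0 = X_1 - ham P g1` has denominators powers of `mnr m 0` and of `mnr m 1`
(`den_der`, `den_PP`, …), so `X = ι X'` by `den_inter`, and `L_X P = F(P)` because `L_{ham P g0} P = 0`
(`lie_ham`, with the Jacobi identity `nambu_poisson`: `PP D a = nambu (der D) ρv (C ∘ a)`,
`nam_map`).  Finally `ι` is injective and intertwines everything (`ιK_val`, `ιK_PP`, `lie_map`).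
Degrees of `X'`: components (`lie_proj`) if needed.
-/

open MvPolynomial

namespace KN

theorem PP_eq_nambu {m : ℕ} {S : Type} [CommRing S] [Algebra ℝ S]
    (D : Fin (m + 2) → Derivation ℝ S S) (a : Fin m → S) :
    PP D a = nambu (fn (der D)) ρv (fun k => C (a k)) := by
  funext i j
  rw [nambu_eq]
  unfold PP NN
  rw [nam_map]
  congr 2
  funext k l
  exact (der_C D l (a k)).symm

private theorem gl_ham_add {ι R : Type} [Fintype ι] [CommRing R] [Algebra ℝ R]
    (D : ι → Derivation ℝ R R) (P : ι → ι → R) (g h : R) (i : ι) :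
    ham (fn D) P (g + h) i = ham (fn D) P g i + ham (fn D) P h i := by
  unfold ham
  rw [← Finset.sum_add_distrib]
  refine Finset.sum_congr rfl fun l _ => ?_
  simp only [fn, map_add]
  ring

private theorem gl_ham_sub {ι R : Type} [Fintype ι] [CommRing R] [Algebra ℝ R]
    (D : ι → Derivation ℝ R R) (P : ι → ι → R) (g h : R) (i : ι) :
    ham (fn D) P (g - h) i = ham (fn D) P g i - ham (fn D) P h i := by
  unfold ham
  rw [← Finset.sum_sub_distrib]
  refine Finset.sum_congr rfl fun l _ => ?_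
  simp only [fn, map_sub]
  ring

private theorem gl_den_sub (m : ℕ) (s : CC m) (x y : TT (m + 2) (KK m)) (hx : Den m s x)
    (hy : Den m s y) : Den m s (x - y) := by
  rw [sub_eq_add_neg]
  exact den_add m s x _ hx (den_neg m s y hy)

private theorem gl_hom_sub {σ S : Type} [CommRing S] (w : σ → ℕ) (n : ℕ)
    (x y : MvPolynomial σ S) (hx : Hom w n x) (hy : Hom w n y) : Hom w n (x - y) :=
  IsWeightedHomogeneous.sub hx hy

private theorem gl_den_ham (m : ℕ) (s : CC m) (hs : s ≠ 0) (g : TT (m + 2) (KK m))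
    (hg : Den m s g) (k : Fin (m + 2)) :
    Den m s (ham (fn (der (dK m))) (PP (dK m) (aK m)) g k) := by
  unfold ham
  exact den_sum m s _ _ fun l _ => den_mul m s _ _ (den_PP m s l k) (den_der m s hs l g hg)

theorem glue (F : Formula) (n : ℕ) (hn : 3 ≤ n) (hF : ∀ cg ∈ F, cg.2.n = n)
    (hA : AlgSymm F) (m : ℕ) :
    ∃ X : Fin (m + 2) → TT (m + 2) (CC m), ∀ i j,
      lie (fn (der (dC m))) X (PP (dC m) (aC m)) i j
        = F.val (fn (der (dC m))) (PP (dC m) (aC m)) i j := by
  have hloc : ∀ e : Fin 3, ∃ X : Fin (m + 2) → TT (m + 2) (KK m), (∀ k, Den m (mnr m e) (X k)) ∧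
      (∀ k, Hom (wt false) (n - 1) (X k)) ∧ (∀ k, Hom (wt true) 0 (X k)) ∧
      ∀ i j, lie (fn (der (dK m))) X (PP (dK m) (aK m)) i j
        = F.val (fn (der (dK m))) (PP (dK m) (aK m)) i j := fun e =>
    den_local F n hn hF hA m (pq m e).1 (pq m e).2 (mnr_ne_zero m e)
  choose X hXd hXf hXt hX using hloc
  have hne : ∀ e, mnr m e ≠ 0 := mnr_ne_zero m
  have key : ∀ e e' : Fin 3, ∃ g : TT (m + 2) (KK m), Den m (mnr m e * mnr m e') g ∧
      Hom (wt false) (n - 1 - 1) g ∧ Hom (wt true) 0 g ∧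
      ∀ i, X e i - X e' i = ham (fn (der (dK m))) (PP (dK m) (aK m)) g i := by
    intro e e'
    refine den_K1 m (pq m e).1 (pq m e).2 (mnr m e') (mul_ne_zero (hne e) (hne e')) (n - 1) 0
      (by omega) (fun i => X e i - X e' i) ?_ ?_ ?_ ?_
    · intro l
      refine gl_den_sub m _ _ _ (den_mono m (mnr m e) (mnr m e') _ (hXd e l)) ?_
      have h := den_mono m (mnr m e') (mnr m e) _ (hXd e' l)
      rw [mul_comm] at h
      exact h
    · intro l
      exact gl_hom_sub _ _ _ _ (hXf e l) (hXf e' l)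
    · intro l
      exact gl_hom_sub _ _ _ _ (hXt e l) (hXt e' l)
    · intro i l
      rw [lie_sub_left, hX, hX, sub_self]
  obtain ⟨g01, d01, f01, t01, e01⟩ := key 0 1
  obtain ⟨g12, d12, f12, t12, e12⟩ := key 1 2
  obtain ⟨g20, d20, f20, t20, e20⟩ := key 2 0
  have hsum : g01 + g12 + g20 = 0 := by
    refine den_K0 m (n - 1 - 1) (by omega) _ (IsWeightedHomogeneous.add
      (IsWeightedHomogeneous.add f01 f12) f20) fun i => ?_
    rw [gl_ham_add, gl_ham_add, ← e01, ← e12, ← e20]
    ring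
  obtain ⟨g0, g1, g2, dg0, dg1, dg2, h01, h12, h20⟩ := cech_split m g01 g12 g20 d01 d12 d20 hsum
  set P := PP (dK m) (aK m) with hP
  have hc : Comm (der (Φ := Bool) (dK m)) := fun i j x => der_comm (dK m) (dK_comm m) i j x
  have hPs : ∀ i j, P i j = - P j i := by
    intro i j
    rw [hP]
    unfold PP NN
    rw [nam_skew, map_neg]
    ring
  have hPJ : ∀ i j k, jac (fn (der (dK m))) P P i j k = 0 := by
    intro i j k
    rw [hP, PP_eq_nambu]
    exact nambu_poisson (der (dK m)) hc ρv (fun k => C (aK m k)) i j k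
  have hY : ∀ k, X 0 k - ham (fn (der (dK m))) P g0 k = X 1 k - ham (fn (der (dK m))) P g1 k := by
    intro k
    have h := e01 k
    rw [h01, gl_ham_sub] at h
    linear_combination h
  have hZ : ∀ k, ∃ y : TT (m + 2) (CC m), X 0 k - ham (fn (der (dK m))) P g0 k = ιK m y := by
    intro k
    refine den_inter m _ ?_ ?_
    · exact gl_den_sub m _ _ _ (hXd 0 k) (gl_den_ham m _ (hne 0) g0 dg0 k)
    · rw [hY]
      exact gl_den_sub m _ _ _ (hXd 1 k) (gl_den_ham m _ (hne 1) g1 dg1 k)
  choose y hy using hZ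
  refine ⟨y, fun i j => ιK_inj m ?_⟩
  rw [ιK_val]
  have h1 := lie_map (fn (der (dC m))) (fn (der (dK m))) (ιK m) (fun i x => ιK_der m i x) y
    (PP (dC m) (aC m)) i j
  have h2 : (fun a b => ιK m (PP (dC m) (aC m) a b)) = P := by
    funext a b
    exact ιK_PP m a b
  have h3 : (fun a => ιK m (y a)) = fun k => X 0 k - ham (fn (der (dK m))) P g0 k := by
    funext k
    exact (hy k).symm
  rw [h2, h3, lie_sub_left, hX, lie_ham (der (dK m)) hc P hPs hPJ, sub_zero] at h1
  exact h1

end KN
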