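import Pool.Agent.Work.MP_e214ac_gt.N.GrMap

/-!
# MODULE GrDeg (weights in graph formulas, size M)

`H k`, `k : ℤ`, are additive subgroups of `R` with `H a * H b ⊆ H (a + b)`, `1 ∈ H 0`.  Suppose the
operator `D a` maps `H k` to `H (k - ω a)` and `P a b ∈ H (c + ω a + ω b)`.  Then the value of a graph
with `n` vertices satisfies `G.val D P i j ∈ H (n c + ω i + ω j)`.

Proof: in the term of a labelling `I` compatible with the sinks, the vertex `k` contributes
`iter D (labels of the edges ending at k) (P (I k 0) (I k 1)) ∈ H (c + ω (I k 0) + ω (I k 1) -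
Σ_{e ending at k} ω (I e))` (induction on the list), and the product over `k` is in `H` of the sum
(`Finset` induction).  Finally `Σ_k (ω (I k 0) + ω (I k 1)) = Σ_e ω (I e)` over all half-edges
`e = (v, c)`, and every half-edge ends at exactly one vertex or sink, so
`Σ_e ω (I e) - Σ_k Σ_{e → k} ω (I e) = Σ_{e → sinks} ω (I e) = ω i + ω j` by `G.sink`.
-/

namespace KN

private theorem grdeg_inc (G : Gr) (k : Fin G.n) (f : Fin G.n × Fin 2 → ℤ) :
    ((G.inc k).map f).sum = ∑ e : Fin G.n × Fin 2, if G.tgt e.1 e.2 = Sum.inl k then f e else 0 := by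
  have hnd : (List.finRange G.n ×ˢ List.finRange 2).Nodup :=
    List.Nodup.product (List.nodup_finRange _) (List.nodup_finRange _)
  have hnd2 : (G.inc k).Nodup := hnd.filter _
  have h1 : (G.inc k).toFinset =
      Finset.univ.filter (fun e : Fin G.n × Fin 2 => G.tgt e.1 e.2 = Sum.inl k) := by
    ext e
    rw [List.mem_toFinset, Finset.mem_filter]
    unfold Gr.inc
    rw [List.mem_filter]
    constructor
    · intro h
      exact ⟨Finset.mem_univ _, by simpa using h.2⟩
    · intro h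
      exact ⟨List.pair_mem_product.2 ⟨List.mem_finRange _, List.mem_finRange _⟩, by
        simpa using h.2⟩
  rw [← List.sum_toFinset f hnd2, h1, Finset.sum_filter]

private theorem grdeg_iter {ι R : Type} [CommRing R] (H : ℤ → AddSubgroup R) (D : ι → R → R)
    (ω : ι → ℤ) (hD : ∀ a k x, x ∈ H k → D a x ∈ H (k - ω a)) (l : List ι) (k : ℤ) (x : R)
    (hx : x ∈ H k) : iter D l x ∈ H (k - (l.map ω).sum) := by
  induction l with
  | nil =>
    change x ∈ _
    simpa using hx
  | cons a l ih =>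
    change D a (iter D l x) ∈ _
    have h1 := hD a _ _ ih
    rw [List.map_cons, List.sum_cons]
    have h2 : k - (ω a + (l.map ω).sum) = k - (l.map ω).sum - ω a := by ring
    rw [h2]
    exact h1

private theorem grdeg_prod {α R : Type} [DecidableEq α] [CommRing R] (H : ℤ → AddSubgroup R)
    (h1 : (1 : R) ∈ H 0) (hmul : ∀ a b x y, x ∈ H a → y ∈ H b → x * y ∈ H (a + b))
    (s : Finset α) (f : α → R) (g : α → ℤ) (hf : ∀ k, f k ∈ H (g k)) :
    ∏ k ∈ s, f k ∈ H (∑ k ∈ s, g k) := by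
  induction s using Finset.induction_on with
  | empty => simpa using h1
  | insert b s hb ih =>
    rw [Finset.prod_insert hb, Finset.sum_insert hb]
    exact hmul _ _ _ _ (hf b) ih

private theorem grdeg_sum (G : Gr) (f : Fin G.n × Fin 2 → ℤ) (i j : ℤ)
    (hc : ∀ v c, (G.tgt v c = Sum.inr 0 → f (v, c) = i) ∧ (G.tgt v c = Sum.inr 1 → f (v, c) = j)) :
    ∑ e, f e - ∑ k, ((G.inc k).map f).sum = i + j := by
  have h1 : ∀ e : Fin G.n × Fin 2, f e = (∑ k, if G.tgt e.1 e.2 = Sum.inl k then f e else 0) +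
      ∑ s : Fin 2, if G.tgt e.1 e.2 = Sum.inr s then f e else 0 := by
    intro e
    rcases h : G.tgt e.1 e.2 with k | s
    · simp
    · simp
  have h2 : ∑ k, ((G.inc k).map f).sum =
      ∑ e : Fin G.n × Fin 2, ∑ k, if G.tgt e.1 e.2 = Sum.inl k then f e else 0 := by
    rw [Finset.sum_comm]
    exact Finset.sum_congr rfl fun k _ => grdeg_inc G k f
  have h3 : ∑ e, f e = (∑ e : Fin G.n × Fin 2, ∑ k, if G.tgt e.1 e.2 = Sum.inl k then f e else 0) +
      ∑ e : Fin G.n × Fin 2, ∑ s : Fin 2, if G.tgt e.1 e.2 = Sum.inr s then f e else 0 := by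
    rw [← Finset.sum_add_distrib]
    exact Finset.sum_congr rfl fun e _ => h1 e
  have h4 : ∀ s : Fin 2, (∑ e : Fin G.n × Fin 2, if G.tgt e.1 e.2 = Sum.inr s then f e else 0) =
      if s = 0 then i else j := by
    intro s
    obtain ⟨e, he, hu⟩ := G.sink s
    rw [Finset.sum_eq_single e]
    · rw [if_pos he]
      fin_cases s
      · exact (hc e.1 e.2).1 he
      · exact (hc e.1 e.2).2 he
    · intro e' _ hne
      rw [if_neg]
      intro h
      exact hne (hu e' h)
    · intro h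
      exact absurd (Finset.mem_univ _) h
  rw [h2, h3, add_sub_cancel_left, Finset.sum_comm, Fin.sum_univ_two, h4, h4]
  simp

theorem gr_deg {ι R : Type} [Fintype ι] [DecidableEq ι] [CommRing R] (H : ℤ → AddSubgroup R)
    (h1 : (1 : R) ∈ H 0) (hmul : ∀ a b x y, x ∈ H a → y ∈ H b → x * y ∈ H (a + b))
    (D : ι → R → R) (P : ι → ι → R) (ω : ι → ℤ) (c : ℤ)
    (hD : ∀ a k x, x ∈ H k → D a x ∈ H (k - ω a)) (hP : ∀ a b, P a b ∈ H (c + ω a + ω b))
    (G : Gr) (i j : ι) : G.val D P i j ∈ H (G.n * c + ω i + ω j) := by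
  unfold Gr.val
  refine AddSubgroup.sum_mem _ fun I _ => ?_
  split_ifs with hc
  · have h2 := grdeg_prod H h1 hmul Finset.univ
      (fun k : Fin G.n => iter D ((G.inc k).map fun e => I e.1 e.2) (P (I k 0) (I k 1)))
      (fun k => (c + ω (I k 0) + ω (I k 1)) - (((G.inc k).map fun e => I e.1 e.2).map ω).sum)
      (fun k => grdeg_iter H D ω hD _ _ _ (hP _ _))
    have h3 : ∑ k : Fin G.n, ((c + ω (I k 0) + ω (I k 1)) -
        (((G.inc k).map fun e => I e.1 e.2).map ω).sum) = G.n * c + ω i + ω j := by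
      have h4 := grdeg_sum G (fun e => ω (I e.1 e.2)) (ω i) (ω j) (fun v c =>
        ⟨fun h => congrArg ω ((hc v c).1 h), fun h => congrArg ω ((hc v c).2 h)⟩)
      simp only [List.map_map]
      rw [Fintype.sum_prod_type] at h4
      simp only [Fin.sum_univ_two] at h4
      rw [Finset.sum_sub_distrib]
      have h5 : ∑ k : Fin G.n, (c + ω (I k 0) + ω (I k 1)) =
          G.n * c + ∑ k : Fin G.n, (ω (I k 0) + ω (I k 1)) := by
        simp only [add_assoc]
        rw [Finset.sum_add_distrib]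
        simp
      rw [h5, add_sub_assoc, add_assoc]
      congr 1
    rw [h3] at h2
    exact h2
  · exact AddSubgroup.zero_mem _

theorem val_deg {ι R : Type} [Fintype ι] [DecidableEq ι] [CommRing R] [Algebra ℝ R]
    (H : ℤ → AddSubgroup R) (h1 : (1 : R) ∈ H 0)
    (hmul : ∀ a b x y, x ∈ H a → y ∈ H b → x * y ∈ H (a + b))
    (hsm : ∀ (r : ℝ) a x, x ∈ H a → r • x ∈ H a)
    (D : ι → R → R) (P : ι → ι → R) (ω : ι → ℤ) (c : ℤ)
    (hD : ∀ a k x, x ∈ H k → D a x ∈ H (k - ω a)) (hP : ∀ a b, P a b ∈ H (c + ω a + ω b))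
    (F : Formula) (n : ℕ) (hF : ∀ cg ∈ F, cg.2.n = n) (i j : ι) :
    F.val D P i j ∈ H (n * c + ω i + ω j) := by
  unfold Formula.val
  refine AddSubgroup.list_sum_mem _ ?_
  intro x hx
  obtain ⟨cg, hcg, rfl⟩ := List.mem_map.1 hx
  refine hsm _ _ _ ?_
  have e1 := gr_deg H h1 hmul D P ω c hD hP cg.2 i j
  have e2 := gr_deg H h1 hmul D P ω c hD hP cg.2 j i
  rw [hF cg hcg] at e1 e2
  refine AddSubgroup.sub_mem _ e1 ?_
  have e3 : (n : ℤ) * c + ω i + ω j = n * c + ω j + ω i := by ring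
  rw [e3]
  exact e2

end KN
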