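import Pool.Agent.Work.MP_e214ac_gt.N.GrPt

/-!
# MODULE ItId (size S/M)

Components of `[[P~, Q~]] = 0` for `P~ = Pt P V = P + (V + ∂_s) ∧ ∂_t`, `Q~ = F.val P~`.
Put `Q = F.val P` (`= Q~^{ij}` by `val_pt`), `Z^i = Q~^{it}`, `ζ = Q~^{st}`; `Q~^{is} = 0` by
`val_pt_s`, `Q~` is skew (`val_skew`), `∂_t = 0`, `P~^{is} = 0`, `P~^{st} = 1`.
Write the sum over `ι ⊕ Fin 2` as `Fintype.sum_sum_type` and `Fin.sum_univ_two`.

* (i,j,k)`: `jac D P Q i j k = 0`.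
* (i,s,t)`: `Σ_l P^{il} D_l ζ = 0`.
* (i,j,t)`: `-(Ds Q^{ij} + (L_V Q)^{ij} + (L_Z P)^{ij} + ζ Ds P^{ij}) = 0`.
-/

namespace KN

variable {ι R : Type} [Fintype ι] [DecidableEq ι] [CommRing R] [Algebra ℝ R]
  (D : ι → Derivation ℝ R R) (Ds : Derivation ℝ R R) (P : ι → ι → R) (V : ι → R) (F : Formula)

omit [DecidableEq ι] in
private theorem itid_ijk (W : ι ⊕ Fin 2 → ι ⊕ Fin 2 → R) (hW0 : ∀ i, W (Sum.inl i) (Sum.inr 0) = 0)
    (i j k : ι) :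
    jac (Dt (fn D) Ds) (Pt P V) W (Sum.inl i) (Sum.inl j) (Sum.inl k) =
      jac (fn D) P (fun a b => W (Sum.inl a) (Sum.inl b)) i j k := by
  unfold jac
  rw [Fintype.sum_sum_type, Fin.sum_univ_two]
  simp [Pt, Dt, hW0]

omit [DecidableEq ι] in
private theorem itid_ist (W : ι ⊕ Fin 2 → ι ⊕ Fin 2 → R) (hW0 : ∀ i, W (Sum.inl i) (Sum.inr 0) = 0)
    (hW1 : ∀ i, W (Sum.inr 0) (Sum.inl i) = 0) (hW2 : W (Sum.inr 0) (Sum.inr 0) = 0) (i : ι) :
    jac (Dt (fn D) Ds) (Pt P V) W (Sum.inl i) (Sum.inr 0) (Sum.inr 1) =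
      ∑ l, P i l * D l (W (Sum.inr 0) (Sum.inr 1)) := by
  unfold jac
  rw [Fintype.sum_sum_type, Fin.sum_univ_two]
  simp [Pt, Dt, hW0, hW1, hW2]

omit [DecidableEq ι] in
private theorem itid_ijt (W : ι ⊕ Fin 2 → ι ⊕ Fin 2 → R) (hW0 : ∀ i, W (Sum.inl i) (Sum.inr 0) = 0)
    (hW : ∀ x y, W x y = - W y x) (hP : ∀ i j, P i j = - P j i) (i j : ι) :
    jac (Dt (fn D) Ds) (Pt P V) W (Sum.inl i) (Sum.inl j) (Sum.inr 1) =
      - (Ds (W (Sum.inl i) (Sum.inl j)) + lie (fn D) V (fun a b => W (Sum.inl a) (Sum.inl b)) i j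
        + lie (fn D) (fun k => W (Sum.inl k) (Sum.inr 1)) P i j
        + W (Sum.inr 0) (Sum.inr 1) * Ds (P i j)) := by
  have h1 : jac (Dt (fn D) Ds) (Pt P V) W (Sum.inl i) (Sum.inl j) (Sum.inr 1) =
      - (lie (fn D) V (fun a b => W (Sum.inl a) (Sum.inl b)) i j
        + lie (fn D) (fun k => W (Sum.inl k) (Sum.inr 1)) P i j)
      - (Ds (W (Sum.inl i) (Sum.inl j)) + W (Sum.inr 0) (Sum.inr 1) * Ds (P i j)) := by
    unfold jac lie
    rw [Fintype.sum_sum_type, Fin.sum_univ_two, ← Finset.sum_add_distrib,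
      ← Finset.sum_neg_distrib, sub_eq_add_neg]
    congr 1
    · refine Finset.sum_congr rfl fun l _ => ?_
      simp [Pt, Dt]
      rw [hP l j, hW (Sum.inl l) (Sum.inl j), hW (Sum.inr 1) (Sum.inl i),
        hW (Sum.inr 1) (Sum.inl l)]
      simp only [fn, map_neg]
      ring
    · simp [Pt, Dt, hW0]
      rw [hW (Sum.inr 1) (Sum.inr 0)]
      ring
  rw [h1]
  ring

private theorem itid_W0 (i : ι) :
    F.val (Dt (fn D) Ds) (Pt P V) (Sum.inr 0) (Sum.inl i) = 0 := by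
  rw [val_skew, val_pt_s, neg_zero]

private theorem itid_W00 (W : Formula) (κ : Type) [Fintype κ] [DecidableEq κ] (E : κ → R → R)
    (Q : κ → κ → R) (x : κ) : W.val E Q x x = 0 := by
  unfold Formula.val
  have h1 : (W.map fun cg => cg.1 • (cg.2.val E Q x x - cg.2.val E Q x x)) =
      W.map fun _ => (0 : R) := by
    refine List.map_congr_left fun cg _ => ?_
    rw [sub_self, smul_zero]
  rw [h1]
  simp

theorem it_cocycle (hP : ∀ i j, P i j = - P j i)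
    (h : ∀ x y z, jac (Dt (fn D) Ds) (Pt P V) (F.val (Dt (fn D) Ds) (Pt P V)) x y z = 0)
    (i j k : ι) : jac (fn D) P (F.val (fn D) P) i j k = 0 := by
  have h1 := h (Sum.inl i) (Sum.inl j) (Sum.inl k)
  rw [itid_ijk D Ds P V _ (fun i => val_pt_s D Ds P V F i)] at h1
  simp only [val_pt] at h1
  exact h1

theorem it_zeta (hP : ∀ i j, P i j = - P j i)
    (h : ∀ x y z, jac (Dt (fn D) Ds) (Pt P V) (F.val (Dt (fn D) Ds) (Pt P V)) x y z = 0)
    (i : ι) :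
    ∑ l, P i l * D l (F.val (Dt (fn D) Ds) (Pt P V) (Sum.inr 0) (Sum.inr 1)) = 0 := by
  have h1 := h (Sum.inl i) (Sum.inr 0) (Sum.inr 1)
  rw [itid_ist D Ds P V _ (fun i => val_pt_s D Ds P V F i) (fun i => itid_W0 D Ds P V F i)
    (itid_W00 F _ _ _ _)] at h1
  exact h1

theorem it_identity (hP : ∀ i j, P i j = - P j i)
    (h : ∀ x y z, jac (Dt (fn D) Ds) (Pt P V) (F.val (Dt (fn D) Ds) (Pt P V)) x y z = 0)
    (i j : ι) :
    Ds (F.val (fn D) P i j) + lie (fn D) V (F.val (fn D) P) i j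
      + lie (fn D) (fun k => F.val (Dt (fn D) Ds) (Pt P V) (Sum.inl k) (Sum.inr 1)) P i j
      + F.val (Dt (fn D) Ds) (Pt P V) (Sum.inr 0) (Sum.inr 1) * Ds (P i j) = 0 := by
  have h1 := h (Sum.inl i) (Sum.inl j) (Sum.inr 1)
  rw [itid_ijt D Ds P V _ (fun i => val_pt_s D Ds P V F i) (fun x y => val_skew F _ _ x y) hP,
    neg_eq_zero] at h1
  simp only [val_pt] at h1
  exact h1

end KN
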