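import Pool.Agent.Work.MP_e214ac_gt.N.NamDiv

/-!
# MODULE PtPoisson (size M)

Notation `N^{ij} = nam (D_l a_k) i j`, `P = ρ N`, `V^i = ρ b N^{iq}`, `Ds` a derivation commuting
with the `D i` with `Ds a_k = 0`, `Ds b = 0`, `Ds ρ = ρ² Σ_j N^{jq} D_j b`.
Then `Pt P V = P + (V + ∂_s) ∧ ∂_t` (in dimension `m + 4`, derivations `Dt D Ds`, `∂_t = 0`) is a
Poisson bivector.

`Ds N = 0` since `Ds (D_l a_k) = D_l (Ds a_k) = 0` (determinant of elements killed by `Ds`:
`Matrix.det_apply` and Leibniz, or induct).  Half of `jac Pt Pt` has the components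
(`L_V` = `lie D V`):

* (i,j,k)`: `Σ_l P^{il} D_l P^{jk} + cyclic = ρ Σ_l N^{il} (D_l ρ) N^{jk} + cyc + ρ² (nam_jacobi)`,
  the first sum vanishes by `nam_plucker` (for each `l`: `N^{il} N^{jk} + N^{jl} N^{ki} +
  N^{kl} N^{ij} = 0`).
* (i,j,t)`: `-(L_V P)^{ij} - Ds P^{ij}`.  With `h = ρ b`, `V^l = h N^{lq}`:
  (L_V (ρ N))^{ij}`: the terms with `D_l h`: `ρ Σ_l D_l h (- N^{lj} N^{iq} - N^{il} N^{jq})
   = - ρ Σ_l D_l h N^{lq} N^{ij}` (Plücker), the terms with derivatives of `N`:
  `h ρ Σ_l (N^{lq} D_l N^{ij} - N^{lj} D_l N^{iq} - N^{il} D_l N^{jq}) = 0` by `nam_jacobi` for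
  `i, j, q`, and `h Σ_l N^{lq} (D_l ρ) N^{ij}`.  Altogether
  (L_V P)^{ij} = Σ_l N^{lq} (ρ b D_l ρ - ρ D_l (ρ b)) N^{ij} = - ρ² Σ_l N^{lq} (D_l b) N^{ij}
  = - (Ds ρ) N^{ij} = - Ds P^{ij}`.
* all other components vanish term by term (`Pt (inl i) (inr 0) = 0`, `Pt (inr 0) (inr 1) = 1` is
  constant, `∂_t = 0`).

Skewness of `Pt` : `pt_skew`.
-/

namespace KN

theorem pt_skew {ι R : Type} [CommRing R] (P : ι → ι → R) (V : ι → R)
    (hP : ∀ i j, P i j = - P j i) (a b : ι ⊕ Fin 2) : Pt P V a b = - Pt P V b a := by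
  rcases a with i | c
  · rcases b with j | e
    · exact hP i j
    · fin_cases e <;> simp [Pt]
  · rcases b with j | e
    · fin_cases c <;> simp [Pt]
    · fin_cases c <;> fin_cases e <;> simp [Pt]

private theorem ptp_mul {R : Type} [CommRing R] [Algebra ℝ R] (T : Derivation ℝ R R) (x y : R) :
    T (x * y) = x * T y + y * T x := by
  rw [Derivation.leibniz, smul_eq_mul, smul_eq_mul]

theorem lie_V_nambu {m : ℕ} {R : Type} [CommRing R] [Algebra ℝ R]
    (D : Fin (m + 2) → Derivation ℝ R R) (hD : Comm D) (ρ b : R) (a : Fin m → R)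
    (q i j : Fin (m + 2)) :
    lie (fn D) (fun k => ρ * b * nam (fun k l => D l (a k)) k q) (nambu (fn D) ρ a) i j
      = - (ρ ^ 2 * ∑ l, nam (fun k l => D l (a k)) l q * D l b) * nam (fun k l => D l (a k)) i j := by
  have hJ := nam_jacobi D a hD i j q
  set G : Fin m → Fin (m + 2) → R := fun k l => D l (a k) with hG
  have h1 : lie (fn D) (fun k => ρ * b * nam G k q) (nambu (fn D) ρ a) i j =
      ∑ l, (- (ρ ^ 2 * (nam G l q * D l b)) * nam G i j - ρ ^ 2 * b * (nam G i l * D l (nam G j q)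
        + nam G j l * D l (nam G q i) + nam G q l * D l (nam G i j))) := by
    unfold lie
    refine Finset.sum_congr rfl fun l _ => ?_
    change ρ * b * nam G l q * D l (ρ * nam G i j) - ρ * nam G l j * D l (ρ * b * nam G i q)
      - ρ * nam G i l * D l (ρ * b * nam G j q) = _
    simp only [ptp_mul]
    rw [nam_skew G q i, nam_skew G q l, nam_skew G l j, map_neg]
    linear_combination (ρ * (ρ * D l b + b * D l ρ)) * nam_plucker G i j l q
  rw [h1, Finset.sum_sub_distrib, ← Finset.mul_sum, hJ, mul_zero, sub_zero, ← Finset.sum_mul,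
    Finset.sum_neg_distrib, ← Finset.mul_sum]

theorem nambu_poisson {m : ℕ} {R : Type} [CommRing R] [Algebra ℝ R]
    (D : Fin (m + 2) → Derivation ℝ R R) (hD : Comm D) (ρ : R) (a : Fin m → R)
    (i j k : Fin (m + 2)) :
    jac (fn D) (nambu (fn D) ρ a) (nambu (fn D) ρ a) i j k = 0 := by
  have hJ := nam_jacobi D a hD i j k
  set G : Fin m → Fin (m + 2) → R := fun k l => D l (a k) with hG
  have h1 : jac (fn D) (nambu (fn D) ρ a) (nambu (fn D) ρ a) i j k =
      ∑ l, 2 * ρ ^ 2 * (nam G i l * D l (nam G j k)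
        + nam G j l * D l (nam G k i) + nam G k l * D l (nam G i j)) := by
    unfold jac
    refine Finset.sum_congr rfl fun l _ => ?_
    change ρ * nam G i l * D l (ρ * nam G j k) + ρ * nam G j l * D l (ρ * nam G k i) +
      ρ * nam G k l * D l (ρ * nam G i j) + ρ * nam G i l * D l (ρ * nam G j k) +
      ρ * nam G j l * D l (ρ * nam G k i) + ρ * nam G k l * D l (ρ * nam G i j) = _
    simp only [ptp_mul]
    rw [nam_skew G k i, map_neg]
    linear_combination (2 * ρ * D l ρ) * nam_plucker G i j k l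
  rw [h1, ← Finset.mul_sum, hJ, mul_zero]

private theorem ptp_cyc {κ R : Type} [Fintype κ] [CommRing R] (D : κ → R → R) (P : κ → κ → R)
    (x y z : κ) : jac D P P x y z = jac D P P y z x := by
  unfold jac
  exact Finset.sum_congr rfl fun l _ => by ring

private theorem ptp_ijk {ι R : Type} [Fintype ι] [CommRing R] [Algebra ℝ R]
    (D : ι → Derivation ℝ R R) (Ds : Derivation ℝ R R) (P : ι → ι → R) (V : ι → R) (i j k : ι) :
    jac (Dt (fn D) Ds) (Pt P V) (Pt P V) (Sum.inl i) (Sum.inl j) (Sum.inl k) =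
      jac (fn D) P P i j k := by
  unfold jac
  rw [Fintype.sum_sum_type, Fin.sum_univ_two]
  simp [Pt, Dt]

private theorem ptp_ijt {ι R : Type} [Fintype ι] [CommRing R] [Algebra ℝ R]
    (D : ι → Derivation ℝ R R) (Ds : Derivation ℝ R R) (P : ι → ι → R) (V : ι → R)
    (hP : ∀ i j, P i j = - P j i) (i j : ι) :
    jac (Dt (fn D) Ds) (Pt P V) (Pt P V) (Sum.inl i) (Sum.inl j) (Sum.inr 1) =
      - 2 * (lie (fn D) V P i j + Ds (P i j)) := by
  unfold jac lie
  rw [Fintype.sum_sum_type, Fin.sum_univ_two, mul_add, Finset.mul_sum]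
  congr 1
  · refine Finset.sum_congr rfl fun l _ => ?_
    simp [Pt, Dt]
    rw [hP l j]
    ring
  · simp [Pt, Dt]
    ring

private theorem ptp_kill {m : ℕ} {R : Type} [CommRing R] [Algebra ℝ R] (T : Derivation ℝ R R)
    (G : Fin m → Fin (m + 2) → R) (hG : ∀ k l, T (G k l) = 0) (i j : Fin (m + 2)) :
    T (nam G i j) = 0 := by
  have h1 : ∀ x y, T (nmat G i j x y) = 0 := by
    intro x y
    refine Fin.cases ?_ (fun x => ?_) x
    · change T ((Pi.single i 1 : Fin (m + 2) → R) y) = 0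
      rw [Pi.single_apply]
      split_ifs
      · exact Derivation.map_one_eq_zero _
      · exact map_zero _
    · refine Fin.cases ?_ (fun x => ?_) x
      · change T ((Pi.single j 1 : Fin (m + 2) → R) y) = 0
        rw [Pi.single_apply]
        split_ifs
        · exact Derivation.map_one_eq_zero _
        · exact map_zero _
      · exact hG x y
  unfold nam
  rw [Matrix.det_apply, map_sum]
  refine Finset.sum_eq_zero fun σ _ => ?_
  rw [Units.smul_def, map_zsmul]
  have h2 : T (∏ x, nmat G i j (σ x) x) = 0 := by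
    refine Finset.prod_induction _ (fun x => T x = 0) ?_ ?_ ?_
    · intro x y hx hy
      rw [ptp_mul, hx, hy, mul_zero, mul_zero, add_zero]
    · exact Derivation.map_one_eq_zero _
    · intro x _
      exact h1 _ _
  rw [h2, smul_zero]

theorem pt_poisson {m : ℕ} {R : Type} [CommRing R] [Algebra ℝ R]
    (D : Fin (m + 2) → Derivation ℝ R R) (hD : Comm D) (Ds : Derivation ℝ R R)
    (hDs : ∀ i x, Ds (D i x) = D i (Ds x)) (ρ b : R) (a : Fin m → R) (q : Fin (m + 2))
    (ha : ∀ k, Ds (a k) = 0) (hb : Ds b = 0)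
    (hρ : Ds ρ = ρ ^ 2 * ∑ l, nam (fun k l => D l (a k)) l q * D l b)
    (x y z : Fin (m + 2) ⊕ Fin 2) :
    jac (Dt (fn D) Ds)
      (Pt (nambu (fn D) ρ a) (fun k => ρ * b * nam (fun k l => D l (a k)) k q))
      (Pt (nambu (fn D) ρ a) (fun k => ρ * b * nam (fun k l => D l (a k)) k q)) x y z = 0 := by
  have hP : ∀ i j, nambu (fn D) ρ a i j = - nambu (fn D) ρ a j i := by
    intro i j
    rw [nambu_eq, nambu_eq, nam_skew, mul_neg]
  have hDsP : ∀ i j, Ds (nambu (fn D) ρ a i j) =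
      (ρ ^ 2 * ∑ l, nam (fun k l => D l (a k)) l q * D l b) * nam (fun k l => D l (a k)) i j := by
    intro i j
    rw [nambu_eq, ptp_mul, ← hρ]
    rw [ptp_kill Ds _ (fun k l => by
      change Ds (D l (a k)) = 0
      rw [hDs, ha, map_zero])]
    rw [mul_zero, zero_add, mul_comm]
  have hijt : ∀ i j, jac (Dt (fn D) Ds)
      (Pt (nambu (fn D) ρ a) (fun k => ρ * b * nam (fun k l => D l (a k)) k q))
      (Pt (nambu (fn D) ρ a) (fun k => ρ * b * nam (fun k l => D l (a k)) k q))
      (Sum.inl i) (Sum.inl j) (Sum.inr 1) = 0 := by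
    intro i j
    rw [ptp_ijt D Ds _ _ hP, hDsP, lie_V_nambu D hD]
    ring
  have hijk : ∀ i j k, jac (Dt (fn D) Ds)
      (Pt (nambu (fn D) ρ a) (fun k => ρ * b * nam (fun k l => D l (a k)) k q))
      (Pt (nambu (fn D) ρ a) (fun k => ρ * b * nam (fun k l => D l (a k)) k q))
      (Sum.inl i) (Sum.inl j) (Sum.inl k) = 0 := by
    intro i j k
    rw [ptp_ijk, nambu_poisson D hD]
  generalize nambu (fn D) ρ a = P at *
  generalize (fun k => ρ * b * nam (fun k l => D l (a k)) k q) = V at *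
  rcases x with i | c <;> rcases y with j | d <;> rcases z with k | e
  · exact hijk i j k
  · fin_cases e
    · unfold jac
      rw [Fintype.sum_sum_type, Fin.sum_univ_two]
      simp [Pt, Dt]
    · exact hijt i j
  · fin_cases d
    · unfold jac
      rw [Fintype.sum_sum_type, Fin.sum_univ_two]
      simp [Pt, Dt]
    · rw [ptp_cyc, ptp_cyc]
      exact hijt k i
  · fin_cases d <;> fin_cases e <;> unfold jac <;>
      rw [Fintype.sum_sum_type, Fin.sum_univ_two] <;> simp [Pt, Dt]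
  · fin_cases c
    · unfold jac
      rw [Fintype.sum_sum_type, Fin.sum_univ_two]
      simp [Pt, Dt]
    · rw [ptp_cyc]
      exact hijt j k
  · fin_cases c <;> fin_cases e <;> unfold jac <;>
      rw [Fintype.sum_sum_type, Fin.sum_univ_two] <;> simp [Pt, Dt]
  · fin_cases c <;> fin_cases d <;> unfold jac <;>
      rw [Fintype.sum_sum_type, Fin.sum_univ_two] <;> simp [Pt, Dt]
  · fin_cases c <;> fin_cases d <;> fin_cases e <;> unfold jac <;>
      rw [Fintype.sum_sum_type, Fin.sum_univ_two] <;> simp [Pt, Dt]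

end KN
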