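import Pool.Agent.Work.MP_e214ac_gt.N.H2D
import Pool.Agent.Work.MP_e214ac_gt.N.ItId
import Pool.Agent.Work.MP_e214ac_gt.N.GrDeg
import Pool.Agent.Work.MP_e214ac_gt.N.PtPoisson

/-!
# MODULE LocalMain (size M)

`AlgSymm F` is the algebraic form of the symmetry condition (proved from `IsSymmetry F` in the module
`Transfer`): for every differential ring `S`, all `a_k ∈ S`, all `q`, the bivector
`P~ = Pt (PP) (VD)` over the ring `TT` with `∂_s = evo D (vD D a q)` satisfies `[[P~, F(P~)]] = 0`.

`local_main`: apply `it_cocycle`, `it_zeta`, `it_identity` with `D := der D`,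
`Ds := evo D (vD D a q)`, `P := PP D a`, `V := VD D a q`.
* degrees of `Q = F.val P`, `Z`, `ζ`: `val_deg` with `H k = {x | (k < 0 → x = 0) ∧
  (0 ≤ k → Hom (wt c) k.toNat x)}` (an additive subgroup), index set `Fin (m+2) ⊕ Fin 2`;
  for `c = false` (field `ρ`): base weight `1`, `ω (inl i) = 0`, `ω s = -1`, `ω t = 0`
  (`PP` and `VD` have degree `1`, the constant `1 = P~^{st}` degree `0`, `P~^{is} = 0`, `∂_s` raises the
  degree by `1` = lowers by `ω s`, `hom_evo`; `∂_t = 0`): so `Q` has degree `n`, `ζ` degree `n - 1`;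
  for `c = true` (field `b`): base weight `0`, `ω (inl i) = 0`, `ω s = -1`, `ω t = 1` (`VD` has degree
  `1`): so `Q` has degree `0`, `Z` degree `1`.
  (For `Q` itself use `val_pt`, or the same lemma with index set `Fin (m+2)`.)
* `ζ = 0`: `it_zeta` says `Σ_l P^{il} D_l ζ = 0`, that is `ham P ζ = 0` (`P` is skew), and `K0D`
  (degree `n - 1 ≥ 1`).
* then `H2D`.
-/

open MvPolynomial

namespace KN

/-- the algebraic form of the symmetry condition -/
def AlgSymm (F : Formula) : Prop :=
  ∀ (m : ℕ) (S : Type) [CommRing S] [Algebra ℝ S] (D : Fin (m + 2) → Derivation ℝ S S)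
    (_ : Comm D) (a : Fin m → S) (q : Fin (m + 2)) (x y z : Fin (m + 2) ⊕ Fin 2),
    jac (Dt (fn (der D)) (evo D (vD D a q))) (Pt (PP D a) (VD D a q))
      (F.val (Dt (fn (der D)) (evo D (vD D a q))) (Pt (PP D a) (VD D a q))) x y z = 0

/-- homogeneous elements of integral degree -/
private def lmH {σ S : Type} [CommRing S] (w : σ → ℕ) (k : ℤ) : AddSubgroup (MvPolynomial σ S) where
  carrier := {x | x = 0 ∨ ∃ n : ℕ, (n : ℤ) = k ∧ Hom w n x}
  zero_mem' := Or.inl rfl
  add_mem' := by
    rintro x y (hx | ⟨n, hn, hx⟩) (hy | ⟨n', hn', hy⟩)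
    · left; rw [hx, hy, add_zero]
    · right; exact ⟨n', hn', by rw [hx, zero_add]; exact hy⟩
    · right; exact ⟨n, hn, by rw [hy, add_zero]; exact hx⟩
    · right
      have : n = n' := by omega
      subst this
      exact ⟨n, hn, IsWeightedHomogeneous.add hx hy⟩
  neg_mem' := by
    rintro x (hx | ⟨n, hn, hx⟩)
    · left; rw [hx, neg_zero]
    · right
      refine ⟨n, hn, ?_⟩
      have h1 := IsWeightedHomogeneous.mul (isWeightedHomogeneous_C w (-1 : S)) hx
      simpa using h1

private theorem lmH_nat {σ S : Type} [CommRing S] (w : σ → ℕ) (n : ℕ) (x : MvPolynomial σ S) :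
    x ∈ lmH w (n : ℤ) ↔ Hom w n x := by
  constructor
  · rintro (hx | ⟨n', hn', hx⟩)
    · rw [hx]; exact isWeightedHomogeneous_zero _ _ _
    · have : n' = n := by omega
      rw [← this]; exact hx
  · intro hx
    exact Or.inr ⟨n, rfl, hx⟩

private theorem lmH_of {σ S : Type} [CommRing S] (w : σ → ℕ) (n : ℕ) (k : ℤ)
    (x : MvPolynomial σ S) (hk : (n : ℤ) = k) (h : Hom w n x) : x ∈ lmH w k :=
  Or.inr ⟨n, hk, h⟩

private theorem lmH_to {σ S : Type} [CommRing S] (w : σ → ℕ) (n : ℕ) (k : ℤ)
    (x : MvPolynomial σ S) (hk : (n : ℤ) = k) (h : x ∈ lmH w k) : Hom w n x := by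
  rw [← hk] at h
  exact (lmH_nat w n x).1 h

private theorem lmH_mul {σ S : Type} [CommRing S] (w : σ → ℕ) (a b : ℤ) (x y : MvPolynomial σ S)
    (hx : x ∈ lmH w a) (hy : y ∈ lmH w b) : x * y ∈ lmH w (a + b) := by
  rcases hx with hx | ⟨n, hn, hx⟩
  · left; rw [hx, zero_mul]
  · rcases hy with hy | ⟨n', hn', hy⟩
    · left; rw [hy, mul_zero]
    · right
      exact ⟨n + n', by push_cast; omega, IsWeightedHomogeneous.mul hx hy⟩

private theorem lmH_smul {σ S : Type} [CommRing S] [Algebra ℝ S] (w : σ → ℕ) (r : ℝ) (a : ℤ)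
    (x : MvPolynomial σ S) (hx : x ∈ lmH w a) : r • x ∈ lmH w a := by
  rcases hx with hx | ⟨n, hn, hx⟩
  · left; rw [hx, smul_zero]
  · right
    refine ⟨n, hn, ?_⟩
    have e : r • x = C (algebraMap ℝ S r) * x := by
      rw [Algebra.smul_def]; rfl
    rw [e]
    have h1 := IsWeightedHomogeneous.mul (isWeightedHomogeneous_C w (algebraMap ℝ S r)) hx
    rwa [zero_add] at h1

private theorem lm_rho_f {d : ℕ} {S : Type} [CommRing S] : Hom (wt false) 1 (ρv : TT d S) := by
  have h := isWeightedHomogeneous_X S (wt (d := d) false) ((false, 0) : Bool × (Fin d →₀ ℕ))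
  rw [show wt (d := d) false ((false, 0) : Bool × (Fin d →₀ ℕ)) = 1 by simp [wt]] at h
  exact h

private theorem lm_rho_t {d : ℕ} {S : Type} [CommRing S] : Hom (wt true) 0 (ρv : TT d S) := by
  have h := isWeightedHomogeneous_X S (wt (d := d) true) ((false, 0) : Bool × (Fin d →₀ ℕ))
  rw [show wt (d := d) true ((false, 0) : Bool × (Fin d →₀ ℕ)) = 0 by simp [wt]] at h
  exact h

private theorem lm_b_f {d : ℕ} {S : Type} [CommRing S] : Hom (wt false) 0 (bv : TT d S) := by
  have h := isWeightedHomogeneous_X S (wt (d := d) false) ((true, 0) : Bool × (Fin d →₀ ℕ))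
  rw [show wt (d := d) false ((true, 0) : Bool × (Fin d →₀ ℕ)) = 0 by simp [wt]] at h
  exact h

private theorem lm_b_t {d : ℕ} {S : Type} [CommRing S] : Hom (wt true) 1 (bv : TT d S) := by
  have h := isWeightedHomogeneous_X S (wt (d := d) true) ((true, 0) : Bool × (Fin d →₀ ℕ))
  rw [show wt (d := d) true ((true, 0) : Bool × (Fin d →₀ ℕ)) = 1 by simp [wt]] at h
  exact h

section
variable {m : ℕ} {S : Type} [CommRing S] [Algebra ℝ S]
  (D : Fin (m + 2) → Derivation ℝ S S) (a : Fin m → S) (q : Fin (m + 2))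

private theorem lm_PP_f (i j : Fin (m + 2)) : Hom (wt false) 1 (PP D a i j) :=
  IsWeightedHomogeneous.mul lm_rho_f (isWeightedHomogeneous_C (wt false) _)

private theorem lm_PP_t (i j : Fin (m + 2)) : Hom (wt true) 0 (PP D a i j) :=
  IsWeightedHomogeneous.mul lm_rho_t (isWeightedHomogeneous_C (wt true) _)

private theorem lm_VD_f (k : Fin (m + 2)) : Hom (wt false) 1 (VD D a q k) :=
  IsWeightedHomogeneous.mul (IsWeightedHomogeneous.mul lm_rho_f lm_b_f)
    (isWeightedHomogeneous_C (wt false) _)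

private theorem lm_VD_t (k : Fin (m + 2)) : Hom (wt true) 1 (VD D a q k) :=
  IsWeightedHomogeneous.mul (IsWeightedHomogeneous.mul lm_rho_t lm_b_t)
    (isWeightedHomogeneous_C (wt true) _)

private theorem lm_hom_sum {σ S κ : Type} [CommRing S] (w : σ → ℕ) (n : ℕ) (t : Finset κ)
    (x : κ → MvPolynomial σ S) (h : ∀ i ∈ t, Hom w n (x i)) : Hom w n (∑ i ∈ t, x i) := by
  classical
  induction t using Finset.induction_on with
  | empty => rw [Finset.sum_empty]; exact isWeightedHomogeneous_zero _ _ _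
  | insert a s ha ih =>
    rw [Finset.sum_insert ha]
    exact IsWeightedHomogeneous.add (h a (Finset.mem_insert_self a s))
      (ih fun i hi => h i (Finset.mem_insert_of_mem hi))

private theorem lm_vD_f (e : Bool) :
    Hom (wt false) (1 + if e = false then 1 else 0) (vD D a q e) := by
  cases e
  · have h1 : Hom (wt false) 2 ((ρv : TT (m + 2) S) ^ 2) := by
      have := IsWeightedHomogeneous.mul (lm_rho_f (d := m + 2) (S := S)) lm_rho_f
      rwa [← pow_two] at this
    have h2 : Hom (wt false) 0 (∑ l, NN D a l q * der D l (bv : TT (m + 2) S)) :=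
      lm_hom_sum _ _ _ _ fun l _ => IsWeightedHomogeneous.mul
        (isWeightedHomogeneous_C (wt false) _) (hom_der D false 0 l _ lm_b_f)
    have h3 := IsWeightedHomogeneous.mul h1 h2
    rw [add_zero] at h3
    exact h3
  · exact isWeightedHomogeneous_zero _ _ _

private theorem lm_vD_t (e : Bool) :
    Hom (wt true) (1 + if e = true then 1 else 0) (vD D a q e) := by
  cases e
  · have h1 : Hom (wt true) 0 ((ρv : TT (m + 2) S) ^ 2) := by
      have := IsWeightedHomogeneous.mul (lm_rho_t (d := m + 2) (S := S)) lm_rho_t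
      rwa [← pow_two] at this
    have h2 : Hom (wt true) 1 (∑ l, NN D a l q * der D l (bv : TT (m + 2) S)) :=
      lm_hom_sum _ _ _ _ fun l _ => by
        have := IsWeightedHomogeneous.mul
          (isWeightedHomogeneous_C (wt true) (nam (fun k l => D l (a k)) l q))
          (hom_der D true 1 l _ (lm_b_t (d := m + 2) (S := S)))
        rwa [zero_add] at this
    have := IsWeightedHomogeneous.mul h1 h2
    rw [zero_add] at this
    exact this
  · exact isWeightedHomogeneous_zero _ _ _

private def omf : Fin (m + 2) ⊕ Fin 2 → ℤ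
  | Sum.inl _ => 0
  | Sum.inr c => if c = 0 then -1 else 0

private def omt : Fin (m + 2) ⊕ Fin 2 → ℤ
  | Sum.inl _ => 0
  | Sum.inr c => if c = 0 then -1 else 1

private theorem lm_full_f (F : Formula) (n : ℕ) (hF : ∀ cg ∈ F, cg.2.n = n)
    (x y : Fin (m + 2) ⊕ Fin 2) :
    F.val (Dt (fn (der D)) (evo D (vD D a q))) (Pt (PP D a) (VD D a q)) x y
      ∈ lmH (wt false) ((n : ℤ) * 1 + omf x + omf y) := by
  refine val_deg (lmH (wt false)) (lmH_of _ 0 0 _ rfl (isWeightedHomogeneous_one _ _))
    (fun a b x y => lmH_mul _ a b x y) (fun r a x => lmH_smul _ r a x) _ _ omf 1 ?_ ?_ F n hF x y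
  · rintro (i | c) k x hx
    · rcases hx with hx | ⟨n, hn, hx⟩
      · left
        change der D i x = 0
        rw [hx, map_zero]
      · exact lmH_of _ n _ _ (by simp [omf, hn]) (hom_der D false n i x hx)
    · fin_cases c
      · rcases hx with hx | ⟨n, hn, hx⟩
        · left
          change evo D _ x = 0
          rw [hx, map_zero]
        · exact lmH_of _ (n + 1) _ _ (by simp [omf, hn])
            (hom_evo D false 1 _ (lm_vD_f D a q) n x hx)
      · left; rfl
  · rintro (i | c) (j | e)
    · exact lmH_of _ 1 _ _ (by simp [omf]) (lm_PP_f D a i j)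
    · fin_cases e
      · left; rfl
      · exact lmH_of _ 1 _ _ (by simp [omf]) (lm_VD_f D a q i)
    · fin_cases c
      · left; rfl
      · have h := lmH_of _ 1 (1 + omf (m := m) (Sum.inr 1) + omf (m := m) (Sum.inl j)) _
          (by simp [omf]) (lm_VD_f D a q j)
        exact (lmH (wt false) _).neg_mem h
    · fin_cases c
      · fin_cases e
        · left; rfl
        · exact lmH_of _ 0 _ _ (by simp [omf]) (isWeightedHomogeneous_one _ _)
      · fin_cases e
        · have h := lmH_of _ 0 (1 + omf (m := m) (Sum.inr 1) + omf (m := m) (Sum.inr 0)) _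
            (by simp [omf]) (isWeightedHomogeneous_one S (wt (d := m + 2) false))
          exact (lmH (wt false) _).neg_mem h
        · left; rfl

private theorem lm_full_t (F : Formula) (n : ℕ) (hF : ∀ cg ∈ F, cg.2.n = n)
    (x y : Fin (m + 2) ⊕ Fin 2) :
    F.val (Dt (fn (der D)) (evo D (vD D a q))) (Pt (PP D a) (VD D a q)) x y
      ∈ lmH (wt true) ((n : ℤ) * 0 + omt x + omt y) := by
  refine val_deg (lmH (wt true)) (lmH_of _ 0 0 _ rfl (isWeightedHomogeneous_one _ _))
    (fun a b x y => lmH_mul _ a b x y) (fun r a x => lmH_smul _ r a x) _ _ omt 0 ?_ ?_ F n hF x y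
  · rintro (i | c) k x hx
    · rcases hx with hx | ⟨n, hn, hx⟩
      · left
        change der D i x = 0
        rw [hx, map_zero]
      · exact lmH_of _ n _ _ (by simp [omt, hn]) (hom_der D true n i x hx)
    · fin_cases c
      · rcases hx with hx | ⟨n, hn, hx⟩
        · left
          change evo D _ x = 0
          rw [hx, map_zero]
        · exact lmH_of _ (n + 1) _ _ (by simp [omt, hn])
            (hom_evo D true 1 _ (lm_vD_t D a q) n x hx)
      · left; rfl
  · rintro (i | c) (j | e)
    · exact lmH_of _ 0 _ _ (by simp [omt]) (lm_PP_t D a i j)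
    · fin_cases e
      · left; rfl
      · exact lmH_of _ 1 _ _ (by simp [omt]) (lm_VD_t D a q i)
    · fin_cases c
      · left; rfl
      · have h := lmH_of _ 1 (0 + omt (m := m) (Sum.inr 1) + omt (m := m) (Sum.inl j)) _
          (by simp [omt]) (lm_VD_t D a q j)
        exact (lmH (wt true) _).neg_mem h
    · fin_cases c
      · fin_cases e
        · left; rfl
        · exact lmH_of _ 0 _ _ (by simp [omt]) (isWeightedHomogeneous_one _ _)
      · fin_cases e
        · have h := lmH_of _ 0 (0 + omt (m := m) (Sum.inr 1) + omt (m := m) (Sum.inr 0)) _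
            (by simp [omt]) (isWeightedHomogeneous_one S (wt (d := m + 2) true))
          exact (lmH (wt true) _).neg_mem h
        · left; rfl

end

theorem val_hom (F : Formula) (n : ℕ) (hF : ∀ cg ∈ F, cg.2.n = n) {m : ℕ} {S : Type}
    [CommRing S] [Algebra ℝ S] (D : Fin (m + 2) → Derivation ℝ S S) (a : Fin m → S)
    (i j : Fin (m + 2)) :
    Hom (wt false) n (F.val (fn (der D)) (PP D a) i j) ∧
      Hom (wt true) 0 (F.val (fn (der D)) (PP D a) i j) := by
  have h1 := lm_full_f D a 0 F n hF (Sum.inl i) (Sum.inl j)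
  have h2 := lm_full_t D a 0 F n hF (Sum.inl i) (Sum.inl j)
  rw [val_pt] at h1 h2
  exact ⟨lmH_to _ n _ _ (by simp [omf]) h1, lmH_to _ 0 _ _ (by simp [omt]) h2⟩

theorem local_main (F : Formula) (n : ℕ) (hn : 3 ≤ n) (hF : ∀ cg ∈ F, cg.2.n = n)
    (hA : AlgSymm F) {m : ℕ} {S : Type} [CommRing S] [Algebra ℝ S]
    (D : Fin (m + 2) → Derivation ℝ S S) (hD : Comm D) (a : Fin m → S) (p q : Fin (m + 2))
    (hu : IsUnit (nam (fun k l => D l (a k)) p q)) :
    ∃ X : Fin (m + 2) → TT (m + 2) S, (∀ k, Hom (wt false) (n - 1) (X k)) ∧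
      (∀ k, Hom (wt true) 0 (X k)) ∧
      ∀ i j, lie (fn (der D)) X (PP D a) i j = F.val (fn (der D)) (PP D a) i j := by
  have hPs : ∀ i j, PP D a i j = - PP D a j i := by
    intro i j
    unfold PP NN
    rw [nam_skew, map_neg]
    ring
  have h := hA m S D hD a q
  have hcyc := it_cocycle (der D) (evo D (vD D a q)) (PP D a) (VD D a q) F hPs h
  have hzeta := it_zeta (der D) (evo D (vD D a q)) (PP D a) (VD D a q) F hPs h
  have hid := it_identity (der D) (evo D (vD D a q)) (PP D a) (VD D a q) F hPs h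
  set ζ := F.val (Dt (fn (der D)) (evo D (vD D a q))) (Pt (PP D a) (VD D a q)) (Sum.inr 0)
    (Sum.inr 1) with hζ
  have hζh : Hom (wt false) (n - 1) ζ := by
    have h1 := lm_full_f D a q F n hF (Sum.inr 0) (Sum.inr 1)
    refine lmH_to _ (n - 1) _ _ ?_ h1
    simp only [omf]
    norm_num
    omega
  have hζ0 : ζ = 0 := by
    refine K0D D hD a p q hu (n - 1) (by omega) ζ hζh fun i => ?_
    unfold ham
    have e : ∀ l, PP D a l i * fn (der D) l ζ = - (PP D a i l * der D l ζ) := by
      intro l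
      rw [hPs l i]; simp only [fn]; ring
    rw [Finset.sum_congr rfl fun l _ => e l, Finset.sum_neg_distrib, hzeta i, neg_zero]
  refine H2D D hD a p q hu n hn (F.val (fn (der D)) (PP D a)) (fun i j => val_skew F _ _ i j)
    (fun i j => (val_hom F n hF D a i j).1) (fun i j => (val_hom F n hF D a i j).2) hcyc
    (fun k => F.val (Dt (fn (der D)) (evo D (vD D a q))) (Pt (PP D a) (VD D a q)) (Sum.inl k)
      (Sum.inr 1)) (fun k => ?_) fun i j => ?_
  · have h1 := lm_full_t D a q F n hF (Sum.inl k) (Sum.inr 1)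
    exact lmH_to _ 1 _ _ (by simp [omt]) h1
  · have h1 := hid i j
    rw [hζ0, zero_mul, add_zero] at h1
    exact h1

end KN
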