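import Pool.Agent.Work.MP_e214ac_gt.N.TransU
import Pool.Agent.Work.MP_e214ac_gt.N.LocalMain

/-!
# MODULE Transfer (size M)

`IsSymmetry F → AlgSymm F`, from `transfer_universal`.

For a differential ring (S, D_S)` and `a_k ∈ S`, let `h : W → TT (m+2) S`, `W = WW m`, be the
`ℝ`-algebra homomorphism `X (inl c, K) ↦ X (c, K)`, `X (inr k, K) ↦ C (DK D_S K (a_k))`.  It satisfies
`h (dW i w) = der D_S i (h w)` (`DK_add_single`, `der_C`), `h (∂_s w) = evo D_S (vD D_S a q) (h w)`
(twisted Leibniz rule; on variables `DK_map`), hence `h (Dt .. w) = Dt .. (h w)`,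
`h ∘ PtW = Pt (PP) (VD)` (`nam_map`), and `h` of the expression of `transfer_universal` is the
expression in `AlgSymm` by `val_map`, `jac_map`.
-/

open MvPolynomial
open scoped ContDiff

namespace KN

section
variable {m : ℕ} {S : Type} [CommRing S] [Algebra ℝ S]
  (D : Fin (m + 2) → Derivation ℝ S S) (a : Fin m → S)

/-- the evaluation homomorphism from the universal ring -/
private noncomputable def trh : WW m →ₐ[ℝ] TT (m + 2) S :=
  aeval (fun v => match v.1 with
    | Sum.inl c => X (c, v.2)
    | Sum.inr k => C (DK (fn D) v.2 (a k)))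

private theorem trh_inl (c : Bool) (K : Fin (m + 2) →₀ ℕ) :
    trh D a (X (Sum.inl c, K)) = X (c, K) := by
  unfold trh
  rw [aeval_X]

private theorem trh_inr (k : Fin m) (K : Fin (m + 2) →₀ ℕ) :
    trh D a (X (Sum.inr k, K)) = C (DK (fn D) K (a k)) := by
  unfold trh
  rw [aeval_X]

private theorem trh_C (r : ℝ) : trh D a (C r) = algebraMap ℝ (TT (m + 2) S) r := by
  unfold trh
  rw [aeval_C]

private theorem trh_der (hD : Comm D) (i : Fin (m + 2)) (w : WW m) :
    trh D a (dW m i w) = der D i (trh D a w) := by
  unfold dW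
  induction w using MvPolynomial.induction_on with
  | C r =>
    rw [der_C, trh_C, trh_C, Derivation.map_algebraMap]
    simp
  | add p q hp hq => simp only [map_add, hp, hq]
  | mul_X p v hp =>
    obtain ⟨c, K⟩ := v
    have h1 : trh D a (X (c, K + Finsupp.single i 1)) = der D i (trh D a (X (c, K))) := by
      rcases c with c | k
      · rw [trh_inl, trh_inl, der_X]
      · rw [trh_inr, trh_inr, der_C, DK_add_single (fn D) (fun i j x => hD i j x)]
    rw [Derivation.leibniz, map_mul, Derivation.leibniz, map_add, smul_eq_mul, smul_eq_mul,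
      smul_eq_mul, smul_eq_mul, map_mul, map_mul, der_X, h1, hp]

private theorem trh_a (k : Fin m) : trh D a (aW m k) = C (a k) := by
  unfold aW
  rw [trh_inr, DK_zero]

private theorem trh_N (hD : Comm D) (i j : Fin (m + 2)) : trh D a (NW m i j) = NN D a i j := by
  unfold NW NN
  have h1 := nam_map (trh D a : WW m →+* TT (m + 2) S) (fun k l => dW m l (aW m k)) i j
  have h2 := nam_map (C : S →+* TT (m + 2) S) (fun k l => D l (a k)) i j
  rw [h2]
  refine h1.trans ?_
  congr 1
  funext k l
  change trh D a (dW m l (aW m k)) = C (D l (a k))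
  rw [trh_der D a hD, trh_a, der_C]

private theorem trh_v (hD : Comm D) (q : Fin (m + 2)) (c : Bool) :
    trh D a (vW m q (Sum.inl c)) = vD D a q c := by
  cases c
  · change trh D a (ρW m ^ 2 * ∑ l, NW m l q * dW m l (bW m))
      = ρv ^ 2 * ∑ l, NN D a l q * der D l bv
    rw [map_mul, map_pow, map_sum]
    congr 1
    · rw [ρW, trh_inl, ρv]
    · refine Finset.sum_congr rfl fun l _ => ?_
      rw [map_mul, trh_N D a hD, trh_der D a hD, bW, trh_inl, bv]
  · exact map_zero _

private theorem trh_evo (hD : Comm D) (q : Fin (m + 2)) (w : WW m) :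
    trh D a (evo (fun _ => 0) (vW m q) w) = evo D (vD D a q) (trh D a w) := by
  induction w using MvPolynomial.induction_on with
  | C r => rw [evo_C, trh_C, map_zero, Derivation.map_algebraMap]
  | add x y hp hq => simp only [map_add, hp, hq]
  | mul_X x v hp =>
    obtain ⟨c, K⟩ := v
    have h0 : trh D a (evo (fun _ => 0) (vW m q) (X (c, K)))
        = DK (fn (der D)) K (trh D a (vW m q c)) := by
      rw [evo_X]
      exact DK_map (fn (der (fun _ => 0))) (fn (der D)) (fun x => trh D a x)
        (fun i x => trh_der D a hD i x) K _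
    have h1 : trh D a (evo (fun _ => 0) (vW m q) (X (c, K)))
        = evo D (vD D a q) (trh D a (X (c, K))) := by
      rw [h0]
      rcases c with c | k
      · rw [trh_inl, evo_X, trh_v D a hD]
      · rw [trh_inr, evo_C]
        have h2 : trh D a (vW m q (Sum.inr k)) = 0 := map_zero _
        rw [h2]
        exact (DK_map (R := TT (m + 2) S) (R' := TT (m + 2) S) (fn (der D)) (fn (der D))
          (fun _ => (0 : TT (m + 2) S)) (fun i _ => (map_zero (der D i)).symm) K 0).symm
    rw [Derivation.leibniz, map_mul, Derivation.leibniz, map_add, smul_eq_mul, smul_eq_mul,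
      smul_eq_mul, smul_eq_mul, map_mul, map_mul, h1, hp]

end

theorem transfer (F : Formula) (hF : IsSymmetry F) : AlgSymm F := by
  intro m S _ _ D hD a q x y z
  have h0 := transfer_universal F hF m q x y z
  have hh : ∀ i w, trh D a (Dt (fn (dW m)) (evo (fun _ => 0) (vW m q)) i w)
      = Dt (fn (der D)) (evo D (vD D a q)) i (trh D a w) := by
    intro i w
    rcases i with i | c
    · exact trh_der D a hD i w
    · fin_cases c
      · exact trh_evo D a hD q w
      · exact map_zero _
  have hP : ∀ i j, trh D a (PtW m q i j) = Pt (PP D a) (VD D a q) i j := by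
    intro i j
    rcases i with i | c <;> rcases j with j | e
    · change trh D a (ρW m * nam (fun k l => dW m l (aW m k)) i j) = ρv * NN D a i j
      rw [map_mul, show nam (fun k l => dW m l (aW m k)) i j = NW m i j from rfl,
        trh_N D a hD, ρW, trh_inl, ρv]
    · fin_cases e
      · exact map_zero _
      · change trh D a (ρW m * bW m * NW m i q) = ρv * bv * NN D a i q
        rw [map_mul, map_mul, trh_N D a hD, ρW, bW, trh_inl, trh_inl, ρv, bv]
    · fin_cases c
      · exact map_zero _
      · change trh D a (-(ρW m * bW m * NW m j q)) = -(ρv * bv * NN D a j q)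
        rw [map_neg, map_mul, map_mul, trh_N D a hD, ρW, bW, trh_inl, trh_inl, ρv, bv]
    · fin_cases c <;> fin_cases e
      · exact map_zero _
      · exact map_one _
      · change trh D a (-1) = -1
        rw [map_neg, map_one]
      · exact map_zero _
  have hP' : (fun i j => trh D a (PtW m q i j)) = Pt (PP D a) (VD D a q) := by
    funext i j; exact hP i j
  have h1 := jac_map _ _ (trh D a : WW m →+* TT (m + 2) S) hh (PtW m q)
    (F.val (Dt (fn (dW m)) (evo (fun _ => 0) (vW m q))) (PtW m q)) x y z
  rw [h0, map_zero] at h1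
  have hV : (fun i j => (trh D a : WW m →+* TT (m + 2) S)
      (F.val (Dt (fn (dW m)) (evo (fun _ => 0) (vW m q))) (PtW m q) i j))
      = F.val (Dt (fn (der D)) (evo D (vD D a q))) (Pt (PP D a) (VD D a q)) := by
    funext i j
    have h2 := val_map _ _ (trh D a) hh F (PtW m q) i j
    rw [← hP']
    exact h2
  rw [hV] at h1
  have h3 : (fun i j => (trh D a : WW m →+* TT (m + 2) S) (PtW m q i j))
      = Pt (PP D a) (VD D a q) := hP'
  rw [h3] at h1
  exact h1.symm

end KN
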