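import Pool.Agent.Work.MP_e214ac_gt.N.HomDec
import Pool.Agent.Work.MP_e214ac_gt.N.Glue
import Pool.Agent.Work.MP_e214ac_gt.N.Transfer

/-!
# MODULE Final (size M)

The main theorem.

(1) For every `n`, `F.part n` is a symmetry (`part_symm`), all its graphs have `n` vertices, so
`transfer` and `glue` give `X_n` over `CC m` for `3 ≤ n`; for `n < 3` the part is empty (its value is
zero).  With `N` larger than all numbers of vertices, `X = Σ_{3 ≤ n < N} X_n` satisfies
`L_X P = F(P)` over `CC m` (`val_sum`, `lie_add_left`).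
(2) Let `W' = DP (Option (Fin m)) (m+2) ℝ` and let `κ : TT (m+2) (CC m) → W'` be the `ℝ`-algebra
homomorphism with `X (false, K) ↦ X (none, K)`, `X (true, K) ↦ 0`, `C (X (k, K)) ↦ X (some k, K)`.  It
intertwines `der (dC m) i` and `der 0 i` (induct), sends `PP` to
`nambu (der 0) (X (none, 0)) (X (some k, 0))`.  Put `Ξ k = κ (X k)`: `L_Ξ P = F(P)` over `W'`
(`lie_map`, `val_map`, `nambu_map`).
(3) Evaluate: for smooth `ρ, a_k` on `U`, with `u none = ρ`, `u (some k) = a_k`, `inc = id`:
`evj` of the Nambu bivector of `W'` is `nambu pd ρ a` at the points of `U` (`pd_evj`), so by `val_evj`,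
`lie_evj`, `val_congr` the identity holds at the points of `U`, and `evj (Ξ k)` is smooth on `U`.
-/

open MvPolynomial
open scoped ContDiff

namespace KN

section
variable (m : ℕ)

/-- the base homomorphism -/
private noncomputable def fb : CC m →ₐ[ℝ] DP (Option (Fin m)) (m + 2) ℝ :=
  aeval (fun v => X (some v.1, v.2))

private theorem fb_X (k : Fin m) (K : Fin (m + 2) →₀ ℕ) : fb m (X (k, K)) = X (some k, K) := by
  unfold fb
  rw [aeval_X]

private theorem fb_der (i : Fin (m + 2)) (x : CC m) :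
    fb m (dC m i x) = der (fun _ => 0) i (fb m x) := by
  unfold dC
  induction x using MvPolynomial.induction_on with
  | C r =>
    have h : fb m (C r) = C r := by
      unfold fb
      rw [aeval_C]; rfl
    rw [der_C, h, der_C]
    simp
  | add p q hp hq => simp only [map_add, hp, hq]
  | mul_X p v hp =>
    obtain ⟨c, K⟩ := v
    rw [Derivation.leibniz, map_mul, Derivation.leibniz, map_add, smul_eq_mul, smul_eq_mul,
      smul_eq_mul, smul_eq_mul, map_mul, map_mul, der_X, fb_X, fb_X, der_X, hp]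

/-- the homomorphism forgetting the field `b` -/
private noncomputable def fk : TT (m + 2) (CC m) →ₐ[ℝ] DP (Option (Fin m)) (m + 2) ℝ :=
  aevalTower (fb m) (fun v => if v.1 = false then X (none, v.2) else 0)

private theorem fk_C (s : CC m) : fk m (C s) = fb m s := by
  unfold fk
  exact aevalTower_C _ _ _

private theorem fk_X (c : Bool) (K : Fin (m + 2) →₀ ℕ) :
    fk m (X (c, K)) = if c = false then X (none, K) else 0 := by
  unfold fk
  exact aevalTower_X _ _ _

private theorem fk_der (i : Fin (m + 2)) (x : TT (m + 2) (CC m)) :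
    fk m (der (dC m) i x) = der (fun _ => 0) i (fk m x) := by
  induction x using MvPolynomial.induction_on with
  | C s => rw [der_C, fk_C, fk_C, fb_der]
  | add p q hp hq => simp only [map_add, hp, hq]
  | mul_X p v hp =>
    obtain ⟨c, K⟩ := v
    have h1 : fk m (X (c, K + Finsupp.single i 1)) = der (fun _ => 0) i (fk m (X (c, K))) := by
      rw [fk_X, fk_X]
      split_ifs
      · rw [der_X]
      · rw [map_zero]
    rw [Derivation.leibniz, map_mul, Derivation.leibniz, map_add, smul_eq_mul, smul_eq_mul,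
      smul_eq_mul, smul_eq_mul, map_mul, map_mul, der_X, h1, hp]

end

private theorem fin_lie_sum {ι R : Type} [Fintype ι] [CommRing R] [Algebra ℝ R]
    (D : ι → Derivation ℝ R R) (s : Finset ℕ) (X : ℕ → ι → R) (P : ι → ι → R) (i j : ι) :
    lie (fn D) (fun k => ∑ n ∈ s, X n k) P i j = ∑ n ∈ s, lie (fn D) (X n) P i j := by
  classical
  induction s using Finset.induction_on with
  | empty =>
    unfold lie
    simp
  | insert a s ha ih =>
    rw [Finset.sum_insert ha, ← ih, ← lie_add_left]
    congr 1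
    funext k
    rw [Finset.sum_insert ha]

private theorem fin_alg (F : Formula) (hF : IsSymmetry F) (h3 : ∀ cg ∈ F, 3 ≤ cg.2.n) (m : ℕ) :
    ∃ X : Fin (m + 2) → TT (m + 2) (CC m), ∀ i j,
      lie (fn (der (dC m))) X (PP (dC m) (aC m)) i j
        = F.val (fn (der (dC m))) (PP (dC m) (aC m)) i j := by
  classical
  have h : ∀ n, ∃ X : Fin (m + 2) → TT (m + 2) (CC m), ∀ i j,
      lie (fn (der (dC m))) X (PP (dC m) (aC m)) i j
        = (F.part n).val (fn (der (dC m))) (PP (dC m) (aC m)) i j := by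
    intro n
    by_cases hn : 3 ≤ n
    · exact glue (F.part n) n hn (part_n F n) (transfer _ (part_symm F hF n)) m
    · refine ⟨fun _ => 0, fun i j => ?_⟩
      have he : F.part n = [] := by
        unfold Formula.part
        rw [List.filter_eq_nil_iff]
        intro cg hcg
        have := h3 cg hcg
        simp
        omega
      rw [he]
      unfold lie Formula.val
      simp
  choose X hX using h
  obtain ⟨N, hN⟩ : ∃ N : ℕ, ∀ cg ∈ F, cg.2.n < N := by
    clear hF h3 hX X
    induction F with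
    | nil => exact ⟨0, by simp⟩
    | cons c F ih =>
      obtain ⟨N, hN⟩ := ih
      refine ⟨max N (c.2.n + 1), ?_⟩
      intro cg hcg
      rcases List.mem_cons.1 hcg with h | h
      · rw [h]; exact lt_of_lt_of_le (Nat.lt_succ_self _) (le_max_right _ _)
      · exact lt_of_lt_of_le (hN cg h) (le_max_left _ _)
  refine ⟨fun k => ∑ n ∈ Finset.range N, X n k, fun i j => ?_⟩
  rw [fin_lie_sum, val_sum F N hN]
  exact Finset.sum_congr rfl fun n _ => hX n i j

private theorem fin_lie_congr {ι : Type} [Fintype ι] [DecidableEq ι] {U : Set (ι → ℝ)}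
    (hU : IsOpen U) (X : ι → (ι → ℝ) → ℝ) (P P' : ι → ι → (ι → ℝ) → ℝ)
    (h : ∀ i j, ∀ x ∈ U, P i j x = P' i j x) (i j : ι) (x : ι → ℝ) (hx : x ∈ U) :
    lie pd X P i j x = lie pd X P' i j x := by
  unfold lie
  rw [Finset.sum_apply, Finset.sum_apply]
  refine Finset.sum_congr rfl fun l _ => ?_
  simp only [Pi.sub_apply, Pi.mul_apply]
  rw [pd_congr hU l (P i j) (P' i j) (h i j) x hx, h l j x hx, h i l x hx]

theorem main (F : Formula) (hF : IsSymmetry F) (h3 : ∀ cg ∈ F, 3 ≤ cg.2.n) (m : ℕ) :
    ∃ Ξ : Fin (m + 2) → MvPolynomial (Option (Fin m) × (Fin (m + 2) →₀ ℕ)) ℝ,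
      ∀ (U : Set (Fin (m + 2) → ℝ)) (ρ : (Fin (m + 2) → ℝ) → ℝ)
        (a : Fin m → (Fin (m + 2) → ℝ) → ℝ),
        IsOpen U → ContDiffOn ℝ ∞ ρ U → (∀ k, ContDiffOn ℝ ∞ (a k) U) →
        (∀ k, ContDiffOn ℝ ∞ (fun x => MvPolynomial.eval
          (fun v => DK pd v.2 (v.1.elim ρ a) x) (Ξ k)) U) ∧
        ∀ x ∈ U, ∀ i j, F.val pd (nambu pd ρ a) i j x
          = lie pd (fun k x => MvPolynomial.eval (fun v => DK pd v.2 (v.1.elim ρ a) x) (Ξ k))
              (nambu pd ρ a) i j x := by
  obtain ⟨X0, hX0⟩ := fin_alg F hF h3 m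
  set D0 : Fin (m + 2) → DP (Option (Fin m)) (m + 2) ℝ → DP (Option (Fin m)) (m + 2) ℝ :=
    fn (der (fun _ => 0)) with hD0
  set P : Fin (m + 2) → Fin (m + 2) → DP (Option (Fin m)) (m + 2) ℝ :=
    nambu D0 (X (none, 0)) (fun k => X (some k, 0)) with hP
  have hPk : ∀ i j, fk m (PP (dC m) (aC m) i j) = P i j := by
    intro i j
    rw [PP_eq_nambu, hP]
    have h1 := nambu_map (fn (der (dC m))) D0 (fk m : TT (m + 2) (CC m) →+* _)
      (fun i x => fk_der m i x) ρv (fun k => C (aC m k)) i j
    refine h1.trans ?_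
    congr 1
    · change fk m ρv = _
      rw [ρv, fk_X]; simp
    · funext k
      change fk m (C (aC m k)) = _
      rw [fk_C, aC, fb_X]
  have hPf : (fun i j => fk m (PP (dC m) (aC m) i j)) = P := by
    funext i j; exact hPk i j
  set Ξ : Fin (m + 2) → DP (Option (Fin m)) (m + 2) ℝ := fun k => fk m (X0 k) with hΞ
  have hid : ∀ i j, lie D0 Ξ P i j = F.val D0 P i j := by
    intro i j
    have h1 := congrArg (fk m) (hX0 i j)
    have h2 := lie_map (fn (der (dC m))) D0 (fk m : TT (m + 2) (CC m) →+* _)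
      (fun i x => fk_der m i x) X0 (PP (dC m) (aC m)) i j
    have h3 := val_map (fn (der (dC m))) D0 (fk m) (fun i x => fk_der m i x) F
      (PP (dC m) (aC m)) i j
    have h4 : (fun i j => (fk m : TT (m + 2) (CC m) →+* _) (PP (dC m) (aC m) i j)) = P := hPf
    rw [h4] at h2
    rw [hPf] at h3
    exact (h2.symm.trans h1).trans h3
  refine ⟨Ξ, ?_⟩
  intro U ρ a hU hρ ha
  set u : Option (Fin m) → (Fin (m + 2) → ℝ) → ℝ := fun c => c.elim ρ a with hu
  have hus : ∀ c, ContDiffOn ℝ ∞ (u c) U := by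
    intro c
    cases c with
    | none => exact hρ
    | some k => exact ha k
  have hD : ∀ i w, ∀ x ∈ U, pd i (evj id u w) x = evj id u (D0 i w) x :=
    fun i w x hx => pd_evj hU id u hus i w x hx
  have hPe : ∀ i j, ∀ x ∈ U, nambu pd ρ a i j x = evj id u (P i j) x := by
    intro i j x hx
    rw [hP, nambu_eq, nambu_eq]
    have h1 := nam_map (Pi.evalRingHom (fun _ : Fin (m + 2) → ℝ => ℝ) x)
      (fun k l => pd l (a k)) i j
    have h2 := nam_map (eval (fun v : Option (Fin m) × (Fin (m + 2) →₀ ℕ) =>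
      DK (fun i => pd (id i)) v.2 (u v.1) x)) (fun k l => D0 l (X (some k, 0))) i j
    rw [Pi.mul_apply]
    unfold evj
    rw [map_mul, h2]
    congr 1
    · rw [eval_X, DK_zero]
      rfl
    · refine h1.trans ?_
      congr 1
      funext k l
      have h3 := hD l (X (some k, 0)) x hx
      have h4 : evj id u (X (some k, 0)) = a k := by
        funext y
        unfold evj
        rw [eval_X, DK_zero]
        rfl
      rw [h4] at h3
      exact h3
  refine ⟨fun k => evj_smooth hU id u hus (Ξ k), fun x hx i j => ?_⟩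
  rw [val_congr hU F (nambu pd ρ a) (fun i j => evj id u (P i j)) hPe i j x hx,
    val_evj hU id u hus hD F P i j x hx, ← hid i j,
    ← lie_evj hU id u hus hD Ξ P i j x hx,
    fin_lie_congr hU _ (nambu pd ρ a) (fun i j => evj id u (P i j)) hPe i j x hx]
  rfl

end KN
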