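import Pool.Agent.Work.MP_e214ac_gt.N.AlgDefs

/-!
# MODULE Frame (change of commuting frames, size M)

`D` is a family of commuting derivations of `R`, `J` and `M` are inverse matrices over `R`, the rows
of `J` are closed (`D_i J_{ak} = D_k J_{ai}`), `E_a = frame D M a = Σ_k M_{ka} D_k`.

* `frame_M`: from `M J = 1` one gets `E_a(M) = - M E_a(J) M`, that is
  `E_a M_{kb} = - Σ_{c,l,i} M_{kc} M_{ia} (D_i J_{cl}) M_{lb}`, which is symmetric in `a, b` by
  closedness.
* `frame_comm`: `E_a (E_b x) = Σ_k E_a(M_{kb}) D_k x + Σ_{k,l} M_{kb} M_{la} D_l D_k x`, symmetric in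
  `a, b` by `frame_M` and the commutation of the `D`.
* `lie_frame`, `jac_frame`, `ham_frame`: the components of tensors in the frame `E` and in the frame
  `D` are related by `X_D^i = Σ_a M_{ia} X^a`, `P_D^{ij} = Σ_{a,b} M_{ia} M_{jb} P^{ab}`; the
  operations `lie`, `jac` (for skew arguments), `ham` are compatible with the change of frame.
  Main remark: `Σ_k X_D^k D_k = Σ_a X^a E_a` and `Σ_k P_D^{ik} D_k = Σ_{a,b} M_{ia} P^{ab} E_b`; the
  terms with derivatives of `M` cancel by `hM` (and, for `jac`, by skewness of `P` and `Q`).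
-/

namespace KN

variable {d : ℕ} {R : Type} [CommRing R] [Algebra ℝ R] (D : Fin d → Derivation ℝ R R)

theorem frame_apply (M : Fin d → Fin d → R) (a : Fin d) (x : R) :
    frame D M a x = ∑ k, M k a * D k x := by
  unfold frame
  have h1 : ∀ s : Finset (Fin d), (∑ k ∈ s, M k a • D k) x = ∑ k ∈ s, M k a * D k x := by
    intro s
    classical
    induction s using Finset.induction_on with
    | empty => simp
    | insert b s hb ih =>
      rw [Finset.sum_insert hb, Finset.sum_insert hb, Derivation.add_apply, ih]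
      rfl
  exact h1 _

theorem frame_M (J M : Matrix (Fin d) (Fin d) R) (hJM : J * M = 1) (hMJ : M * J = 1)
    (hJ : ∀ a i k, D i (J a k) = D k (J a i)) (a b k : Fin d) :
    frame D M a (M k b) = frame D M b (M k a) := by
  have key : ∀ (E : Derivation ℝ R R) (b : Fin d), E (M k b) =
      - ∑ l, ∑ c, M k c * E (J c l) * M l b := by
    intro E b
    have h1 : ∀ l, ∑ c, (M k c * E (J c l) + J c l * E (M k c)) = 0 := by
      intro l
      have h2 : ∑ c, M k c * J c l = (1 : Matrix (Fin d) (Fin d) R) k l := by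
        rw [← hMJ, Matrix.mul_apply]
      have h3 := congrArg E h2
      rw [map_sum] at h3
      simp only [Derivation.leibniz, smul_eq_mul] at h3
      rw [h3, Matrix.one_apply]
      split_ifs
      · exact Derivation.map_one_eq_zero _
      · exact map_zero _
    have h4 : ∑ l, (∑ c, (M k c * E (J c l) + J c l * E (M k c))) * M l b = 0 := by
      refine Finset.sum_eq_zero fun l _ => ?_
      rw [h1, zero_mul]
    have h5 : ∑ l, (∑ c, (M k c * E (J c l) + J c l * E (M k c))) * M l b =
        (∑ l, ∑ c, M k c * E (J c l) * M l b) + ∑ l, ∑ c, E (M k c) * (J c l * M l b) := by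
      rw [← Finset.sum_add_distrib]
      refine Finset.sum_congr rfl fun l _ => ?_
      rw [Finset.sum_mul, ← Finset.sum_add_distrib]
      refine Finset.sum_congr rfl fun c _ => ?_
      ring
    have h6 : ∑ l, ∑ c, E (M k c) * (J c l * M l b) = E (M k b) := by
      rw [Finset.sum_comm]
      have h7 : ∀ c, ∑ l, E (M k c) * (J c l * M l b) =
          E (M k c) * (1 : Matrix (Fin d) (Fin d) R) c b := by
        intro c
        rw [← Finset.mul_sum, ← hJM, Matrix.mul_apply]
      simp only [h7, Matrix.one_apply]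
      simp
    rw [h5, h6] at h4
    rw [eq_neg_iff_add_eq_zero, add_comm]
    exact h4
  rw [key, key, neg_inj]
  have h8 : ∀ a b : Fin d, ∑ l, ∑ c, M k c * frame D M a (J c l) * M l b =
      ∑ l, ∑ i, ∑ c, M k c * M i a * M l b * D i (J c l) := by
    intro a b
    refine Finset.sum_congr rfl fun l _ => ?_
    rw [Finset.sum_comm]
    refine Finset.sum_congr rfl fun c _ => ?_
    have h9 : frame D M a (J c l) = ∑ i, M i a * D i (J c l) := frame_apply D M a _
    rw [h9, Finset.mul_sum, Finset.sum_mul]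
    refine Finset.sum_congr rfl fun i _ => ?_
    ring
  rw [h8, h8, Finset.sum_comm]
  refine Finset.sum_congr rfl fun l _ => Finset.sum_congr rfl fun i _ =>
    Finset.sum_congr rfl fun c _ => ?_
  rw [hJ c i l]
  ring

theorem frame_comm (hD : Comm D) (J M : Matrix (Fin d) (Fin d) R) (hJM : J * M = 1)
    (hMJ : M * J = 1) (hJ : ∀ a i k, D i (J a k) = D k (J a i)) : Comm (frame D M) := by
  intro a b x
  have h1 : ∀ a b : Fin d, frame D M a (frame D M b x) =
      (∑ k, frame D M a (M k b) * D k x) + ∑ k, ∑ l, M k a * M l b * D k (D l x) := by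
    intro a b
    rw [frame_apply D M b, map_sum]
    have h2 : ∀ k, frame D M a (M k b * D k x) =
        frame D M a (M k b) * D k x + ∑ l, M l a * M k b * D l (D k x) := by
      intro k
      rw [Derivation.leibniz, smul_eq_mul, smul_eq_mul, frame_apply D M a (D k x), add_comm,
        mul_comm, Finset.mul_sum]
      congr 1
      refine Finset.sum_congr rfl fun l _ => ?_
      ring
    simp only [h2]
    rw [Finset.sum_add_distrib]
    congr 1
    exact Finset.sum_comm
  rw [h1, h1]
  congr 1
  · refine Finset.sum_congr rfl fun k _ => ?_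
    rw [frame_M D J M hJM hMJ hJ]
  · rw [Finset.sum_comm]
    refine Finset.sum_congr rfl fun k _ => Finset.sum_congr rfl fun l _ => ?_
    rw [hD l k]
    ring

/-- components of a vector field in the frame `D` from those in the frame `E` -/
def toD1 (M : Fin d → Fin d → R) (X : Fin d → R) (i : Fin d) : R := ∑ a, M i a * X a

/-- components of a 2-tensor in the frame `D` from those in the frame `E` -/
def toD2 (M : Fin d → Fin d → R) (P : Fin d → Fin d → R) (i j : Fin d) : R :=
  ∑ a, ∑ b, M i a * M j b * P a b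

private theorem fr_one (M : Fin d → Fin d → R) (X : Fin d → R) (y : R) :
    ∑ l, toD1 M X l * D l y = ∑ c, X c * frame D M c y := by
  simp only [toD1, Finset.sum_mul, frame_apply, Finset.mul_sum]
  rw [Finset.sum_comm]
  refine Finset.sum_congr rfl fun l _ => Finset.sum_congr rfl fun c _ => ?_
  ring

private theorem fr_left (M : Fin d → Fin d → R) (P : Fin d → Fin d → R) (j : Fin d) (y : R) :
    ∑ l, toD2 M P l j * D l y = ∑ a, ∑ b, M j b * P a b * frame D M a y := by
  simp only [toD2, Finset.sum_mul, frame_apply, Finset.mul_sum]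
  rw [Finset.sum_comm]
  refine Finset.sum_congr rfl fun a _ => ?_
  rw [Finset.sum_comm]
  refine Finset.sum_congr rfl fun b _ => Finset.sum_congr rfl fun l _ => ?_
  ring

private theorem fr_right (M : Fin d → Fin d → R) (P : Fin d → Fin d → R) (i : Fin d) (y : R) :
    ∑ l, toD2 M P i l * D l y = ∑ a, ∑ b, M i a * P a b * frame D M b y := by
  simp only [toD2, Finset.sum_mul, frame_apply, Finset.mul_sum]
  rw [Finset.sum_comm]
  refine Finset.sum_congr rfl fun a _ => ?_
  rw [Finset.sum_comm]
  refine Finset.sum_congr rfl fun b _ => Finset.sum_congr rfl fun l _ => ?_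
  ring

theorem lie_frame (M : Fin d → Fin d → R)
    (hM : ∀ a b k, frame D M a (M k b) = frame D M b (M k a)) (X : Fin d → R)
    (P : Fin d → Fin d → R) (i j : Fin d) :
    lie (fn D) (toD1 M X) (toD2 M P) i j = toD2 M (lie (fn (frame D M)) X P) i j := by
  have h0 : lie (fn D) (toD1 M X) (toD2 M P) i j =
      (∑ l, toD1 M X l * D l (toD2 M P i j)) - (∑ l, toD2 M P l j * D l (toD1 M X i))
        - ∑ l, toD2 M P i l * D l (toD1 M X j) := by
    unfold lie
    rw [Finset.sum_sub_distrib, Finset.sum_sub_distrib]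
  rw [h0, fr_one, fr_left, fr_right]
  have h1 : ∑ c, X c * frame D M c (toD2 M P i j) = ∑ a, ∑ b, ∑ c,
      (X c * frame D M c (M i a) * M j b * P a b + X c * M i a * frame D M c (M j b) * P a b
        + X c * M i a * M j b * frame D M c (P a b)) := by
    have h2 : ∀ c, X c * frame D M c (toD2 M P i j) = ∑ a, ∑ b,
        (X c * frame D M c (M i a) * M j b * P a b + X c * M i a * frame D M c (M j b) * P a b
          + X c * M i a * M j b * frame D M c (P a b)) := by
      intro c
      unfold toD2
      rw [map_sum, Finset.mul_sum]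
      refine Finset.sum_congr rfl fun a _ => ?_
      rw [map_sum, Finset.mul_sum]
      refine Finset.sum_congr rfl fun b _ => ?_
      simp only [Derivation.leibniz, smul_eq_mul]
      ring
    simp only [h2]
    rw [Finset.sum_comm]
    refine Finset.sum_congr rfl fun a _ => ?_
    rw [Finset.sum_comm]
  have h3 : ∑ a, ∑ b, M j b * P a b * frame D M a (toD1 M X i) = ∑ a, ∑ b, ∑ c,
      (M j b * P a b * frame D M a (M i c) * X c + M i a * M j b * P c b * frame D M c (X a)) := by
    have h4 : ∑ a, ∑ b, M j b * P a b * frame D M a (toD1 M X i) = (∑ a, ∑ b, ∑ c,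
        M j b * P a b * frame D M a (M i c) * X c) +
          ∑ a, ∑ b, ∑ c, M i c * M j b * P a b * frame D M a (X c) := by
      rw [← Finset.sum_add_distrib]
      refine Finset.sum_congr rfl fun a _ => ?_
      rw [← Finset.sum_add_distrib]
      refine Finset.sum_congr rfl fun b _ => ?_
      rw [← Finset.sum_add_distrib]
      unfold toD1
      rw [map_sum, Finset.mul_sum]
      refine Finset.sum_congr rfl fun c _ => ?_
      rw [Derivation.leibniz, smul_eq_mul, smul_eq_mul]
      ring
    have h5 : ∑ a, ∑ b, ∑ c, M i c * M j b * P a b * frame D M a (X c) =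
        ∑ a, ∑ b, ∑ c, M i a * M j b * P c b * frame D M c (X a) := by
      calc ∑ a, ∑ b, ∑ c, M i c * M j b * P a b * frame D M a (X c)
          = ∑ a, ∑ c, ∑ b, M i c * M j b * P a b * frame D M a (X c) :=
            Finset.sum_congr rfl fun a _ => Finset.sum_comm
        _ = ∑ c, ∑ a, ∑ b, M i c * M j b * P a b * frame D M a (X c) := Finset.sum_comm
        _ = _ := Finset.sum_congr rfl fun c _ => Finset.sum_comm
    rw [h4, h5, ← Finset.sum_add_distrib]
    refine Finset.sum_congr rfl fun a _ => ?_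
    rw [← Finset.sum_add_distrib]
    refine Finset.sum_congr rfl fun b _ => ?_
    rw [← Finset.sum_add_distrib]
  have h6 : ∑ a, ∑ b, M i a * P a b * frame D M b (toD1 M X j) = ∑ a, ∑ b, ∑ c,
      (M i a * P a b * frame D M b (M j c) * X c + M i a * M j b * P a c * frame D M c (X b)) := by
    refine Finset.sum_congr rfl fun a _ => ?_
    have h4 : ∑ b, M i a * P a b * frame D M b (toD1 M X j) = (∑ b, ∑ c,
        M i a * P a b * frame D M b (M j c) * X c) +
          ∑ b, ∑ c, M i a * M j c * P a b * frame D M b (X c) := by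
      rw [← Finset.sum_add_distrib]
      refine Finset.sum_congr rfl fun b _ => ?_
      rw [← Finset.sum_add_distrib]
      unfold toD1
      rw [map_sum, Finset.mul_sum]
      refine Finset.sum_congr rfl fun c _ => ?_
      rw [Derivation.leibniz, smul_eq_mul, smul_eq_mul]
      ring
    have h5 : ∑ b, ∑ c, M i a * M j c * P a b * frame D M b (X c) =
        ∑ b, ∑ c, M i a * M j b * P a c * frame D M c (X b) := Finset.sum_comm
    rw [h4, h5, ← Finset.sum_add_distrib]
    refine Finset.sum_congr rfl fun b _ => ?_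
    rw [← Finset.sum_add_distrib]
  rw [h1, h3, h6]
  unfold toD2 lie
  rw [← Finset.sum_sub_distrib, ← Finset.sum_sub_distrib]
  refine Finset.sum_congr rfl fun a _ => ?_
  rw [← Finset.sum_sub_distrib, ← Finset.sum_sub_distrib]
  refine Finset.sum_congr rfl fun b _ => ?_
  rw [← Finset.sum_sub_distrib, ← Finset.sum_sub_distrib, Finset.mul_sum]
  refine Finset.sum_congr rfl fun c _ => ?_
  rw [hM a c i, hM b c j]
  simp only [fn]
  ring

theorem ham_frame (M : Fin d → Fin d → R) (P : Fin d → Fin d → R) (g : R) (i : Fin d) :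
    ham (fn D) (toD2 M P) g i = toD1 M (ham (fn (frame D M)) P g) i := by
  unfold ham
  have h1 := fr_left D M P i g
  simp only [fn]
  rw [h1, Finset.sum_comm]
  unfold toD1
  refine Finset.sum_congr rfl fun b _ => ?_
  rw [Finset.mul_sum]
  refine Finset.sum_congr rfl fun a _ => ?_
  ring

omit [Algebra ℝ R] in
private theorem fr_perm (F : Fin d → Fin d → Fin d → Fin d → R) :
    ∑ a, ∑ b, ∑ c, ∑ e, F a b c e = ∑ e, ∑ c, ∑ a, ∑ b, F a b c e := by
  calc ∑ a, ∑ b, ∑ c, ∑ e, F a b c e
      = ∑ a, ∑ b, ∑ e, ∑ c, F a b c e :=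
        Finset.sum_congr rfl fun a _ => Finset.sum_congr rfl fun b _ => Finset.sum_comm
    _ = ∑ a, ∑ e, ∑ b, ∑ c, F a b c e := Finset.sum_congr rfl fun a _ => Finset.sum_comm
    _ = ∑ e, ∑ a, ∑ b, ∑ c, F a b c e := Finset.sum_comm
    _ = ∑ e, ∑ a, ∑ c, ∑ b, F a b c e :=
        Finset.sum_congr rfl fun e _ => Finset.sum_congr rfl fun a _ => Finset.sum_comm
    _ = ∑ e, ∑ c, ∑ a, ∑ b, F a b c e := Finset.sum_congr rfl fun e _ => Finset.sum_comm

/-- first error term -/
private noncomputable def fr_e1 (M P Q : Fin d → Fin d → R) (i j k : Fin d) : R :=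
  ∑ a, ∑ b, ∑ c, ∑ e, M i a * P a b * frame D M b (M j c) * M k e * Q c e

/-- second error term -/
private noncomputable def fr_e2 (M P Q : Fin d → Fin d → R) (i j k : Fin d) : R :=
  ∑ a, ∑ b, ∑ c, ∑ e, M i a * P a b * M j c * frame D M b (M k e) * Q c e

/-- main term -/
private noncomputable def fr_m (M P Q : Fin d → Fin d → R) (i j k : Fin d) : R :=
  ∑ a, ∑ c, ∑ e, ∑ b, M i a * M j c * M k e * (P a b * frame D M b (Q c e))

private theorem fr_main (M P Q : Fin d → Fin d → R) (i j k : Fin d) :
    ∑ l, toD2 M P i l * D l (toD2 M Q j k) =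
      fr_e1 D M P Q i j k + fr_e2 D M P Q i j k + fr_m D M P Q i j k := by
  have hm : fr_m D M P Q i j k =
      ∑ a, ∑ b, ∑ c, ∑ e, M i a * M j c * M k e * (P a b * frame D M b (Q c e)) := by
    unfold fr_m
    refine Finset.sum_congr rfl fun a _ => ?_
    calc ∑ c, ∑ e, ∑ b, M i a * M j c * M k e * (P a b * frame D M b (Q c e))
        = ∑ c, ∑ b, ∑ e, M i a * M j c * M k e * (P a b * frame D M b (Q c e)) :=
          Finset.sum_congr rfl fun c _ => Finset.sum_comm
      _ = _ := Finset.sum_comm
  rw [fr_right, hm]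
  unfold fr_e1 fr_e2
  rw [← Finset.sum_add_distrib, ← Finset.sum_add_distrib]
  refine Finset.sum_congr rfl fun a _ => ?_
  rw [← Finset.sum_add_distrib, ← Finset.sum_add_distrib]
  refine Finset.sum_congr rfl fun b _ => ?_
  rw [← Finset.sum_add_distrib, ← Finset.sum_add_distrib]
  have h1 : frame D M b (toD2 M Q j k) = ∑ c, ∑ e, frame D M b (M j c * M k e * Q c e) := by
    unfold toD2
    rw [map_sum]
    exact Finset.sum_congr rfl fun c _ => map_sum _ _ _
  rw [h1, Finset.mul_sum]
  refine Finset.sum_congr rfl fun c _ => ?_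
  rw [← Finset.sum_add_distrib, ← Finset.sum_add_distrib, Finset.mul_sum]
  refine Finset.sum_congr rfl fun e _ => ?_
  simp only [Derivation.leibniz, smul_eq_mul]
  ring

private theorem fr_cancel (M : Fin d → Fin d → R)
    (hM : ∀ a b k, frame D M a (M k b) = frame D M b (M k a)) (P Q : Fin d → Fin d → R)
    (hP : ∀ a b, P a b = - P b a) (i j k : Fin d) :
    fr_e2 D M P Q i j k + fr_e1 D M Q P j k i = 0 := by
  unfold fr_e2 fr_e1
  rw [fr_perm (fun a b c e => M j a * Q a b * frame D M b (M k c) * M i e * P c e)]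
  rw [← Finset.sum_add_distrib]
  refine Finset.sum_eq_zero fun a _ => ?_
  rw [← Finset.sum_add_distrib]
  refine Finset.sum_eq_zero fun b _ => ?_
  rw [← Finset.sum_add_distrib]
  refine Finset.sum_eq_zero fun c _ => ?_
  rw [← Finset.sum_add_distrib]
  refine Finset.sum_eq_zero fun e _ => ?_
  rw [hP b a, hM e b k]
  ring

omit [Algebra ℝ R] in
private theorem fr_rot (F : Fin d → Fin d → Fin d → R) :
    ∑ a, ∑ b, ∑ c, F a b c = ∑ c, ∑ a, ∑ b, F a b c := by
  calc ∑ a, ∑ b, ∑ c, F a b c = ∑ a, ∑ c, ∑ b, F a b c :=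
        Finset.sum_congr rfl fun a _ => Finset.sum_comm
    _ = _ := Finset.sum_comm

private theorem fr_m1 (M P Q : Fin d → Fin d → R) (i j k : Fin d) :
    ∑ a, ∑ b, ∑ c, M i a * M j b * M k c * ∑ l, P a l * frame D M l (Q b c) =
      fr_m D M P Q i j k := by
  unfold fr_m
  refine Finset.sum_congr rfl fun a _ => Finset.sum_congr rfl fun b _ =>
    Finset.sum_congr rfl fun c _ => ?_
  rw [Finset.mul_sum]

private theorem fr_m2 (M P Q : Fin d → Fin d → R) (i j k : Fin d) :
    ∑ a, ∑ b, ∑ c, M i a * M j b * M k c * ∑ l, P b l * frame D M l (Q c a) =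
      fr_m D M P Q j k i := by
  rw [← fr_m1, fr_rot (fun a b c => M j a * M k b * M i c * ∑ l, P a l * frame D M l (Q b c))]
  refine Finset.sum_congr rfl fun a _ => Finset.sum_congr rfl fun b _ =>
    Finset.sum_congr rfl fun c _ => ?_
  ring

private theorem fr_m3 (M P Q : Fin d → Fin d → R) (i j k : Fin d) :
    ∑ a, ∑ b, ∑ c, M i a * M j b * M k c * ∑ l, P c l * frame D M l (Q a b) =
      fr_m D M P Q k i j := by
  rw [← fr_m1, fr_rot]
  refine Finset.sum_congr rfl fun a _ => Finset.sum_congr rfl fun b _ =>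
    Finset.sum_congr rfl fun c _ => ?_
  ring

theorem jac_frame (M : Fin d → Fin d → R)
    (hM : ∀ a b k, frame D M a (M k b) = frame D M b (M k a)) (P Q : Fin d → Fin d → R)
    (hP : ∀ a b, P a b = - P b a) (hQ : ∀ a b, Q a b = - Q b a) (i j k : Fin d) :
    jac (fn D) (toD2 M P) (toD2 M Q) i j k
      = ∑ a, ∑ b, ∑ c, M i a * M j b * M k c * jac (fn (frame D M)) P Q a b c := by
  have h1 : jac (fn D) (toD2 M P) (toD2 M Q) i j k =
      (∑ l, toD2 M P i l * D l (toD2 M Q j k)) + (∑ l, toD2 M P j l * D l (toD2 M Q k i))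
      + (∑ l, toD2 M P k l * D l (toD2 M Q i j)) + (∑ l, toD2 M Q i l * D l (toD2 M P j k))
      + (∑ l, toD2 M Q j l * D l (toD2 M P k i)) + ∑ l, toD2 M Q k l * D l (toD2 M P i j) := by
    unfold jac
    simp only [Finset.sum_add_distrib]
  have h2 : ∑ a, ∑ b, ∑ c, M i a * M j b * M k c * jac (fn (frame D M)) P Q a b c =
      fr_m D M P Q i j k + fr_m D M P Q j k i + fr_m D M P Q k i j +
        fr_m D M Q P i j k + fr_m D M Q P j k i + fr_m D M Q P k i j := by
    rw [← fr_m1 D M P Q i j k, ← fr_m2 D M P Q i j k, ← fr_m3 D M P Q i j k,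
      ← fr_m1 D M Q P i j k, ← fr_m2 D M Q P i j k, ← fr_m3 D M Q P i j k]
    simp only [← Finset.sum_add_distrib]
    refine Finset.sum_congr rfl fun a _ => Finset.sum_congr rfl fun b _ =>
      Finset.sum_congr rfl fun c _ => ?_
    unfold jac
    simp only [Finset.sum_add_distrib]
    simp only [fn]
    ring
  rw [h1, h2, fr_main, fr_main, fr_main, fr_main, fr_main, fr_main]
  have c1 := fr_cancel D M hM P Q hP i j k
  have c2 := fr_cancel D M hM P Q hP j k i
  have c3 := fr_cancel D M hM P Q hP k i j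
  have c4 := fr_cancel D M hM Q P hQ i j k
  have c5 := fr_cancel D M hM Q P hQ j k i
  have c6 := fr_cancel D M hM Q P hQ k i j
  linear_combination c1 + c2 + c3 + c4 + c5 + c6

end KN
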