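import Pool.Agent.Work.MP_e214ac_gt.N.DKB

/-!
# MODULE HomB (homogeneity in one field, derivatives; size S/M)

`Hom (wt c) n x` = `IsWeightedHomogeneous (wt c) x n`: every monomial of `x` has degree `n` in the
jet variables of the field `c`.

* `hom_der`: the total derivative preserves the degree (induct on `x`? better: use
  `MvPolynomial.induction_on''` or write `x` as the sum of its monomials; `der E i (monomial m s) =
  monomial m (E i s) + Σ_v …` with each variable replaced by one of the same field.  An elegant way:
  let `eu = exd 0 (fun v => wt c v • X v)` be the Euler derivation; `Hom (wt c) n x ↔ eu x = n • x`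
  (`hom_iff_eu`, coefficientwise: `eu (monomial m s) = (weight m) • monomial m s`, and `R` has
  characteristic zero), and `eu` commutes with `der E i` (both sides derivations, `der_ext`-like
  induction).)
* `hom_mul`, `hom_add` are in Mathlib (`IsWeightedHomogeneous.mul`, `.add`).
* `pderiv_der`: `[∂_{(c,L)}, D_i] = ∂_{(c, L - e_i)}` (zero if `L i = 0`): induct on `x`
  (`MvPolynomial.induction_on`), on variables it says that `X (c', K + e_i) = X (c, L)` iff
  `c' = c`, `L i ≥ 1`, `K = L - e_i`.
* `hom_pderiv`, `euler`: `Σ_{v ∈ vars x} wt c v • (X v * pderiv v x) = n • x`.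
* `evo_hom`: an evolutionary derivation whose values `v c'` are homogeneous of degree
  `k c' + wt c'`, raises the degree accordingly (only the two cases needed are stated).
-/

open MvPolynomial

namespace KN

variable {Φ : Type} [DecidableEq Φ] {d : ℕ} {S : Type} [CommRing S] [Algebra ℝ S]
  (E : Fin d → Derivation ℝ S S)

/-- the Euler derivation of the field `c` -/
noncomputable def eu (c : Φ) : Derivation ℝ (DP Φ d S) (DP Φ d S) :=
  exd 0 (fun v => (wt c v : DP Φ d S) * X v)

private theorem hb_unit {S : Type} [CommRing S] [Algebra ℝ S] (r : ℝ) (hr : r ≠ 0) (s : S)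
    (h : algebraMap ℝ S r * s = 0) : s = 0 := by
  have h4 := congrArg (fun z => algebraMap ℝ S r⁻¹ * z) h
  simp only [mul_zero] at h4
  rwa [← mul_assoc, ← map_mul, inv_mul_cancel₀ hr, map_one, one_mul] at h4

private theorem hb_coeff (c : Φ) (x : DP Φ d S) (m : (Φ × (Fin d →₀ ℕ)) →₀ ℕ) :
    coeff m (eu c x) = (Finsupp.weight (wt c) m : S) * coeff m x := by
  classical
  induction x using MvPolynomial.induction_on generalizing m with
  | C s =>
    rw [eu, exd_C]
    simp only [Derivation.zero_apply, map_zero, coeff_zero, coeff_C]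
    split_ifs with h
    · rw [← h]; simp
    · simp
  | add p q hp hq => rw [map_add, coeff_add, coeff_add, hp, hq]; ring
  | mul_X p v hp =>
    have h1 : eu c (X v : DP Φ d S) = (wt c v : DP Φ d S) * X v := by rw [eu, exd_X]
    rw [Derivation.leibniz, h1, smul_eq_mul, smul_eq_mul, coeff_add]
    have e1 : p * ((wt c v : DP Φ d S) * X v) = C ((wt c v : S)) * (p * X v) := by
      rw [map_natCast]; ring
    rw [e1, coeff_C_mul, mul_comm (X v), coeff_mul_X', coeff_mul_X']
    split_ifs with hv
    · rw [hp]
      have hm : m = (m - Finsupp.single v 1) + Finsupp.single v 1 := by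
        rw [tsub_add_cancel_of_le]
        rw [Finsupp.single_le_iff]
        exact Nat.one_le_iff_ne_zero.2 (Finsupp.mem_support_iff.1 hv)
      have hw : Finsupp.weight (wt c) m
          = Finsupp.weight (wt c) (m - Finsupp.single v 1) + wt c v := by
        conv_lhs => rw [hm]
        rw [map_add, Finsupp.weight_single]
        simp
      rw [hw]
      push_cast
      ring
    · simp

theorem hom_iff_eu (c : Φ) (n : ℕ) (x : DP Φ d S) :
    Hom (wt c) n x ↔ eu c x = (n : DP Φ d S) * x := by
  constructor
  · intro h
    ext m
    rw [hb_coeff]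
    have e1 : (n : DP Φ d S) * x = C (n : S) * x := by rw [map_natCast]
    rw [e1, coeff_C_mul]
    by_cases hm : coeff m x = 0
    · rw [hm]; simp
    · rw [h hm]
  · intro h m hm
    by_contra hne
    have h1 := congrArg (coeff m) h
    have e1 : (n : DP Φ d S) * x = C (n : S) * x := by rw [map_natCast]
    rw [hb_coeff, e1, coeff_C_mul] at h1
    apply hm
    apply hb_unit ((Finsupp.weight (wt c) m : ℝ) - n)
    · rw [sub_ne_zero]
      exact_mod_cast hne
    · rw [map_sub, map_natCast, map_natCast]
      linear_combination h1

private theorem hb_eu_X (c e : Φ) (K : Fin d →₀ ℕ) :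
    eu c (X (e, K) : DP Φ d S) = (if e = c then 1 else 0 : DP Φ d S) * X (e, K) := by
  rw [eu, exd_X]
  simp [wt]

private theorem hb_eu_C (c : Φ) (s : S) : eu c (C s : DP Φ d S) = 0 := by
  rw [eu, exd_C]
  simp

theorem eu_der (c : Φ) (i : Fin d) (x : DP Φ d S) :
    eu c (der E i x) = der E i (eu c x) := by
  induction x using MvPolynomial.induction_on with
  | C s => rw [der_C, hb_eu_C, hb_eu_C, map_zero]
  | add p q hp hq => simp only [map_add, hp, hq]
  | mul_X p v hp =>
    obtain ⟨e, K⟩ := v
    simp only [Derivation.leibniz, map_add, smul_eq_mul, hp, der_X, hb_eu_X]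
    have h0 : der E i (if e = c then 1 else 0 : DP Φ d S) = 0 := by
      split_ifs
      · exact Derivation.map_one_eq_zero _
      · exact map_zero _
    rw [h0]
    ring

theorem hom_der (c : Φ) (n : ℕ) (i : Fin d) (x : DP Φ d S) (hx : Hom (wt c) n x) :
    Hom (wt c) n (der E i x) := by
  rw [hom_iff_eu, eu_der, (hom_iff_eu c n x).1 hx, Derivation.leibniz, smul_eq_mul, smul_eq_mul]
  have h0 : der E i (n : DP Φ d S) = 0 := Derivation.map_natCast _ _
  rw [h0]
  ring

theorem hom_DK (c : Φ) (n : ℕ) (K : Fin d →₀ ℕ) (x : DP Φ d S) (hx : Hom (wt c) n x) :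
    Hom (wt c) n (DK (fn (der E)) K x) := by
  unfold DK
  induction List.finRange d with
  | nil => exact hx
  | cons i l ih =>
    simp only [List.foldr_cons]
    induction K i with
    | zero => exact ih
    | succ k ihk =>
      rw [Function.iterate_succ_apply']
      exact hom_der E c n i _ ihk

theorem pderiv_der (c : Φ) (L : Fin d →₀ ℕ) (i : Fin d) (x : DP Φ d S) :
    pderiv (c, L) (der E i x) = der E i (pderiv (c, L) x)
      + (if L i = 0 then 0 else pderiv (c, L - Finsupp.single i 1) x) := by
  classical
  induction x using MvPolynomial.induction_on with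
  | C s => simp
  | add p q hp hq =>
    simp only [map_add, hp, hq]
    split_ifs <;> ring
  | mul_X p v hp =>
    obtain ⟨e, K⟩ := v
    have key : (pderiv (c, L) (X (e, K + Finsupp.single i 1) : DP Φ d S))
        = if L i = 0 then 0 else pderiv (c, L - Finsupp.single i 1) (X (e, K) : DP Φ d S) := by
      by_cases hL : L i = 0
      · rw [if_pos hL]
        apply pderiv_X_of_ne
        intro h
        have h2 := congrArg (fun z => z.2 i) h
        simp [hL] at h2
      · rw [if_neg hL]
        have hle : Finsupp.single i 1 ≤ L := by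
          rw [Finsupp.single_le_iff]
          exact Nat.one_le_iff_ne_zero.2 hL
        by_cases h : (e, K) = (c, L - Finsupp.single i 1)
        · have h1 := congrArg Prod.fst h
          have h2 := congrArg Prod.snd h
          simp only at h1 h2
          subst h1
          rw [h2, tsub_add_cancel_of_le hle, pderiv_X_self, pderiv_X_self]
        · rw [pderiv_X_of_ne h, pderiv_X_of_ne]
          intro h3
          apply h
          have h1 := congrArg Prod.fst h3
          have h2 := congrArg Prod.snd h3
          simp only at h1 h2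
          rw [h1, ← h2, add_tsub_cancel_right]
    have hconst : der E i (pderiv (c, L) (X (e, K) : DP Φ d S)) = 0 := by
      by_cases h : (e, K) = (c, L)
      · rw [h, pderiv_X_self]
        exact Derivation.map_one_eq_zero _
      · rw [pderiv_X_of_ne h, map_zero]
    simp only [Derivation.leibniz, map_add, smul_eq_mul, hp, der_X, key, hconst]
    split_ifs <;> ring

/-- a differential polynomial depends on finitely many variables: for every direction `i` there is a
bound for the `i`-th exponent -/
theorem exists_bound (i : Fin d) (x : DP Φ d S) :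
    ∃ N : ℕ, ∀ (c : Φ) (K : Fin d →₀ ℕ), N ≤ K i → pderiv (c, K) x = 0 := by
  refine ⟨(x.vars.sup fun v => v.2 i) + 1, fun c K hK => ?_⟩
  apply pderiv_eq_zero_of_notMem_vars
  intro hv
  have h := Finset.le_sup (f := fun v : Φ × (Fin d →₀ ℕ) => v.2 i) hv
  simp only at h
  omega

/-- characteristic zero: all derivatives zero means a coefficient -/
theorem eq_C_of_pderiv (x : DP Φ d S) (h : ∀ v, pderiv v x = 0) : ∃ s, x = C s := by
  classical
  refine ⟨coeff 0 x, ?_⟩
  ext m
  rw [coeff_C]
  split_ifs with hm
  · rw [← hm]
  · obtain ⟨v, hv⟩ := Finsupp.ne_iff.1 (Ne.symm hm)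
    have hle : Finsupp.single v 1 ≤ m := by
      rw [Finsupp.single_le_iff]
      exact Nat.one_le_iff_ne_zero.2 hv
    obtain ⟨m', rfl⟩ : ∃ m', m = m' + Finsupp.single v 1 :=
      ⟨m - Finsupp.single v 1, (tsub_add_cancel_of_le hle).symm⟩
    have h1 := congrArg (coeff m') (h v)
    rw [coeff_pderiv, coeff_zero] at h1
    apply hb_unit ((m' v : ℝ) + 1) (by positivity)
    rw [map_add, map_natCast, map_one]
    linear_combination h1

/-- raising degrees under an evolutionary derivation -/
theorem hom_evo (c : Φ) (k : ℕ) (v : Φ → DP Φ d S)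
    (hv : ∀ e, Hom (wt c) (k + if e = c then 1 else 0) (v e)) (n : ℕ) (x : DP Φ d S)
    (hx : Hom (wt c) n x) : Hom (wt c) (n + k) (evo E v x) := by
  have key : ∀ x : DP Φ d S, eu c (evo E v x) = evo E v (eu c x) + (k : DP Φ d S) * evo E v x := by
    intro x
    induction x using MvPolynomial.induction_on with
    | C s => rw [evo_C, hb_eu_C, map_zero, map_zero]; ring
    | add p q hp hq => simp only [map_add, hp, hq]; ring
    | mul_X p w hp =>
      obtain ⟨e, K⟩ := w
      have h1 := (hom_iff_eu c _ _).1 (hom_DK E c _ K _ (hv e))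
      have h0 : evo E v (if e = c then 1 else 0 : DP Φ d S) = 0 := by
        split_ifs
        · exact Derivation.map_one_eq_zero _
        · exact map_zero _
      simp only [Derivation.leibniz, map_add, smul_eq_mul, hp, evo_X, hb_eu_X, h1, h0]
      split_ifs <;> push_cast <;> ring
  rw [hom_iff_eu, key, (hom_iff_eu c n x).1 hx, Derivation.leibniz, smul_eq_mul, smul_eq_mul]
  have h0 : evo E v (n : DP Φ d S) = 0 := Derivation.map_natCast _ _
  rw [h0]
  push_cast
  ring

end KN
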