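import Pool.Agent.Work.MP_e214ac_gt.N.Frame
import Pool.Agent.Work.MP_e214ac_gt.N.HomB

/-!
# MODULE FrameIso (size M)

`D` commuting derivations of `S`, `J`, `M` inverse matrices over `S` with closed rows of `J`,
`E = frame D M` (commuting by `frame_comm`).  On the ring `DP Φ d S` there are two families of
commuting derivations: `der E` (with jets in the frame `E`), and the frame
`frame (der D) (fun k a => C (M k a))`.  There is an isomorphism `Ψ` of `S`-algebras
`DP Φ d S ≃ DP Φ d S` with `Ψ (X (c, 0)) = C (w c) X (c, 0)` (`w c` units) and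
`Ψ (der E a x) = frame (der D) (C M) a (Ψ x)`, preserving all degrees.

Proof.  Put `F_a = frame (der D) (C M) a`.  They commute (`frame_comm` applied in the ring
`DP Φ d S` to the matrices `C J`, `C M`: closedness by `der_C`).
Define `Ψ` as the `S`-algebra homomorphism (`MvPolynomial.aeval`) `X (c, K) ↦ DK (fn F) K (C (w c) *
X (c, 0))`.  Then `Ψ (der E a x) = F_a (Ψ x)`: induct on `x` (on coefficients
`F_a (C s) = C (E a s)` by `der_C`; on variables `DK_add_single`).
In the other direction put `G_k = frame (der E) (C J) k` in the ring with `der E`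
(note `D_k = Σ_a J_{ak} E_a` on `S`), and `Ψ' : X (c, K) ↦ DK (fn G) K (C (w c)⁻¹ * X (c, 0))`;
`Ψ' (der D k x) = G_k (Ψ' x)`.  The `G_k` commute: apply `frame_comm` to the commuting family
`der E` of `DP Φ d S` and the inverse matrices (roles of `J`, `M` exchanged; the closedness needed,
`E_a M_{kb} = E_b M_{ka}`, is `frame_M`).  `Ψ` intertwines `G_k` with `der D k`
(`Σ_a J_{ak} M_{la} = δ_{kl}`), so `Ψ (Ψ' (X (c, K))) = DK (der D) K (Ψ (C (w c)⁻¹ X (c, 0))) =
DK (der D) K (X (c, 0)) = X (c, K)` (`DK_map`, `DK_X`), hence `Ψ ∘ Ψ' = id`, and symmetrically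
`Ψ' ∘ Ψ = id`.
Degrees: `eu c (Ψ x) = Ψ (eu c x)` (induct on `x`; `eu c` commutes with `F_a`), so by `hom_iff_eu`
`Hom (wt c) n x ↔ Hom (wt c) n (Ψ x)`.
-/

open MvPolynomial

namespace KN

section
variable {Φ : Type} [DecidableEq Φ] {d : ℕ} {S : Type} [CommRing S] [Algebra ℝ S]

/-- an algebra homomorphism built from a family of commuting derivations -/
private noncomputable def fi_hom (F : Fin d → Derivation ℝ (DP Φ d S) (DP Φ d S)) (w : Φ → S) :
    DP Φ d S →ₐ[S] DP Φ d S :=
  aeval (fun v => DK (fn F) v.2 (C (w v.1) * X (v.1, 0)))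

private theorem fi_hom_C (F : Fin d → Derivation ℝ (DP Φ d S) (DP Φ d S)) (w : Φ → S) (s : S) :
    fi_hom F w (C s) = C s := by
  unfold fi_hom
  rw [aeval_C]; rfl

private theorem fi_hom_X (F : Fin d → Derivation ℝ (DP Φ d S) (DP Φ d S)) (w : Φ → S) (c : Φ)
    (K : Fin d →₀ ℕ) : fi_hom F w (X (c, K)) = DK (fn F) K (C (w c) * X (c, 0)) := by
  unfold fi_hom
  rw [aeval_X]

private theorem fi_hom_X0 (F : Fin d → Derivation ℝ (DP Φ d S) (DP Φ d S)) (w : Φ → S) (c : Φ) :
    fi_hom F w (X (c, 0)) = C (w c) * X (c, 0) := by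
  rw [fi_hom_X, DK_zero]

/-- the intertwining property -/
private theorem fi_inter (F : Fin d → Derivation ℝ (DP Φ d S) (DP Φ d S)) (w : Φ → S)
    (E : Fin d → Derivation ℝ S S) (hF : Comm F) (hFC : ∀ a s, F a (C s) = C (E a s))
    (a : Fin d) (x : DP Φ d S) : fi_hom F w (der E a x) = F a (fi_hom F w x) := by
  induction x using MvPolynomial.induction_on with
  | C s => rw [der_C, fi_hom_C, fi_hom_C, hFC]
  | add p q hp hq => simp only [map_add, hp, hq]
  | mul_X p v hp =>
    obtain ⟨c, K⟩ := v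
    have h1 : fi_hom F w (X (c, K + Finsupp.single a 1)) = F a (fi_hom F w (X (c, K))) := by
      rw [fi_hom_X, fi_hom_X, DK_add_single (fn F) (fun i j x => hF i j x)]
    rw [Derivation.leibniz, map_mul, Derivation.leibniz, map_add, smul_eq_mul, smul_eq_mul,
      smul_eq_mul, smul_eq_mul, map_mul, map_mul, der_X, h1, hp]

private theorem fi_eu (F : Fin d → Derivation ℝ (DP Φ d S) (DP Φ d S)) (w : Φ → S) (c : Φ)
    (hF : ∀ a x, eu c (F a x) = F a (eu c x)) (x : DP Φ d S) :
    eu c (fi_hom F w x) = fi_hom F w (eu c x) := by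
  have heC : ∀ s : S, eu c (C s : DP Φ d S) = 0 := by
    intro s; rw [eu, exd_C]; simp
  have heX : ∀ (e : Φ) (K : Fin d →₀ ℕ), eu c (X (e, K) : DP Φ d S)
      = (if e = c then 1 else 0 : DP Φ d S) * X (e, K) := by
    intro e K
    rw [eu, exd_X]
    simp [wt]
  induction x using MvPolynomial.induction_on with
  | C s => rw [fi_hom_C, heC, map_zero]
  | add p q hp hq => simp only [map_add, hp, hq]
  | mul_X p v hp =>
    obtain ⟨e, K⟩ := v
    have h1 : eu c (fi_hom F w (X (e, K))) = fi_hom F w (eu c (X (e, K))) := by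
      rw [heX, fi_hom_X]
      have h2 := DK_map (fn F) (fn F) (fun x => eu c x) (fun a x => hF a x) K
        (C (w e) * X (e, 0))
      rw [h2]
      rw [Derivation.leibniz, heC, heX, smul_zero, add_zero, smul_eq_mul]
      split_ifs with h
      · rw [one_mul, one_mul, fi_hom_X]
      · have h3 := DK_map (fn F) (fn F) (fun _ => (0 : DP Φ d S))
          (fun a x => (map_zero (F a)).symm) K (0 : DP Φ d S)
        rw [zero_mul, mul_zero, zero_mul, map_zero]
        exact h3.symm
    rw [Derivation.leibniz, map_mul, Derivation.leibniz, map_add, smul_eq_mul, smul_eq_mul,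
      smul_eq_mul, smul_eq_mul, map_mul, map_mul, h1, hp]

private theorem fi_eu_frame (D : Fin d → Derivation ℝ S S) (M : Fin d → Fin d → S) (c : Φ)
    (a : Fin d) (x : DP Φ d S) :
    eu c (frame (der D) (fun k a => C (M k a)) a x)
      = frame (der D) (fun k a => C (M k a)) a (eu c x) := by
  have heC : ∀ s : S, eu c (C s : DP Φ d S) = 0 := by
    intro s; rw [eu, exd_C]; simp
  rw [frame_apply, frame_apply, map_sum]
  refine Finset.sum_congr rfl fun k _ => ?_
  rw [Derivation.leibniz, heC, smul_zero, add_zero, smul_eq_mul, eu_der]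

end

theorem exists_frame_iso {Φ : Type} [DecidableEq Φ] {d : ℕ} {S : Type} [CommRing S] [Algebra ℝ S]
    (D : Fin d → Derivation ℝ S S) (hD : Comm D) (J M : Matrix (Fin d) (Fin d) S)
    (hJM : J * M = 1) (hMJ : M * J = 1) (hJ : ∀ a i k, D i (J a k) = D k (J a i))
    (w : Φ → S) (hw : ∀ c, IsUnit (w c)) :
    ∃ Ψ : DP Φ d S ≃ₐ[S] DP Φ d S,
      (∀ c, Ψ (X (c, 0)) = C (w c) * X (c, 0)) ∧
      (∀ a x, Ψ (der (frame D M) a x) = frame (der D) (fun k a => C (M k a)) a (Ψ x)) ∧
      (∀ c n x, Hom (wt c) n x ↔ Hom (wt c) n (Ψ x)) := by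
  classical
  set E : Fin d → Derivation ℝ S S := frame D M with hE
  have hEc : Comm E := frame_comm D hD J M hJM hMJ hJ
  have hEa : ∀ a x, E a x = ∑ k, M k a * D k x := fun a x =>
    frame_apply D (fun k a => M k a) a x
  -- inverse matrices over the big ring
  have mapmul : ∀ A B : Matrix (Fin d) (Fin d) S, A * B = 1 →
      (A.map (C : S → DP Φ d S)) * (B.map (C : S → DP Φ d S)) = 1 := by
    intro A B h
    have h1 := congrArg (fun Z : Matrix (Fin d) (Fin d) S => Z.map (C : S →+* DP Φ d S)) h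
    simp only [Matrix.map_mul] at h1
    rw [Matrix.map_one _ (map_zero _) (map_one _)] at h1
    exact h1
  have hDc : Comm (der (Φ := Φ) D) := fun i j x => der_comm D hD i j x
  have hEDc : Comm (der (Φ := Φ) E) := fun i j x => der_comm E hEc i j x
  set F : Fin d → Derivation ℝ (DP Φ d S) (DP Φ d S) :=
    frame (der D) (fun k a => C (M k a)) with hF
  have hFc : Comm F := frame_comm (der D) hDc (J.map C) (M.map C) (mapmul J M hJM)
    (mapmul M J hMJ) (fun a i k => by
      simp only [Matrix.map_apply, der_C, hJ a i k])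
  set G : Fin d → Derivation ℝ (DP Φ d S) (DP Φ d S) :=
    frame (der E) (fun a k => C (J a k)) with hG
  have hGc : Comm G := frame_comm (der E) hEDc (M.map C) (J.map C) (mapmul M J hMJ)
    (mapmul J M hJM) (fun a i k => by
      simp only [Matrix.map_apply, der_C]
      rw [hE, frame_M D J M hJM hMJ hJ i k a])
  have hFC : ∀ a s, F a (C s) = C (E a s) := by
    intro a s
    rw [hF, hEa, frame_apply, map_sum]
    refine Finset.sum_congr rfl fun k _ => ?_
    rw [der_C, map_mul]
  have hsum : ∀ k l, ∑ a, M l a * J a k = if l = k then 1 else 0 := by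
    intro k l
    have := congrFun (congrFun hMJ l) k
    rw [Matrix.mul_apply, Matrix.one_apply] at this
    exact this
  have hsum' : ∀ k l, ∑ a, J l a * M a k = if l = k then 1 else 0 := by
    intro k l
    have := congrFun (congrFun hJM l) k
    rw [Matrix.mul_apply, Matrix.one_apply] at this
    exact this
  have hGC : ∀ k s, G k (C s) = C (D k s) := by
    intro k s
    rw [hG, frame_apply]
    have h1 : ∀ a, (C (J a k) : DP Φ d S) * der E a (C s)
        = C (∑ l, (M l a * J a k) * D l s) := by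
      intro a
      rw [der_C, hEa, ← map_mul, Finset.mul_sum]
      congr 1
      refine Finset.sum_congr rfl fun l _ => ?_
      ring
    rw [Finset.sum_congr rfl fun a _ => h1 a, ← map_sum, Finset.sum_comm]
    congr 1
    rw [Finset.sum_eq_single k]
    · rw [← Finset.sum_mul, hsum, if_pos rfl, one_mul]
    · intro l _ hl
      rw [← Finset.sum_mul, hsum, if_neg hl, zero_mul]
    · intro h; exact absurd (Finset.mem_univ _) h
  choose w' hw' using fun c => (hw c).exists_right_inv
  set Ψ := fi_hom F w with hΨ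
  set Ψ' := fi_hom G w' with hΨ'
  have h1 : ∀ a x, Ψ (der E a x) = F a (Ψ x) := fun a x => fi_inter F w E hFc hFC a x
  have h2 : ∀ k x, Ψ' (der D k x) = G k (Ψ' x) := fun k x => fi_inter G w' D hGc hGC k x
  have h3 : ∀ k x, Ψ (G k x) = der D k (Ψ x) := by
    intro k x
    rw [hG, frame_apply, map_sum]
    have h4 : ∀ a, Ψ (C (J a k) * der E a x) = ∑ l, C (M l a * J a k) * der D l (Ψ x) := by
      intro a
      rw [map_mul, h1, hΨ, fi_hom_C, hF, frame_apply, Finset.mul_sum]
      refine Finset.sum_congr rfl fun l _ => ?_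
      rw [map_mul]; ring
    rw [Finset.sum_congr rfl fun a _ => h4 a, Finset.sum_comm, Finset.sum_eq_single k]
    · rw [← Finset.sum_mul, ← map_sum, hsum, if_pos rfl, map_one, one_mul]
    · intro l _ hl
      rw [← Finset.sum_mul, ← map_sum, hsum, if_neg hl, map_zero, zero_mul]
    · intro h; exact absurd (Finset.mem_univ _) h
  have h5 : ∀ a x, Ψ' (F a x) = der E a (Ψ' x) := by
    intro a x
    rw [hF, frame_apply, map_sum]
    have h4 : ∀ k, Ψ' (C (M k a) * der D k x) = ∑ b, C (J b k * M k a) * der E b (Ψ' x) := by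
      intro k
      rw [map_mul, h2, hΨ', fi_hom_C, hG, frame_apply, Finset.mul_sum]
      refine Finset.sum_congr rfl fun l _ => ?_
      rw [map_mul]; ring
    rw [Finset.sum_congr rfl fun a _ => h4 a, Finset.sum_comm, Finset.sum_eq_single a]
    · rw [← Finset.sum_mul, ← map_sum, hsum', if_pos rfl, map_one, one_mul]
    · intro l _ hl
      rw [← Finset.sum_mul, ← map_sum, hsum', if_neg hl, map_zero, zero_mul]
    · intro h; exact absurd (Finset.mem_univ _) h
  have h6 : ∀ x, Ψ (Ψ' x) = x := by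
    have : Ψ.comp Ψ' = AlgHom.id S _ := by
      apply MvPolynomial.algHom_ext
      rintro ⟨c, K⟩
      change Ψ (Ψ' (X (c, K))) = X (c, K)
      have e1 : Ψ' (X (c, K)) = DK (fn G) K (C (w' c) * X (c, 0)) := fi_hom_X G w' c K
      have e2 := DK_map (fn G) (fn (der D)) (fun x => Ψ x) (fun k x => h3 k x) K
        (C (w' c) * X (c, 0))
      rw [e1, e2, map_mul, hΨ, fi_hom_C, fi_hom_X0, ← mul_assoc, ← map_mul, mul_comm (w' c), hw',
        map_one, one_mul, DK_X D hD, zero_add]
    intro x
    exact congrArg (fun z : DP Φ d S →ₐ[S] DP Φ d S => z x) this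
  have h7 : ∀ x, Ψ' (Ψ x) = x := by
    have : Ψ'.comp Ψ = AlgHom.id S _ := by
      apply MvPolynomial.algHom_ext
      rintro ⟨c, K⟩
      change Ψ' (Ψ (X (c, K))) = X (c, K)
      have e1 : Ψ (X (c, K)) = DK (fn F) K (C (w c) * X (c, 0)) := fi_hom_X F w c K
      have e2 := DK_map (fn F) (fn (der E)) (fun x => Ψ' x) (fun k x => h5 k x) K
        (C (w c) * X (c, 0))
      rw [e1, e2, map_mul, hΨ', fi_hom_C, fi_hom_X0, ← mul_assoc, ← map_mul, hw',
        map_one, one_mul, DK_X E hEc, zero_add]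
    intro x
    exact congrArg (fun z : DP Φ d S →ₐ[S] DP Φ d S => z x) this
  let Θ : DP Φ d S ≃ₐ[S] DP Φ d S := AlgEquiv.ofAlgHom Ψ Ψ' (AlgHom.ext h6) (AlgHom.ext h7)
  have hΘ : ∀ x, Θ x = Ψ x := fun _ => rfl
  refine ⟨Θ, fun c => fi_hom_X0 F w c, h1, fun c n x => ?_⟩
  rw [hΘ, hom_iff_eu, hom_iff_eu, fi_eu F w c (fun a x => fi_eu_frame D M c a x)]
  constructor
  · intro h
    rw [h, map_mul, map_natCast]
  · intro h
    have h8 := congrArg Ψ' h
    rw [h7, map_mul, map_natCast, h7] at h8
    exact h8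

end KN
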