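import Pool.Agent.Work.MP_e214ac_gt.N.MinorKos
import Pool.Agent.Work.MP_e214ac_gt.N.LocalMain

/-!
# Setting of the gluing modules (fixed file)

`CC m` with total derivatives `dC`, generic functions `aC k = X (k, 0)`; `KK m` its field of fractions
with the extended derivations `dK`; `TC = TT (m+2) (CC m) → TK = TT (m+2) (KK m)` is the map
`ιK` of coefficients.  `Den s x`: `s^N x` comes from `TC` for some `N`.
-/

open MvPolynomial
open scoped nonZeroDivisors

namespace KN

/-- total derivatives of the ring of differential polynomials in the Casimirs -/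
noncomputable def dC (m : ℕ) : Fin (m + 2) → Derivation ℝ (CC m) (CC m) := der (fun _ => 0)

/-- the generic Casimirs -/
noncomputable def aC (m : ℕ) (k : Fin m) : CC m := X (k, 0)

theorem dC_comm (m : ℕ) : Comm (dC m) := by
  intro i j x
  exact der_comm (fun _ => 0) (fun i j x => by simp) i j x

theorem GG_eq (m : ℕ) : (fun k l => dC m l (aC m k)) = GG m := by
  funext k l
  rw [dC, aC, der_X, zero_add]
  rfl

/-- the field of fractions -/
abbrev KK (m : ℕ) := FractionRing (CC m)

theorem exists_dK (m : ℕ) : ∃ D' : Fin (m + 2) → Derivation ℝ (KK m) (KK m),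
    (∀ i a, D' i (algebraMap (CC m) (KK m) a) = algebraMap (CC m) (KK m) (dC m i a)) ∧
      ∀ i j x, D' i (D' j x) = D' j (D' i x) :=
  exists_fam_loc (CC m)⁰ (dC m) (dC_comm m)

/-- the derivations of the field of fractions -/
noncomputable def dK (m : ℕ) : Fin (m + 2) → Derivation ℝ (KK m) (KK m) :=
  Classical.choose (exists_dK m)

theorem dK_algebraMap (m : ℕ) (i : Fin (m + 2)) (a : CC m) :
    dK m i (algebraMap (CC m) (KK m) a) = algebraMap (CC m) (KK m) (dC m i a) :=
  (Classical.choose_spec (exists_dK m)).1 i a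

theorem dK_comm (m : ℕ) : Comm (dK m) := (Classical.choose_spec (exists_dK m)).2

/-- the generic Casimirs in the field -/
noncomputable def aK (m : ℕ) (k : Fin m) : KK m := algebraMap (CC m) (KK m) (aC m k)

/-- the map of coefficients -/
noncomputable def ιK (m : ℕ) : TT (m + 2) (CC m) →+* TT (m + 2) (KK m) :=
  MvPolynomial.map (algebraMap (CC m) (KK m))

/-- `x` has only powers of `s` in the denominators -/
def Den (m : ℕ) (s : CC m) (x : TT (m + 2) (KK m)) : Prop :=
  ∃ N : ℕ, ∃ y : TT (m + 2) (CC m), C (algebraMap (CC m) (KK m) s) ^ N * x = ιK m y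

end KN
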