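import Pool.Agent.Work.MP_e214ac_gt.N.GrMap

/-!
# MODULE GrPt (combinatorics of graph sums, size M)

The graph formula at the bivector `Pt P V = P + (V + ∂_s) ∧ ∂_t` (index set `ι ⊕ Fin 2`,
`s = inr 0`, `t = inr 1`, derivations `Dt D Ds`, in particular `∂_t = 0`), components (inl i, inl j)`
and (inl i, inr 0)`, (inr 0, inl i)`.

Fix a graph `G` and a labelling `I` of the half-edges whose term is nonzero.
(1) No edge with label `t` ends at an internal vertex: the corresponding factor is
`iter (Dt D Ds) (… t …) _ = 0` (the operator `Dt D Ds (inr 1)` is the zero map, and every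
`Dt D Ds x` sends `0` to `0`).
(2) Hence, if the labels of the two sinks are not `t`, no half-edge has the label `t` (every edge
ends at a vertex or at a sink).
(3) Then no half-edge has the label `s`: its vertex `k` would have a factor
`iter _ _ (Pt P V (inr 0) y)` or `iter _ _ (Pt P V y (inr 0))` with `y ≠ inr 1`, which is `0`.
So, if one of the sinks is labelled `s`, the sum is zero (`gr_pt_s`), and if both sinks are labelled
in `ι`, only the labellings with values in `inl` contribute, and their terms are those of the graph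
formula for `P` (`gr_pt`): reindex by `Sum.inl ∘ I` (`Finset.sum_of_injOn` or
`Finset.sum_subset` + `Finset.sum_image`/`Finset.sum_nbij`), and
`iter (Dt D Ds) (l.map inl) x = iter D l x`.
-/

namespace KN

variable {ι R : Type} [Fintype ι] [DecidableEq ι] [CommRing R] [Algebra ℝ R]
  (D : ι → Derivation ℝ R R) (Ds : Derivation ℝ R R) (P : ι → ι → R) (V : ι → R)

omit [Fintype ι] [DecidableEq ι] in
private theorem grpt_dt_zero (x : ι ⊕ Fin 2) : Dt (fn D) Ds x 0 = 0 := by
  rcases x with i | c
  · exact map_zero (D i)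
  · fin_cases c
    · change Ds 0 = 0
      exact map_zero Ds
    · rfl

omit [Fintype ι] [DecidableEq ι] in
private theorem grpt_iter_zero (l : List (ι ⊕ Fin 2)) : iter (Dt (fn D) Ds) l 0 = 0 := by
  induction l with
  | nil => rfl
  | cons x l ih =>
    change Dt (fn D) Ds x (iter (Dt (fn D) Ds) l 0) = 0
    rw [ih, grpt_dt_zero]

omit [Fintype ι] [DecidableEq ι] in
private theorem grpt_iter_t (l : List (ι ⊕ Fin 2)) (h : Sum.inr 1 ∈ l) (x : R) :
    iter (Dt (fn D) Ds) l x = 0 := by
  induction l with
  | nil => exact absurd h (List.not_mem_nil)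
  | cons y l ih =>
    change Dt (fn D) Ds y (iter (Dt (fn D) Ds) l x) = 0
    rcases List.mem_cons.1 h with h1 | h1
    · rw [← h1]
      rfl
    · rw [ih h1, grpt_dt_zero]

omit [Fintype ι] [DecidableEq ι] in
private theorem grpt_iter_inl {α : Type} (l : List α) (f : α → ι) (x : R) :
    iter (Dt (fn D) Ds) (l.map fun e => Sum.inl (f e)) x = iter (fn D) (l.map f) x := by
  induction l with
  | nil => rfl
  | cons y l ih =>
    change D (f y) (iter (Dt (fn D) Ds) (l.map fun e => Sum.inl (f e)) x) =
      D (f y) (iter (fn D) (l.map f) x)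
    rw [ih]

private theorem grpt_mem_inc (G : Gr) (k v : Fin G.n) (c : Fin 2) (h : G.tgt v c = Sum.inl k) :
    (v, c) ∈ G.inc k := by
  unfold Gr.inc
  rw [List.mem_filter]
  refine ⟨?_, by simpa using h⟩
  exact List.pair_mem_product.2 ⟨List.mem_finRange _, List.mem_finRange _⟩

omit [Fintype ι] [DecidableEq ι] in
private theorem grpt_all_inl (G : Gr) (I : Fin G.n → Fin 2 → ι ⊕ Fin 2)
    (hs : ∀ v c s, G.tgt v c = Sum.inr s → I v c ≠ Sum.inr 1)
    (h : ∏ k : Fin G.n, iter (Dt (fn D) Ds) ((G.inc k).map fun e => I e.1 e.2)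
      (Pt P V (I k 0) (I k 1)) ≠ 0) (v : Fin G.n) (c : Fin 2) : ∃ x : ι, Sum.inl x = I v c := by
  have ht : ∀ v c, I v c ≠ Sum.inr 1 := by
    intro v c hvc
    rcases hk : G.tgt v c with k | s
    · apply h
      refine Finset.prod_eq_zero (Finset.mem_univ k) ?_
      refine grpt_iter_t D Ds _ ?_ _
      rw [List.mem_map]
      exact ⟨(v, c), grpt_mem_inc G k v c hk, hvc⟩
    · exact hs v c s hk hvc
  rcases hI : I v c with x | e
  · exact ⟨x, rfl⟩
  · exfalso
    have he : e = 0 := by
      fin_cases e
      · rfl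
      · exact absurd hI (ht v c)
    subst he
    apply h
    refine Finset.prod_eq_zero (Finset.mem_univ v) ?_
    have key : ∀ w : ι ⊕ Fin 2, w ≠ Sum.inr 1 →
        Pt P V (Sum.inr 0) w = 0 ∧ Pt P V w (Sum.inr 0) = 0 := by
      intro w hw
      rcases w with y | e
      · simp [Pt]
      · fin_cases e
        · simp [Pt]
        · exact absurd rfl hw
    have hz : Pt P V (I v 0) (I v 1) = 0 := by
      fin_cases c
      · have hI' : I v 0 = Sum.inr 0 := hI
        rw [hI']
        exact (key _ (ht v 1)).1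
      · have hI' : I v 1 = Sum.inr 0 := hI
        rw [hI']
        exact (key _ (ht v 0)).2
    rw [hz]
    exact grpt_iter_zero D Ds _

theorem gr_pt (G : Gr) (i j : ι) :
    G.val (Dt (fn D) Ds) (Pt P V) (Sum.inl i) (Sum.inl j) = G.val (fn D) P i j := by
  unfold Gr.val
  symm
  refine Finset.sum_of_injOn (fun I v c => Sum.inl (I v c)) ?_ ?_ ?_ ?_
  · intro I _ I' _ h
    funext v c
    exact Sum.inl_injective (congrFun (congrFun h v) c)
  · intro I _
    exact Finset.mem_coe.2 (Finset.mem_univ _)
  · intro I _ hI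
    by_contra hne
    split_ifs at hne with hc
    · have h1 := grpt_all_inl D Ds P V G I (by
        intro v c s hs
        fin_cases s
        · rw [(hc v c).1 hs]
          simp
        · rw [(hc v c).2 hs]
          simp) hne
      choose f hf using h1
      exact hI ⟨f, Finset.mem_coe.2 (Finset.mem_univ _), by funext v c; exact hf v c⟩
    · exact hne rfl
  · intro I _
    simp only [Sum.inl_injective.eq_iff, grpt_iter_inl]
    rfl

theorem gr_pt_s (G : Gr) (i : ι) :
    G.val (Dt (fn D) Ds) (Pt P V) (Sum.inl i) (Sum.inr 0) = 0 ∧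
    G.val (Dt (fn D) Ds) (Pt P V) (Sum.inr 0) (Sum.inl i) = 0 := by
  unfold Gr.val
  constructor
  · refine Finset.sum_eq_zero fun I _ => ?_
    by_contra hne
    split_ifs at hne with hc
    · have h1 := grpt_all_inl D Ds P V G I (by
        intro v c s hs
        fin_cases s
        · rw [(hc v c).1 hs]
          simp
        · rw [(hc v c).2 hs]
          simp) hne
      obtain ⟨e, he, _⟩ := G.sink 1
      obtain ⟨x, hx⟩ := h1 e.1 e.2
      rw [(hc e.1 e.2).2 he] at hx
      exact Sum.inl_ne_inr hx
    · exact hne rfl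
  · refine Finset.sum_eq_zero fun I _ => ?_
    by_contra hne
    split_ifs at hne with hc
    · have h1 := grpt_all_inl D Ds P V G I (by
        intro v c s hs
        fin_cases s
        · rw [(hc v c).1 hs]
          simp
        · rw [(hc v c).2 hs]
          simp) hne
      obtain ⟨e, he, _⟩ := G.sink 0
      obtain ⟨x, hx⟩ := h1 e.1 e.2
      rw [(hc e.1 e.2).1 he] at hx
      exact Sum.inl_ne_inr hx
    · exact hne rfl

theorem val_pt (F : Formula) (i j : ι) :
    F.val (Dt (fn D) Ds) (Pt P V) (Sum.inl i) (Sum.inl j) = F.val (fn D) P i j := by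
  unfold Formula.val
  congr 1
  refine List.map_congr_left fun cg _ => ?_
  rw [gr_pt, gr_pt]

theorem val_pt_s (F : Formula) (i : ι) :
    F.val (Dt (fn D) Ds) (Pt P V) (Sum.inl i) (Sum.inr 0) = 0 := by
  unfold Formula.val
  have h1 : (F.map fun cg => cg.1 • (cg.2.val (Dt (fn D) Ds) (Pt P V) (Sum.inl i) (Sum.inr 0) -
      cg.2.val (Dt (fn D) Ds) (Pt P V) (Sum.inr 0) (Sum.inl i))) = F.map fun _ => (0 : R) := by
    refine List.map_congr_left fun cg _ => ?_
    rw [(gr_pt_s D Ds P V cg.2 i).1, (gr_pt_s D Ds P V cg.2 i).2, sub_zero, smul_zero]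
  rw [h1]
  simp

end KN
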