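import Pool.Agent.Work.MP_e214ac_gt.N.K1

/-!
# MODULE K1full (size S/M)

`K1full`: components.  `lie Y (P0 f) 0 i = - f D_1 (Y i)` for `i ≠ 0, 1`, so `D_1 (Y i) = 0`
(`X_mul_cancel`) and `Y i = 0` (`K0h`); the component (0,1)` is
`Y 0 f_0 + Y 1 f_1 - f (D_0 Y0 + D_1 Y1) = 0`; then `K1` with `u = 0`, `v = 1`, and
`ham (P0 f) g` has the components `0 ↦ - f D_1 g`, `1 ↦ f D_0 g`.
-/

open MvPolynomial

namespace KN

section
variable {m : ℕ} {R : Type} [CommRing R]

private theorem kf_sumL (f : R) (φ : Fin (m + 2) → R) (j : Fin (m + 2)) :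
    ∑ l, P0 f l j * φ l = if j = 1 then f * φ 0 else if j = 0 then -(f * φ 1) else 0 := by
  have h : ∀ l, P0 f l j * φ l = (if l = 0 then (if j = 1 then f * φ 0 else 0) else 0)
      + (if l = 1 then (if j = 0 then -(f * φ 1) else 0) else 0) := by
    intro l
    unfold P0
    by_cases h0 : l = 0
    · subst h0
      by_cases hj : j = 1
      · simp [hj]
      · simp [hj]
    · by_cases h1 : l = 1
      · subst h1
        by_cases hj : j = 0
        · simp [hj]
        · simp [hj]
      · simp [h0, h1]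
  rw [Finset.sum_congr rfl (fun l _ => h l), Finset.sum_add_distrib, Finset.sum_ite_eq',
    Finset.sum_ite_eq']
  by_cases hj : j = 1
  · subst hj; simp
  · simp [hj]

private theorem kf_skew (f : R) (i j : Fin (m + 2)) : P0 f i j = - P0 f j i := by
  unfold P0
  by_cases h0 : i = 0
  · subst h0
    by_cases hj : j = 1
    · subst hj; simp
    · simp [hj]
  · by_cases h1 : i = 1
    · subst h1
      by_cases hj : j = 0
      · subst hj; simp
      · simp [hj]
    · simp [h0, h1]

private theorem kf_sumR (f : R) (φ : Fin (m + 2) → R) (i : Fin (m + 2)) :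
    ∑ l, P0 f i l * φ l = if i = 0 then f * φ 1 else if i = 1 then -(f * φ 0) else 0 := by
  have h : ∀ l, P0 f i l * φ l = - (P0 f l i * φ l) := by
    intro l
    rw [kf_skew f i l]; ring
  rw [Finset.sum_congr rfl (fun l _ => h l), Finset.sum_neg_distrib, kf_sumL]
  by_cases h0 : i = 0
  · subst h0; simp
  · by_cases h1 : i = 1
    · subst h1; simp
    · simp [h0, h1]

private theorem kf_lie [Algebra ℝ R] (D : Fin (m + 2) → Derivation ℝ R R) (X : Fin (m + 2) → R)
    (f : R) (i j : Fin (m + 2)) :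
    lie (fn D) X (P0 f) i j = P0 (∑ l, X l * D l f) i j
      - (if j = 1 then f * D 0 (X i) else if j = 0 then -(f * D 1 (X i)) else 0)
      - (if i = 0 then f * D 1 (X j) else if i = 1 then -(f * D 0 (X j)) else 0) := by
  unfold lie
  rw [Finset.sum_sub_distrib, Finset.sum_sub_distrib]
  have e1 := kf_sumL f (fun l => D l (X i)) j
  have e2 := kf_sumR f (fun l => D l (X j)) i
  have e3 : ∑ l, X l * D l (P0 f i j) = P0 (∑ l, X l * D l f) i j := by
    unfold P0
    by_cases h : i = 0 ∧ j = 1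
    · simp [h]
    · by_cases h' : i = 1 ∧ j = 0
      · rw [if_neg h, if_pos h', if_neg h, if_pos h']
        simp
      · rw [if_neg h, if_neg h', if_neg h, if_neg h']
        simp
  simp only [fn]
  rw [e1, e2, e3]

end

theorem K1full {m : ℕ} {S : Type} [CommRing S] [Algebra ℝ S]
    (E : Fin (m + 2) → Derivation ℝ S S) (hE : Comm E) (j k : ℕ) (hj : 2 ≤ j)
    (Y : Fin (m + 2) → TT (m + 2) S) (h0 : ∀ l, Hom (wt false) j (Y l))
    (h0b : ∀ l, Hom (wt true) k (Y l))
    (h : ∀ i l, lie (fn (der E)) Y (P0 ρv) i l = 0) :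
    ∃ g : TT (m + 2) S, Hom (wt false) (j - 1) g ∧ Hom (wt true) k g ∧
      ∀ i, Y i = ham (fn (der E)) (P0 ρv) g i := by
  have h01 : (0 : Fin (m + 2)) ≠ 1 := by simp
  have hz : ∀ i : Fin (m + 2), i ≠ 0 → i ≠ 1 → Y i = 0 := by
    intro i hi0 hi1
    have h1 := h 0 i
    rw [kf_lie] at h1
    simp [P0, hi0, hi1] at h1
    have h2 : X (false, 0) * der E 1 (Y i) = 0 := h1
    exact K0h E 1 false j (by omega) _ (h0 i) (X_mul_cancel _ _ h2)
  have h1 := h 0 1
  rw [kf_lie] at h1
  have s2 : ∑ l, Y l * der E l (ρv : TT (m + 2) S) = Y 0 * der E 0 ρv + Y 1 * der E 1 ρv := by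
    rw [← Finset.sum_subset (Finset.subset_univ ({0, 1} : Finset (Fin (m + 2)))),
      Finset.sum_pair h01]
    intro l _ hl
    simp only [Finset.mem_insert, Finset.mem_singleton, not_or] at hl
    rw [hz l hl.1 hl.2, zero_mul]
  rw [s2] at h1
  simp only [P0, and_self, if_true] at h1
  obtain ⟨g, g1, g2, g3, g4⟩ := K1 E hE 0 1 h01 j k hj (Y 0) (Y 1) (h0 0) (h0 1) (h0b 0) (h0b 1)
    (by linear_combination h1)
  refine ⟨g, g1, g2, fun i => ?_⟩
  unfold ham
  have e := kf_sumL (ρv : TT (m + 2) S) (fun l => der E l g) i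
  simp only [fn]
  rw [e]
  by_cases hi0 : i = 0
  · subst hi0
    simpa using g3
  · by_cases hi1 : i = 1
    · subst hi1
      simpa using g4
    · rw [hz i hi0 hi1, if_neg hi1, if_neg hi0]

end KN
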