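import Pool.Agent.Work.MP_e214ac_gt.N.H2std
import Pool.Agent.Work.MP_e214ac_gt.N.K1full
import Pool.Agent.Work.MP_e214ac_gt.N.FSetup
import Pool.Agent.Work.MP_e214ac_gt.N.GrMap

/-!
# MODULE H2D (transport to the frame `D`, size M/L)

Take the `FrameData` of module `FSetup`, `F = frame (der D) M`.  The tensor operations are compatible:
`lie (der D) (toD1 M X) (toD2 M P) = toD2 M (lie F X P)` (`lie_frame`), `ham_frame`, `jac_frame`, and
`Ψ (lie (der E) X P) = lie F (Ψ X) (Ψ P)` (`lie_map`-type: `Ψ` intertwines `der E b` and `F b`).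
`toD1 M`, `toD2 M` are injective (multiply by `J`).

* `K0D`: if `ham P g = 0` and `g` is homogeneous of degree `≥ 1` in `ρ` then `g = 0`:
  `ham P g = toD1 M (Ψ (ham (P0 ρ) (Ψ⁻¹ g)))`, so `ham (P0 ρ) (Ψ⁻¹ g) = 0`, whose component `0` is
  `- ρ D_1 (..)`, and `X_mul_cancel`, `K0h`.
* `K1D`: transport `K1full` in the same way.
* `H2D`: transport `H2std`: `Q_E = Ψ⁻¹ (Σ J_{ai} J_{bj} Q^{ij})`, `Z_E^a = Ψ⁻¹ (Σ J_{ai} Z^i)`; then
  `toD2 M (Ψ Q_E) = Q`, `toD1 M (Ψ Z_E) = Z`; degrees by `hdeg`, `hMdeg`; the cocycle condition by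
  `jac_frame` (`Σ_{abc} M_{ia} M_{jb} M_{kc} jac_{abc} = 0` for all `i, j, k` gives `jac_{abc} = 0`
  multiplying by `J`'s); the identity (IT)` by `lie_frame` and `hevo`, `hevoM`
  (`evo D _ (M_{ia} M_{jb} x) = M_{ia} M_{jb} evo D _ x`).  The solution `X = toD1 M (Ψ X_E)`
  satisfies `L_X P = Q`; finally take its components of degree `n - 1` in `ρ` and `0` in `b`
  (`lie_proj` twice, `proj_pres`; `P` has degree `1` in `ρ`, `0` in `b`).
-/

open MvPolynomial

namespace KN

section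
variable {d : ℕ} {R : Type} [CommRing R]

private theorem hd_mat1 (A B : Fin d → Fin d → R)
    (h : ∀ i j, ∑ l, A i l * B l j = if i = j then 1 else 0) (Y : Fin d → R) (i : Fin d) :
    ∑ l, A i l * (∑ k, B l k * Y k) = Y i := by
  have e : ∀ l, A i l * (∑ k, B l k * Y k) = ∑ k, (A i l * B l k) * Y k := by
    intro l
    rw [Finset.mul_sum]
    refine Finset.sum_congr rfl fun k _ => ?_
    ring
  rw [Finset.sum_congr rfl fun l _ => e l, Finset.sum_comm, Finset.sum_eq_single i]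
  · rw [← Finset.sum_mul, h, if_pos rfl, one_mul]
  · intro k _ hk
    rw [← Finset.sum_mul, h, if_neg (Ne.symm hk), zero_mul]
  · intro h; exact absurd (Finset.mem_univ _) h

private theorem hd_mat2 (A B : Fin d → Fin d → R)
    (h : ∀ i j, ∑ l, A i l * B l j = if i = j then 1 else 0) (Q : Fin d → Fin d → R)
    (i j : Fin d) :
    ∑ l, ∑ l', A i l * A j l' * (∑ k, ∑ k', B l k * B l' k' * Q k k') = Q i j := by
  have e : ∀ l, ∑ l', A i l * A j l' * (∑ k, ∑ k', B l k * B l' k' * Q k k')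
      = A i l * (∑ k, B l k * Q k j) := by
    intro l
    have e1 : ∀ l', A i l * A j l' * (∑ k, ∑ k', B l k * B l' k' * Q k k')
        = A i l * (A j l' * (∑ k', B l' k' * (∑ k, B l k * Q k k'))) := by
      intro l'
      rw [Finset.sum_comm, mul_assoc]
      congr 2
      refine Finset.sum_congr rfl fun k' _ => ?_
      rw [Finset.mul_sum]
      refine Finset.sum_congr rfl fun k _ => ?_
      ring
    rw [Finset.sum_congr rfl fun l' _ => e1 l', ← Finset.mul_sum,
      hd_mat1 A B h (fun k' => ∑ k, B l k * Q k k') j]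
  rw [Finset.sum_congr rfl fun l _ => e l, hd_mat1 A B h (fun k => Q k j) i]

private theorem hd_mat3 (A B : Fin d → Fin d → R)
    (h : ∀ i j, ∑ l, A i l * B l j = if i = j then 1 else 0) (Q : Fin d → Fin d → Fin d → R)
    (hQ : ∀ i j k, ∑ a, ∑ b, ∑ c, B i a * B j b * B k c * Q a b c = 0)
    (i j k : Fin d) : Q i j k = 0 := by
  have s1 : ∀ i j c, ∑ a, ∑ b, B i a * B j b * Q a b c = 0 := by
    intro i j c
    rw [← hd_mat1 A B h (fun c => ∑ a, ∑ b, B i a * B j b * Q a b c) c]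
    apply Finset.sum_eq_zero
    intro l _
    have e : ∑ k, B l k * (∑ a, ∑ b, B i a * B j b * Q a b k)
        = ∑ a, ∑ b, ∑ c, B i a * B j b * B l c * Q a b c := by
      simp only [Finset.mul_sum]
      rw [Finset.sum_comm]
      refine Finset.sum_congr rfl fun a _ => ?_
      rw [Finset.sum_comm]
      refine Finset.sum_congr rfl fun b _ => ?_
      refine Finset.sum_congr rfl fun c _ => ?_
      ring
    rw [e, hQ, mul_zero]
  rw [← hd_mat2 A B h (fun a b => Q a b k) i j]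
  apply Finset.sum_eq_zero
  intro l _
  apply Finset.sum_eq_zero
  intro l' _
  rw [s1, mul_zero]

private theorem hd_P0_0 {m : ℕ} (f : R) (φ : Fin (m + 2) → R) :
    ∑ l, P0 f l 0 * φ l = -(f * φ 1) := by
  rw [Finset.sum_eq_single 1]
  · simp [P0]
  · intro l _ hl
    simp [P0, hl]
  · intro h; exact absurd (Finset.mem_univ _) h

end

section
variable {m : ℕ} {S : Type} [CommRing S] [Algebra ℝ S]
  {D : Fin (m + 2) → Derivation ℝ S S} {a : Fin m → S} {q : Fin (m + 2)} (fd : FrameData D a q)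

private theorem hd_lie (X : Fin (m + 2) → TT (m + 2) S)
    (P : Fin (m + 2) → Fin (m + 2) → TT (m + 2) S) (i j : Fin (m + 2)) :
    lie (fn (der D)) (toD1 fd.M (fun b => fd.Ψ (X b))) (toD2 fd.M (fun b c => fd.Ψ (P b c))) i j
      = toD2 fd.M (fun b c => fd.Ψ (lie (fn (der fd.E)) X P b c)) i j := by
  rw [lie_frame (der D) fd.M fd.hM]
  have e : ∀ b c, lie (fn (frame (der D) fd.M)) (fun b => fd.Ψ (X b)) (fun b c => fd.Ψ (P b c)) b c
      = fd.Ψ (lie (fn (der fd.E)) X P b c) := by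
    intro b c
    exact (lie_map (fn (der fd.E)) (fn (frame (der D) fd.M)) (fd.Ψ : TT (m + 2) S →+* TT (m + 2) S)
      (fun i x => fd.hΨ i x) X P b c).symm
  unfold toD2
  simp only [e]

private theorem hd_ham (P : Fin (m + 2) → Fin (m + 2) → TT (m + 2) S) (g : TT (m + 2) S)
    (i : Fin (m + 2)) :
    ham (fn (der D)) (toD2 fd.M (fun b c => fd.Ψ (P b c))) (fd.Ψ g) i
      = toD1 fd.M (fun b => fd.Ψ (ham (fn (der fd.E)) P g b)) i := by
  rw [ham_frame (der D) fd.M]
  have e : ∀ b, ham (fn (frame (der D) fd.M)) (fun b c => fd.Ψ (P b c)) (fd.Ψ g) b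
      = fd.Ψ (ham (fn (der fd.E)) P g b) := by
    intro b
    unfold ham
    rw [map_sum]
    refine Finset.sum_congr rfl fun l _ => ?_
    rw [map_mul]
    congr 1
    exact (fd.hΨ l g).symm
  unfold toD1
  simp only [e]

private theorem hd_jac (P Q : Fin (m + 2) → Fin (m + 2) → TT (m + 2) S)
    (hP : ∀ b c, P b c = - P c b) (hQ : ∀ b c, Q b c = - Q c b) (i j k : Fin (m + 2)) :
    jac (fn (der D)) (toD2 fd.M (fun b c => fd.Ψ (P b c))) (toD2 fd.M (fun b c => fd.Ψ (Q b c)))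
        i j k
      = ∑ x, ∑ y, ∑ z, fd.M i x * fd.M j y * fd.M k z
          * fd.Ψ (jac (fn (der fd.E)) P Q x y z) := by
  rw [jac_frame (der D) fd.M fd.hM _ _ (fun b c => by rw [hP b c, map_neg])
    (fun b c => by rw [hQ b c, map_neg])]
  have e : ∀ x y z, jac (fn (frame (der D) fd.M)) (fun b c => fd.Ψ (P b c))
      (fun b c => fd.Ψ (Q b c)) x y z = fd.Ψ (jac (fn (der fd.E)) P Q x y z) := by
    intro x y z
    exact (jac_map (fn (der fd.E)) (fn (frame (der D) fd.M)) (fd.Ψ : TT (m + 2) S →+* TT (m + 2) S)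
      (fun i x => fd.hΨ i x) P Q x y z).symm
  simp only [e]

private theorem hd_PP : toD2 fd.M (fun b c => fd.Ψ (P0 ρv b c)) = PP D a := by
  funext i j
  exact fd.hP i j

private theorem hd_VD : toD1 fd.M (fun b => fd.Ψ (V0 b)) = VD D a q := by
  funext k
  exact fd.hV k

private theorem hd_inj1 (X : Fin (m + 2) → TT (m + 2) S) (h : ∀ i, toD1 fd.M X i = 0)
    (b : Fin (m + 2)) : X b = 0 := by
  rw [← hd_mat1 fd.J fd.M fd.hJM X b]
  apply Finset.sum_eq_zero
  intro l _
  have := h l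
  unfold toD1 at this
  rw [this, mul_zero]

private theorem hd_inj2 (P : Fin (m + 2) → Fin (m + 2) → TT (m + 2) S)
    (h : ∀ i j, toD2 fd.M P i j = 0) (b c : Fin (m + 2)) : P b c = 0 := by
  rw [← hd_mat2 fd.J fd.M fd.hJM P b c]
  apply Finset.sum_eq_zero
  intro l _
  apply Finset.sum_eq_zero
  intro l' _
  have := h l l'
  unfold toD2 at this
  rw [this, mul_zero]

/-- pull back of vector fields -/
private noncomputable def hd_p1 (Y : Fin (m + 2) → TT (m + 2) S) (b : Fin (m + 2)) :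
    TT (m + 2) S := fd.Ψ.symm (∑ i, fd.J b i * Y i)

/-- pull back of 2-tensors -/
private noncomputable def hd_p2 (Q : Fin (m + 2) → Fin (m + 2) → TT (m + 2) S)
    (b c : Fin (m + 2)) : TT (m + 2) S := fd.Ψ.symm (∑ i, ∑ j, fd.J b i * fd.J c j * Q i j)

private theorem hd_p1_eq (Y : Fin (m + 2) → TT (m + 2) S) :
    toD1 fd.M (fun b => fd.Ψ (hd_p1 fd Y b)) = Y := by
  funext i
  unfold toD1 hd_p1
  simp only [RingEquiv.apply_symm_apply]
  exact hd_mat1 fd.M fd.J fd.hMJ Y i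

private theorem hd_p2_eq (Q : Fin (m + 2) → Fin (m + 2) → TT (m + 2) S) :
    toD2 fd.M (fun b c => fd.Ψ (hd_p2 fd Q b c)) = Q := by
  funext i j
  unfold toD2 hd_p2
  simp only [RingEquiv.apply_symm_apply]
  exact hd_mat2 fd.M fd.J fd.hMJ Q i j

private theorem hd_hom_sum {σ S κ : Type} [CommRing S] (w : σ → ℕ) (n : ℕ) (t : Finset κ)
    (x : κ → MvPolynomial σ S) (h : ∀ i ∈ t, Hom w n (x i)) : Hom w n (∑ i ∈ t, x i) := by
  classical
  induction t using Finset.induction_on with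
  | empty => rw [Finset.sum_empty]; exact isWeightedHomogeneous_zero _ _ _
  | insert a s ha ih =>
    rw [Finset.sum_insert ha]
    exact IsWeightedHomogeneous.add (h a (Finset.mem_insert_self a s))
      (ih fun i hi => h i (Finset.mem_insert_of_mem hi))

private theorem hd_symm_hom (c : Bool) (n : ℕ) (x : TT (m + 2) S) (h : Hom (wt c) n x) :
    Hom (wt c) n (fd.Ψ.symm x) := by
  rw [fd.hdeg, RingEquiv.apply_symm_apply]
  exact h

private theorem hd_p1_hom (c : Bool) (n : ℕ) (Y : Fin (m + 2) → TT (m + 2) S)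
    (h : ∀ i, Hom (wt c) n (Y i)) (b : Fin (m + 2)) : Hom (wt c) n (hd_p1 fd Y b) := by
  apply hd_symm_hom
  apply hd_hom_sum
  intro i _
  have := IsWeightedHomogeneous.mul (fd.hMdeg c b i).2 (h i)
  rwa [zero_add] at this

private theorem hd_p2_hom (c : Bool) (n : ℕ) (Q : Fin (m + 2) → Fin (m + 2) → TT (m + 2) S)
    (h : ∀ i j, Hom (wt c) n (Q i j)) (b b' : Fin (m + 2)) : Hom (wt c) n (hd_p2 fd Q b b') := by
  apply hd_symm_hom
  apply hd_hom_sum
  intro i _
  apply hd_hom_sum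
  intro j _
  have := IsWeightedHomogeneous.mul
    (IsWeightedHomogeneous.mul (fd.hMdeg c b i).2 (fd.hMdeg c b' j).2) (h i j)
  rwa [zero_add, zero_add] at this

end

private theorem hd_P0_skew {m : ℕ} {R : Type} [CommRing R] (f : R) (i j : Fin (m + 2)) :
    P0 f i j = - P0 f j i := by
  unfold P0
  by_cases h0 : i = 0
  · subst h0
    by_cases hj : j = 1
    · subst hj; simp
    · simp [hj]
  · by_cases h1 : i = 1
    · subst h1
      by_cases hj : j = 0
      · subst hj; simp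
      · simp [hj]
    · simp [h0, h1]

variable {m : ℕ} {S : Type} [CommRing S] [Algebra ℝ S]
  (D : Fin (m + 2) → Derivation ℝ S S) (hD : Comm D) (a : Fin m → S) (p q : Fin (m + 2))
  (hu : IsUnit (nam (fun k l => D l (a k)) p q))

include hD hu

theorem K0D (n : ℕ) (hn : 1 ≤ n) (g : TT (m + 2) S) (hg : Hom (wt false) n g)
    (h : ∀ i, ham (fn (der D)) (PP D a) g i = 0) : g = 0 := by
  obtain ⟨fd⟩ := exists_frameData D hD a p q hu
  set g' := fd.Ψ.symm g with hg'
  have hgg : fd.Ψ g' = g := RingEquiv.apply_symm_apply _ _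
  have h1 : ∀ i, toD1 fd.M (fun b => fd.Ψ (ham (fn (der fd.E)) (P0 ρv) g' b)) i = 0 := by
    intro i
    rw [← hd_ham, hd_PP, hgg]
    exact h i
  have h2 := hd_inj1 fd _ h1 0
  simp only [EmbeddingLike.map_eq_zero_iff] at h2
  unfold ham at h2
  have h3 := hd_P0_0 (ρv : TT (m + 2) S) (fun l => der fd.E l g')
  simp only [fn] at h2
  rw [h3, neg_eq_zero] at h2
  have h4 := X_mul_cancel _ _ h2
  have h5 := K0h fd.E 1 false n hn g' (hd_symm_hom fd false n g hg) h4
  rw [← hgg, h5, map_zero]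

theorem K1D (j k : ℕ) (hj : 2 ≤ j) (Y : Fin (m + 2) → TT (m + 2) S)
    (h0 : ∀ l, Hom (wt false) j (Y l)) (h0b : ∀ l, Hom (wt true) k (Y l))
    (h : ∀ i l, lie (fn (der D)) Y (PP D a) i l = 0) :
    ∃ g : TT (m + 2) S, Hom (wt false) (j - 1) g ∧ Hom (wt true) k g ∧
      ∀ i, Y i = ham (fn (der D)) (PP D a) g i := by
  obtain ⟨fd⟩ := exists_frameData D hD a p q hu
  have h1 : ∀ i l, toD2 fd.M (fun b c => fd.Ψ (lie (fn (der fd.E)) (hd_p1 fd Y) (P0 ρv) b c)) i l
      = 0 := by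
    intro i l
    rw [← hd_lie, hd_PP, hd_p1_eq]
    exact h i l
  have h2 : ∀ b c, lie (fn (der fd.E)) (hd_p1 fd Y) (P0 ρv) b c = 0 := by
    intro b c
    have := hd_inj2 fd _ h1 b c
    simpa using this
  obtain ⟨g, g1, g2, g3⟩ := K1full fd.E fd.hE j k hj (hd_p1 fd Y) (hd_p1_hom fd false j Y h0)
    (hd_p1_hom fd true k Y h0b) h2
  refine ⟨fd.Ψ g, (fd.hdeg _ _ _).1 g1, (fd.hdeg _ _ _).1 g2, fun i => ?_⟩
  rw [← hd_PP fd, hd_ham]
  have e : (fun b => fd.Ψ (ham (fn (der fd.E)) (P0 ρv) g b)) = fun b => fd.Ψ (hd_p1 fd Y b) := by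
    funext b
    rw [g3 b]
  rw [e, hd_p1_eq]

theorem H2D (n : ℕ) (hn : 3 ≤ n) (Q : Fin (m + 2) → Fin (m + 2) → TT (m + 2) S)
    (hQs : ∀ i j, Q i j = - Q j i)
    (hQ : ∀ i j, Hom (wt false) n (Q i j)) (hQb : ∀ i j, Hom (wt true) 0 (Q i j))
    (hQc : ∀ i j k, jac (fn (der D)) (PP D a) Q i j k = 0)
    (Z : Fin (m + 2) → TT (m + 2) S) (hZ : ∀ k, Hom (wt true) 1 (Z k))
    (hI : ∀ i j, evo D (vD D a q) (Q i j) + lie (fn (der D)) (VD D a q) Q i j
      + lie (fn (der D)) Z (PP D a) i j = 0) :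
    ∃ X : Fin (m + 2) → TT (m + 2) S, (∀ k, Hom (wt false) (n - 1) (X k)) ∧
      (∀ k, Hom (wt true) 0 (X k)) ∧ ∀ i j, lie (fn (der D)) X (PP D a) i j = Q i j := by
  obtain ⟨fd⟩ := exists_frameData D hD a p q hu
  have hQEs : ∀ b c, hd_p2 fd Q b c = - hd_p2 fd Q c b := by
    intro b c
    unfold hd_p2
    rw [← map_neg]
    congr 1
    rw [Finset.sum_comm, ← Finset.sum_neg_distrib]
    refine Finset.sum_congr rfl fun i _ => ?_
    rw [← Finset.sum_neg_distrib]
    refine Finset.sum_congr rfl fun j _ => ?_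
    rw [hQs j i]
    ring
  have hc : ∀ b c e, jac (fn (der fd.E)) (P0 ρv) (hd_p2 fd Q) b c e = 0 := by
    intro b c e
    have h1 : fd.Ψ (jac (fn (der fd.E)) (P0 ρv) (hd_p2 fd Q) b c e) = 0 := by
      refine hd_mat3 fd.J fd.M fd.hJM (fun b c e => fd.Ψ (jac (fn (der fd.E)) (P0 ρv)
        (hd_p2 fd Q) b c e)) ?_ b c e
      intro i j k
      rw [← hd_jac fd (P0 ρv) (hd_p2 fd Q) (fun b c => hd_P0_skew _ _ _) hQEs i j k, hd_PP,
        hd_p2_eq]
      exact hQc i j k
    simpa using h1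
  have hIE : ∀ b c, evo fd.E (vs fd.E) (hd_p2 fd Q b c) + lie (fn (der fd.E)) V0 (hd_p2 fd Q) b c
      + lie (fn (der fd.E)) (hd_p1 fd Z) (P0 ρv) b c = 0 := by
    intro b c
    have h1 : ∀ i j, toD2 fd.M (fun b c => fd.Ψ (evo fd.E (vs fd.E) (hd_p2 fd Q b c)
        + lie (fn (der fd.E)) V0 (hd_p2 fd Q) b c
        + lie (fn (der fd.E)) (hd_p1 fd Z) (P0 ρv) b c)) i j = 0 := by
      intro i j
      have e1 : toD2 fd.M (fun b c => fd.Ψ (evo fd.E (vs fd.E) (hd_p2 fd Q b c))) i j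
          = evo D (vD D a q) (Q i j) := by
        have e2 : Q i j = toD2 fd.M (fun b c => fd.Ψ (hd_p2 fd Q b c)) i j := by rw [hd_p2_eq]
        rw [e2]
        unfold toD2
        rw [map_sum]
        refine Finset.sum_congr rfl fun b _ => ?_
        rw [map_sum]
        refine Finset.sum_congr rfl fun c _ => ?_
        beta_reduce
        rw [Derivation.leibniz, Derivation.leibniz, fd.hevoM, fd.hevoM, fd.hevo]
        simp
      have e2 := hd_lie fd V0 (hd_p2 fd Q) i j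
      have e3 := hd_lie fd (hd_p1 fd Z) (P0 ρv) i j
      rw [hd_VD, hd_p2_eq] at e2
      rw [hd_p1_eq, hd_PP] at e3
      have e4 : toD2 fd.M (fun b c => fd.Ψ (evo fd.E (vs fd.E) (hd_p2 fd Q b c)
        + lie (fn (der fd.E)) V0 (hd_p2 fd Q) b c
        + lie (fn (der fd.E)) (hd_p1 fd Z) (P0 ρv) b c)) i j
        = toD2 fd.M (fun b c => fd.Ψ (evo fd.E (vs fd.E) (hd_p2 fd Q b c))) i j
          + toD2 fd.M (fun b c => fd.Ψ (lie (fn (der fd.E)) V0 (hd_p2 fd Q) b c)) i j
          + toD2 fd.M (fun b c => fd.Ψ (lie (fn (der fd.E)) (hd_p1 fd Z) (P0 ρv) b c)) i j := by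
        unfold toD2
        rw [← Finset.sum_add_distrib, ← Finset.sum_add_distrib]
        refine Finset.sum_congr rfl fun b _ => ?_
        rw [← Finset.sum_add_distrib, ← Finset.sum_add_distrib]
        refine Finset.sum_congr rfl fun c _ => ?_
        beta_reduce
        rw [map_add, map_add]
        ring
      rw [e4, e1, ← e2, ← e3]
      exact hI i j
    have := hd_inj2 fd _ h1 b c
    simpa only [EmbeddingLike.map_eq_zero_iff] using this
  obtain ⟨XE, hXE⟩ := H2std fd.E fd.hE n hn (hd_p2 fd Q) hQEs (hd_p2_hom fd false n Q hQ)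
    (hd_p2_hom fd true 0 Q hQb) hc (hd_p1 fd Z) (hd_p1_hom fd true 1 Z hZ) hIE
  set X := toD1 fd.M (fun b => fd.Ψ (XE b)) with hX
  have h1 : ∀ i j, lie (fn (der D)) X (PP D a) i j = Q i j := by
    intro i j
    rw [hX, ← hd_PP fd, hd_lie]
    have e : (fun b c => fd.Ψ (lie (fn (der fd.E)) XE (P0 ρv) b c))
        = fun b c => fd.Ψ (hd_p2 fd Q b c) := by
      funext b c
      rw [hXE b c]
    rw [e, hd_p2_eq]
  have hPPf : ∀ i j, Hom (wt false) 1 (PP D a i j) := by
    intro i j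
    have h := isWeightedHomogeneous_X S (wt (d := m + 2) false)
      ((false, 0) : Bool × (Fin (m + 2) →₀ ℕ))
    rw [show wt (d := m + 2) false ((false, 0) : Bool × (Fin (m + 2) →₀ ℕ)) = 1 by
      simp [wt]] at h
    have := IsWeightedHomogeneous.mul h (isWeightedHomogeneous_C (wt (d := m + 2) false)
      (nam (fun k l => D l (a k)) i j))
    exact this
  have hPPt : ∀ i j, Hom (wt true) 0 (PP D a i j) := by
    intro i j
    have h := isWeightedHomogeneous_X S (wt (d := m + 2) true)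
      ((false, 0) : Bool × (Fin (m + 2) →₀ ℕ))
    rw [show wt (d := m + 2) true ((false, 0) : Bool × (Fin (m + 2) →₀ ℕ)) = 0 by
      simp [wt]] at h
    have := IsWeightedHomogeneous.mul h (isWeightedHomogeneous_C (wt (d := m + 2) true)
      (nam (fun k l => D l (a k)) i j))
    exact this
  have h2 := lie_proj D false (n - 1) 1 X (PP D a) Q hPPf
    (fun i j => by rw [show 1 + (n - 1) = n by omega]; exact hQ i j) h1
  have h3 := lie_proj D true 0 0 _ (PP D a) Q hPPt (fun i j => hQb i j) h2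
  exact ⟨fun l => proj true 0 (proj false (n - 1) (X l)),
    fun k => proj_pres true false 0 (n - 1) _ (proj_hom _ _ _), fun k => proj_hom _ _ _, h3⟩

end KN
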