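import Mathlib

/-!
# MODULE Kos3 (size M)

Koszul exactness for three distinct variables of a polynomial ring over an arbitrary commutative
ring: if `a X_i + b X_j + c X_k = 0` then (a, b, c)` is a combination of the trivial relations.

Proof.  Two variables first: if `a X_i + b X_j = 0` then `a = X_j r`, `b = - X_i r`
(`kos2`: all monomials of `a X_i = - b X_j` are divisible by `X_j`, and `X_i` does not involve `X_j`,
so `X_j ∣ a`: `MvPolynomial.X_dvd_iff_modMonomial_eq_zero`, or coefficientwise; then cancel `X_j`,
which is a nonzerodivisor, `MvPolynomial.isRegular_X` or similar).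
Three variables: write `a = a₀ + X_k a₁`, `b = b₀ + X_k b₁` with `a₀, b₀` not involving `X_k`
(`a₁ = a.divMonomial (single k 1)`, `a₀ = a.modMonomial (single k 1)`).  The part of the relation not
divisible by `X_k` is `a₀ X_i + b₀ X_j = 0`, so `a₀ = X_j r`, `b₀ = - X_i r`.  The rest gives
`X_k (a₁ X_i + b₁ X_j + c) = 0`, so `c = - a₁ X_i - b₁ X_j`.  Take `q = - a₁`, `p = b₁`:
`a = X_j r - X_k q`, `b = X_k p - X_i r`, `c = X_i q - X_j p`.
-/

open MvPolynomial

namespace KN

/-- variables are nonzerodivisors -/
theorem X_mul_cancel {σ S : Type} [CommRing S] (i : σ) (a : MvPolynomial σ S)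
    (h : X i * a = 0) : a = 0 := by
  ext m
  have h1 := congrArg (coeff (Finsupp.single i 1 + m)) h
  rwa [coeff_X_mul, coeff_zero] at h1

theorem kos2 {σ S : Type} [CommRing S] (i j : σ) (hij : i ≠ j) (a b : MvPolynomial σ S)
    (h : a * X i + b * X j = 0) : ∃ r, a = X j * r ∧ b = - (X i * r) := by
  classical
  have ha := divMonomial_add_modMonomial_single a j
  have ha0 : a.modMonomial (Finsupp.single j 1) = 0 := by
    ext m
    by_cases hm : Finsupp.single j 1 ≤ m
    · rw [coeff_modMonomial_of_le _ hm, coeff_zero]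
    · rw [coeff_modMonomial_of_not_le _ hm, coeff_zero]
      have h1 := congrArg (coeff (m + Finsupp.single i 1)) h
      rw [coeff_add, coeff_mul_X, coeff_mul_X', coeff_zero, if_neg, add_zero] at h1
      · exact h1
      · rw [Finsupp.single_le_iff, not_le, Nat.lt_one_iff] at hm
        rw [Finsupp.mem_support_iff, not_not, Finsupp.add_apply, hm,
          Finsupp.single_apply, if_neg hij, add_zero]
  rw [ha0, add_zero] at ha
  refine ⟨a.divMonomial (Finsupp.single j 1), ha.symm, ?_⟩
  have h2 : X j * (X i * a.divMonomial (Finsupp.single j 1) + b) = 0 := by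
    rw [← h]
    nth_rewrite 2 [← ha]
    ring
  have h3 := X_mul_cancel j _ h2
  linear_combination h3

theorem kos3 {σ S : Type} [CommRing S] (i j k : σ) (hij : i ≠ j) (hik : i ≠ k) (hjk : j ≠ k)
    (a b c : MvPolynomial σ S) (h : a * X i + b * X j + c * X k = 0) :
    ∃ p q r, a = X j * r - X k * q ∧ b = X k * p - X i * r ∧ c = X i * q - X j * p := by
  classical
  have ha := divMonomial_add_modMonomial_single a k
  have hb := divMonomial_add_modMonomial_single b k
  set a1 := a.divMonomial (Finsupp.single k 1) with ha1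
  set a0 := a.modMonomial (Finsupp.single k 1) with ha0
  set b1 := b.divMonomial (Finsupp.single k 1) with hb1
  set b0 := b.modMonomial (Finsupp.single k 1) with hb0
  have key : ∀ (x : MvPolynomial σ S) (e : σ), e ≠ k → ∀ m : σ →₀ ℕ, k ∈ m.support →
      coeff m (x.modMonomial (Finsupp.single k 1) * X e) = 0 := by
    intro x e he m hm
    rw [coeff_mul_X']
    split_ifs with h1
    · apply coeff_modMonomial_of_le
      rw [Finsupp.single_le_iff, Finsupp.tsub_apply, Finsupp.single_apply, if_neg he, tsub_zero]
      exact Nat.one_le_iff_ne_zero.2 (Finsupp.mem_support_iff.1 hm)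
    · rfl
  have h1 : a0 * X i + b0 * X j = - (X k * (a1 * X i + b1 * X j + c)) := by
    rw [← ha, ← hb] at h
    linear_combination h
  have h2 : a0 * X i + b0 * X j = 0 := by
    ext m
    rw [coeff_zero]
    by_cases hm : k ∈ m.support
    · rw [coeff_add, key a i hik m hm, key b j hjk m hm, add_zero]
    · rw [h1, coeff_neg, coeff_X_mul', if_neg hm, neg_zero]
  obtain ⟨r, hr1, hr2⟩ := kos2 i j hij a0 b0 h2
  have h3 : X k * (a1 * X i + b1 * X j + c) = 0 := by
    rw [h2] at h1
    linear_combination h1
  have h4 := X_mul_cancel k _ h3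
  refine ⟨b1, -a1, r, ?_, ?_, ?_⟩
  · rw [← ha, hr1]; ring
  · rw [← hb, hr2]; ring
  · linear_combination h4

end KN
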