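import Pool.Agent.Work.MP_e214ac_gt.N.Curl
import Pool.Agent.Work.MP_e214ac_gt.N.Kos3

/-!
# MODULE K1 (size M/L)

Poisson vector fields of `f e_u ∧ e_v` of degree `≥ 2` are Hamiltonian (`f = ρv`).

`K1`: let `Y0 f_u + Y1 f_v = f w`, `w = D_u Y0 + D_v Y1` (`f_u = der E u f = X (false, e_u)`, etc.).
(1) `kos3` for the variables `f_u, f_v, f`: `Y0 = f_v r - f q`, `Y1 = f p - f_u r`.
(2) Write `r = r₀ + f r₁` with `r₀` not involving the variable `f = X (false, 0)`
(`modMonomial`/`divMonomial`, or substitute `f ↦ 0`); absorbing `f r₁` in `p`, `q` we may assume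
`pderiv (false, 0) r = 0`.  Taking homogeneous components (`proj false`) of `r`, `p`, `q` (degrees
`j - 1`; `X` variables have degree `1`) we may assume that `r`, `p`, `q` are homogeneous of degree
`j - 1 ≥ 1` in `ρ` (the property `pderiv (false, 0) r = 0` is kept: the component is a sum of
monomials of `r`).
(3) With `W0 = - q`, `W1 = p`, `Y0 = f W0 + f_v r`, `Y1 = f W1 - f_u r`, the relation becomes
`f (r_u f_v - r_v f_u) + f² (D_u W0 + D_v W1) = 0` (here `r_u = der E u r`), so, cancelling `f`,
`r_u f_v - r_v f_u = - f (D_u W0 + D_v W1)`.  The left side does not involve the variable `f`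
(`der E u r` does not, since no variable (c, K + e_u)` is (false, 0)` and `r` does not involve `f`);
the right side is a multiple of `f`; so both are zero: `r_u f_v = r_v f_u`.
(4) `r` is a coefficient, hence zero (degree `≥ 1`): use `descent` in the direction `u`.  Let
(c, K)` be such that `pderiv (c', K') r = 0` whenever `K' u ≥ K u + 1`.  Apply
`pderiv (c, K + e_u)` to `r_u f_v = r_v f_u`: by `pderiv_der`,
`pderiv (c, K + e_u) (der E u r) = pderiv (c, K) r`,
`pderiv (c, K + e_u) (der E v r) = der E v 0 + (pderiv (c, K + e_u - e_v) r or 0) = 0`,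
`pderiv (c, K + e_u) f_v = 0` (as (K + e_u) u ≥ 1`), `pderiv (c, K + e_u) f_u = [c = false, K = 0]`.
So `pderiv (c, K) r * f_v = r_v * [..]`.  If (c, K) ≠ (false, 0)` this gives
`pderiv (c, K) r * f_v = 0`, so `pderiv (c, K) r = 0` (`X_mul_cancel`); if (c, K) = (false, 0)` it is
zero by (2).
(5) So `Y0 = f W0`, `Y1 = f W1`, `f² (D_u W0 + D_v W1) = 0`, and `curl` gives `g`.
Replace `g` by its component of degree `k` in the field `b = true`.

-/

open MvPolynomial

namespace KN

private theorem k1_mod_pderiv {σ S : Type} [CommRing S] (v : σ) (x : MvPolynomial σ S) :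
    pderiv v (x.modMonomial (Finsupp.single v 1)) = 0 := by
  ext m
  rw [coeff_pderiv, coeff_modMonomial_of_le]
  · simp
  · exact le_add_self

private theorem k1_div {σ S : Type} [CommRing S] [Algebra ℝ S] (v : σ) (A B : MvPolynomial σ S)
    (hA : pderiv v A = 0) (h : A = X v * B) : A = 0 := by
  classical
  ext m
  by_cases hm : v ∈ m.support
  · obtain ⟨m', rfl⟩ : ∃ m', m = m' + Finsupp.single v 1 := by
      refine ⟨m - Finsupp.single v 1, ?_⟩
      rw [tsub_add_cancel_of_le]
      rw [Finsupp.single_le_iff]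
      exact Nat.one_le_iff_ne_zero.2 (Finsupp.mem_support_iff.1 hm)
    have h1 := congrArg (coeff m') hA
    rw [coeff_pderiv, coeff_zero] at h1
    have h2 : (algebraMap ℝ S ((m' v : ℝ) + 1)) * coeff (m' + Finsupp.single v 1) A = 0 := by
      rw [map_add, map_natCast, map_one, mul_comm]
      exact h1
    have h3 : ((m' v : ℝ) + 1) ≠ 0 := by positivity
    rw [coeff_zero]
    have h4 := congrArg (fun z => algebraMap ℝ S ((m' v : ℝ) + 1)⁻¹ * z) h2
    simp only [mul_zero] at h4
    rw [← mul_assoc, ← map_mul, inv_mul_cancel₀ h3, map_one, one_mul] at h4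
    exact h4
  · rw [h, coeff_X_mul', if_neg hm, coeff_zero]

private theorem k1_hom_mod {σ S : Type} [CommRing S] (w : σ → ℕ) (n : ℕ) (s : σ →₀ ℕ)
    (x : MvPolynomial σ S) (hx : Hom w n x) : Hom w n (x.modMonomial s) := by
  intro m hm
  by_cases hs : s ≤ m
  · rw [coeff_modMonomial_of_le _ hs] at hm
    exact absurd rfl hm
  · rw [coeff_modMonomial_of_not_le _ hs] at hm
    exact hx hm

private theorem k1_hom_C {σ S : Type} [CommRing S] (w : σ → ℕ) (n : ℕ) (hn : 1 ≤ n) (s : S)
    (hx : Hom w n (C s : MvPolynomial σ S)) : s = 0 := by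
  by_contra hs
  have h := hx (d := 0) (by simpa using hs)
  simp at h
  omega

private theorem k1_proj_zero {Φ : Type} [DecidableEq Φ] {d : ℕ} {S : Type} [CommRing S]
    [Algebra ℝ S] (c : Φ) (n : ℕ) : proj c n (0 : DP Φ d S) = 0 := by
  have h := proj_add c n (0 : DP Φ d S) 0
  rw [add_zero] at h
  exact left_eq_add.1 h

private theorem k1_proj_neg {Φ : Type} [DecidableEq Φ] {d : ℕ} {S : Type} [CommRing S]
    [Algebra ℝ S] (c : Φ) (n : ℕ) (x : DP Φ d S) : proj c n (-x) = - proj c n x := by
  have h := proj_add c n x (-x)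
  rw [add_neg_cancel, k1_proj_zero] at h
  exact (neg_eq_of_add_eq_zero_right h.symm).symm

theorem K1 {d : ℕ} {S : Type} [CommRing S] [Algebra ℝ S] (E : Fin d → Derivation ℝ S S)
    (hE : Comm E) (u v : Fin d) (huv : u ≠ v) (j k : ℕ) (hj : 2 ≤ j)
    (Y0 Y1 : TT d S) (h0 : Hom (wt false) j Y0) (h1 : Hom (wt false) j Y1)
    (h0b : Hom (wt true) k Y0) (h1b : Hom (wt true) k Y1)
    (h : Y0 * der E u ρv + Y1 * der E v ρv = ρv * (der E u Y0 + der E v Y1)) :
    ∃ g : TT d S, Hom (wt false) (j - 1) g ∧ Hom (wt true) k g ∧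
      Y0 = - (ρv * der E v g) ∧ Y1 = ρv * der E u g := by
  classical
  have hfu : der E u (ρv : TT d S) = X (false, Finsupp.single u 1) := by
    rw [ρv, der_X, zero_add]
  have hfv : der E v (ρv : TT d S) = X (false, Finsupp.single v 1) := by
    rw [ρv, der_X, zero_add]
  have hne1 : ((false, Finsupp.single u 1) : Bool × (Fin d →₀ ℕ)) ≠ (false, Finsupp.single v 1) := by
    intro e
    have e2 := congrArg (fun z => z.2 u) e
    simp [huv.symm] at e2
  have hne2 : ((false, Finsupp.single u 1) : Bool × (Fin d →₀ ℕ)) ≠ (false, 0) := by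
    intro e
    have e2 := congrArg (fun z => z.2 u) e
    simp at e2
  have hne3 : ((false, Finsupp.single v 1) : Bool × (Fin d →₀ ℕ)) ≠ (false, 0) := by
    intro e
    have e2 := congrArg (fun z => z.2 v) e
    simp at e2
  have hwX : ∀ K : Fin d →₀ ℕ, Hom (wt false) 1 (X (false, K) : TT d S) := by
    intro K
    have h := isWeightedHomogeneous_X S (wt (d := d) false) ((false, K) : Bool × (Fin d →₀ ℕ))
    rw [show wt (d := d) false ((false, K) : Bool × (Fin d →₀ ℕ)) = 1 by simp [wt]] at h
    exact h
  have hft : Hom (wt true) 0 (ρv : TT d S) := by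
    have h := isWeightedHomogeneous_X S (wt (d := d) true) ((false, 0) : Bool × (Fin d →₀ ℕ))
    rw [show wt (d := d) true ((false, 0) : Bool × (Fin d →₀ ℕ)) = 0 by simp [wt]] at h
    exact h
  -- (1)
  obtain ⟨p, q, r, e0, e1, -⟩ := kos3 (false, Finsupp.single u 1) (false, Finsupp.single v 1)
    (false, 0) hne1 hne2 hne3 Y0 Y1 (-(der E u Y0 + der E v Y1)) (by
      rw [hfu, hfv] at h
      rw [h, ρv]; ring)
  -- homogeneous parts
  have hj1 : 1 + (j - 1) = j := by omega
  have e0h : Y0 = X (false, Finsupp.single v 1) * proj false (j - 1) r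
      - X (false, 0) * proj false (j - 1) q := by
    have a1 := proj_mul false (j - 1) 1 (X (false, Finsupp.single v 1)) r (hwX _)
    have a2 := proj_mul false (j - 1) 1 (X (false, 0)) q (hwX _)
    rw [hj1] at a1 a2
    rw [← a1, ← a2, sub_eq_add_neg, ← k1_proj_neg, ← proj_add, ← sub_eq_add_neg, ← e0,
      proj_of_hom false j Y0 h0]
  have e1h : Y1 = X (false, 0) * proj false (j - 1) p
      - X (false, Finsupp.single u 1) * proj false (j - 1) r := by
    have a1 := proj_mul false (j - 1) 1 (X (false, Finsupp.single u 1)) r (hwX _)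
    have a2 := proj_mul false (j - 1) 1 (X (false, 0)) p (hwX _)
    rw [hj1] at a1 a2
    rw [← a1, ← a2, sub_eq_add_neg, ← k1_proj_neg, ← proj_add, ← sub_eq_add_neg, ← e1,
      proj_of_hom false j Y1 h1]
  set rh : TT d S := proj false (j - 1) r with hrh
  set r0 : TT d S := rh.modMonomial (Finsupp.single (false, 0) 1) with hr0
  set r1 : TT d S := rh.divMonomial (Finsupp.single (false, 0) 1) with hr1
  have hr : rh = X (false, 0) * r1 + r0 := (divMonomial_add_modMonomial_single rh (false, 0)).symm
  have hr0h : Hom (wt false) (j - 1) r0 := k1_hom_mod _ _ _ _ (proj_hom false (j - 1) r)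
  have hr0p : pderiv (false, 0) r0 = 0 := k1_mod_pderiv _ _
  set W0 : TT d S := der E v ρv * r1 - proj false (j - 1) q with hW0
  set W1 : TT d S := proj false (j - 1) p - der E u ρv * r1 with hW1
  have f0 : Y0 = ρv * W0 + der E v ρv * r0 := by
    rw [e0h, hr, hW0, hfv, ρv]; ring
  have f1 : Y1 = ρv * W1 - der E u ρv * r0 := by
    rw [e1h, hr, hW1, hfu, ρv]; ring
  -- (3)
  have hcomm : der E u (der E v (ρv : TT d S)) = der E v (der E u ρv) := der_comm E hE u v ρv
  have g1 : X (false, 0) * (ρv * (der E u W0 + der E v W1)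
      + (der E v ρv * der E u r0 - der E u ρv * der E v r0)) = 0 := by
    have h2 := h
    rw [f0, f1] at h2
    simp only [map_add, map_sub, Derivation.leibniz, smul_eq_mul] at h2
    rw [hcomm] at h2
    change ρv * _ = _
    linear_combination -h2
  have g2 := X_mul_cancel _ _ g1
  have g3 : der E u r0 * der E v ρv - der E v r0 * der E u ρv = 0 := by
    apply k1_div (false, 0) _ (-(der E u W0 + der E v W1))
    · rw [hfu, hfv, map_sub, pderiv_mul, pderiv_mul, pderiv_der, pderiv_der, hr0p,
        pderiv_X_of_ne hne3, pderiv_X_of_ne hne2]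
      simp
    · change _ = ρv * _
      linear_combination g2
  have g4 : der E u W0 + der E v W1 = 0 := by
    apply X_mul_cancel (false, 0)
    change ρv * _ = _
    linear_combination g2 - g3
  -- (4)
  obtain ⟨s, hs⟩ := descent u r0 (by
    intro c K hK
    by_cases hcK : c = false ∧ K = 0
    · rw [hcK.1, hcK.2]; exact hr0p
    have a1 := congrArg (pderiv (c, K + Finsupp.single u 1)) g3
    have z1 : pderiv (c, K + Finsupp.single u 1) r0 = 0 := hK c _ (by simp)
    have z2 : pderiv (c, K + Finsupp.single u 1) (der E u r0) = pderiv (c, K) r0 := by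
      rw [pderiv_der, z1, map_zero, zero_add, if_neg (by simp), add_tsub_cancel_right]
    have z3 : pderiv (c, K + Finsupp.single u 1) (der E v r0) = 0 := by
      rw [pderiv_der, z1, map_zero, zero_add]
      split_ifs with hv
      · rfl
      · apply hK
        simp [huv.symm]
    have z4 : pderiv (c, K + Finsupp.single u 1) (der E v (ρv : TT d S)) = 0 := by
      rw [hfv]
      apply pderiv_X_of_ne
      intro e
      have e2 := congrArg (fun z => z.2 u) e
      simp [huv.symm] at e2
    have z5 : pderiv (c, K + Finsupp.single u 1) (der E u (ρv : TT d S)) = 0 := by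
      rw [hfu]
      apply pderiv_X_of_ne
      intro e
      apply hcK
      have e1 := congrArg Prod.fst e
      have e2 := congrArg Prod.snd e
      simp only at e1 e2
      refine ⟨e1.symm, ?_⟩
      exact left_eq_add.1 (e2.trans (add_comm _ _))
    rw [map_sub, pderiv_mul, pderiv_mul, z2, z3, z4, z5, hfv] at a1
    simp only [mul_zero, zero_mul, add_zero, sub_zero, map_zero] at a1
    exact X_mul_cancel _ _ (by rw [mul_comm]; exact a1))
  have hs0 : s = 0 := k1_hom_C (wt false) (j - 1) (by omega) s (by rw [← hs]; exact hr0h)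
  have hr00 : r0 = 0 := by rw [hs, hs0, map_zero]
  rw [hr00, mul_zero, add_zero] at f0
  rw [hr00, mul_zero, sub_zero] at f1
  have hW0h : Hom (wt false) (j - 1) W0 := by
    have a1 : ρv * proj false (j - 1) W0 = ρv * W0 := by
      rw [← proj_mul false (j - 1) 1 ρv W0 (hwX 0), hj1, ← f0, proj_of_hom false j Y0 h0]
    have a2 : proj false (j - 1) W0 - W0 = 0 := by
      apply X_mul_cancel (false, 0)
      change ρv * _ = _
      linear_combination a1
    rw [← sub_eq_zero.1 a2]
    exact proj_hom _ _ _
  have hW1h : Hom (wt false) (j - 1) W1 := by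
    have a1 : ρv * proj false (j - 1) W1 = ρv * W1 := by
      rw [← proj_mul false (j - 1) 1 ρv W1 (hwX 0), hj1, ← f1, proj_of_hom false j Y1 h1]
    have a2 : proj false (j - 1) W1 - W1 = 0 := by
      apply X_mul_cancel (false, 0)
      change ρv * _ = _
      linear_combination a1
    rw [← sub_eq_zero.1 a2]
    exact proj_hom _ _ _
  obtain ⟨g, hg, hg0, hg1⟩ := curl E hE u v huv false (j - 1) (by omega) W0 W1 hW0h hW1h g4
  refine ⟨proj true k g, proj_pres true false k (j - 1) g hg, proj_hom _ _ _, ?_, ?_⟩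
  · have a1 := proj_mul true k 0 ρv (der E v g) hft
    rw [zero_add, proj_der] at a1
    rw [← a1, ← k1_proj_neg]
    have a2 : -(ρv * der E v g) = Y0 := by rw [f0, hg0]; ring
    rw [a2, proj_of_hom true k Y0 h0b]
  · have a1 := proj_mul true k 0 ρv (der E u g) hft
    rw [zero_add, proj_der] at a1
    rw [← a1]
    have a2 : ρv * der E u g = Y1 := by rw [f1, hg1]
    rw [a2, proj_of_hom true k Y1 h1b]

end KN
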