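import Pool.Agent.Work.MP_e214ac_gt.N.VL
import Pool.Agent.Work.MP_e214ac_gt.N.K1
import Pool.Agent.Work.MP_e214ac_gt.N.LieComm

/-!
# MODULE H2std (assembly in the adapted frame, size L)

`f = ρv`, `P = P0 f = f e_0 ∧ e_1`, `D_i = der E i`, `∂_s = evo E (vs E)`, `V = V0 = f b e_0`.
`Q` is skew, of degree `n ≥ 3` in `ρ`, free of `b`, `[[P, Q]] = 0`, and for some `Z` of degree 1 in `b`
(IT)  ∂_s Q^{ij} + (L_V Q)^{ij} + (L_Z P)^{ij} = 0`.  Then `Q = L_X P` for some `X`.

Proof.  (1) For `i, j ∉ {0, 1}` the component (0, i, j)` of `[[P, Q]] = 0` is `f D_1 Q^{ij} = 0`, so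
`Q^{ij} = 0` (`X_mul_cancel`, `K0h` with `c = false`, degree `n`).
(2) For `i ∉ {0, 1}` the component (0, 1, i)` is
`f (D_0 Q^{0i} + D_1 Q^{1i}) - (Q^{0i} f_0 + Q^{1i} f_1) = 0` (using (1)), so `K1` gives `g_i`, of
degree `n - 1` and free of `b`, with `Q^{0i} = - f D_1 g_i`, `Q^{1i} = f D_0 g_i`.
(3) Put `X1 = Σ_{i ≥ 2} g_i e_i`.  Then (L_{X1} P)^{0i} = - f D_1 g_i`, (L_{X1} P)^{1i} = f D_0 g_i`,
(L_{X1} P)^{ij} = 0` for `i, j ≥ 2`, so `Q' = Q - L_{X1} P` has only the component
`q' = Q'^{01} = Q^{01} - Σ_i g_i D_i f`, of degree `n`, free of `b`.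
(4) `∂_s P = - L_V P` (direct: `∂_s f = f² D_0 b` and `L_V P = (V^0 f_0 - f D_0 V^0) e_0 ∧ e_1
= - f² (D_0 b) e_0 ∧ e_1`).  By `der_lie`, `lie_comm` and `lie_add_left`:
`∂_s Q' + L_V Q' = -L_Z P - L_{∂_s X1} P + L_{X1} L_V P - L_V L_{X1} P = - L_{Z'} P` with
`Z' = Z + ∂_s X1 - [X1, V]`, `[X1, V] = vbr X1 V`; `Z'` has degree `1` in `b`
(`∂_s` raises the `b`-degree by one, `hom_evo`).
(5) For `i ≥ 2` the component (0, i)` of `∂_s Q' + L_V Q' + L_{Z'} P = 0` is `- f D_1 Z'^i = 0`
(`V` has only the component `0` and `Q'` only the components `01`, `10`), so `Z'^i = 0` (`K0h` with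
`c = true`).  The component (0, 1)` is
`∂_s q' + f b D_0 q' - q' D_0 (f b) + Z'^0 f_0 + Z'^1 f_1 - f (D_0 Z'^0 + D_1 Z'^1) = 0`, so `VL` with
`u = 0`, `v = 1` gives `X0', X1'` with `q' = (L_{X0' e_0 + X1' e_1} P)^{01}`.
(6) `X = X1 + X0' e_0 + X1' e_1` (all other components of `L_{X0' e_0 + X1' e_1} P` vanish).
-/

open MvPolynomial

namespace KN

section
variable {m : ℕ} {R : Type} [CommRing R]

private theorem h2_sumL (f : R) (φ : Fin (m + 2) → R) (j : Fin (m + 2)) :
    ∑ l, P0 f l j * φ l = if j = 1 then f * φ 0 else if j = 0 then -(f * φ 1) else 0 := by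
  have h : ∀ l, P0 f l j * φ l = (if l = 0 then (if j = 1 then f * φ 0 else 0) else 0)
      + (if l = 1 then (if j = 0 then -(f * φ 1) else 0) else 0) := by
    intro l
    unfold P0
    by_cases h0 : l = 0
    · subst h0
      by_cases hj : j = 1
      · simp [hj]
      · simp [hj]
    · by_cases h1 : l = 1
      · subst h1
        by_cases hj : j = 0
        · simp [hj]
        · simp [hj]
      · simp [h0, h1]
  rw [Finset.sum_congr rfl (fun l _ => h l), Finset.sum_add_distrib, Finset.sum_ite_eq',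
    Finset.sum_ite_eq']
  by_cases hj : j = 1
  · subst hj; simp
  · simp [hj]

private theorem h2_skew (f : R) (i j : Fin (m + 2)) : P0 f i j = - P0 f j i := by
  unfold P0
  by_cases h0 : i = 0
  · subst h0
    by_cases hj : j = 1
    · subst hj; simp
    · simp [hj]
  · by_cases h1 : i = 1
    · subst h1
      by_cases hj : j = 0
      · subst hj; simp
      · simp [hj]
    · simp [h0, h1]

private theorem h2_sumR (f : R) (φ : Fin (m + 2) → R) (i : Fin (m + 2)) :
    ∑ l, P0 f i l * φ l = if i = 0 then f * φ 1 else if i = 1 then -(f * φ 0) else 0 := by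
  have h : ∀ l, P0 f i l * φ l = - (P0 f l i * φ l) := by
    intro l
    rw [h2_skew f i l]; ring
  rw [Finset.sum_congr rfl (fun l _ => h l), Finset.sum_neg_distrib, h2_sumL]
  by_cases h0 : i = 0
  · subst h0; simp
  · by_cases h1 : i = 1
    · subst h1; simp
    · simp [h0, h1]

/-- components of the Lie derivative of `P0 f` -/
private theorem h2_lie [Algebra ℝ R] (D : Fin (m + 2) → Derivation ℝ R R) (X : Fin (m + 2) → R)
    (f : R) (i j : Fin (m + 2)) :
    lie (fn D) X (P0 f) i j = P0 (∑ l, X l * D l f) i j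
      - (if j = 1 then f * D 0 (X i) else if j = 0 then -(f * D 1 (X i)) else 0)
      - (if i = 0 then f * D 1 (X j) else if i = 1 then -(f * D 0 (X j)) else 0) := by
  unfold lie
  rw [Finset.sum_sub_distrib, Finset.sum_sub_distrib]
  have e1 := h2_sumL f (fun l => D l (X i)) j
  have e2 := h2_sumR f (fun l => D l (X j)) i
  have e3 : ∑ l, X l * D l (P0 f i j) = P0 (∑ l, X l * D l f) i j := by
    unfold P0
    by_cases h : i = 0 ∧ j = 1
    · simp [h]
    · by_cases h' : i = 1 ∧ j = 0
      · rw [if_neg h, if_pos h', if_neg h, if_pos h']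
        simp
      · rw [if_neg h, if_neg h', if_neg h, if_neg h']
        simp
  simp only [fn]
  rw [e1, e2, e3]

end

private theorem h2_P0_map {m : ℕ} {R : Type} [CommRing R] [Algebra ℝ R] (T : Derivation ℝ R R)
    (f : R) (i j : Fin (m + 2)) : T (P0 f i j) = P0 (T f) i j := by
  unfold P0
  by_cases h : i = 0 ∧ j = 1
  · simp [h]
  · by_cases h' : i = 1 ∧ j = 0
    · rw [if_neg h, if_pos h', if_neg h, if_pos h', map_neg]
    · rw [if_neg h, if_neg h', if_neg h, if_neg h', map_zero]

private theorem h2_P0_neg {m : ℕ} {R : Type} [CommRing R]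
    (f : R) (i j : Fin (m + 2)) : P0 (-f) i j = - P0 f i j := by
  unfold P0
  by_cases h : i = 0 ∧ j = 1
  · simp [h]
  · by_cases h' : i = 1 ∧ j = 0
    · rw [if_neg h, if_pos h', if_neg h, if_pos h']
    · rw [if_neg h, if_neg h', if_neg h, if_neg h', neg_zero]

private theorem h2_lie_neg_right {ι R : Type} [Fintype ι] [CommRing R] [Algebra ℝ R]
    (D : ι → Derivation ℝ R R) (X : ι → R) (P Q : ι → ι → R) (h : ∀ i j, P i j = - Q i j)
    (i j : ι) : lie (fn D) X P i j = - lie (fn D) X Q i j := by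
  unfold lie
  rw [← Finset.sum_neg_distrib]
  refine Finset.sum_congr rfl fun l _ => ?_
  rw [h i j, h l j, h i l]
  simp only [fn, map_neg]
  ring

private theorem h2_lie_congr {ι R : Type} [Fintype ι] [CommRing R]
    (D : ι → R → R) (X : ι → R) (P Q : ι → ι → R) (h : ∀ i j, P i j = Q i j)
    (i j : ι) : lie D X P i j = lie D X Q i j := by
  have : P = Q := by funext i j; exact h i j
  rw [this]

private theorem h2_hom_sum {σ S κ : Type} [CommRing S] (w : σ → ℕ) (n : ℕ) (t : Finset κ)
    (x : κ → MvPolynomial σ S) (h : ∀ i ∈ t, Hom w n (x i)) : Hom w n (∑ i ∈ t, x i) := by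
  classical
  induction t using Finset.induction_on with
  | empty => rw [Finset.sum_empty]; exact isWeightedHomogeneous_zero _ _ _
  | insert a s ha ih =>
    rw [Finset.sum_insert ha]
    exact IsWeightedHomogeneous.add (h a (Finset.mem_insert_self a s))
      (ih fun i hi => h i (Finset.mem_insert_of_mem hi))

private theorem h2_hom_neg {σ S : Type} [CommRing S] (w : σ → ℕ) (n : ℕ)
    (x : MvPolynomial σ S) (h : Hom w n x) : Hom w n (-x) := by
  have : -x = C (-1) * x := by simp
  rw [this]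
  have h1 : Hom w 0 (C (-1) : MvPolynomial σ S) := isWeightedHomogeneous_C _ _
  have := IsWeightedHomogeneous.mul h1 h
  rwa [zero_add] at this

private theorem h2_hom_sub {σ S : Type} [CommRing S] (w : σ → ℕ) (n : ℕ)
    (x y : MvPolynomial σ S) (hx : Hom w n x) (hy : Hom w n y) : Hom w n (x - y) := by
  rw [sub_eq_add_neg]
  exact IsWeightedHomogeneous.add hx (h2_hom_neg w n y hy)

private theorem h2_hom_rho {d : ℕ} {S : Type} [CommRing S] :
    Hom (wt false) 1 (ρv : TT d S) := by
  have h := isWeightedHomogeneous_X S (wt (d := d) false) ((false, 0) : Bool × (Fin d →₀ ℕ))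
  rw [show wt (d := d) false ((false, 0) : Bool × (Fin d →₀ ℕ)) = 1 by simp [wt]] at h
  exact h

private theorem h2_hom_rho_t {d : ℕ} {S : Type} [CommRing S] :
    Hom (wt true) 0 (ρv : TT d S) := by
  have h := isWeightedHomogeneous_X S (wt (d := d) true) ((false, 0) : Bool × (Fin d →₀ ℕ))
  rw [show wt (d := d) true ((false, 0) : Bool × (Fin d →₀ ℕ)) = 0 by simp [wt]] at h
  exact h

private theorem h2_hom_b {d : ℕ} {S : Type} [CommRing S] :
    Hom (wt true) 1 (bv : TT d S) := by
  have h := isWeightedHomogeneous_X S (wt (d := d) true) ((true, 0) : Bool × (Fin d →₀ ℕ))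
  rw [show wt (d := d) true ((true, 0) : Bool × (Fin d →₀ ℕ)) = 1 by simp [wt]] at h
  exact h

theorem H2std {m : ℕ} {S : Type} [CommRing S] [Algebra ℝ S]
    (E : Fin (m + 2) → Derivation ℝ S S) (hE : Comm E) (n : ℕ) (hn : 3 ≤ n)
    (Q : Fin (m + 2) → Fin (m + 2) → TT (m + 2) S) (hQs : ∀ i j, Q i j = - Q j i)
    (hQ : ∀ i j, Hom (wt false) n (Q i j)) (hQb : ∀ i j, Hom (wt true) 0 (Q i j))
    (hQc : ∀ i j k, jac (fn (der E)) (P0 ρv) Q i j k = 0)
    (Z : Fin (m + 2) → TT (m + 2) S) (hZ : ∀ k, Hom (wt true) 1 (Z k))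
    (hI : ∀ i j, evo E (vs E) (Q i j) + lie (fn (der E)) V0 Q i j
      + lie (fn (der E)) Z (P0 ρv) i j = 0) :
    ∃ X : Fin (m + 2) → TT (m + 2) S, ∀ i j, lie (fn (der E)) X (P0 ρv) i j = Q i j := by
  classical
  have h01 : (0 : Fin (m + 2)) ≠ 1 := by simp
  have h10 : (1 : Fin (m + 2)) ≠ 0 := by simp
  set f : TT (m + 2) S := ρv with hf
  have hfX : f = X (false, 0) := rfl
  have hDc : ∀ i j (x : TT (m + 2) S), der E i (der E j x) = der E j (der E i x) :=
    fun i j x => der_comm E hE i j x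
  have Qdiag : ∀ i, Q i i = 0 := by
    intro i
    have h := hQs i i
    have h2 : (2 : ℝ) • Q i i = 0 := by
      rw [two_smul]
      nth_rewrite 1 [h]
      ring
    have h3 := congrArg (fun x => (2 : ℝ)⁻¹ • x) h2
    simpa [smul_smul] using h3
  -- expansion of `jac`
  have hjac : ∀ i j k, jac (fn (der E)) (P0 f) Q i j k =
      ∑ l, P0 f i l * der E l (Q j k) + ∑ l, P0 f j l * der E l (Q k i)
      + ∑ l, P0 f k l * der E l (Q i j) + ∑ l, Q i l * der E l (P0 f j k)
      + ∑ l, Q j l * der E l (P0 f k i) + ∑ l, Q k l * der E l (P0 f i j) := by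
    intro i j k
    unfold jac
    simp only [Finset.sum_add_distrib]
  have P00 : ∀ i j : Fin (m + 2), ¬ (i = 0 ∧ j = 1) → ¬ (i = 1 ∧ j = 0) →
      (P0 f i j : TT (m + 2) S) = 0 := by
    intro i j h h'
    unfold P0
    rw [if_neg h, if_neg h']
  have P001 : P0 f (0 : Fin (m + 2)) (1 : Fin (m + 2)) = f := by unfold P0; simp
  -- step (1)
  have step1 : ∀ i j : Fin (m + 2), i ≠ 0 → i ≠ 1 → j ≠ 0 → j ≠ 1 → Q i j = 0 := by
    intro i j hi0 hi1 hj0 hj1
    have h := hQc 0 i j
    rw [hjac, h2_sumR, h2_sumR, h2_sumR, P00 i j (fun h => hi0 h.1) (fun h => hi1 h.1),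
      P00 j 0 (fun h => hj0 h.1) (fun h => hj1 h.1), P00 0 i (fun h => hi1 h.2)
      (fun h => h01 h.1)] at h
    simp only [if_true, if_neg hi0, if_neg hi1, if_neg hj0, if_neg hj1, map_zero, mul_zero,
      Finset.sum_const_zero, add_zero] at h
    have h2 := X_mul_cancel _ _ (by rw [← hfX]; exact h)
    exact K0h E 1 false n (by omega) _ (hQ i j) h2
  -- step (2)
  have step2 : ∀ i : Fin (m + 2), ∃ g : TT (m + 2) S, Hom (wt false) (n - 1) g ∧
      Hom (wt true) 0 g ∧ ((i = 0 ∨ i = 1) → g = 0) ∧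
      (i ≠ 0 → i ≠ 1 → Q 0 i = - (f * der E 1 g) ∧ Q 1 i = f * der E 0 g) := by
    intro i
    by_cases hi0 : i = 0
    · exact ⟨0, isWeightedHomogeneous_zero _ _ _, isWeightedHomogeneous_zero _ _ _,
        fun _ => rfl, fun h => absurd hi0 h⟩
    by_cases hi1 : i = 1
    · exact ⟨0, isWeightedHomogeneous_zero _ _ _, isWeightedHomogeneous_zero _ _ _,
        fun _ => rfl, fun _ h => absurd hi1 h⟩
    have hsum : ∑ l, Q i l * der E l f = Q i 0 * der E 0 f + Q i 1 * der E 1 f := by
      rw [← Finset.sum_subset (Finset.subset_univ ({0, 1} : Finset (Fin (m + 2)))),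
        Finset.sum_pair h01]
      intro l _ hl
      simp only [Finset.mem_insert, Finset.mem_singleton, not_or] at hl
      rw [step1 i l hi0 hi1 hl.1 hl.2, zero_mul]
    have h := hQc 0 1 i
    rw [hjac, h2_sumR, h2_sumR, h2_sumR, P00 1 i (fun h => h10 h.1) (fun h => hi0 h.2),
      P00 i 0 (fun h => hi0 h.1) (fun h => hi1 h.1), P001, hsum] at h
    simp only [if_true, if_neg h10, if_neg hi0, if_neg hi1, map_zero, mul_zero,
      Finset.sum_const_zero, add_zero] at h
    rw [hQs i 0, hQs i 1, map_neg] at h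
    have hK : Q 0 i * der E 0 f + Q 1 i * der E 1 f
        = f * (der E 0 (Q 0 i) + der E 1 (Q 1 i)) := by
      linear_combination -h
    obtain ⟨g, g1, g2, g3, g4⟩ := K1 E hE 0 1 h01 n 0 (by omega) (Q 0 i) (Q 1 i) (hQ 0 i) (hQ 1 i)
      (hQb 0 i) (hQb 1 i) hK
    refine ⟨g, g1, g2, ?_, fun _ _ => ⟨g3, g4⟩⟩
    rintro (h | h)
    · exact absurd h hi0
    · exact absurd h hi1
  choose X1 hX1 hX1b hX1z hX1q using step2
  have X10 : X1 0 = 0 := hX1z 0 (Or.inl rfl)
  have X11 : X1 1 = 0 := hX1z 1 (Or.inr rfl)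
  -- step (3)
  set L1 : Fin (m + 2) → Fin (m + 2) → TT (m + 2) S := lie (fn (der E)) X1 (P0 f) with hL1
  set Q' : Fin (m + 2) → Fin (m + 2) → TT (m + 2) S := fun i j => Q i j - L1 i j with hQ'
  have L1eq : ∀ i j, L1 i j = P0 (∑ l, X1 l * der E l f) i j
      - (if j = 1 then f * der E 0 (X1 i) else if j = 0 then -(f * der E 1 (X1 i)) else 0)
      - (if i = 0 then f * der E 1 (X1 j) else if i = 1 then -(f * der E 0 (X1 j)) else 0) :=
    fun i j => h2_lie (der E) X1 f i j
  set q : TT (m + 2) S := Q' 0 1 with hq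
  have qeq : q = Q 0 1 - ∑ l, X1 l * der E l f := by
    rw [hq, hQ']
    simp only
    rw [L1eq 0 1]
    simp [P0, X10, X11]
  have hQ'P : ∀ i j, Q' i j = P0 q i j := by
    intro i j
    by_cases hi0 : i = 0
    · subst hi0
      by_cases hj1 : j = 1
      · subst hj1
        rw [← hq]; simp [P0]
      · rw [show P0 q 0 j = 0 by unfold P0; simp [hj1]]
        rw [hQ']; simp only
        rw [L1eq 0 j]
        by_cases hj0 : j = 0
        · subst hj0
          rw [Qdiag 0]
          simp [P0, X10]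
        · rw [(hX1q j hj0 hj1).1]
          simp [P0, hj0, hj1]
    · by_cases hi1 : i = 1
      · subst hi1
        by_cases hj0 : j = 0
        · subst hj0
          rw [show P0 q 1 0 = -q by unfold P0; simp]
          rw [qeq, hQ']; simp only
          rw [L1eq 1 0, hQs 1 0]
          simp [P0, X10, X11]
          ring
        · rw [show P0 q 1 j = 0 by unfold P0; simp [hj0]]
          rw [hQ']; simp only
          rw [L1eq 1 j]
          by_cases hj1 : j = 1
          · subst hj1
            rw [Qdiag 1]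
            simp [P0, X11]
          · rw [(hX1q j hj0 hj1).2]
            simp [P0, hj0, hj1]
      · rw [show P0 q i j = 0 by unfold P0; simp [hi0, hi1]]
        rw [hQ']; simp only
        rw [L1eq i j]
        by_cases hj0 : j = 0
        · subst hj0
          rw [hQs i 0, (hX1q i hi0 hi1).1]
          simp [P0, hi0, hi1]
        · by_cases hj1 : j = 1
          · subst hj1
            rw [hQs i 1, (hX1q i hi0 hi1).2]
            simp [P0, hi0, hi1]
          · rw [step1 i j hi0 hi1 hj0 hj1]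
            simp [P0, hi0, hi1, hj0, hj1]
  -- step (4)
  set T : Derivation ℝ (TT (m + 2) S) (TT (m + 2) S) := evo E (vs E) with hT
  have hTc : ∀ i x, T (der E i x) = der E i (T x) := fun i x => evo_der E hE (vs E) i x
  have hTf : T f = f ^ 2 * der E 0 bv := by
    rw [hfX, hT, evo_X, DK_zero]
    rfl
  have hTP : ∀ i j, T (P0 f i j) = - lie (fn (der E)) V0 (P0 f) i j := by
    intro i j
    rw [h2_P0_map, h2_lie]
    have hs : ∑ l, V0 l * der E l f = f * bv * der E 0 f := by
      rw [Finset.sum_eq_single 0]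
      · simp [V0, hf]
      · intro l _ hl
        simp [V0, hl]
      · intro h; exact absurd (Finset.mem_univ _) h
    rw [hs, hTf]
    have hV0 : ∀ k, (V0 k : TT (m + 2) S) = if k = 0 then f * bv else 0 := fun k => rfl
    by_cases hi0 : i = 0
    · subst hi0
      by_cases hj0 : j = 0
      · subst hj0
        simp [P0]
      · by_cases hj1 : j = 1
        · subst hj1
          simp [P0, hV0]
          ring
        · simp [P0, hV0, hj0, hj1]
    · by_cases hi1 : i = 1
      · subst hi1
        by_cases hj0 : j = 0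
        · subst hj0
          simp [P0, hV0]
          ring
        · by_cases hj1 : j = 1
          · subst hj1
            simp [P0, hV0]
          · simp [P0, hV0, hj0, hj1]
      · by_cases hj0 : j = 0
        · subst hj0
          simp [P0, hV0, hi0, hi1]
        · by_cases hj1 : j = 1
          · subst hj1
            simp [P0, hV0, hi0, hi1]
          · simp [P0, hi0, hi1, hj0, hj1]
  set Z' : Fin (m + 2) → TT (m + 2) S :=
    fun k => (Z k + T (X1 k)) - vbr (fn (der E)) X1 V0 k with hZ'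
  have hI' : ∀ i j, T (Q' i j) + lie (fn (der E)) V0 Q' i j
      + lie (fn (der E)) Z' (P0 f) i j = 0 := by
    intro i j
    have a1 := hI i j
    have a2 : T (L1 i j) = lie (fn (der E)) (fun k => T (X1 k)) (P0 f) i j
        + lie (fn (der E)) X1 (fun k l => T (P0 f k l)) i j := der_lie (der E) T hTc X1 (P0 f) i j
    have a3 : lie (fn (der E)) X1 (fun k l => T (P0 f k l)) i j
        = - lie (fn (der E)) X1 (lie (fn (der E)) V0 (P0 f)) i j :=
      h2_lie_neg_right (der E) X1 _ _ hTP i j
    have a4 := lie_comm (der E) hDc X1 V0 (P0 f) i j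
    have a5 : lie (fn (der E)) V0 Q' i j
        = lie (fn (der E)) V0 Q i j - lie (fn (der E)) V0 L1 i j :=
      lie_sub_right (der E) V0 Q L1 i j
    have a6 : lie (fn (der E)) Z' (P0 f) i j = (lie (fn (der E)) Z (P0 f) i j
        + lie (fn (der E)) (fun k => T (X1 k)) (P0 f) i j)
        - lie (fn (der E)) (vbr (fn (der E)) X1 V0) (P0 f) i j := by
      rw [← lie_add_left, ← lie_sub_left]
    have a7 : T (Q' i j) = T (Q i j) - T (L1 i j) := map_sub T _ _
    rw [a7, a5, a6, a2, a3]
    linear_combination a1 + a4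
  have hfb : ∀ k, Hom (wt true) 1 (V0 k : TT (m + 2) S) := by
    intro k
    unfold V0
    by_cases hk : k = 0
    · rw [if_pos hk]
      have := IsWeightedHomogeneous.mul (h2_hom_rho_t (d := m + 2) (S := S)) h2_hom_b
      simpa using this
    · rw [if_neg hk]
      exact isWeightedHomogeneous_zero _ _ _
  have hZ'b : ∀ k, Hom (wt true) 1 (Z' k) := by
    intro k
    rw [hZ']
    refine h2_hom_sub _ _ _ _ (IsWeightedHomogeneous.add (hZ k) ?_) ?_
    · have h := hom_evo E true 1 (vs E) ?_ 0 (X1 k) (hX1b k)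
      · simpa using h
      · intro e
        cases e
        · have h1 := IsWeightedHomogeneous.mul
            (IsWeightedHomogeneous.mul (h2_hom_rho_t (d := m + 2) (S := S)) h2_hom_rho_t)
            (hom_der E true 1 0 bv h2_hom_b)
          simpa [vs, pow_two] using h1
        · exact isWeightedHomogeneous_zero _ _ _
    · unfold vbr
      refine h2_hom_sum _ _ _ _ fun l _ => h2_hom_sub _ _ _ _ ?_ ?_
      · have := IsWeightedHomogeneous.mul (hX1b l) (hom_der E true 1 l _ (hfb k))
        simpa using this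
      · have := IsWeightedHomogeneous.mul (hfb l) (hom_der E true 0 l _ (hX1b k))
        simpa using this
  -- step (5)
  have hLV : ∀ i j, lie (fn (der E)) V0 Q' i j = lie (fn (der E)) V0 (P0 q) i j :=
    fun i j => h2_lie_congr _ _ _ _ hQ'P i j
  have hV0' : ∀ k, k ≠ 0 → (V0 k : TT (m + 2) S) = 0 := by
    intro k hk; unfold V0; rw [if_neg hk]
  have hV00 : (V0 0 : TT (m + 2) S) = f * bv := by unfold V0; simp [hf]
  have step5 : ∀ i : Fin (m + 2), i ≠ 0 → i ≠ 1 → Z' i = 0 := by
    intro i hi0 hi1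
    have h := hI' 0 i
    rw [hLV, h2_lie, h2_lie, hQ'P, hV0' i hi0] at h
    simp [P0, hi0, hi1] at h
    have h2 := X_mul_cancel _ _ (by rw [← hfX]; exact h)
    exact K0h E 1 true 1 (le_refl 1) _ (hZ'b i) h2
  have h5 : T q + f * bv * der E 0 q - q * der E 0 (f * bv) + Z' 0 * der E 0 f
      + Z' 1 * der E 1 f - f * (der E 0 (Z' 0) + der E 1 (Z' 1)) = 0 := by
    have h := hI' 0 1
    rw [hLV, h2_lie, h2_lie, hQ'P] at h
    have s1 : ∑ l, V0 l * der E l q = f * bv * der E 0 q := by
      rw [Finset.sum_eq_single 0]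
      · rw [hV00]
      · intro l _ hl
        rw [hV0' l hl, zero_mul]
      · intro h; exact absurd (Finset.mem_univ _) h
    have s2 : ∑ l, Z' l * der E l f = Z' 0 * der E 0 f + Z' 1 * der E 1 f := by
      rw [← Finset.sum_subset (Finset.subset_univ ({0, 1} : Finset (Fin (m + 2)))),
        Finset.sum_pair h01]
      intro l _ hl
      simp only [Finset.mem_insert, Finset.mem_singleton, not_or] at hl
      rw [step5 l hl.1 hl.2, zero_mul]
    rw [s1, s2, hV00, hV0' 1 h10] at h
    simp only [P0, and_self, if_true, map_zero, mul_zero] at h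
    linear_combination h
  have hfz : Hom (wt false) 1 f := h2_hom_rho
  have hft : Hom (wt true) 0 f := h2_hom_rho_t
  have hqn : Hom (wt false) n q := by
    rw [qeq]
    refine h2_hom_sub _ _ _ _ (hQ 0 1) (h2_hom_sum _ _ _ _ fun l _ => ?_)
    have := IsWeightedHomogeneous.mul (hX1 l) (hom_der E false 1 l _ hfz)
    rwa [show n - 1 + 1 = n by omega] at this
  have hqb : Hom (wt true) 0 q := by
    rw [qeq]
    refine h2_hom_sub _ _ _ _ (hQb 0 1) (h2_hom_sum _ _ _ _ fun l _ => ?_)
    have := IsWeightedHomogeneous.mul (hX1b l) (hom_der E true 0 l _ hft)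
    simpa using this
  obtain ⟨Y0, Y1, hY⟩ := VL E hE 0 1 h01 n hn q hqn hqb (Z' 0) (Z' 1) (hZ'b 0) (hZ'b 1) (vs E)
    rfl rfl (by linear_combination h5)
  -- step (6)
  set X2 : Fin (m + 2) → TT (m + 2) S := fun k => if k = 0 then Y0 else if k = 1 then Y1 else 0
    with hX2
  have X20 : X2 0 = Y0 := by rw [hX2]; simp
  have X21 : X2 1 = Y1 := by rw [hX2]; simp
  have X2z : ∀ k, k ≠ 0 → k ≠ 1 → X2 k = 0 := by
    intro k h0 h1
    rw [hX2]; simp [h0, h1]
  have s3 : ∑ l, X2 l * der E l f = Y0 * der E 0 f + Y1 * der E 1 f := by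
    rw [← Finset.sum_subset (Finset.subset_univ ({0, 1} : Finset (Fin (m + 2)))),
      Finset.sum_pair h01, X20, X21]
    intro l _ hl
    simp only [Finset.mem_insert, Finset.mem_singleton, not_or] at hl
    rw [X2z l hl.1 hl.2, zero_mul]
  have h6 : ∀ i j, lie (fn (der E)) X2 (P0 f) i j = P0 q i j := by
    intro i j
    rw [h2_lie, s3]
    by_cases hi0 : i = 0
    · subst hi0
      by_cases hj0 : j = 0
      · subst hj0
        simp [P0]
      · by_cases hj1 : j = 1
        · subst hj1
          simp only [P0, and_self, if_true, X20, X21]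
          rw [hY]; ring
        · simp [P0, hj0, hj1, X2z j hj0 hj1]
    · by_cases hi1 : i = 1
      · subst hi1
        by_cases hj0 : j = 0
        · subst hj0
          simp [P0, X20, X21]
          rw [hY]; ring
        · by_cases hj1 : j = 1
          · subst hj1
            simp [P0]
          · simp [P0, hj0, hj1, X2z j hj0 hj1]
      · by_cases hj0 : j = 0
        · subst hj0
          simp [P0, hi0, hi1, X2z i hi0 hi1]
        · by_cases hj1 : j = 1
          · subst hj1
            simp [P0, hi0, hi1, X2z i hi0 hi1]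
          · simp [P0, hi0, hi1, hj0, hj1]
  refine ⟨fun k => X1 k + X2 k, fun i j => ?_⟩
  rw [lie_add_left, h6]
  have := hQ'P i j
  rw [← this]
  change L1 i j + (Q i j - L1 i j) = Q i j
  ring

end KN
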