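import Pool.Agent.Work.MP_e214ac_gt.N.EvalJet

/-!
# MODULE HomDec (size S/M)

The homogeneous parts of a universal symmetry are universal symmetries.

For a graph `G`, `G.val pd (λ P) = λ^{G.n} G.val pd P` at points of `U` (functions; `pd i (λ f) = λ pd i f`
everywhere, `fderiv_const_smul` needs differentiability, which holds on `U`; use `fderiv_const_mul` at the
points of `U`, and for the iterated derivatives that `U` is open and the `P i j` smooth; or use the
version `fderiv_const_smul_of_field`/`fderiv_const_smul'` valid without differentiability for a field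
when `λ ≠ 0`… any way is fine).  So for every `λ` (`λ P` is again a smooth Poisson bivector)
`0 = [[λ P, F(λ P)]] = Σ_n λ^{n+1} [[P, F_n(P)]]` at every point of `U`, `F_n` the sublist of graphs
with `n` vertices (`F.val = Σ_n F_n.val`, a finite sum over `n < N`).  A polynomial in `λ` which vanishes
for all real `λ` has zero coefficients.

`val_sum`: `F.val = Σ_{n < N} (F.filter (·.2.n = n)).val` if all graphs of `F` have fewer than `N`
vertices (induct on the list).
-/

open scoped ContDiff

namespace KN

/-- the part of `F` consisting of the graphs with `n` vertices -/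
def Formula.part (F : Formula) (n : ℕ) : Formula := F.filter fun cg => cg.2.n = n

theorem part_n (F : Formula) (n : ℕ) : ∀ cg ∈ F.part n, cg.2.n = n := by
  intro cg hcg
  unfold Formula.part at hcg
  rw [List.mem_filter] at hcg
  simpa using hcg.2

theorem val_sum {ι R : Type} [Fintype ι] [DecidableEq ι] [CommRing R] [Algebra ℝ R]
    (F : Formula) (N : ℕ) (hN : ∀ cg ∈ F, cg.2.n < N) (D : ι → R → R) (P : ι → ι → R) (i j : ι) :
    F.val D P i j = ∑ n ∈ Finset.range N, (F.part n).val D P i j := by
  induction F with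
  | nil =>
    symm
    refine Finset.sum_eq_zero fun n _ => ?_
    rfl
  | cons a F ih =>
    have h1 : Formula.val (a :: F) D P i j =
        a.1 • (a.2.val D P i j - a.2.val D P j i) + Formula.val F D P i j := by
      unfold Formula.val
      rw [List.map_cons, List.sum_cons]
    have h2 : ∀ n, (Formula.part (a :: F) n).val D P i j =
        (if n = a.2.n then a.1 • (a.2.val D P i j - a.2.val D P j i) else 0) +
          (Formula.part F n).val D P i j := by
      intro n
      unfold Formula.part Formula.val
      by_cases h : a.2.n = n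
      · rw [List.filter_cons_of_pos (by simpa using h), List.map_cons, List.sum_cons,
          if_pos h.symm]
      · rw [List.filter_cons_of_neg (by simpa using h), if_neg (Ne.symm h), zero_add]
    rw [h1, ih (fun cg h => hN cg (List.mem_cons_of_mem _ h))]
    simp only [h2]
    rw [Finset.sum_add_distrib, Finset.sum_ite_eq', if_pos]
    exact Finset.mem_range.2 (hN a List.mem_cons_self)

section
variable {ι : Type} [Fintype ι] [DecidableEq ι] {U : Set (ι → ℝ)}

omit [DecidableEq ι] in
private theorem hd_diff (hU : IsOpen U) {f : (ι → ℝ) → ℝ} (hf : ContDiffOn ℝ ∞ f U) {x : ι → ℝ}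
    (hx : x ∈ U) : DifferentiableAt ℝ f x :=
  (hf.differentiableOn (by simp)).differentiableAt (hU.mem_nhds hx)

private theorem hd_pd_mul (hU : IsOpen U) (i : ι) (c : ℝ) {f : (ι → ℝ) → ℝ}
    (hf : ContDiffOn ℝ ∞ f U) (x : ι → ℝ) (hx : x ∈ U) :
    pd i (fun y => c * f y) x = c * pd i f x := by
  unfold pd
  rw [fderiv_const_mul (hd_diff hU hf hx)]
  rfl

private theorem hd_iter_smooth (hU : IsOpen U) (l : List ι) (f : (ι → ℝ) → ℝ)
    (hf : ContDiffOn ℝ ∞ f U) : ContDiffOn ℝ ∞ (iter pd l f) U := by
  induction l with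
  | nil => exact hf
  | cons a l ih => exact pd_smooth hU a _ ih

private theorem hd_iter (hU : IsOpen U) (l : List ι) (c : ℝ) (f : (ι → ℝ) → ℝ)
    (hf : ContDiffOn ℝ ∞ f U) :
    ∀ x ∈ U, iter pd l (fun y => c * f y) x = c * iter pd l f x := by
  induction l with
  | nil =>
    intro x _
    rfl
  | cons a l ih =>
    intro x hx
    change pd a (iter pd l fun y => c * f y) x = c * pd a (iter pd l f) x
    rw [pd_congr hU a _ _ ih x hx]
    exact hd_pd_mul hU a c (hd_iter_smooth hU l f hf) x hx

private theorem hd_gr_apply (G : Gr) (P : ι → ι → (ι → ℝ) → ℝ) (i j : ι) (x : ι → ℝ) :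
    G.val pd P i j x = ∑ I : Fin G.n → Fin 2 → ι,
      if ∀ v c, (G.tgt v c = Sum.inr 0 → I v c = i) ∧ (G.tgt v c = Sum.inr 1 → I v c = j) then
        ∏ k : Fin G.n, iter pd ((G.inc k).map fun e => I e.1 e.2) (P (I k 0) (I k 1)) x
      else 0 := by
  unfold Gr.val
  rw [Finset.sum_apply]
  refine Finset.sum_congr rfl fun I _ => ?_
  split_ifs
  · rw [Finset.prod_apply]
  · rfl

private theorem hd_val_apply (F : Formula) (P : ι → ι → (ι → ℝ) → ℝ) (i j : ι) (x : ι → ℝ) :
    F.val pd P i j x =
      (F.map fun cg => cg.1 * (cg.2.val pd P i j x - cg.2.val pd P j i x)).sum := by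
  unfold Formula.val
  induction F with
  | nil => rfl
  | cons a F ih =>
    rw [List.map_cons, List.sum_cons, List.map_cons, List.sum_cons, ← ih]
    rfl

private theorem hd_gr_smooth (hU : IsOpen U) (G : Gr) (P : ι → ι → (ι → ℝ) → ℝ)
    (hP : ∀ i j, ContDiffOn ℝ ∞ (P i j) U) (i j : ι) : ContDiffOn ℝ ∞ (G.val pd P i j) U := by
  have h1 : G.val pd P i j = fun x => ∑ I : Fin G.n → Fin 2 → ι,
      if ∀ v c, (G.tgt v c = Sum.inr 0 → I v c = i) ∧ (G.tgt v c = Sum.inr 1 → I v c = j) then
        ∏ k : Fin G.n, iter pd ((G.inc k).map fun e => I e.1 e.2) (P (I k 0) (I k 1)) x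
      else 0 := funext fun x => hd_gr_apply G P i j x
  rw [h1]
  refine ContDiffOn.sum fun I _ => ?_
  split_ifs
  · exact contDiffOn_prod fun k _ => hd_iter_smooth hU _ _ (hP _ _)
  · exact contDiffOn_const

private theorem hd_val_smooth (hU : IsOpen U) (F : Formula) (P : ι → ι → (ι → ℝ) → ℝ)
    (hP : ∀ i j, ContDiffOn ℝ ∞ (P i j) U) (i j : ι) : ContDiffOn ℝ ∞ (F.val pd P i j) U := by
  unfold Formula.val
  induction F with
  | nil => exact contDiffOn_const
  | cons a F ih =>
    rw [List.map_cons, List.sum_cons]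
    refine ContDiffOn.add ?_ ih
    exact ((hd_gr_smooth hU a.2 P hP i j).sub (hd_gr_smooth hU a.2 P hP j i)).const_smul a.1

private theorem hd_gr_scale (hU : IsOpen U) (G : Gr) (P : ι → ι → (ι → ℝ) → ℝ)
    (hP : ∀ i j, ContDiffOn ℝ ∞ (P i j) U) (t : ℝ) (i j : ι) (x : ι → ℝ) (hx : x ∈ U) :
    G.val pd (fun i j y => t * P i j y) i j x = t ^ G.n * G.val pd P i j x := by
  rw [hd_gr_apply, hd_gr_apply, Finset.mul_sum]
  refine Finset.sum_congr rfl fun I _ => ?_
  split_ifs
  · have h1 : ∀ k : Fin G.n, iter pd ((G.inc k).map fun e => I e.1 e.2)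
        (fun y => t * P (I k 0) (I k 1) y) x =
        t * iter pd ((G.inc k).map fun e => I e.1 e.2) (P (I k 0) (I k 1)) x :=
      fun k => hd_iter hU _ t _ (hP _ _) x hx
    rw [Finset.prod_congr rfl fun k _ => h1 k, Finset.prod_mul_distrib, Finset.prod_const,
      Finset.card_univ, Fintype.card_fin]
  · rw [mul_zero]

private theorem hd_part_scale (hU : IsOpen U) (F : Formula) (n : ℕ) (P : ι → ι → (ι → ℝ) → ℝ)
    (hP : ∀ i j, ContDiffOn ℝ ∞ (P i j) U) (t : ℝ) (i j : ι) (x : ι → ℝ) (hx : x ∈ U) :
    (F.part n).val pd (fun i j y => t * P i j y) i j x = t ^ n * (F.part n).val pd P i j x := by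
  rw [hd_val_apply, hd_val_apply, ← List.sum_map_mul_left]
  congr 1
  refine List.map_congr_left fun cg hcg => ?_
  rw [hd_gr_scale hU cg.2 P hP t i j x hx, hd_gr_scale hU cg.2 P hP t j i x hx, part_n F n cg hcg]
  ring

end

theorem part_symm (F : Formula) (hF : IsSymmetry F) (n : ℕ) : IsSymmetry (F.part n) := by
  intro ι _ _ U P hU hP hsk hJ i j k x hx
  obtain ⟨N, hnN, hN⟩ : ∃ N, n < N ∧ ∀ cg ∈ F, cg.2.n < N := by
    clear hF
    induction F with
    | nil => exact ⟨n + 1, Nat.lt_succ_self n, fun cg h => absurd h List.not_mem_nil⟩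
    | cons a F ih =>
      obtain ⟨N, h1, h2⟩ := ih
      refine ⟨N + a.2.n + 1, by omega, fun cg h => ?_⟩
      rcases List.mem_cons.1 h with h | h
      · rw [h]
        omega
      · have := h2 cg h
        omega
  have hpd : ∀ (t : ℝ) (l a b : ι), ∀ y ∈ U, pd l (fun y => t * P a b y) y = t * pd l (P a b) y :=
    fun t l a b y hy => hd_pd_mul hU l t (hP a b) y hy
  have key : ∀ t : ℝ, ∑ m ∈ Finset.range N,
      jac pd P ((F.part m).val pd P) i j k x * t ^ (m + 1) = 0 := by
    intro t
    have h0 := hF ι U (fun i j y => t * P i j y) hU (fun i j => (hP i j).const_smul t |>.congr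
      (fun _ _ => rfl)) (fun i j y hy => by
        change t * P i j y = -(t * P j i y)
        rw [hsk i j y hy, mul_neg]) (fun i j k y hy => by
        have h1 := hJ i j k y hy
        unfold jac at h1 ⊢
        rw [Finset.sum_apply] at h1 ⊢
        have h2 : ∀ l, ((fun y => t * P i l y) * pd l (fun y => t * P j k y) +
            (fun y => t * P j l y) * pd l (fun y => t * P k i y) +
            (fun y => t * P k l y) * pd l (fun y => t * P i j y) +
            (fun y => t * P i l y) * pd l (fun y => t * P j k y) +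
            (fun y => t * P j l y) * pd l (fun y => t * P k i y) +
            (fun y => t * P k l y) * pd l (fun y => t * P i j y)) y =
            t ^ 2 * (P i l * pd l (P j k) + P j l * pd l (P k i) + P k l * pd l (P i j) +
              P i l * pd l (P j k) + P j l * pd l (P k i) + P k l * pd l (P i j)) y := by
          intro l
          simp only [Pi.add_apply, Pi.mul_apply]
          rw [hpd t l j k y hy, hpd t l k i y hy, hpd t l i j y hy]
          ring
        rw [Finset.sum_congr rfl fun l _ => h2 l, ← Finset.mul_sum, h1, mul_zero]) i j k x hx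
    have h3 : ∀ a b, ∀ y ∈ U, F.val pd (fun i j y => t * P i j y) a b y =
        ∑ m ∈ Finset.range N, t ^ m * (F.part m).val pd P a b y := by
      intro a b y hy
      rw [val_sum F N hN, Finset.sum_apply]
      exact Finset.sum_congr rfl fun m _ => hd_part_scale hU F m P hP t a b y hy
    rw [jac_congr hU (fun i j y => t * P i j y) (fun i j y => t * P i j y)
      (F.val pd (fun i j y => t * P i j y))
      (fun a b y => ∑ m ∈ Finset.range N, t ^ m * (F.part m).val pd P a b y)
      (fun _ _ _ _ => rfl) h3 i j k x hx] at h0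
    have h4 : ∀ l a b, pd l (fun y => ∑ m ∈ Finset.range N, t ^ m * (F.part m).val pd P a b y) x =
        ∑ m ∈ Finset.range N, t ^ m * pd l ((F.part m).val pd P a b) x := by
      intro l a b
      change fderiv ℝ (fun y => ∑ m ∈ Finset.range N, t ^ m * (F.part m).val pd P a b y) x
        (Pi.single l 1) = ∑ m ∈ Finset.range N,
          t ^ m * fderiv ℝ ((F.part m).val pd P a b) x (Pi.single l 1)
      rw [fderiv_fun_sum (fun m _ => (hd_diff hU (hd_val_smooth hU (F.part m) P hP a b)
        hx).const_mul _), ContinuousLinearMap.sum_apply]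
      refine Finset.sum_congr rfl fun m _ => ?_
      rw [fderiv_const_mul (hd_diff hU (hd_val_smooth hU (F.part m) P hP a b) hx)]
      rfl
    rw [← h0]
    unfold jac
    rw [Finset.sum_apply]
    simp only [Finset.sum_apply, Pi.add_apply, Pi.mul_apply, h4, hpd t _ _ _ x hx]
    simp only [Finset.sum_mul]
    rw [Finset.sum_comm]
    refine Finset.sum_congr rfl fun l _ => ?_
    simp only [Finset.mul_sum, ← Finset.sum_add_distrib]
    refine Finset.sum_congr rfl fun m _ => ?_
    ring
  have h5 : (∑ m ∈ Finset.range N, Polynomial.C (jac pd P ((F.part m).val pd P) i j k x) *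
      Polynomial.X ^ (m + 1) : Polynomial ℝ) = 0 := by
    apply Polynomial.funext
    intro t
    rw [Polynomial.eval_finsetSum, Polynomial.eval_zero, ← key t]
    refine Finset.sum_congr rfl fun m _ => ?_
    simp
  have h6 := congrArg (fun q : Polynomial ℝ => q.coeff (n + 1)) h5
  simp only [Polynomial.finsetSum_coeff, Polynomial.coeff_C_mul, Polynomial.coeff_X_pow,
    Polynomial.coeff_zero] at h6
  rw [Finset.sum_eq_single n] at h6
  · simpa using h6
  · intro m _ hm
    rw [if_neg (by omega), mul_zero]
  · intro h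
    exact absurd (Finset.mem_range.2 hnN) h

end KN
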