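import Pool.Agent.Work.MP_e214ac_gt.N.EvalJet

/-!
# MODULE Jets (size M)

Arbitrary finite jets at the origin are realised by polynomials.

* `exists_jet`: for every finitely supported `y : (Fin d →₀ ℕ) →₀ ℝ` the polynomial
  `p = Σ_K y_K x^K / K!` has `DK pd K p 0 = y_K` for ALL `K` (`pd i` of a polynomial function is the
  polynomial function of `pderiv i`; the value at `0` of `∂^K x^L` is `K!` if `K = L` and `0`
  otherwise).
* `eq_zero_of_jets`: a differential polynomial with real coefficients vanishes if its evaluation at `0`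
  vanishes for all families of polynomial functions: by `MvPolynomial.funext` (infinite field); only
  finitely many variables occur, so the values may be taken finitely supported
  (`MvPolynomial.eval₂Hom_congr'`/`eval_eq'`).
-/

open MvPolynomial
open scoped ContDiff

namespace KN

private theorem jt_pd_coord {d : ℕ} (j : Fin d) (x : Fin d → ℝ) :
    HasFDerivAt (fun x : Fin d → ℝ => x j) (ContinuousLinearMap.proj (R := ℝ) j) x :=
  (ContinuousLinearMap.proj (R := ℝ) (φ := fun _ : Fin d => ℝ) j).hasFDerivAt

private theorem jt_pderiv {d : ℕ} (i : Fin d) (p : MvPolynomial (Fin d) ℝ) :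
    Differentiable ℝ (fun x : Fin d → ℝ => eval x p) ∧
      (pd i fun x : Fin d → ℝ => eval x p) = fun x => eval x (pderiv i p) := by
  induction p using MvPolynomial.induction_on with
  | C s =>
    simp only [eval_C, pderiv_C, map_zero]
    refine ⟨differentiable_const _, ?_⟩
    funext x
    unfold pd
    simp
  | add p q hp hq =>
    simp only [map_add]
    refine ⟨hp.1.add hq.1, ?_⟩
    funext x
    have h1 : pd i (fun x : Fin d → ℝ => eval x p) x = eval x (pderiv i p) := congrFun hp.2 x
    have h2 : pd i (fun x : Fin d → ℝ => eval x q) x = eval x (pderiv i q) := congrFun hq.2 x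
    rw [← h1, ← h2]
    unfold pd
    rw [fderiv_fun_add (hp.1 x) (hq.1 x)]
    rfl
  | mul_X p j hp =>
    simp only [map_mul, eval_X]
    have h3 : Differentiable ℝ (fun x : Fin d → ℝ => x j) := fun x =>
      (jt_pd_coord j x).differentiableAt
    refine ⟨hp.1.mul h3, ?_⟩
    funext x
    have h1 : pd i (fun x : Fin d → ℝ => eval x p) x = eval x (pderiv i p) := congrFun hp.2 x
    rw [pderiv_mul, map_add, map_mul, map_mul, eval_X, ← h1, pderiv_X]
    unfold pd
    rw [fderiv_fun_mul (hp.1 x) (h3 x), (jt_pd_coord j x).fderiv]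
    change eval x p * (Pi.single i (1 : ℝ) : Fin d → ℝ) j + x j * _ = _
    rw [Pi.single_apply, Pi.single_apply]
    by_cases hij : j = i
    · rw [if_pos hij, if_pos hij, map_one, add_comm, mul_comm (x j)]
      rfl
    · rw [if_neg hij, if_neg hij, map_zero, add_comm, mul_comm (x j)]
      rfl

private theorem jt_DK {d : ℕ} (K : Fin d →₀ ℕ) (p : MvPolynomial (Fin d) ℝ) :
    DK pd K (fun x : Fin d → ℝ => eval x p) =
      fun x => eval x (DK (fun i p => pderiv i p) K p) :=
  (DK_map (fun i (p : MvPolynomial (Fin d) ℝ) => pderiv i p) pd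
    (fun p => fun x : Fin d → ℝ => eval x p) (fun i p => (jt_pderiv i p).2.symm) K p).symm

private theorem jt_comm {d : ℕ} (i j : Fin d) (p : MvPolynomial (Fin d) ℝ) :
    pderiv i (pderiv j p) = pderiv j (pderiv i p) := by
  induction p using MvPolynomial.induction_on with
  | C s => simp
  | add p q hp hq => simp only [map_add, hp, hq]
  | mul_X p k hp =>
    simp only [pderiv_mul, map_add, hp]
    have h : ∀ a b : Fin d, pderiv a (pderiv b (X k : MvPolynomial (Fin d) ℝ)) = 0 := by
      intro a b
      rw [pderiv_X, Pi.single_apply]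
      split_ifs
      · exact Derivation.map_one_eq_zero _
      · exact map_zero _
    simp only [h]
    ring

private theorem jt_coeff {d : ℕ} (K : Fin d →₀ ℕ) :
    ∃ c : (Fin d →₀ ℕ) → ℝ, (∀ L, c L ≠ 0) ∧ ∀ (p : MvPolynomial (Fin d) ℝ) (L : Fin d →₀ ℕ),
      coeff L (DK (fun i p => pderiv i p) K p) = c L * coeff (L + K) p := by
  induction K using mi_induction with
  | h0 =>
    refine ⟨fun _ => 1, fun _ => one_ne_zero, fun p L => ?_⟩
    rw [DK_zero, one_mul, add_zero]
  | h1 K i ih =>
    obtain ⟨c, hc, hp⟩ := ih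
    refine ⟨fun L => ((L i : ℝ) + 1) * c (L + Finsupp.single i 1), fun L => ?_, fun p L => ?_⟩
    · exact mul_ne_zero (by positivity) (hc _)
    · rw [DK_add_single _ (fun i j p => jt_comm i j p), coeff_pderiv, hp]
      rw [add_assoc L, add_comm (Finsupp.single i 1) K]
      ring

theorem exists_jet {d : ℕ} (y : (Fin d →₀ ℕ) →₀ ℝ) :
    ∃ p : MvPolynomial (Fin d) ℝ, ∀ K, DK pd K (fun x => eval x p) 0 = y K := by
  classical
  choose c hc hp using fun K : Fin d →₀ ℕ => jt_coeff K
  refine ⟨∑ K ∈ y.support, monomial K (y K / c K 0), fun K => ?_⟩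
  rw [jt_DK]
  have h1 : ∀ q : MvPolynomial (Fin d) ℝ, eval (0 : Fin d → ℝ) q = coeff 0 q := by
    intro q
    rw [eval_zero, constantCoeff_eq]
  simp only
  rw [h1, hp, zero_add, coeff_sum]
  simp only [coeff_monomial]
  rw [Finset.sum_ite_eq']
  split_ifs with h
  · exact mul_div_cancel₀ _ (hc K 0)
  · rw [mul_zero]
    exact (Finsupp.notMem_support_iff.1 h).symm

theorem eq_zero_of_jets {Φ : Type} {d : ℕ} (w : DP Φ d ℝ)
    (h : ∀ p : Φ → MvPolynomial (Fin d) ℝ,
      eval (fun v => DK pd v.2 (fun x : Fin d → ℝ => eval x (p v.1)) 0) w = 0) : w = 0 := by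
  classical
  apply MvPolynomial.funext
  intro x
  rw [map_zero]
  choose q hq using fun c : Φ => exists_jet (Finsupp.onFinset (w.vars.image Prod.snd)
    (fun K => if (c, K) ∈ w.vars then x (c, K) else 0) (fun K hK => by
      rw [Finset.mem_image]
      by_cases h1 : (c, K) ∈ w.vars
      · exact ⟨(c, K), h1, rfl⟩
      · rw [if_neg h1] at hK
        exact absurd rfl hK))
  rw [← h q]
  refine eval₂Hom_congr' rfl ?_ rfl
  intro v hv _
  obtain ⟨c, K⟩ := v
  simp only
  rw [hq c K, Finsupp.onFinset_apply, if_pos hv]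

end KN
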