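import Pool.Agent.Work.MP_e214ac_gt.N.MonKos

/-!
# MODULE LeadKos (size M)

`Lead w α s`: the top weight part of `s` is `± x^α`, that is `s = ε x^α + (terms of weight < w(α))`
with `ε = ±1`.
* `lead_pow`: `Lead w α s` implies `Lead w (N • α) (s ^ N)` (and products: `Lead` is multiplicative:
  `lead_mul`).
* `leadKos3`: if `s₁, s₂, s₃` have leading monomials `α₁, α₂, α₃` with pairwise disjoint supports and
  `x s₁ + y s₂ + z s₃ = 0` then (x, y, z)` is a combination of the Koszul relations.
  Proof: induct on `N` such that all exponents of `x, y, z` have weights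
  `≤ N - w(α₁), N - w(α₂), N - w(α₃)` respectively (i.e. `weight m + w(α_i) ≤ N` for `m` in the support).
  The parts of weight exactly `N` (components `x_N` of `x` of degree `N - w(α₁)`, …, zero if
  `N < w(α₁)`) satisfy `ε₁ x_N x^{α₁} + ε₂ y_N x^{α₂} + ε₃ z_N x^{α₃} = 0`; `monKos3` gives `p, q, r`
  homogeneous; subtract from (x, y, z)` the combination
  (s₂ r' - s₃ q', s₃ p' - s₁ r', s₁ q' - s₂ p')` with `r' = ε₁ ε₂ r …` (choose the signs so that the
  top parts agree: `x_N = ε₂ x^{α₂} r' - ε₃ x^{α₃} q'` etc.); the new triple satisfies the same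
  relation and the bound `N - 1`.  For `N = 0` after the step the triple has no terms, i.e. it is zero
  (do the induction with a strict bound `< N`, the case `N = 0` being `x = y = z = 0`).
* `leadCoprime`: for two elements: `x s₁ = y s₂` implies `s₂ ∣ x` (take `z = 0`… the case of two
  elements is obtained from `leadKos3` with a third one: from `x s₁ - y s₂ + 0 s₃ = 0` one gets
  `x = s₂ r - s₃ q`, `0 = s₁ q - s₂ p`; not immediate, so prove `leadKos2` by the same induction, or
  apply `leadKos3` in a polynomial ring with an extra variable; stated separately).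
-/

open MvPolynomial

namespace KN

/-- the part of top weight of `s` is `± x^α` -/
def Lead {σ R : Type} [CommRing R] (w : σ → ℕ) (α : σ →₀ ℕ) (s : MvPolynomial σ R) : Prop :=
  ∃ ε : R, (ε = 1 ∨ ε = -1) ∧ ∀ β ∈ (s - monomial α ε).support,
    Finsupp.weight w β < Finsupp.weight w α

section
variable {σ R : Type} [CommRing R]

private theorem lk_mul {p q : MvPolynomial σ R} {m : σ →₀ ℕ} (h : m ∈ (p * q).support) :
    ∃ m₁ ∈ p.support, ∃ m₂ ∈ q.support, m = m₁ + m₂ := by
  classical
  obtain ⟨a, ha, b, hb, hab⟩ := Finset.mem_add.1 (support_mul p q h)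
  exact ⟨a, ha, b, hb, hab.symm⟩

private theorem lk_add {p q : MvPolynomial σ R} {m : σ →₀ ℕ} (h : m ∈ (p + q).support) :
    m ∈ p.support ∨ m ∈ q.support := by
  classical
  exact Finset.mem_union.1 (support_add h)

private theorem lk_neg {p : MvPolynomial σ R} {m : σ →₀ ℕ} (h : m ∈ (-p).support) :
    m ∈ p.support := by
  rw [mem_support_iff, coeff_neg] at h
  exact mem_support_iff.2 (neg_ne_zero.1 h)

private theorem lk_C {c : R} {p : MvPolynomial σ R} {m : σ →₀ ℕ} (h : m ∈ (C c * p).support) :
    m ∈ p.support := by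
  rw [mem_support_iff, coeff_C_mul] at h
  exact mem_support_iff.2 (right_ne_zero_of_mul h)

private theorem lk_mon {c : R} {α m : σ →₀ ℕ} (h : m ∈ (monomial α c).support) : m = α := by
  classical
  rw [mem_support_iff, coeff_monomial] at h
  by_contra h1
  exact h (if_neg (Ne.symm h1))

private theorem lk_sq {ε : R} (h : ε = 1 ∨ ε = -1) : ε * ε = 1 := by
  rcases h with h | h
  · rw [h, one_mul]
  · rw [h]
    ring

theorem lead_one {σ R : Type} [CommRing R] (w : σ → ℕ) : Lead w 0 (1 : MvPolynomial σ R) := by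
  refine ⟨1, Or.inl rfl, fun β hβ => ?_⟩
  have h1 : (1 : MvPolynomial σ R) - monomial 0 1 = 0 := by
    rw [sub_eq_zero]
    rfl
  rw [h1] at hβ
  simp at hβ

theorem lead_mul {σ R : Type} [CommRing R] (w : σ → ℕ) (α β : σ →₀ ℕ) (s t : MvPolynomial σ R)
    (hs : Lead w α s) (ht : Lead w β t) : Lead w (α + β) (s * t) := by
  obtain ⟨ε, hε, h1⟩ := hs
  obtain ⟨η, hη, h2⟩ := ht
  refine ⟨ε * η, ?_, fun m hm => ?_⟩
  · rcases hε with rfl | rfl <;> rcases hη with rfl | rfl <;> simp
  · have h3 : s * t - monomial (α + β) (ε * η) = (monomial α ε * (t - monomial β η) +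
        (s - monomial α ε) * monomial β η) + (s - monomial α ε) * (t - monomial β η) := by
      have h4 : (monomial (α + β) (ε * η) : MvPolynomial σ R) = monomial α ε * monomial β η := by
        rw [monomial_mul]
      rw [h4]
      ring
    rw [h3] at hm
    rw [map_add]
    rcases lk_add hm with hm | hm
    · rcases lk_add hm with hm | hm
      · obtain ⟨a, ha, b, hb, rfl⟩ := lk_mul hm
        rw [lk_mon ha, map_add]
        have := h2 b hb
        omega
      · obtain ⟨a, ha, b, hb, rfl⟩ := lk_mul hm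
        rw [lk_mon hb, map_add]
        have := h1 a ha
        omega
    · obtain ⟨a, ha, b, hb, rfl⟩ := lk_mul hm
      rw [map_add]
      have := h1 a ha
      have := h2 b hb
      omega

theorem lead_pow {σ R : Type} [CommRing R] (w : σ → ℕ) (α : σ →₀ ℕ) (s : MvPolynomial σ R)
    (hs : Lead w α s) (N : ℕ) : Lead w (N • α) (s ^ N) := by
  induction N with
  | zero =>
    rw [zero_smul, pow_zero]
    exact lead_one w
  | succ N ih =>
    rw [succ_nsmul, pow_succ]
    exact lead_mul w _ _ _ _ ih hs

private theorem lk_split (x : MvPolynomial σ R) (P : (σ →₀ ℕ) → Prop) :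
    ∃ x₁ x₂ : MvPolynomial σ R, x = x₁ + x₂ ∧ (∀ m ∈ x₁.support, P m ∧ m ∈ x.support) ∧
      ∀ m ∈ x₂.support, ¬ P m ∧ m ∈ x.support := by
  classical
  have hc : ∀ m, coeff m (∑ k ∈ x.support.filter P, monomial k (coeff k x)) =
      if P m then coeff m x else 0 := by
    intro m
    rw [coeff_sum]
    simp only [coeff_monomial]
    rw [Finset.sum_ite_eq']
    by_cases h : P m
    · rw [if_pos h]
      split_ifs with h1
      · rfl
      · have h2 : m ∉ x.support := fun h3 => h1 (Finset.mem_filter.2 ⟨h3, h⟩)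
        exact (notMem_support_iff.1 h2).symm
    · rw [if_neg h, if_neg]
      intro h1
      exact h (Finset.mem_filter.1 h1).2
  refine ⟨∑ k ∈ x.support.filter P, monomial k (coeff k x),
    x - ∑ k ∈ x.support.filter P, monomial k (coeff k x), by ring, fun m hm => ?_,
    fun m hm => ?_⟩
  · rw [mem_support_iff, hc] at hm
    split_ifs at hm with h
    · exact ⟨h, mem_support_iff.2 hm⟩
    · exact absurd rfl hm
  · rw [mem_support_iff, coeff_sub, hc] at hm
    split_ifs at hm with h
    · exact absurd (sub_self _) hm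
    · rw [sub_zero] at hm
      exact ⟨h, mem_support_iff.2 hm⟩

private theorem lk_sep (w : σ → ℕ) (N : ℕ) {A B : MvPolynomial σ R} (h : A + B = 0)
    (hA : ∀ m ∈ A.support, Finsupp.weight w m = N) (hB : ∀ m ∈ B.support, Finsupp.weight w m < N) :
    A = 0 := by
  ext m
  rw [coeff_zero]
  by_contra hm
  have h1 := hA m (mem_support_iff.2 hm)
  have h2 := congrArg (coeff m) h
  rw [coeff_add, coeff_zero] at h2
  have h3 : coeff m B ≠ 0 := by
    intro h3
    rw [h3, add_zero] at h2
    exact hm h2
  have h4 := hB m (mem_support_iff.2 h3)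
  omega

private theorem lk_hom (w : σ → ℕ) (N : ℕ) (α β : σ →₀ ℕ) (r : MvPolynomial σ R)
    (h : IsWeightedHomogeneous w (r * monomial α 1 * monomial β 1) N) (m : σ →₀ ℕ)
    (hm : m ∈ r.support) : Finsupp.weight w m + Finsupp.weight w α + Finsupp.weight w β = N := by
  rw [← map_add, ← map_add]
  apply h
  rw [coeff_mul_monomial, coeff_mul_monomial, mul_one, mul_one]
  exact mem_support_iff.1 hm

private theorem lk_mono (ε : R) (α : σ →₀ ℕ) :
    (monomial α ε : MvPolynomial σ R) = C ε * monomial α 1 := by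
  rw [C_mul_monomial, mul_one]

/-- the top part of `x s` -/
private theorem lk_top (w : σ → ℕ) (N : ℕ) (α : σ →₀ ℕ) (ε : R) (s x x₁ x₂ : MvPolynomial σ R)
    (hs : ∀ m ∈ (s - monomial α ε).support, Finsupp.weight w m < Finsupp.weight w α)
    (hx : x = x₁ + x₂) (h1 : ∀ m ∈ x₁.support, Finsupp.weight w m + Finsupp.weight w α = N)
    (h2 : ∀ m ∈ x₂.support, Finsupp.weight w m + Finsupp.weight w α < N) :
    ∀ m ∈ (x * s - C ε * x₁ * monomial α 1).support, Finsupp.weight w m < N := by
  intro m hm
  have h3 : x * s - C ε * x₁ * monomial α 1 =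
      (x₁ * (s - monomial α ε) + x₂ * (s - monomial α ε)) + x₂ * monomial α ε := by
    rw [hx]
    linear_combination x₁ * lk_mono ε α
  rw [h3] at hm
  rcases lk_add hm with hm | hm
  · rcases lk_add hm with hm | hm
    · obtain ⟨a, ha, b, hb, rfl⟩ := lk_mul hm
      rw [map_add]
      have := h1 a ha
      have := hs b hb
      omega
    · obtain ⟨a, ha, b, hb, rfl⟩ := lk_mul hm
      rw [map_add]
      have := h2 a ha
      have := hs b hb
      omega
  · obtain ⟨a, ha, b, hb, rfl⟩ := lk_mul hm
    rw [map_add, lk_mon hb]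
    exact h2 a ha

private theorem lk_tophom (w : σ → ℕ) (N : ℕ) (α : σ →₀ ℕ) (ε : R) (x₁ : MvPolynomial σ R)
    (h1 : ∀ m ∈ x₁.support, Finsupp.weight w m + Finsupp.weight w α = N) :
    ∀ m ∈ (C ε * x₁ * monomial α 1).support, Finsupp.weight w m = N := by
  intro m hm
  obtain ⟨a, ha, b, hb, rfl⟩ := lk_mul hm
  rw [map_add, lk_mon hb]
  exact h1 a (lk_C ha)

private theorem lk_key2 (w : σ → ℕ) (α β : σ →₀ ℕ)
    (hαβ : Disjoint α.support β.support) (s t : MvPolynomial σ R) (hs : Lead w α s)
    (ht : Lead w β t) (N : ℕ) : ∀ x y : MvPolynomial σ R,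
    (∀ m ∈ x.support, Finsupp.weight w m + Finsupp.weight w α < N) →
    (∀ m ∈ y.support, Finsupp.weight w m + Finsupp.weight w β < N) →
    x * s + y * t = 0 → ∃ r, x = t * r ∧ y = - (s * r) := by
  obtain ⟨ε₁, hε₁, hs⟩ := hs
  obtain ⟨ε₂, hε₂, ht⟩ := ht
  induction N with
  | zero =>
    intro x y hx hy _
    have hx0 : x = 0 := support_eq_empty.1 (Finset.eq_empty_of_forall_notMem fun m hm =>
      absurd (hx m hm) (Nat.not_lt_zero _))
    have hy0 : y = 0 := support_eq_empty.1 (Finset.eq_empty_of_forall_notMem fun m hm =>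
      absurd (hy m hm) (Nat.not_lt_zero _))
    exact ⟨0, by rw [hx0, mul_zero], by rw [hy0, mul_zero, neg_zero]⟩
  | succ N ih =>
    intro x y hx hy h
    obtain ⟨x₁, x₂, ex, hx₁, hx₂⟩ := lk_split x
      (fun m => Finsupp.weight w m + Finsupp.weight w α = N)
    obtain ⟨y₁, y₂, ey, hy₁, hy₂⟩ := lk_split y
      (fun m => Finsupp.weight w m + Finsupp.weight w β = N)
    have hx₂' : ∀ m ∈ x₂.support, Finsupp.weight w m + Finsupp.weight w α < N := fun m hm => by
      have := hx₂ m hm
      have := hx m this.2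
      omega
    have hy₂' : ∀ m ∈ y₂.support, Finsupp.weight w m + Finsupp.weight w β < N := fun m hm => by
      have := hy₂ m hm
      have := hy m this.2
      omega
    have hA : C ε₁ * x₁ * monomial α 1 + C ε₂ * y₁ * monomial β 1 = 0 := by
      refine lk_sep w N (B := (x * s - C ε₁ * x₁ * monomial α 1) +
        (y * t - C ε₂ * y₁ * monomial β 1)) ?_ ?_ ?_
      · linear_combination h
      · intro m hm
        rcases lk_add hm with hm | hm
        · exact lk_tophom w N α ε₁ x₁ (fun m hm => (hx₁ m hm).1) m hm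
        · exact lk_tophom w N β ε₂ y₁ (fun m hm => (hy₁ m hm).1) m hm
      · intro m hm
        rcases lk_add hm with hm | hm
        · exact lk_top w N α ε₁ s x x₁ x₂ hs ex (fun m hm => (hx₁ m hm).1) hx₂' m hm
        · exact lk_top w N β ε₂ t y y₁ y₂ ht ey (fun m hm => (hy₁ m hm).1) hy₂' m hm
    obtain ⟨r, hr1, hr2⟩ := monKos2 α β hαβ _ _ hA
    have e1 : C ε₁ * C ε₁ = (1 : MvPolynomial σ R) := by rw [← C_mul, lk_sq hε₁, C_1]
    have e2 : C ε₂ * C ε₂ = (1 : MvPolynomial σ R) := by rw [← C_mul, lk_sq hε₂, C_1]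
    have hr : ∀ m ∈ r.support,
        Finsupp.weight w m + Finsupp.weight w α + Finsupp.weight w β = N := by
      intro m hm
      have h1 : m + β ∈ (C ε₁ * x₁).support := by
        rw [hr1, mul_comm, mem_support_iff, coeff_mul_monomial, mul_one]
        exact mem_support_iff.1 hm
      have h2 := (hx₁ _ (lk_C h1)).1
      rw [map_add] at h2
      omega
    have hx1 : x₁ = C ε₁ * (monomial β 1 * r) := by
      rw [← hr1, ← mul_assoc, e1, one_mul]
    have hy1 : y₁ = - (C ε₂ * (monomial α 1 * r)) := by
      have : y₁ = C ε₂ * (C ε₂ * y₁) := by rw [← mul_assoc, e2, one_mul]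
      rw [this, hr2, mul_neg]
    set r' : MvPolynomial σ R := C ε₁ * C ε₂ * r with hr'
    have hr's : ∀ m ∈ r'.support,
        Finsupp.weight w m + Finsupp.weight w α + Finsupp.weight w β = N := fun m hm => by
      rw [hr', mul_assoc] at hm
      exact hr m (lk_C (lk_C hm))
    have hx' : x - t * r' = x₂ + -((t - monomial β ε₂) * r') := by
      rw [ex, hx1, lk_mono ε₂, hr']
      linear_combination (C ε₁ * monomial β 1 * r) * (-e2)
    have hy' : y + s * r' = y₂ + (s - monomial α ε₁) * r' := by
      rw [ey, hy1, lk_mono ε₁, hr']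
      linear_combination (C ε₂ * monomial α 1 * r) * e1
    obtain ⟨r'', h5, h6⟩ := ih (x - t * r') (y + s * r') (by
      rw [hx']
      intro m hm
      rcases lk_add hm with hm | hm
      · exact hx₂' m hm
      · obtain ⟨a, ha, b, hb, rfl⟩ := lk_mul (lk_neg hm)
        have := ht a ha
        have := hr's b hb
        rw [map_add]
        omega) (by
      rw [hy']
      intro m hm
      rcases lk_add hm with hm | hm
      · exact hy₂' m hm
      · obtain ⟨a, ha, b, hb, rfl⟩ := lk_mul hm
        have := hs a ha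
        have := hr's b hb
        rw [map_add]
        omega) (by linear_combination h)
    exact ⟨r' + r'', by linear_combination h5, by linear_combination h6⟩

private theorem lk_bound (w : σ → ℕ) (α : σ →₀ ℕ) (x : MvPolynomial σ R) :
    ∃ N : ℕ, ∀ n, N ≤ n → ∀ m ∈ x.support, Finsupp.weight w m + Finsupp.weight w α < n := by
  refine ⟨(x.support.sup fun m => Finsupp.weight w m) + Finsupp.weight w α + 1,
    fun n hn m hm => ?_⟩
  have h1 : Finsupp.weight w m ≤ x.support.sup fun m => Finsupp.weight w m :=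
    Finset.le_sup (f := fun m => Finsupp.weight w m) hm
  omega

theorem leadKos2 {σ R : Type} [CommRing R] (w : σ → ℕ) (α β : σ →₀ ℕ)
    (hαβ : Disjoint α.support β.support) (s t : MvPolynomial σ R) (hs : Lead w α s)
    (ht : Lead w β t) (x y : MvPolynomial σ R) (h : x * s + y * t = 0) :
    ∃ r, x = t * r ∧ y = - (s * r) := by
  obtain ⟨N, hN⟩ := lk_bound w α x
  obtain ⟨M, hM⟩ := lk_bound w β y
  exact lk_key2 w α β hαβ s t hs ht (N + M) x y (hN _ (by omega)) (hM _ (by omega)) h

private theorem lk_key3 (w : σ → ℕ) (α β γ : σ →₀ ℕ)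
    (hαβ : Disjoint α.support β.support) (hαγ : Disjoint α.support γ.support)
    (hβγ : Disjoint β.support γ.support) (s t u : MvPolynomial σ R) (hs : Lead w α s)
    (ht : Lead w β t) (hu : Lead w γ u) (N : ℕ) : ∀ x y z : MvPolynomial σ R,
    (∀ m ∈ x.support, Finsupp.weight w m + Finsupp.weight w α < N) →
    (∀ m ∈ y.support, Finsupp.weight w m + Finsupp.weight w β < N) →
    (∀ m ∈ z.support, Finsupp.weight w m + Finsupp.weight w γ < N) →
    x * s + y * t + z * u = 0 →
    ∃ p q r, x = t * r - u * q ∧ y = u * p - s * r ∧ z = s * q - t * p := by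
  obtain ⟨ε₁, hε₁, hs⟩ := hs
  obtain ⟨ε₂, hε₂, ht⟩ := ht
  obtain ⟨ε₃, hε₃, hu⟩ := hu
  induction N with
  | zero =>
    intro x y z hx hy hz _
    have hx0 : x = 0 := support_eq_empty.1 (Finset.eq_empty_of_forall_notMem fun m hm =>
      absurd (hx m hm) (Nat.not_lt_zero _))
    have hy0 : y = 0 := support_eq_empty.1 (Finset.eq_empty_of_forall_notMem fun m hm =>
      absurd (hy m hm) (Nat.not_lt_zero _))
    have hz0 : z = 0 := support_eq_empty.1 (Finset.eq_empty_of_forall_notMem fun m hm =>
      absurd (hz m hm) (Nat.not_lt_zero _))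
    refine ⟨0, 0, 0, ?_, ?_, ?_⟩
    · rw [hx0]; ring
    · rw [hy0]; ring
    · rw [hz0]; ring
  | succ N ih =>
    intro x y z hx hy hz h
    obtain ⟨x₁, x₂, ex, hx₁, hx₂⟩ := lk_split x
      (fun m => Finsupp.weight w m + Finsupp.weight w α = N)
    obtain ⟨y₁, y₂, ey, hy₁, hy₂⟩ := lk_split y
      (fun m => Finsupp.weight w m + Finsupp.weight w β = N)
    obtain ⟨z₁, z₂, ez, hz₁, hz₂⟩ := lk_split z
      (fun m => Finsupp.weight w m + Finsupp.weight w γ = N)
    have hx₂' : ∀ m ∈ x₂.support, Finsupp.weight w m + Finsupp.weight w α < N := fun m hm => by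
      have := hx₂ m hm
      have := hx m this.2
      omega
    have hy₂' : ∀ m ∈ y₂.support, Finsupp.weight w m + Finsupp.weight w β < N := fun m hm => by
      have := hy₂ m hm
      have := hy m this.2
      omega
    have hz₂' : ∀ m ∈ z₂.support, Finsupp.weight w m + Finsupp.weight w γ < N := fun m hm => by
      have := hz₂ m hm
      have := hz m this.2
      omega
    have hA : C ε₁ * x₁ * monomial α 1 + C ε₂ * y₁ * monomial β 1 +
        C ε₃ * z₁ * monomial γ 1 = 0 := by
      refine lk_sep w N (B := ((x * s - C ε₁ * x₁ * monomial α 1) +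
        (y * t - C ε₂ * y₁ * monomial β 1)) + (z * u - C ε₃ * z₁ * monomial γ 1)) ?_ ?_ ?_
      · linear_combination h
      · intro m hm
        rcases lk_add hm with hm | hm
        · rcases lk_add hm with hm | hm
          · exact lk_tophom w N α ε₁ x₁ (fun m hm => (hx₁ m hm).1) m hm
          · exact lk_tophom w N β ε₂ y₁ (fun m hm => (hy₁ m hm).1) m hm
        · exact lk_tophom w N γ ε₃ z₁ (fun m hm => (hz₁ m hm).1) m hm
      · intro m hm
        rcases lk_add hm with hm | hm
        · rcases lk_add hm with hm | hm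
          · exact lk_top w N α ε₁ s x x₁ x₂ hs ex (fun m hm => (hx₁ m hm).1) hx₂' m hm
          · exact lk_top w N β ε₂ t y y₁ y₂ ht ey (fun m hm => (hy₁ m hm).1) hy₂' m hm
        · exact lk_top w N γ ε₃ u z z₁ z₂ hu ez (fun m hm => (hz₁ m hm).1) hz₂' m hm
    obtain ⟨p, q, r, ha, hb, hc, hp, hq, hr⟩ := monKos3 α β γ hαβ hαγ hβγ w N _ _ _
      (fun m hm => lk_tophom w N α ε₁ x₁ (fun m hm => (hx₁ m hm).1) m (mem_support_iff.2 hm))
      (fun m hm => lk_tophom w N β ε₂ y₁ (fun m hm => (hy₁ m hm).1) m (mem_support_iff.2 hm))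
      (fun m hm => lk_tophom w N γ ε₃ z₁ (fun m hm => (hz₁ m hm).1) m (mem_support_iff.2 hm)) hA
    have e1 : C ε₁ * C ε₁ = (1 : MvPolynomial σ R) := by rw [← C_mul, lk_sq hε₁, C_1]
    have e2 : C ε₂ * C ε₂ = (1 : MvPolynomial σ R) := by rw [← C_mul, lk_sq hε₂, C_1]
    have e3 : C ε₃ * C ε₃ = (1 : MvPolynomial σ R) := by rw [← C_mul, lk_sq hε₃, C_1]
    have hx1 : x₁ = C ε₁ * (monomial β 1 * r - monomial γ 1 * q) := by
      rw [← ha, ← mul_assoc, e1, one_mul]
    have hy1 : y₁ = C ε₂ * (monomial γ 1 * p - monomial α 1 * r) := by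
      rw [← hb, ← mul_assoc, e2, one_mul]
    have hz1 : z₁ = C ε₃ * (monomial α 1 * q - monomial β 1 * p) := by
      rw [← hc, ← mul_assoc, e3, one_mul]
    set p' : MvPolynomial σ R := C ε₂ * C ε₃ * p with hp'
    set q' : MvPolynomial σ R := C ε₁ * C ε₃ * q with hq'
    set r' : MvPolynomial σ R := C ε₁ * C ε₂ * r with hr'
    have hps : ∀ m ∈ p'.support,
        Finsupp.weight w m + Finsupp.weight w β + Finsupp.weight w γ = N := fun m hm => by
      rw [hp', mul_assoc] at hm
      exact lk_hom w N β γ p hp m (lk_C (lk_C hm))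
    have hqs : ∀ m ∈ q'.support,
        Finsupp.weight w m + Finsupp.weight w γ + Finsupp.weight w α = N := fun m hm => by
      rw [hq', mul_assoc] at hm
      exact lk_hom w N γ α q hq m (lk_C (lk_C hm))
    have hrs : ∀ m ∈ r'.support,
        Finsupp.weight w m + Finsupp.weight w α + Finsupp.weight w β = N := fun m hm => by
      rw [hr', mul_assoc] at hm
      exact lk_hom w N α β r hr m (lk_C (lk_C hm))
    have hx' : x - (t * r' - u * q') = (x₂ + -((t - monomial β ε₂) * r')) +
        (u - monomial γ ε₃) * q' := by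
      rw [ex, hx1, lk_mono ε₂, lk_mono ε₃, hr', hq']
      linear_combination (C ε₁ * monomial β 1 * r) * (-e2) + (C ε₁ * monomial γ 1 * q) * e3
    have hy' : y - (u * p' - s * r') = (y₂ + -((u - monomial γ ε₃) * p')) +
        (s - monomial α ε₁) * r' := by
      rw [ey, hy1, lk_mono ε₁, lk_mono ε₃, hr', hp']
      linear_combination (C ε₂ * monomial γ 1 * p) * (-e3) + (C ε₂ * monomial α 1 * r) * e1
    have hz' : z - (s * q' - t * p') = (z₂ + -((s - monomial α ε₁) * q')) +
        (t - monomial β ε₂) * p' := by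
      rw [ez, hz1, lk_mono ε₁, lk_mono ε₂, hq', hp']
      linear_combination (C ε₃ * monomial α 1 * q) * (-e1) + (C ε₃ * monomial β 1 * p) * e2
    obtain ⟨p'', q'', r'', h5, h6, h7⟩ := ih (x - (t * r' - u * q')) (y - (u * p' - s * r'))
      (z - (s * q' - t * p')) (by
      rw [hx']
      intro m hm
      rcases lk_add hm with hm | hm
      · rcases lk_add hm with hm | hm
        · exact hx₂' m hm
        · obtain ⟨a, ha, b, hb, rfl⟩ := lk_mul (lk_neg hm)
          have := ht a ha
          have := hrs b hb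
          rw [map_add]
          omega
      · obtain ⟨a, ha, b, hb, rfl⟩ := lk_mul hm
        have := hu a ha
        have := hqs b hb
        rw [map_add]
        omega) (by
      rw [hy']
      intro m hm
      rcases lk_add hm with hm | hm
      · rcases lk_add hm with hm | hm
        · exact hy₂' m hm
        · obtain ⟨a, ha, b, hb, rfl⟩ := lk_mul (lk_neg hm)
          have := hu a ha
          have := hps b hb
          rw [map_add]
          omega
      · obtain ⟨a, ha, b, hb, rfl⟩ := lk_mul hm
        have := hs a ha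
        have := hrs b hb
        rw [map_add]
        omega) (by
      rw [hz']
      intro m hm
      rcases lk_add hm with hm | hm
      · rcases lk_add hm with hm | hm
        · exact hz₂' m hm
        · obtain ⟨a, ha, b, hb, rfl⟩ := lk_mul (lk_neg hm)
          have := hs a ha
          have := hqs b hb
          rw [map_add]
          omega
      · obtain ⟨a, ha, b, hb, rfl⟩ := lk_mul hm
        have := ht a ha
        have := hps b hb
        rw [map_add]
        omega) (by linear_combination h)
    exact ⟨p' + p'', q' + q'', r' + r'', by linear_combination h5, by linear_combination h6,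
      by linear_combination h7⟩

theorem leadKos3 {σ R : Type} [CommRing R] (w : σ → ℕ) (α β γ : σ →₀ ℕ)
    (hαβ : Disjoint α.support β.support) (hαγ : Disjoint α.support γ.support)
    (hβγ : Disjoint β.support γ.support) (s t u : MvPolynomial σ R) (hs : Lead w α s)
    (ht : Lead w β t) (hu : Lead w γ u) (x y z : MvPolynomial σ R)
    (h : x * s + y * t + z * u = 0) :
    ∃ p q r, x = t * r - u * q ∧ y = u * p - s * r ∧ z = s * q - t * p := by
  obtain ⟨N, hN⟩ := lk_bound w α x
  obtain ⟨M, hM⟩ := lk_bound w β y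
  obtain ⟨L, hL⟩ := lk_bound w γ z
  exact lk_key3 w α β γ hαβ hαγ hβγ s t u hs ht hu (N + M + L) x y z (hN _ (by omega))
    (hM _ (by omega)) (hL _ (by omega)) h

end

end KN
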