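import Mathlib

/-!
# MODULE Loc (size S/M)

Derivations extend uniquely to localizations.

Existence: `Algebra.FormallyEtale A B` (`Algebra.FormallyEtale.of_isLocalization`), and
`KaehlerDifferential.tensorKaehlerEquivOfFormallyEtale ℝ A B : B ⊗[A] Ω[A⁄ℝ] ≃ₗ[B] Ω[B⁄ℝ]`.  The
`A`-linear map `D.liftKaehlerDifferential : Ω[A⁄ℝ] → M` extends to `B ⊗[A] Ω[A⁄ℝ] → M`
(`TensorProduct.AlgebraTensorModule.lift` or `IsBaseChange.lift`), compose with the inverse of the
equivalence and with the universal derivation `KaehlerDifferential.D ℝ B`.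
(Alternatively define `D' (a/s) = (1/s²) (s • D a - a • D s)` by hand.)
Uniqueness: if `b * algebraMap s = algebraMap a` then `s • D' b = D a - b • D s`, and `s` acts
invertibly on the `B`-module `M`.
-/

open scoped nonZeroDivisors TensorProduct

namespace KN

theorem exists_der_loc {A B M : Type} [CommRing A] [CommRing B] [Algebra ℝ A] [Algebra ℝ B]
    [Algebra A B] [IsScalarTower ℝ A B] (T : Submonoid A) [IsLocalization T B] [AddCommGroup M]
    [Module B M] [Module A M] [Module ℝ M] [IsScalarTower A B M] [IsScalarTower ℝ B M]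
    [IsScalarTower ℝ A M] (D : Derivation ℝ A M) :
    ∃ D' : Derivation ℝ B M, ∀ a, D' (algebraMap A B a) = D a := by
  have : Algebra.FormallyEtale A B := Algebra.FormallyEtale.of_isLocalization T
  let φ : B ⊗[A] Ω[A⁄ℝ] →ₗ[B] M := LinearMap.liftBaseChange B D.liftKaehlerDifferential
  let ψ : Ω[B⁄ℝ] →ₗ[B] M :=
    φ ∘ₗ (KaehlerDifferential.tensorKaehlerEquivOfFormallyEtale ℝ A B).symm.toLinearMap
  refine ⟨ψ.compDer (KaehlerDifferential.D ℝ B), fun a => ?_⟩
  change φ ((KaehlerDifferential.tensorKaehlerEquivOfFormallyEtale ℝ A B).symm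
    (KaehlerDifferential.D ℝ B (algebraMap A B a))) = D a
  rw [KaehlerDifferential.tensorKaehlerEquivOfFormallyEtale_symm_D_algebraMap]
  change LinearMap.liftBaseChange B D.liftKaehlerDifferential _ = _
  rw [LinearMap.liftBaseChange_tmul, one_smul, Derivation.liftKaehlerDifferential_comp_D]

theorem der_loc_ext {A B M : Type} [CommRing A] [CommRing B] [Algebra ℝ A] [Algebra ℝ B]
    [Algebra A B] [IsScalarTower ℝ A B] (T : Submonoid A) [IsLocalization T B] [AddCommGroup M]
    [Module B M] [Module ℝ M] (D₁ D₂ : Derivation ℝ B M)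
    (h : ∀ a : A, D₁ (algebraMap A B a) = D₂ (algebraMap A B a)) : D₁ = D₂ := by
  ext b
  obtain ⟨⟨a, s⟩, hs⟩ := IsLocalization.surj T b
  have h1 := congrArg D₁ hs
  have h2 := congrArg D₂ hs
  rw [Derivation.leibniz] at h1 h2
  rw [h, h] at h1
  have h3 : algebraMap A B s • D₁ b = algebraMap A B s • D₂ b := by
    have := h1.trans h2.symm
    exact add_left_cancel this
  obtain ⟨w, hw⟩ := IsLocalization.map_units B s
  have h4 := congrArg (fun z => (↑w⁻¹ : B) • z) h3
  simp only [smul_smul, ← hw, Units.inv_mul, one_smul] at h4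
  exact h4

/-- a family of commuting derivations extends to a family of commuting derivations -/
theorem exists_fam_loc {d : ℕ} {A B : Type} [CommRing A] [CommRing B] [Algebra ℝ A] [Algebra ℝ B]
    [Algebra A B] [IsScalarTower ℝ A B] (T : Submonoid A) [IsLocalization T B]
    (D : Fin d → Derivation ℝ A A) (hD : ∀ i j x, D i (D j x) = D j (D i x)) :
    ∃ D' : Fin d → Derivation ℝ B B, (∀ i a, D' i (algebraMap A B a) = algebraMap A B (D i a)) ∧
      ∀ i j x, D' i (D' j x) = D' j (D' i x) := by
  have h : ∀ i, ∃ D' : Derivation ℝ B B, ∀ a, D' (algebraMap A B a) = algebraMap A B (D i a) :=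
    fun i => exists_der_loc (B := B) (M := B) T ((Algebra.linearMap A B).compDer (D i))
  choose D' hD' using h
  refine ⟨D', hD', fun i j x => ?_⟩
  have h1 : ⁅D' i, D' j⁆ = 0 := by
    apply der_loc_ext (A := A) T
    intro a
    rw [Derivation.commutator_apply, hD', hD', hD', hD', hD, sub_self]
    rfl
  have h2 := congrArg (fun z : Derivation ℝ B B => z x) h1
  simp only [Derivation.commutator_apply] at h2
  exact sub_eq_zero.1 h2

/-- maps out of a localization intertwine derivations if they do so on the base ring -/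
theorem loc_intertwine {A B B' : Type} [CommRing A] [CommRing B] [CommRing B'] [Algebra ℝ A]
    [Algebra ℝ B] [Algebra ℝ B'] [Algebra A B] [IsScalarTower ℝ A B] (T : Submonoid A)
    [IsLocalization T B] (h : B →+* B') (D : Derivation ℝ B B) (D' : Derivation ℝ B' B')
    (hh : ∀ a : A, h (D (algebraMap A B a)) = D' (h (algebraMap A B a))) (x : B) :
    h (D x) = D' (h x) := by
  obtain ⟨⟨a, s⟩, hs⟩ := IsLocalization.surj T x
  simp only at hs
  have h1 := congrArg (fun z => h (D z)) hs
  have h2 := congrArg (fun z => D' (h z)) hs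
  simp only [map_mul, Derivation.leibniz, smul_eq_mul, map_add] at h1 h2
  rw [hh, hh] at h1
  have h3 : h (algebraMap A B s) * h (D x) = h (algebraMap A B s) * D' (h x) := by
    linear_combination h1 - h2
  obtain ⟨w, hw⟩ := (IsLocalization.map_units B s).map h
  rw [← hw] at h3
  exact (Units.mul_right_inj w).1 h3

end KN
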