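import Pool.Agent.Work.MP_e214ac_gt.N.MinorLead

/-!
# MODULE MinorKos (size S)

Consequences of `mnr_lead`, `diag_disjoint`, `lead_pow`, `leadKos3`, `leadKos2` (the support of
`N • α` is contained in the support of `α`).
-/

open MvPolynomial

namespace KN

private theorem mnk_disj (m N : ℕ) (e e' : Fin 3) (h : e ≠ e') :
    Disjoint (N • diag m e).support (N • diag m e').support :=
  (diag_disjoint m e e' h).mono Finsupp.support_smul Finsupp.support_smul

/-- Koszul exactness for the powers of the three minors -/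
theorem mnr_kos (m N : ℕ) (x y z : CC m)
    (h : x * mnr m 0 ^ N + y * mnr m 1 ^ N + z * mnr m 2 ^ N = 0) :
    ∃ p q r, x = mnr m 1 ^ N * r - mnr m 2 ^ N * q ∧ y = mnr m 2 ^ N * p - mnr m 0 ^ N * r ∧
      z = mnr m 0 ^ N * q - mnr m 1 ^ N * p :=
  leadKos3 (wm m) (N • diag m 0) (N • diag m 1) (N • diag m 2)
    (mnk_disj m N 0 1 (by decide)) (mnk_disj m N 0 2 (by decide)) (mnk_disj m N 1 2 (by decide))
    _ _ _ (lead_pow _ _ _ (mnr_lead m 0) N) (lead_pow _ _ _ (mnr_lead m 1) N)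
    (lead_pow _ _ _ (mnr_lead m 2) N) x y z h

theorem mnr_coprime (m N : ℕ) (x y : CC m) (h : x * mnr m 0 ^ N = y * mnr m 1 ^ N) :
    mnr m 1 ^ N ∣ x := by
  obtain ⟨r, hr, -⟩ := leadKos2 (wm m) (N • diag m 0) (N • diag m 1)
    (mnk_disj m N 0 1 (by decide)) _ _ (lead_pow _ _ _ (mnr_lead m 0) N)
    (lead_pow _ _ _ (mnr_lead m 1) N) x (-y) (by
      rw [h]
      ring)
  exact ⟨r, hr⟩

end KN
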