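import Pool.Agent.Work.MP_e214ac_gt.N.LeadKos
import Pool.Agent.Work.MP_e214ac_gt.N.DKB

/-!
# MODULE MinorLead (size M)

`CC m = DP (Fin m) (m + 2) ℝ` is the ring of differential polynomials in `a_0, …, a_{m-1}`; the first
derivative `∂_l a_k` is the variable `X (k, e_l)`.  The determinant
`nam G p q`, `G k l = X (k, e_l)`, is (up to sign) the minor of the matrix (∂_l a_k)` with the columns
`p, q` deleted.  With the weight `wm (k, e_l) = k * l` (and `0` on the variables which are not first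
derivatives) its leading monomial is the main diagonal: if `c : Fin m → Fin (m+2)` is strictly
increasing with image the complement of `{p, q}`, `p < q`, then the terms of the minor are
`± ∏_k X (k, e_{c (π k)})`, `π ∈ Perm (Fin m)`, of weight `Σ_k k c(π k)`, and
`Σ_k k c(π k) < Σ_k k c(k)` for `π ≠ 1` (rearrangement inequality,
`Monovary.sum_mul_comp_perm_lt_sum_mul_iff` or similar).
For (p, q) = (m, m+1)`, (0, m+1)`, (0, 1)` the maps `c` are `k ↦ k`, `k + 1`, `k + 2`, and the
diagonals `{(k, e_k)}`, `{(k, e_{k+1})}`, `{(k, e_{k+2})}` are pairwise disjoint.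

Suggestion: first show `nam G p q = ± Matrix.det (fun k l => G k (c l))` (expand along the first two
rows, `Matrix.det_succ_row_zero` twice, or `Matrix.det_apply` and the permutations with
`σ 0 = p, σ 1 = q`).
-/

open MvPolynomial

namespace KN

/-- the ring of differential polynomials in the Casimirs -/
abbrev CC (m : ℕ) := DP (Fin m) (m + 2) ℝ

/-- the matrix of the first derivatives of the generic functions -/
noncomputable def GG (m : ℕ) (k : Fin m) (l : Fin (m + 2)) : CC m := X (k, Finsupp.single l 1)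

/-- the weight -/
noncomputable def wm (m : ℕ) (v : Fin m × (Fin (m + 2) →₀ ℕ)) : ℕ :=
  ∑ l : Fin (m + 2), if v.2 = Finsupp.single l 1 then (v.1 : ℕ) * (l : ℕ) else 0

/-- the exponent `Σ_k single (k, e_{k + e})` of the diagonal shifted by `e ≤ 2` -/
noncomputable def diag (m : ℕ) (e : Fin 3) : (Fin m × (Fin (m + 2) →₀ ℕ)) →₀ ℕ :=
  ∑ k : Fin m, Finsupp.single (k, Finsupp.single (⟨(k : ℕ) + (e : ℕ), by omega⟩ : Fin (m + 2)) 1) 1

private theorem ml_supp (m : ℕ) (e : Fin 3) (v : Fin m × (Fin (m + 2) →₀ ℕ))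
    (hv : v ∈ (diag m e).support) :
    v = (v.1, Finsupp.single (⟨(v.1 : ℕ) + (e : ℕ), by omega⟩ : Fin (m + 2)) 1) := by
  classical
  unfold diag at hv
  obtain ⟨k, -, hk⟩ := Finset.mem_biUnion.1 (Finsupp.support_finsetSum hv)
  have h1 := Finsupp.support_single_subset hk
  rw [Finset.mem_singleton] at h1
  rw [h1]

theorem diag_disjoint (m : ℕ) (e e' : Fin 3) (h : e ≠ e') :
    Disjoint (diag m e).support (diag m e').support := by
  rw [Finset.disjoint_left]
  intro v hv hv'
  have h1 := ml_supp m e v hv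
  have h2 := ml_supp m e' v hv'
  rw [h1] at h2
  have h3 := congrArg Prod.snd h2
  simp only at h3
  have h4 := Finsupp.single_left_injective (one_ne_zero) h3
  have h5 := congrArg Fin.val h4
  simp only at h5
  exact h (Fin.ext (by omega))

/-- the three pairs of deleted columns -/
def pq (m : ℕ) : Fin 3 → Fin (m + 2) × Fin (m + 2)
  | 0 => (⟨m, by omega⟩, ⟨m + 1, by omega⟩)
  | 1 => (⟨0, by omega⟩, ⟨m + 1, by omega⟩)
  | 2 => (⟨0, by omega⟩, ⟨1, by omega⟩)

/-- the three minors -/
noncomputable def mnr (m : ℕ) (e : Fin 3) : CC m := nam (GG m) (pq m e).1 (pq m e).2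

private theorem ml_nam (m : ℕ) (p q : Fin (m + 2)) :
    nam (GG m) p q = ∑ σ : Equiv.Perm (Fin (m + 2)),
      if σ 0 = p ∧ σ 1 = q then
        (monomial (∑ k : Fin m, Finsupp.single (k, Finsupp.single (σ k.succ.succ) 1) 1)
          ((Equiv.Perm.sign σ : ℤ) : ℝ) : CC m)
      else 0 := by
  unfold nam
  rw [← Matrix.det_transpose, Matrix.det_apply]
  refine Finset.sum_congr rfl fun σ _ => ?_
  have h1 : ∏ i, (nmat (GG m) p q).transpose (σ i) i =
      (Pi.single p 1 : Fin (m + 2) → CC m) (σ 0) * ((Pi.single q 1 : Fin (m + 2) → CC m) (σ 1) *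
        ∏ k : Fin m, GG m k (σ k.succ.succ)) := by
    rw [Fin.prod_univ_succ, Fin.prod_univ_succ]
    rfl
  rw [h1, Pi.single_apply, Pi.single_apply]
  by_cases h0 : σ 0 = p
  · by_cases h2 : σ 1 = q
    · rw [if_pos h0, if_pos h2, if_pos ⟨h0, h2⟩, one_mul, one_mul]
      have h3 : ∏ k : Fin m, GG m k (σ k.succ.succ) =
          monomial (∑ k : Fin m, Finsupp.single (k, Finsupp.single (σ k.succ.succ) 1) 1) 1 := by
        rw [monomial_sum_one]
        rfl
      rw [h3, Units.smul_def, ← Int.cast_smul_eq_zsmul ℝ, smul_monomial, smul_eq_mul, mul_one]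
    · rw [if_neg h2, if_neg (show ¬ (σ 0 = p ∧ σ 1 = q) from fun h => h2 h.2), zero_mul,
        mul_zero, smul_zero]
  · rw [if_neg h0, if_neg (show ¬ (σ 0 = p ∧ σ 1 = q) from fun h => h0 h.1), zero_mul, smul_zero]

private theorem ml_wm (m : ℕ) (k : Fin m) (l : Fin (m + 2)) :
    wm m (k, Finsupp.single l 1) = (k : ℕ) * (l : ℕ) := by
  unfold wm
  rw [Finset.sum_eq_single l]
  · rw [if_pos rfl]
  · intro l' _ hl'
    rw [if_neg]
    intro h
    exact hl' (Finsupp.single_left_injective one_ne_zero h).symm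
  · intro h
    exact absurd (Finset.mem_univ _) h

private theorem ml_weight (m : ℕ) (f : Fin m → Fin (m + 2)) :
    Finsupp.weight (wm m) (∑ k : Fin m, Finsupp.single (k, Finsupp.single (f k) 1) 1) =
      ∑ k : Fin m, (k : ℕ) * (f k : ℕ) := by
  rw [map_sum]
  refine Finset.sum_congr rfl fun k _ => ?_
  rw [Finsupp.weight_single, ml_wm, one_smul]

/-- the permutation of the leading term -/
private theorem ml_perm (m : ℕ) (e : Fin 3) : ∃ σ : Equiv.Perm (Fin (m + 2)),
    σ 0 = (pq m e).1 ∧ σ 1 = (pq m e).2 ∧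
      ∀ k : Fin m, σ k.succ.succ = ⟨(k : ℕ) + (e : ℕ), by omega⟩ := by
  set f : Fin (m + 2) → Fin (m + 2) := Fin.cons (pq m e).1 (Fin.cons (pq m e).2
    (fun k : Fin m => (⟨(k : ℕ) + (e : ℕ), by omega⟩ : Fin (m + 2)))) with hf
  have hval : ∀ i j : Fin (m + 2), f i = f j → i = j := by
    intro i j
    refine Fin.cases ?_ (fun i => ?_) i
    · refine Fin.cases ?_ (fun j => ?_) j
      · intro _
        rfl
      · refine Fin.cases ?_ (fun j => ?_) j
        · intro h
          have h1 : (pq m e).1 = (pq m e).2 := h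
          have h2 := congrArg Fin.val h1
          fin_cases e <;> simp [pq] at h2
        · intro h
          have h1 : (pq m e).1 = ⟨(j : ℕ) + (e : ℕ), by omega⟩ := h
          have h2 := congrArg Fin.val h1
          have := j.2
          fin_cases e <;> simp [pq] at h2 <;> omega
    · refine Fin.cases ?_ (fun i => ?_) i
      · refine Fin.cases ?_ (fun j => ?_) j
        · intro h
          have h1 : (pq m e).2 = (pq m e).1 := h
          have h2 := congrArg Fin.val h1
          fin_cases e <;> simp [pq] at h2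
        · refine Fin.cases ?_ (fun j => ?_) j
          · intro _
            rfl
          · intro h
            have h1 : (pq m e).2 = ⟨(j : ℕ) + (e : ℕ), by omega⟩ := h
            have h2 := congrArg Fin.val h1
            have := j.2
            fin_cases e <;> simp [pq] at h2 <;> omega
      · refine Fin.cases ?_ (fun j => ?_) j
        · intro h
          have h1 : (⟨(i : ℕ) + (e : ℕ), by omega⟩ : Fin (m + 2)) = (pq m e).1 := h
          have h2 := congrArg Fin.val h1
          have := i.2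
          fin_cases e <;> simp [pq] at h2 <;> omega
        · refine Fin.cases ?_ (fun j => ?_) j
          · intro h
            have h1 : (⟨(i : ℕ) + (e : ℕ), by omega⟩ : Fin (m + 2)) = (pq m e).2 := h
            have h2 := congrArg Fin.val h1
            have := i.2
            fin_cases e <;> simp [pq] at h2 <;> omega
          · intro h
            have h1 : (⟨(i : ℕ) + (e : ℕ), by omega⟩ : Fin (m + 2)) =
                ⟨(j : ℕ) + (e : ℕ), by omega⟩ := h
            have h2 := congrArg Fin.val h1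
            simp only at h2
            have h3 : i = j := Fin.ext (by omega)
            rw [h3]
  refine ⟨Equiv.ofBijective f (Finite.injective_iff_bijective.1 hval), rfl, rfl, fun k => rfl⟩

private theorem ml_lt (m : ℕ) (e : ℕ) (σ σ₀ : Equiv.Perm (Fin (m + 2)))
    (h0 : σ 0 = σ₀ 0) (h1 : σ 1 = σ₀ 1) (hσ₀ : ∀ k : Fin m, (σ₀ k.succ.succ : ℕ) = k + e)
    (hne : σ ≠ σ₀) :
    ∑ k : Fin m, (k : ℕ) * (σ k.succ.succ : ℕ) < ∑ k : Fin m, (k : ℕ) * (σ₀ k.succ.succ : ℕ) := by
  have hsum : ∀ (g : ℤ → ℤ), ∑ k : Fin m, g (σ k.succ.succ : ℕ) =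
      ∑ k : Fin m, g (σ₀ k.succ.succ : ℕ) := by
    intro g
    have h2 : ∑ i, g (σ i : ℕ) = ∑ i, g (σ₀ i : ℕ) := by
      rw [Equiv.sum_comp σ (fun i => g ((i : Fin (m + 2)) : ℕ)),
        Equiv.sum_comp σ₀ (fun i => g ((i : Fin (m + 2)) : ℕ))]
    rw [Fin.sum_univ_succ, Fin.sum_univ_succ, Fin.sum_univ_succ, Fin.sum_univ_succ] at h2
    have e1 : (Fin.succ 0 : Fin (m + 2)) = 1 := rfl
    rw [e1, h0, h1] at h2
    linarith
  have hex : ∃ k : Fin m, σ k.succ.succ ≠ σ₀ k.succ.succ := by
    by_contra hcon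
    push Not at hcon
    apply hne
    ext i
    refine Fin.cases ?_ (fun i => ?_) i
    · rw [h0]
    · refine Fin.cases ?_ (fun i => ?_) i
      · have e1 : (Fin.succ 0 : Fin (m + 2)) = 1 := rfl
        rw [e1, h1]
      · rw [hcon]
  obtain ⟨k₀, hk₀⟩ := hex
  have hpos : 0 < ∑ k : Fin m, (((k : ℕ) : ℤ) + e - ((σ k.succ.succ : ℕ) : ℤ)) ^ 2 := by
    refine Finset.sum_pos' (fun k _ => sq_nonneg _) ⟨k₀, Finset.mem_univ _, ?_⟩
    have h3 : (((k₀ : ℕ) : ℤ) + e - ((σ k₀.succ.succ : ℕ) : ℤ)) ≠ 0 := by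
      intro h4
      apply hk₀
      apply Fin.ext
      have := hσ₀ k₀
      omega
    positivity
  have hs1 := hsum (fun x => x)
  have hs2 := hsum (fun x => x ^ 2)
  have hz : ∀ k : Fin m, ((σ₀ k.succ.succ : ℕ) : ℤ) = (k : ℕ) + e := by
    intro k
    have := hσ₀ k
    omega
  simp only [hz] at hs1 hs2
  zify
  simp only [hz]
  have h5 : ∑ k : Fin m, (((k : ℕ) : ℤ) + e - ((σ k.succ.succ : ℕ) : ℤ)) ^ 2 =
      ∑ k : Fin m, (((k : ℕ) : ℤ) + e) ^ 2 + ∑ k : Fin m, ((σ k.succ.succ : ℕ) : ℤ) ^ 2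
        - 2 * ∑ k : Fin m, ((k : ℕ) : ℤ) * ((σ k.succ.succ : ℕ) : ℤ)
        - 2 * e * ∑ k : Fin m, ((σ k.succ.succ : ℕ) : ℤ) := by
    rw [Finset.mul_sum, Finset.mul_sum, ← Finset.sum_add_distrib, ← Finset.sum_sub_distrib,
      ← Finset.sum_sub_distrib]
    refine Finset.sum_congr rfl fun k _ => ?_
    ring
  have h6 : ∑ k : Fin m, (((k : ℕ) : ℤ) + e) ^ 2 =
      ∑ k : Fin m, ((k : ℕ) : ℤ) * (((k : ℕ) : ℤ) + e) + e * ∑ k : Fin m, (((k : ℕ) : ℤ) + e) := by
    rw [Finset.mul_sum, ← Finset.sum_add_distrib]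
    refine Finset.sum_congr rfl fun k _ => ?_
    ring
  rw [h5, hs2, hs1] at hpos
  rw [h6] at hpos
  linarith

theorem mnr_lead (m : ℕ) (e : Fin 3) : Lead (wm m) (diag m e) (mnr m e) := by
  classical
  obtain ⟨σ₀, h0, h1, h2⟩ := ml_perm m e
  refine ⟨((Equiv.Perm.sign σ₀ : ℤ) : ℝ), ?_, ?_⟩
  · rcases Int.units_eq_one_or (Equiv.Perm.sign σ₀) with h | h
    · left
      rw [h]
      simp
    · right
      rw [h]
      simp
  · have hd : diag m e =
        ∑ k : Fin m, Finsupp.single (k, Finsupp.single (σ₀ k.succ.succ) 1) 1 := by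
      unfold diag
      simp only [h2]
    have h3 : mnr m e - monomial (diag m e) ((Equiv.Perm.sign σ₀ : ℤ) : ℝ) =
        ∑ σ ∈ Finset.univ.erase σ₀, if σ 0 = (pq m e).1 ∧ σ 1 = (pq m e).2 then
        (monomial (∑ k : Fin m, Finsupp.single (k, Finsupp.single (σ k.succ.succ) 1) 1)
          ((Equiv.Perm.sign σ : ℤ) : ℝ) : CC m)
      else 0 := by
      unfold mnr
      rw [ml_nam, ← Finset.add_sum_erase _ _ (Finset.mem_univ σ₀), if_pos ⟨h0, h1⟩, hd,
        add_sub_cancel_left]
    intro β hβ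
    rw [h3] at hβ
    obtain ⟨σ, hσ, hβσ⟩ := Finset.mem_biUnion.1 (support_sum hβ)
    split_ifs at hβσ with hc
    · have h4 := support_monomial_subset hβσ
      rw [Finset.mem_singleton] at h4
      rw [h4, hd, ml_weight, ml_weight]
      exact ml_lt m e σ σ₀ (by rw [hc.1, h0]) (by rw [hc.2, h1])
        (fun k => by rw [h2 k]) (Finset.ne_of_mem_erase hσ)
    · simp at hβσ

theorem mnr_ne_zero (m : ℕ) (e : Fin 3) : mnr m e ≠ 0 := by
  classical
  obtain ⟨ε, hε, h⟩ := mnr_lead m e
  intro h0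
  rw [h0, zero_sub] at h
  have h1 : diag m e ∈ (-(monomial (diag m e) ε) : CC m).support := by
    rw [mem_support_iff, coeff_neg, coeff_monomial, if_pos rfl]
    rcases hε with h | h
    · rw [h]
      norm_num
    · rw [h]
      norm_num
  exact absurd (h _ h1) (lt_irrefl _)

end KN
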