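import Mathlib

/-!
# MODULE MonKos (size M)

Koszul exactness for three monomials `x^α, x^β, x^γ` with pairwise disjoint supports, over an
arbitrary commutative ring.

Proof.  `monKos2`: if `a x^α + b x^β = 0` then `a = x^β r`, `b = - x^α r`: coefficientwise, the
exponents of `a x^α = - b x^β` are `≥ α` and `≥ β`, hence (disjoint supports) `≥ α + β`, so every
exponent of `a` is `≥ β`; `r = a.divMonomial β`.
`monKos3`: write `a = a₀ + x^γ a₁`, `b = b₀ + x^γ b₁` with `a₀ = a.modMonomial γ`,
`a₁ = a.divMonomial γ`, etc.  No exponent of `a₀ x^α + b₀ x^β` is `≥ γ`: an exponent of `a₀` is not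
`≥ γ`, and adding `α` (disjoint from `γ`) does not change this.  But
`a₀ x^α + b₀ x^β = - x^γ (c + a₁ x^α + b₁ x^β)` has only exponents `≥ γ`.  So both vanish;
`monKos2` gives `a₀ = x^β r`, `b₀ = - x^α r`, and `c = - a₁ x^α - b₁ x^β`.
Take `q = - a₁`, `p = b₁`.
The homogeneous version: if `a`, `b`, `c` are homogeneous for a weight `w`, of degrees `N - w(α)`,
`N - w(β)`, `N - w(γ)` (stated as: `a x^α`, `b x^β`, `c x^γ` homogeneous of degree `N`), then `p`, `q`,
`r` can be chosen such that `p x^β x^γ`, `q x^γ x^α`, `r x^α x^β` are homogeneous of degree `N` (take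
components, or note that `divMonomial` of a homogeneous polynomial is homogeneous).
-/

open MvPolynomial

namespace KN

private theorem mk_cancel {σ R : Type} [CommRing R] (β : σ →₀ ℕ) (b c : MvPolynomial σ R)
    (h : b * monomial β 1 = c * monomial β 1) : b = c := by
  ext m
  have h1 := congrArg (coeff (m + β)) h
  rw [coeff_mul_monomial, coeff_mul_monomial, mul_one, mul_one] at h1
  exact h1

private theorem mk_le {σ : Type} {α β m : σ →₀ ℕ} (hαβ : Disjoint α.support β.support)
    (h : β ≤ m + α) : β ≤ m := by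
  intro i
  by_cases hi : i ∈ β.support
  · have h1 : i ∉ α.support := Finset.disjoint_right.1 hαβ hi
    have h2 := h i
    rw [Finsupp.add_apply, Finsupp.notMem_support_iff.1 h1, add_zero] at h2
    exact h2
  · rw [Finsupp.notMem_support_iff.1 hi]
    exact Nat.zero_le _

private theorem mk_coeff {σ R : Type} [CommRing R] (β m : σ →₀ ℕ) (b : MvPolynomial σ R)
    (h : ¬ β ≤ m) : coeff m (b * monomial β 1) = 0 := by
  classical
  rw [coeff_mul_monomial', if_neg h]

theorem monKos2 {σ R : Type} [CommRing R] (α β : σ →₀ ℕ)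
    (hαβ : Disjoint α.support β.support) (a b : MvPolynomial σ R)
    (h : a * monomial α 1 + b * monomial β 1 = 0) :
    ∃ r, a = monomial β 1 * r ∧ b = - (monomial α 1 * r) := by
  have hmod : a.modMonomial β = 0 := by
    ext m
    rw [coeff_zero]
    by_cases hm : β ≤ m
    · exact coeff_modMonomial_of_le _ hm
    · rw [coeff_modMonomial_of_not_le _ hm]
      have h1 := congrArg (coeff (m + α)) h
      rw [coeff_add, coeff_mul_monomial, mul_one, coeff_zero, mk_coeff, add_zero] at h1
      · exact h1
      · intro h2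
        exact hm (mk_le hαβ h2)
  have ha : a = monomial β 1 * a.divMonomial β := by
    have h1 := divMonomial_add_modMonomial a β
    rw [hmod, add_zero] at h1
    exact h1.symm
  refine ⟨a.divMonomial β, ha, ?_⟩
  apply mk_cancel β
  rw [ha] at h
  linear_combination h

private theorem mk_split {σ R : Type} [CommRing R] (γ : σ →₀ ℕ) (a : MvPolynomial σ R) :
    a = a.modMonomial γ + monomial γ 1 * a.divMonomial γ := by
  rw [add_comm]
  exact (divMonomial_add_modMonomial a γ).symm

private theorem mk_mod_coeff {σ R : Type} [CommRing R] (α γ m : σ →₀ ℕ)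
    (hαγ : Disjoint α.support γ.support) (a : MvPolynomial σ R) (hm : γ ≤ m) :
    coeff m (a.modMonomial γ * monomial α 1) = 0 := by
  classical
  rw [coeff_mul_monomial']
  split_ifs with h
  · rw [coeff_modMonomial_of_le, zero_mul]
    refine mk_le hαγ ?_
    rw [tsub_add_cancel_of_le h]
    exact hm
  · rfl

private theorem mk_mod_hom {σ R : Type} [CommRing R] (α γ : σ →₀ ℕ) (w : σ → ℕ) (N : ℕ)
    (a : MvPolynomial σ R) (ha : IsWeightedHomogeneous w (a * monomial α 1) N) :
    IsWeightedHomogeneous w (a.modMonomial γ * monomial α 1) N := by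
  classical
  intro m hm
  apply ha
  rw [coeff_mul_monomial'] at hm ⊢
  split_ifs at hm ⊢ with h
  · by_cases h1 : γ ≤ m - α
    · rw [coeff_modMonomial_of_le _ h1, zero_mul] at hm
      exact absurd rfl hm
    · rwa [coeff_modMonomial_of_not_le _ h1] at hm
  · exact hm

private theorem mk_sub {σ R : Type} [CommRing R] (w : σ → ℕ) (N : ℕ) (a b : MvPolynomial σ R)
    (ha : IsWeightedHomogeneous w a N) (hb : IsWeightedHomogeneous w b N) :
    IsWeightedHomogeneous w (a - b) N := by
  rw [sub_eq_add_neg]
  refine ha.add ?_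
  intro m hm
  apply hb
  rw [coeff_neg] at hm
  exact neg_ne_zero.1 hm

private theorem mk_neg {σ R : Type} [CommRing R] (w : σ → ℕ) (N : ℕ) (b : MvPolynomial σ R)
    (hb : IsWeightedHomogeneous w b N) : IsWeightedHomogeneous w (-b) N := by
  intro m hm
  apply hb
  rw [coeff_neg] at hm
  exact neg_ne_zero.1 hm

theorem monKos3 {σ R : Type} [CommRing R] (α β γ : σ →₀ ℕ)
    (hαβ : Disjoint α.support β.support) (hαγ : Disjoint α.support γ.support)
    (hβγ : Disjoint β.support γ.support) (w : σ → ℕ) (N : ℕ) (a b c : MvPolynomial σ R)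
    (ha : IsWeightedHomogeneous w (a * monomial α 1) N)
    (hb : IsWeightedHomogeneous w (b * monomial β 1) N)
    (hc : IsWeightedHomogeneous w (c * monomial γ 1) N)
    (h : a * monomial α 1 + b * monomial β 1 + c * monomial γ 1 = 0) :
    ∃ p q r : MvPolynomial σ R, a = monomial β 1 * r - monomial γ 1 * q ∧
      b = monomial γ 1 * p - monomial α 1 * r ∧ c = monomial α 1 * q - monomial β 1 * p ∧
      IsWeightedHomogeneous w (p * monomial β 1 * monomial γ 1) N ∧
      IsWeightedHomogeneous w (q * monomial γ 1 * monomial α 1) N ∧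
      IsWeightedHomogeneous w (r * monomial α 1 * monomial β 1) N := by
  set a₀ := a.modMonomial γ with ha₀
  set a₁ := a.divMonomial γ with ha₁
  set b₀ := b.modMonomial γ with hb₀
  set b₁ := b.divMonomial γ with hb₁
  have ea : a = a₀ + monomial γ 1 * a₁ := mk_split γ a
  have eb : b = b₀ + monomial γ 1 * b₁ := mk_split γ b
  have h1 : a₀ * monomial α 1 + b₀ * monomial β 1 =
      (-(c + a₁ * monomial α 1 + b₁ * monomial β 1)) * monomial γ 1 := by
    rw [ea, eb] at h
    linear_combination h
  have h2 : a₀ * monomial α 1 + b₀ * monomial β 1 = 0 := by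
    ext m
    rw [coeff_zero]
    by_cases hm : γ ≤ m
    · rw [coeff_add, ha₀, hb₀, mk_mod_coeff α γ m hαγ a hm, mk_mod_coeff β γ m hβγ b hm, add_zero]
    · rw [h1, mk_coeff γ m _ hm]
  obtain ⟨r, hr1, hr2⟩ := monKos2 α β hαβ a₀ b₀ h2
  have hc' : c = -(a₁ * monomial α 1) - b₁ * monomial β 1 := by
    rw [h2] at h1
    have h3 : (-(c + a₁ * monomial α 1 + b₁ * monomial β 1)) * monomial γ 1 =
        0 * monomial γ (1 : R) := by rw [← h1, zero_mul]
    have h4 := mk_cancel γ _ _ h3
    linear_combination -h4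
  refine ⟨b₁, -a₁, r, ?_, ?_, ?_, ?_, ?_, ?_⟩
  · rw [ea, hr1]
    ring
  · rw [eb, hr2]
    ring
  · rw [hc']
    ring
  · have h5 : b₁ * monomial β 1 * monomial γ 1 = b * monomial β 1 - b₀ * monomial β 1 := by
      rw [eb]
      ring
    rw [h5]
    exact mk_sub w N _ _ hb (mk_mod_hom β γ w N b hb)
  · have h5 : -a₁ * monomial γ 1 * monomial α 1 = -(a * monomial α 1 - a₀ * monomial α 1) := by
      rw [ea]
      ring
    rw [h5]
    exact mk_neg w N _ (mk_sub w N _ _ ha (mk_mod_hom α γ w N a ha))
  · have h5 : r * monomial α 1 * monomial β 1 = a₀ * monomial α 1 := by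
      rw [hr1]
      ring
    rw [h5]
    exact mk_mod_hom α γ w N a ha

end KN
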