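import Pool.Agent.Work.MP_e214ac_gt.N.AlgDefs

/-!
# MODULE Nam (determinants, pure linear algebra over a commutative ring, size M)

`nam G i j = det (e_i, e_j, G_0, …, G_{m-1})`, rows of length `m + 2`.

* `nam_skew`, `nam_self`: exchange of two rows, two equal rows (`Matrix.det_permute`,
  `Matrix.det_zero_of_row_eq`).
* `nam_casimir`: `Σ_j nam G i j * v j = det (e_i, v, G)` by linearity in the second row
  (`Matrix.det_updateRow_sum` or expansion), and it vanishes for `v = G_k`.
* `nam_mul`: for a square matrix `A`, `det (r_0 A, r_1 A, …) = det (r) det A`; in particular if `M`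
  is a two-sided inverse of `J = nmat G p q` then, multiplying `nmat G i j` by `M` on the right, the
  rows become `M_{i·}, M_{j·}, e_2, e_3, …`, whose determinant is `M_{i0} M_{j1} - M_{i1} M_{j0}`.
  Hence `nam G i j = det J * (M_{i0} M_{j1} - M_{i1} M_{j0})`.  Also row `0` of `J` is `e_p`, so
  `M_{pa} = δ_{0a}`, and row `1` is `e_q`, so `M_{qa} = δ_{1a}`.
* `nam_plucker`: the three-term Plücker relation.  One proof: Cramer's rule.  For the `m + 3`
  vectors `v_0 = e_i, v_1 = e_j, v_2 = e_k, v_3 = G_0, …` of `R^{m+2}` the alternating function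
  `Σ_r (-1)^r det(v_0, …, v̂_r, …) det(v_r, e_l, G)` vanishes; all terms with `r ≥ 3` vanish because
  `det(G_s, e_l, G) = 0`.  Another proof: it is a polynomial identity with integer coefficients in the
  entries of `G`, hence it is enough to prove it over the field of fractions of
  `MvPolynomial _ ℤ`, when `nam G p q ≠ 0` for some `p, q` (otherwise everything vanishes): there
  `nam_frame` gives `nam G i j = c (M_{i0} M_{j1} - M_{i1} M_{j0})` and the identity is `ring`.
-/

namespace KN

variable {m : ℕ} {R : Type} [CommRing R] (G : Fin m → Fin (m + 2) → R)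

/-- the determinant with the first two rows `u`, `v` -/
private noncomputable def namD (u v : Fin (m + 2) → R) : R :=
  Matrix.det (Matrix.of (Fin.cons u (Fin.cons v (fun k l => G k l) :
    Fin (m + 1) → Fin (m + 2) → R) : Fin (m + 2) → Fin (m + 2) → R))

private theorem namD_single (i j : Fin (m + 2)) :
    namD G (Pi.single i 1) (Pi.single j 1) = nam G i j := rfl

private theorem namD_left (u v : Fin (m + 2) → R) :
    namD G u v = ∑ a, u a * namD G (Pi.single a 1) v := by
  set L : (Fin (m + 2) → R) →ₗ[R] R :=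
    (Matrix.detRowAlternating (n := Fin (m + 2)) (R := R)).toMultilinearMap.toLinearMap
      (Fin.cons 0 (Fin.cons v (fun k l => G k l) : Fin (m + 1) → Fin (m + 2) → R)) 0 with hL
  have h1 : ∀ w, L w = namD G w v := by
    intro w
    rw [hL, MultilinearMap.toLinearMap_apply, Fin.update_cons_zero]
    rfl
  rw [← h1, LinearMap.pi_apply_eq_sum_univ]
  refine Finset.sum_congr rfl fun a _ => ?_
  rw [smul_eq_mul, ← h1]
  congr 2
  funext b
  rw [Pi.single_apply]
  exact if_congr eq_comm rfl rfl

private theorem namD_right (u v : Fin (m + 2) → R) :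
    namD G u v = ∑ b, v b * namD G u (Pi.single b 1) := by
  set L : (Fin (m + 2) → R) →ₗ[R] R :=
    (Matrix.detRowAlternating (n := Fin (m + 2)) (R := R)).toMultilinearMap.toLinearMap
      (Fin.cons u (Fin.cons 0 (fun k l => G k l) : Fin (m + 1) → Fin (m + 2) → R))
      (Fin.succ 0) with hL
  have h1 : ∀ w, L w = namD G u w := by
    intro w
    rw [hL, MultilinearMap.toLinearMap_apply, ← Fin.cons_update, Fin.update_cons_zero]
    rfl
  rw [← h1, LinearMap.pi_apply_eq_sum_univ]
  refine Finset.sum_congr rfl fun a _ => ?_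
  rw [smul_eq_mul, ← h1]
  congr 2
  funext b
  rw [Pi.single_apply]
  exact if_congr eq_comm rfl rfl

theorem nam_skew (i j : Fin (m + 2)) : nam G i j = - nam G j i := by
  have h1 : nmat G i j = (nmat G j i).submatrix (Equiv.swap 0 1) id := by
    ext a b
    rw [Matrix.submatrix_apply, id]
    refine Fin.cases ?_ (fun a => ?_) a
    · rw [Equiv.swap_apply_left]
      rfl
    · refine Fin.cases ?_ (fun a => ?_) a
      · have : (Fin.succ 0 : Fin (m + 2)) = 1 := rfl
        rw [this, Equiv.swap_apply_right]
        rfl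
      · rw [Equiv.swap_apply_of_ne_of_ne (Fin.succ_ne_zero _) (by
          intro hc
          have h2 : (Fin.succ a : Fin (m + 1)) = 0 := Fin.succ_injective _ hc
          exact Fin.succ_ne_zero _ h2)]
        rfl
  unfold nam
  rw [h1, Matrix.det_permute, Equiv.Perm.sign_swap (by
    intro hc
    exact absurd (congrArg Fin.val hc) (by simp))]
  simp

theorem nam_self (i : Fin (m + 2)) : nam G i i = 0 := by
  unfold nam
  exact Matrix.det_zero_of_row_eq (i := 0) (j := 1) (by
    intro hc
    exact absurd (congrArg Fin.val hc) (by simp)) rfl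

private theorem namD_G (i : Fin (m + 2)) (k : Fin m) : namD G (Pi.single i 1) (G k) = 0 := by
  unfold namD
  exact Matrix.det_zero_of_row_eq (i := 1) (j := k.succ.succ) (by
    intro hc
    exact absurd (congrArg Fin.val hc) (by simp)) rfl

theorem nam_casimir (i : Fin (m + 2)) (k : Fin m) : ∑ j, nam G i j * G k j = 0 := by
  rw [← namD_G G i k, namD_right]
  exact Finset.sum_congr rfl fun j _ => by rw [namD_single, mul_comm]

private theorem nam_std (u v : Fin (m + 2) → R) :
    namD (fun k : Fin m => (1 : Matrix (Fin (m + 2)) (Fin (m + 2)) R) k.succ.succ) u v =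
      u 0 * v 1 - u 1 * v 0 := by
  set G' : Fin m → Fin (m + 2) → R :=
    fun k : Fin m => (1 : Matrix (Fin (m + 2)) (Fin (m + 2)) R) k.succ.succ with hG'
  have hsing : ∀ k : Fin m, (Pi.single k.succ.succ 1 : Fin (m + 2) → R) = G' k := by
    intro k
    funext b
    rw [hG', Pi.single_apply]
    simp only [Matrix.one_apply]
    exact if_congr eq_comm rfl rfl
  have h2 : ∀ (a : Fin (m + 2)) (k : Fin m), nam G' a k.succ.succ = 0 := by
    intro a k
    rw [← namD_single, hsing]
    exact namD_G G' a k
  have h3 : ∀ (a : Fin (m + 2)) (k : Fin m), nam G' k.succ.succ a = 0 := by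
    intro a k
    rw [nam_skew, h2, neg_zero]
  have h01 : nam G' 0 1 = 1 := by
    unfold nam
    have : nmat G' 0 1 = 1 := by
      ext a b
      refine Fin.cases ?_ (fun a => ?_) a
      · change (Pi.single 0 1 : Fin (m + 2) → R) b = _
        rw [Pi.single_apply, Matrix.one_apply]
        exact if_congr eq_comm rfl rfl
      · refine Fin.cases ?_ (fun a => ?_) a
        · change (Pi.single 1 1 : Fin (m + 2) → R) b = _
          rw [Pi.single_apply, Matrix.one_apply]
          exact if_congr eq_comm rfl rfl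
        · rfl
    rw [this, Matrix.det_one]
  have h10 : nam G' 1 0 = -1 := by rw [nam_skew, h01]
  rw [namD_left]
  have h4 : ∀ a, namD G' (Pi.single a 1) v = ∑ b, v b * nam G' a b := fun a => namD_right G' _ v
  simp only [h4]
  rw [Fin.sum_univ_succ, Fin.sum_univ_succ]
  simp only [Fin.sum_univ_succ (n := m + 1), Fin.sum_univ_succ (n := m), h2, h3, mul_zero,
    Finset.sum_const_zero, add_zero]
  have e1 : (Fin.succ 0 : Fin (m + 2)) = 1 := rfl
  rw [e1, nam_self, nam_self, h01, h10]
  ring

private theorem nmat_mul (p q : Fin (m + 2)) (M : Matrix (Fin (m + 2)) (Fin (m + 2)) R)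
    (hJM : nmat G p q * M = 1) (i j : Fin (m + 2)) :
    (nmat G i j * M).det = M i 0 * M j 1 - M i 1 * M j 0 := by
  rw [← nam_std]
  unfold namD
  congr 1
  ext a b
  refine Fin.cases ?_ (fun a => ?_) a
  · rw [Matrix.mul_apply]
    change ∑ l, (Pi.single i 1 : Fin (m + 2) → R) l * M l b = M i b
    simp [Pi.single_apply]
  · refine Fin.cases ?_ (fun a => ?_) a
    · rw [Matrix.mul_apply]
      change ∑ l, (Pi.single j 1 : Fin (m + 2) → R) l * M l b = M j b
      simp [Pi.single_apply]
    · rw [← hJM, Matrix.mul_apply]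
      change ∑ l, G a l * M l b = (nmat G p q * M) a.succ.succ b
      rw [Matrix.mul_apply]
      rfl

theorem nam_frame (p q : Fin (m + 2)) (M : Matrix (Fin (m + 2)) (Fin (m + 2)) R)
    (hJM : nmat G p q * M = 1) (i j : Fin (m + 2)) :
    nam G i j = nam G p q * (M i 0 * M j 1 - M i 1 * M j 0) := by
  have h1 := nmat_mul G p q M hJM i j
  have h2 : (nmat G p q).det * M.det = 1 := by
    rw [← Matrix.det_mul, hJM, Matrix.det_one]
  rw [Matrix.det_mul] at h1
  unfold nam
  calc (nmat G i j).det = (nmat G i j).det * ((nmat G p q).det * M.det) := by rw [h2, mul_one]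
    _ = (nmat G p q).det * ((nmat G i j).det * M.det) := by ring
    _ = _ := by rw [h1]

theorem nmat_row_p (p q : Fin (m + 2)) (M : Matrix (Fin (m + 2)) (Fin (m + 2)) R)
    (hJM : nmat G p q * M = 1) (a : Fin (m + 2)) : M p a = if a = 0 then 1 else 0 := by
  have h1 : (nmat G p q * M) 0 a = M p a := by
    rw [Matrix.mul_apply]
    change ∑ l, (Pi.single p 1 : Fin (m + 2) → R) l * M l a = M p a
    simp [Pi.single_apply]
  rw [← h1, hJM, Matrix.one_apply]
  exact if_congr eq_comm rfl rfl

theorem nmat_row_q (p q : Fin (m + 2)) (M : Matrix (Fin (m + 2)) (Fin (m + 2)) R)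
    (hJM : nmat G p q * M = 1) (a : Fin (m + 2)) : M q a = if a = 1 then 1 else 0 := by
  have h1 : (nmat G p q * M) 1 a = M q a := by
    rw [Matrix.mul_apply]
    change ∑ l, (Pi.single q 1 : Fin (m + 2) → R) l * M l a = M q a
    simp [Pi.single_apply]
  rw [← h1, hJM, Matrix.one_apply]
  exact if_congr eq_comm rfl rfl

theorem nam_plucker (i j k l : Fin (m + 2)) :
    nam G i j * nam G k l - nam G i k * nam G j l + nam G i l * nam G j k = 0 := by
  set v : Fin (m + 3) → Fin (m + 2) → R := Fin.cons (Pi.single i 1) (Fin.cons (Pi.single j 1)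
    (Fin.cons (Pi.single k 1) (fun k l => G k l) : Fin (m + 1) → Fin (m + 2) → R) :
      Fin (m + 2) → Fin (m + 2) → R) with hv
  set Δ : Fin (m + 3) → R := fun r => Matrix.det (Matrix.of fun t => v (r.succAbove t)) with hΔ
  have h1 : ∀ c : Fin (m + 2), ∑ r : Fin (m + 3), (-1) ^ (r : ℕ) * v r c * Δ r = 0 := by
    intro c
    set A : Matrix (Fin (m + 3)) (Fin (m + 3)) R :=
      Matrix.of fun r => (Fin.cons (v r c) (v r) : Fin (m + 3) → R) with hA
    have h2 : A.det = 0 := by
      refine Matrix.det_zero_of_column_eq (i := 0) (j := c.succ) (Fin.succ_ne_zero _).symm ?_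
      intro r
      rfl
    rw [Matrix.det_succ_column_zero] at h2
    rw [← h2]
    refine Finset.sum_congr rfl fun r _ => ?_
    rfl
  have h3 : ∑ r : Fin (m + 3), (-1) ^ (r : ℕ) * Δ r * ∑ c, v r c * nam G c l = 0 := by
    have h4 : ∑ r : Fin (m + 3), (-1) ^ (r : ℕ) * Δ r * ∑ c, v r c * nam G c l =
        ∑ c, nam G c l * ∑ r : Fin (m + 3), (-1) ^ (r : ℕ) * v r c * Δ r := by
      simp only [Finset.mul_sum]
      rw [Finset.sum_comm]
      refine Finset.sum_congr rfl fun c _ => Finset.sum_congr rfl fun r _ => ?_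
      ring
    rw [h4]
    simp only [h1, mul_zero, Finset.sum_const_zero]
  have hs : ∀ p : Fin (m + 2), ∑ c, (Pi.single p 1 : Fin (m + 2) → R) c * nam G c l = nam G p l := by
    intro p
    simp [Pi.single_apply]
  have hg : ∀ s : Fin m, ∑ c, G s c * nam G c l = 0 := by
    intro s
    have h5 := nam_casimir G l s
    have h6 : ∑ c, G s c * nam G c l = - ∑ c, nam G l c * G s c := by
      rw [← Finset.sum_neg_distrib]
      refine Finset.sum_congr rfl fun c _ => ?_
      rw [nam_skew G c l]
      ring
    rw [h6, h5, neg_zero]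
  obtain ⟨W, hW⟩ : ∃ W : Fin (m + 3) → R, ∀ r, W r = ∑ c, v r c * nam G c l := ⟨_, fun _ => rfl⟩
  simp only [← hW] at h3
  rw [Fin.sum_univ_succ, Fin.sum_univ_succ, Fin.sum_univ_succ] at h3
  have e0 : W 0 = nam G i l := (hW 0).trans (hs i)
  have e1 : W (Fin.succ 0) = nam G j l := (hW _).trans (hs j)
  have e2 : W (Fin.succ (Fin.succ 0)) = nam G k l := (hW _).trans (hs k)
  have e3 : ∀ s : Fin m, W s.succ.succ.succ = 0 := fun s => (hW _).trans (hg s)
  have d0 : Δ 0 = nam G j k := rfl
  have d1 : Δ (Fin.succ 0) = nam G i k := by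
    rw [hΔ]
    unfold nam nmat
    simp only
    congr 2
    funext t
    refine Fin.cases ?_ (fun t => ?_) t
    · rfl
    · rw [Fin.succ_succAbove_succ]
      rfl
  have d2 : Δ (Fin.succ (Fin.succ 0)) = nam G i j := by
    rw [hΔ]
    unfold nam nmat
    simp only
    congr 2
    funext t
    refine Fin.cases ?_ (fun t => ?_) t
    · rfl
    · rw [Fin.succ_succAbove_succ]
      refine Fin.cases ?_ (fun t => ?_) t
      · rfl
      · rw [Fin.succ_succAbove_succ]
        rfl
  rw [e0, e1, e2, d0, d1, d2] at h3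
  simp only [e3, mul_zero, Finset.sum_const_zero, add_zero, Fin.val_zero, Fin.val_succ, pow_zero,
    zero_add, pow_one] at h3
  linear_combination h3

end KN
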