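import Pool.Agent.Work.MP_e214ac_gt.N.OpDefs

/-!
# MODULE OpA (finitely supported functions, size S/M)

Basic rules for `op`, `shf`, `ev`.

* `op_smul`: `D_i ∘ (r c) = (D_i r) c + r (D_i ∘ c)`: coefficientwise, `E i` is a derivation.
* `op_comm`: coefficientwise both sides have at `L` the value
  `E_i E_j c_L + E_i c_{L - e_j} + E_j c_{L - e_i} + c_{L - e_i - e_j}`; easier: both sides are
  additive in `c`, check on `Finsupp.single K r`.
* `shf_op`, `shf_shf`: check on `single K r`.
* `ev_op`: `ev (op E i c) φ = E_i (ev c φ)`: check on `single K r`, `DK_add_single`.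
* `ev_shf`: `ev (shf i c) φ = ev c (E_i φ)`.
* `op_apply`: the coefficient of `op E i c` at `L`.
-/

namespace KN

variable {d : ℕ} {R : Type} [CommRing R] [Algebra ℝ R] (E : Fin d → Derivation ℝ R R)

theorem shf_add (i : Fin d) (c c' : OP d R) : shf i (c + c') = shf i c + shf i c' :=
  Finsupp.mapDomain_add

theorem shf_zero (i : Fin d) : shf i (0 : OP d R) = 0 := Finsupp.mapDomain_zero

theorem shf_neg (i : Fin d) (c : OP d R) : shf i (-c) = -(shf i c) := by
  have h := shf_add i c (-c)
  rw [add_neg_cancel, shf_zero] at h
  exact (neg_eq_of_add_eq_zero_right h.symm).symm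

theorem shf_smul (i : Fin d) (r : R) (c : OP d R) : shf i (r • c) = r • shf i c :=
  Finsupp.mapDomain_smul r c

theorem shf_single (i : Fin d) (K : Fin d →₀ ℕ) (r : R) :
    shf i (Finsupp.single K r) = Finsupp.single (K + Finsupp.single i 1) r :=
  Finsupp.mapDomain_single

theorem shf_apply (i : Fin d) (c : OP d R) (L : Fin d →₀ ℕ) :
    shf i c L = if L i = 0 then 0 else c (L - Finsupp.single i 1) := by
  split_ifs with h
  · unfold shf
    apply Finsupp.mapDomain_of_notMem_range
    rintro ⟨K, hK⟩
    have h2 := congrArg (fun z => z i) hK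
    simp [h] at h2
  · have hle : Finsupp.single i 1 ≤ L := by
      rw [Finsupp.single_le_iff]
      exact Nat.one_le_iff_ne_zero.2 h
    obtain ⟨K, rfl⟩ : ∃ K, L = K + Finsupp.single i 1 :=
      ⟨L - Finsupp.single i 1, (tsub_add_cancel_of_le hle).symm⟩
    rw [add_tsub_cancel_right]
    exact Finsupp.mapDomain_apply (add_left_injective _) c K

theorem op_apply (i : Fin d) (c : OP d R) (L : Fin d →₀ ℕ) :
    op E i c L = E i (c L) + if L i = 0 then 0 else c (L - Finsupp.single i 1) := by
  unfold op
  rw [Finsupp.add_apply, Finsupp.mapRange_apply, shf_apply]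

theorem shf_shf (i j : Fin d) (c : OP d R) : shf i (shf j c) = shf j (shf i c) := by
  induction c using Finsupp.induction_linear with
  | zero => simp only [shf_zero]
  | add f g hf hg => simp only [shf_add, hf, hg]
  | single K r =>
    simp only [shf_single]
    rw [add_right_comm]

theorem op_add (i : Fin d) (c c' : OP d R) : op E i (c + c') = op E i c + op E i c' := by
  ext L
  rw [Finsupp.add_apply, op_apply, op_apply, op_apply, Finsupp.add_apply, map_add,
    Finsupp.add_apply]
  split_ifs <;> abel

theorem op_zero (i : Fin d) : op E i 0 = 0 := by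
  ext L
  rw [op_apply]
  simp

theorem op_neg (i : Fin d) (c : OP d R) : op E i (-c) = -(op E i c) := by
  have h := op_add E i c (-c)
  rw [add_neg_cancel, op_zero] at h
  exact (neg_eq_of_add_eq_zero_right h.symm).symm

theorem op_sub (i : Fin d) (c c' : OP d R) : op E i (c - c') = op E i c - op E i c' := by
  rw [sub_eq_add_neg, op_add, op_neg, ← sub_eq_add_neg]

theorem op_smul (i : Fin d) (r : R) (c : OP d R) :
    op E i (r • c) = E i r • c + r • op E i c := by
  ext L
  simp only [Finsupp.add_apply, Finsupp.smul_apply, op_apply, smul_eq_mul, Derivation.leibniz]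
  split_ifs <;> ring

private theorem op_single (i : Fin d) (K : Fin d →₀ ℕ) (r : R) :
    op E i (Finsupp.single K r)
      = Finsupp.single K (E i r) + Finsupp.single (K + Finsupp.single i 1) r := by
  unfold op
  rw [Finsupp.mapRange_single, shf_single]

theorem op_comm (hE : Comm E) (i j : Fin d) (c : OP d R) :
    op E i (op E j c) = op E j (op E i c) := by
  induction c using Finsupp.induction_linear with
  | zero => simp only [op_zero]
  | add f g hf hg => simp only [op_add, hf, hg]
  | single K r =>
    simp only [op_single, op_add]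
    rw [hE i j r, add_right_comm K]
    abel

theorem shf_op (i j : Fin d) (c : OP d R) : shf j (op E i c) = op E i (shf j c) := by
  induction c using Finsupp.induction_linear with
  | zero => simp only [op_zero, shf_zero]
  | add f g hf hg => simp only [op_add, shf_add, hf, hg]
  | single K r =>
    simp only [op_single, shf_add, shf_single]
    rw [add_right_comm K]

theorem ev_add (c c' : OP d R) (φ : R) : ev E (c + c') φ = ev E c φ + ev E c' φ := by
  unfold ev
  exact Finsupp.sum_add_index' (fun _ => zero_mul _) (fun _ _ _ => add_mul _ _ _)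

private theorem ev_zero (φ : R) : ev E 0 φ = 0 := Finsupp.sum_zero_index

theorem ev_neg (c : OP d R) (φ : R) : ev E (-c) φ = - ev E c φ := by
  have h := ev_add E c (-c) φ
  rw [add_neg_cancel, ev_zero] at h
  exact (neg_eq_of_add_eq_zero_right h.symm).symm

theorem ev_single (K : Fin d →₀ ℕ) (r φ : R) :
    ev E (Finsupp.single K r) φ = r * DK (fn E) K φ :=
  Finsupp.sum_single_index (zero_mul _)

theorem ev_smul (r : R) (c : OP d R) (φ : R) : ev E (r • c) φ = r * ev E c φ := by
  induction c using Finsupp.induction_linear with
  | zero => rw [smul_zero, ev_zero, mul_zero]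
  | add f g hf hg => rw [smul_add, ev_add, ev_add, hf, hg, mul_add]
  | single K s => rw [Finsupp.smul_single, ev_single, ev_single, smul_eq_mul, mul_assoc]

theorem ev_op (hE : Comm E) (i : Fin d) (c : OP d R) (φ : R) :
    ev E (op E i c) φ = E i (ev E c φ) := by
  induction c using Finsupp.induction_linear with
  | zero => rw [op_zero, ev_zero, map_zero]
  | add f g hf hg => rw [op_add, ev_add, ev_add, hf, hg, map_add]
  | single K s =>
    rw [op_single, ev_add, ev_single, ev_single, ev_single, Derivation.leibniz, smul_eq_mul,
      smul_eq_mul, DK_add_single (fn E) (fun i j x => hE i j x)]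
    change _ + s * E i (DK (fn E) K φ) = _
    ring

/-- iterated composition on the left commutes with `op` and `shf`, and evaluates correctly -/
theorem ev_DK_op (hE : Comm E) (K : Fin d →₀ ℕ) (c : OP d R) (φ : R) :
    ev E (DK (op E) K c) φ = DK (fn E) K (ev E c φ) :=
  DK_map (op E) (fn E) (fun c => ev E c φ) (fun i c => ev_op E hE i c φ) K c

theorem shf_DK_op (K : Fin d →₀ ℕ) (j : Fin d) (c : OP d R) :
    shf j (DK (op E) K c) = DK (op E) K (shf j c) :=
  DK_map (op E) (op E) (fun c => shf j c) (fun i c => shf_op E i j c) K c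

end KN
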