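import Pool.Agent.Work.MP_e214ac_gt.N.OpA

/-!
# MODULE OpB (size M)

Exactness of the complex `OP → OP² → OP` of two commuting directions `u ≠ v`, and the unique
Euler-Lagrange normal form.

* `op_inj`: `op E u c = 0` implies `c = 0`: if `c ≠ 0` take `K` in the support with `K u` maximal;
  the coefficient of `op E u c` at `K + e_u` is `E_u (c_{K + e_u}) + c_K = c_K ≠ 0` (`op_apply`).
  More generally `op_top`: if every `L` in the support of `op E u c` has `L u ≤ M` then every `K` in the
  support of `c` has `K u + 1 ≤ M` (in particular `c = 0` if `M = 0`).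
* `red_u`: for every `c` and there is `g` such that `c - op E u g` is supported on `K u = 0`.
  Induction on the maximal `u`-exponent `M` of `c`: if `M ≥ 1` take
  `g₁ = Σ_{K, K u = M} single (K - e_u) c_K`; `c - op E u g₁` has `u`-exponents `≤ M - 1`.
  If all coefficients of `c` lie in an additive subgroup `H` stable under `E_u`, so do those of `g`
  and of `c - op E u g`.
* `curlOp`: if `op u a + op v b = 0` then `a = - op v h`, `b = op u h`: by `red_u` write
  `b = op u h + b'`, `b'` supported on `K u = 0`; put `a' = a + op v h`; then `op u a' = - op v b'`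
  (use `op_comm`) has only exponents with `K u = 0`, so `a' = 0` by `op_top`, and `op v b' = 0` gives
  `b' = 0` by `op_inj`.
* `div_reduce`: apply `red_u` and then `red_u` in the direction `v` to the remainder (if `c'` is
  supported on `K u = 0` then the `g` constructed for `v` is also supported on `K u = 0`, so the second
  remainder is supported on `K u = 0` and `K v = 0`).
* `perp_unique`: if `c` is supported on `K u = K v = 0` and `c = op u h0 + op v h1` then `c = 0`: by
  `red_u` `h1 = op u g + h1'` with `h1'` supported on `K u = 0`; put `h0' = h0 + op v g`; then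
  `op u h0' = c - op v h1'` has only exponents with `K u = 0`, so `h0' = 0`, `c = op v h1'`, and
  `op_top` in the direction `v` gives `h1' = 0`.
-/

namespace KN

variable {d : ℕ} {R : Type} [CommRing R] [Algebra ℝ R] (E : Fin d → Derivation ℝ R R)

private theorem op_top (u : Fin d) (c : OP d R) (M : ℕ) (h : ∀ L, op E u c L ≠ 0 → L u ≤ M)
    (K : Fin d →₀ ℕ) (hK : c K ≠ 0) : K u + 1 ≤ M := by
  classical
  obtain ⟨K₀, hK₀, hmax⟩ := Finset.exists_max_image c.support (fun K => K u)
    ⟨K, Finsupp.mem_support_iff.2 hK⟩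
  have h1 : op E u c (K₀ + Finsupp.single u 1) = c K₀ := by
    rw [op_apply, if_neg (by simp), add_tsub_cancel_right]
    have h2 : c (K₀ + Finsupp.single u 1) = 0 := by
      by_contra h3
      have h4 := hmax _ (Finsupp.mem_support_iff.2 h3)
      simp at h4
    rw [h2, map_zero, zero_add]
  have h3 := h (K₀ + Finsupp.single u 1) (by rw [h1]; exact Finsupp.mem_support_iff.1 hK₀)
  have h4 := hmax K (Finsupp.mem_support_iff.2 hK)
  simp at h3
  omega

theorem op_inj (u : Fin d) (c : OP d R) (h : op E u c = 0) : c = 0 := by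
  ext K
  by_contra hK
  have := op_top E u c 0 (fun L hL => absurd (by rw [h]; rfl) hL) K hK
  omega

private theorem op_zero_of_supp (u : Fin d) (c : OP d R) (h : ∀ L, op E u c L ≠ 0 → L u = 0) :
    c = 0 := by
  ext K
  by_contra hK
  have := op_top E u c 0 (fun L hL => (h L hL).le) K hK
  omega

private theorem red (u : Fin d) (H : AddSubgroup R) (hu : ∀ x ∈ H, E u x ∈ H)
    (Z : (Fin d →₀ ℕ) → Prop) (hZ : ∀ K, Z K ↔ Z (K + Finsupp.single u 1)) (M : ℕ) :
    ∀ c : OP d R, (∀ K, c K ∈ H) → (∀ K, c K ≠ 0 → Z K) → (∀ K, c K ≠ 0 → K u ≤ M) →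
      ∃ g : OP d R, (∀ K, (c - op E u g) K ∈ H) ∧ (∀ K, (c - op E u g) K ≠ 0 → Z K ∧ K u = 0) := by
  classical
  induction M with
  | zero =>
    intro c hc hcZ hcM
    refine ⟨0, ?_, ?_⟩
    · intro K; rw [op_zero, sub_zero]; exact hc K
    · intro K hK
      rw [op_zero, sub_zero] at hK
      exact ⟨hcZ K hK, Nat.le_zero.1 (hcM K hK)⟩
  | succ M ih =>
    intro c hc hcZ hcM
    have hinj : Function.Injective (fun L : Fin d →₀ ℕ => L + Finsupp.single u 1) :=
      add_left_injective _
    set g₁ : OP d R := (Finsupp.comapDomain (fun L : Fin d →₀ ℕ => L + Finsupp.single u 1) c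
      hinj.injOn).filter (fun L => L u = M) with hg₁
    have hg₁a : ∀ L, g₁ L = if L u = M then c (L + Finsupp.single u 1) else 0 := by
      intro L
      rw [hg₁, Finsupp.filter_apply]
      rfl
    have hsub : ∀ L : Fin d →₀ ℕ, L u ≠ 0 → (L - Finsupp.single u 1) + Finsupp.single u 1 = L := by
      intro L hL
      apply tsub_add_cancel_of_le
      rw [Finsupp.single_le_iff]
      exact Nat.one_le_iff_ne_zero.2 hL
    have hsubu : ∀ L : Fin d →₀ ℕ, (L - Finsupp.single u 1 : Fin d →₀ ℕ) u = L u - 1 := by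
      intro L; simp
    have hc' : ∀ L, (c - op E u g₁) L = c L - (E u (g₁ L)
        + if L u = 0 then 0 else g₁ (L - Finsupp.single u 1)) := by
      intro L
      rw [Finsupp.sub_apply, op_apply]
    obtain ⟨g', hg'1, hg'2⟩ := ih (c - op E u g₁) (by
      intro L
      rw [hc']
      refine H.sub_mem (hc L) (H.add_mem (hu _ ?_) ?_)
      · rw [hg₁a]; split_ifs
        · exact hc _
        · exact H.zero_mem
      · split_ifs
        · exact H.zero_mem
        · rw [hg₁a]; split_ifs
          · exact hc _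
          · exact H.zero_mem) (by
      intro L hL
      by_contra hZL
      apply hL
      rw [hc']
      have e1 : c L = 0 := by
        by_contra h; exact hZL (hcZ L h)
      have e2 : c (L + Finsupp.single u 1) = 0 := by
        by_contra h; exact hZL ((hZ L).2 (hcZ _ h))
      rw [e1, hg₁a, e2]
      by_cases h0 : L u = 0
      · simp [h0]
      · rw [hg₁a, hsub L h0, e1]
        simp) (by
      intro L hL
      by_contra hlt
      apply hL
      rw [hc']
      have hLu : L u ≠ 0 := by omega
      have e0 : g₁ L = 0 := by rw [hg₁a, if_neg (by omega)]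
      rw [e0, map_zero, if_neg hLu, hg₁a, hsubu, hsub L hLu]
      by_cases h1 : L u = M + 1
      · rw [if_pos (by omega)]; simp
      · rw [if_neg (by omega)]
        have e1 : c L = 0 := by
          by_contra h; have := hcM L h; omega
        rw [e1]; simp)
    refine ⟨g₁ + g', ?_, ?_⟩
    · intro K
      rw [op_add, ← sub_sub]
      exact hg'1 K
    · intro K hK
      rw [op_add, ← sub_sub] at hK
      exact hg'2 K hK

private theorem red' (u : Fin d) (H : AddSubgroup R) (hu : ∀ x ∈ H, E u x ∈ H)
    (Z : (Fin d →₀ ℕ) → Prop) (hZ : ∀ K, Z K ↔ Z (K + Finsupp.single u 1)) (c : OP d R)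
    (hc : ∀ K, c K ∈ H) (hcZ : ∀ K, c K ≠ 0 → Z K) :
    ∃ g : OP d R, (∀ K, (c - op E u g) K ∈ H) ∧
      (∀ K, (c - op E u g) K ≠ 0 → Z K ∧ K u = 0) := by
  classical
  refine red E u H hu Z hZ (c.support.sup fun K => K u) c hc hcZ fun K hK => ?_
  exact Finset.le_sup (f := fun K : Fin d →₀ ℕ => K u) (Finsupp.mem_support_iff.2 hK)

private theorem op_supp (u v : Fin d) (huv : u ≠ v) (b : OP d R) (hb : ∀ K, b K ≠ 0 → K u = 0)
    (L : Fin d →₀ ℕ) (hL : op E v b L ≠ 0) : L u = 0 := by
  rw [op_apply] at hL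
  by_contra hLu
  apply hL
  have e1 : b L = 0 := by
    by_contra h; exact hLu (hb L h)
  rw [e1, map_zero, zero_add]
  split_ifs
  · rfl
  · by_contra h
    have h2 := hb _ h
    simp [huv.symm] at h2
    exact hLu h2

theorem curlOp (hE : Comm E) (u v : Fin d) (huv : u ≠ v) (a b : OP d R)
    (h : op E u a + op E v b = 0) : ∃ g, a = - op E v g ∧ b = op E u g := by
  obtain ⟨g, -, hg⟩ := red' E u ⊤ (fun _ _ => trivial) (fun _ => True) (fun _ => Iff.rfl) b
    (fun _ => trivial) (fun _ _ => trivial)
  set b' := b - op E u g with hb'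
  have hb : b = op E u g + b' := by rw [hb']; abel
  have h1 : op E u (a + op E v g) = - op E v b' := by
    rw [op_add, op_comm E hE u v g, hb', op_sub]
    have : op E u a = - op E v b := eq_neg_of_add_eq_zero_left h
    rw [this]; abel
  have h2 : a + op E v g = 0 := by
    apply op_zero_of_supp E u
    intro L hL
    rw [h1, Finsupp.neg_apply, neg_ne_zero] at hL
    exact op_supp E u v huv b' (fun K hK => (hg K hK).2) L hL
  have h3 : b' = 0 := by
    apply op_inj E v
    rw [h2, op_zero] at h1
    rw [← neg_eq_zero, ← h1]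
  refine ⟨g, eq_neg_of_add_eq_zero_left h2, ?_⟩
  rw [hb, h3, add_zero]

theorem div_reduce (hE : Comm E) (u v : Fin d) (huv : u ≠ v) (H : AddSubgroup R)
    (hu : ∀ x ∈ H, E u x ∈ H) (hv : ∀ x ∈ H, E v x ∈ H) (c : OP d R) (hc : ∀ K, c K ∈ H) :
    ∃ c0 h0 h1 : OP d R, (∀ K, c0 K ∈ H) ∧ (∀ K, c0 K ≠ 0 → K u = 0 ∧ K v = 0) ∧
      c = c0 + op E u h0 + op E v h1 := by
  obtain ⟨g0, hg0, hg0'⟩ := red' E u H hu (fun _ => True) (fun _ => Iff.rfl) c hc
    (fun _ _ => trivial)
  obtain ⟨g1, hg1, hg1'⟩ := red' E v H hv (fun K => K u = 0) (fun K => by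
    simp [huv.symm]) (c - op E u g0) hg0 (fun K hK => (hg0' K hK).2)
  exact ⟨c - op E u g0 - op E v g1, g0, g1, hg1, hg1', by abel⟩

theorem perp_unique (hE : Comm E) (u v : Fin d) (huv : u ≠ v) (c h0 h1 : OP d R)
    (hc : ∀ K, c K ≠ 0 → K u = 0 ∧ K v = 0) (h : c = op E u h0 + op E v h1) : c = 0 := by
  obtain ⟨g, -, hg⟩ := red' E u ⊤ (fun _ _ => trivial) (fun _ => True) (fun _ => Iff.rfl) h1
    (fun _ => trivial) (fun _ _ => trivial)
  set h1' := h1 - op E u g with hh1'
  have e1 : op E u (h0 + op E v g) = c - op E v h1' := by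
    rw [h, op_add, op_comm E hE u v g, hh1', op_sub]; abel
  have e2 : h0 + op E v g = 0 := by
    apply op_zero_of_supp E u
    intro L hL
    rw [e1, Finsupp.sub_apply] at hL
    by_contra hLu
    apply hL
    have z1 : c L = 0 := by
      by_contra hh; exact hLu (hc L hh).1
    have z2 : op E v h1' L = 0 := by
      by_contra hh; exact hLu (op_supp E u v huv h1' (fun K hK => (hg K hK).2) L hh)
    rw [z1, z2, sub_zero]
  rw [e2, op_zero] at e1
  have e3 : c = op E v h1' := (sub_eq_zero.1 e1.symm)
  have e4 : h1' = 0 := by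
    apply op_zero_of_supp E v
    intro L hL
    rw [← e3] at hL
    exact (hc L hL).2
  rw [e3, e4, op_zero]

/-- the form used for the Euler-Lagrange argument -/
theorem el_zero (hE : Comm E) (u v : Fin d) (huv : u ≠ v) (H : AddSubgroup R)
    (hu : ∀ x ∈ H, E u x ∈ H) (hv : ∀ x ∈ H, E v x ∈ H)
    (hinj : ∀ x ∈ H, E u x = 0 → x = 0) (c : OP d R) (hc : ∀ K, c K ∈ H) (y0 y1 : OP d R)
    (h : shf u c = op E u y0 + op E v y1) : ∃ h0 h1 : OP d R, c = op E u h0 + op E v h1 := by
  obtain ⟨c0, h0, h1, hc0, hc0', hc1⟩ := div_reduce E hE u v huv H hu hv c hc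
  set m0 : OP d R := Finsupp.mapRange (fun r => E u r) (map_zero (E u)) c0 with hm0
  have e1 : m0 = op E u (c0 - y0 + shf u h0) + op E v (-y1 + shf u h1) := by
    have e2 : op E u c0 = m0 + shf u c0 := rfl
    have e3 : shf u c = shf u c0 + op E u (shf u h0) + op E v (shf u h1) := by
      rw [hc1, shf_add, shf_add, shf_op, shf_op]
    rw [h] at e3
    rw [op_add, op_add, op_sub, op_neg, e2]
    have e4 : m0 + shf u c0 - op E u y0 + op E u (shf u h0) + (-op E v y1 + op E v (shf u h1))
        = m0 + (shf u c0 + op E u (shf u h0) + op E v (shf u h1) - (op E u y0 + op E v y1)) := by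
      abel
    rw [e4, ← e3, sub_self, add_zero]
  have e5 : m0 = 0 := by
    refine perp_unique E hE u v huv m0 _ _ (fun K hK => hc0' K fun h0 => hK ?_) e1
    rw [hm0, Finsupp.mapRange_apply, h0, map_zero]
  have e6 : c0 = 0 := by
    ext K
    apply hinj _ (hc0 K)
    have := congrArg (fun z : OP d R => z K) e5
    simpa [hm0] using this
  exact ⟨h0, h1, by rw [hc1, e6, zero_add]⟩

end KN
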