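import Pool.Agent.Work.MP_e214ac_gt.N.DKB

/-!
# Linear differential operators in left form (fixed file)

`OP d R = (Fin d →₀ ℕ) →₀ R`: the finitely supported function `c` stands for the operator
`φ ↦ Σ_K c_K D^K φ` (`ev`).  `op E i c` is the composition `D_i ∘ c`, `shf i c = c ∘ D_i`.
-/

namespace KN

/-- differential operators with coefficients in `R` -/
abbrev OP (d : ℕ) (R : Type) [CommRing R] := (Fin d →₀ ℕ) →₀ R

section
variable {d : ℕ} {R : Type} [CommRing R] [Algebra ℝ R]

/-- composition with `D_i` on the right -/
noncomputable def shf (i : Fin d) (c : OP d R) : OP d R :=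
  Finsupp.mapDomain (fun K => K + Finsupp.single i 1) c

/-- composition with `D_i` on the left -/
noncomputable def op (E : Fin d → Derivation ℝ R R) (i : Fin d) (c : OP d R) : OP d R :=
  Finsupp.mapRange (fun r => E i r) (map_zero (E i)) c + shf i c

/-- value of the operator at `φ` -/
noncomputable def ev (E : Fin d → Derivation ℝ R R) (c : OP d R) (φ : R) : R :=
  c.sum fun K r => r * DK (fn E) K φ

end

end KN
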