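import Pool.Agent.Work.MP_e214ac_gt.N.VLDefs

/-!
# MODULE PR (pole reduction, size M)

Let `q ∈ T`, `f = ρv`, and suppose `q = f² (D'_u z0 + D'_v z1)` in `R' = T[1/f]`.  Then there are
`X0, X1 ∈ T` with `q = X0 f_u + X1 f_v - f (D_u X0 + D_v X1)`.

Proof.  Write `z_i = p_i / f^k` with a common `k ≥ 1`, `p_i ∈ T`
(`D' (f⁻¹) = - f⁻² D' f`).  Clearing denominators (`T → R'` is injective):
(*_k)  f^(k-1) q = f (D_u p0 + D_v p1) - k (p0 f_u + p1 f_v)`.
Claim: (*_k)` with `k ≥ 1` implies the statement; induction on `k`.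
`k = 1`: `X_i = - p_i`.
`k + 1 ≥ 2`: (k+1)(p0 f_u + p1 f_v) = f w` for some `w`, so
`p0 f_u + p1 f_v + (-(w/(k+1))) f = 0` and `kos3` (variables `f_u = X (false, e_u)`,
`f_v = X (false, e_v)`, `f = X (false, 0)`) gives `p0 = f_v r - f a`, `p1 = f b - f_u r`.  Put
`p0' = -a + r_v / k`, `p1' = b - r_u / k` (`r_u = der E u r`).  Then
`f^(k-1) q = f (D_u p0' + D_v p1') - k (p0' f_u + p1' f_v)`, which is (*_k)`: multiply by `f`, insert
`p0, p1` in (*_{k+1})`: `D_u (r f_v) - D_v (r f_u) = r_u f_v - r_v f_u` and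
(r f_v) f_u - (r f_u) f_v = 0`, and cancel `f` (`X_mul_cancel`).
-/

open MvPolynomial

namespace KN

theorem pole_step {d : ℕ} {S : Type} [CommRing S] [Algebra ℝ S] (E : Fin d → Derivation ℝ S S)
    (hE : Comm E) (u v : Fin d) (huv : u ≠ v) (q : TT d S) (k : ℕ) (p0 p1 : TT d S)
    (h : ρv ^ k * q = ρv * (der E u p0 + der E v p1)
      - ((k + 1 : ℕ) : TT d S) * (p0 * der E u ρv + p1 * der E v ρv)) :
    ∃ X0 X1 : TT d S, q = X0 * der E u ρv + X1 * der E v ρv
      - ρv * (der E u X0 + der E v X1) := by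
  induction k generalizing p0 p1 with
  | zero =>
    refine ⟨-p0, -p1, ?_⟩
    rw [pow_zero, one_mul] at h
    rw [h, map_neg, map_neg]
    push_cast
    ring
  | succ k ih =>
    have hfu : der E u (ρv : TT d S) = X (false, Finsupp.single u 1) := by
      rw [ρv, der_X, zero_add]
    have hfv : der E v (ρv : TT d S) = X (false, Finsupp.single v 1) := by
      rw [ρv, der_X, zero_add]
    have hne1 : ((false, Finsupp.single u 1) : Bool × (Fin d →₀ ℕ))
        ≠ (false, Finsupp.single v 1) := by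
      intro e
      have e2 := congrArg (fun z => z.2 u) e
      simp [huv.symm] at e2
    have hne2 : ((false, Finsupp.single u 1) : Bool × (Fin d →₀ ℕ)) ≠ (false, 0) := by
      intro e
      have e2 := congrArg (fun z => z.2 u) e
      simp at e2
    have hne3 : ((false, Finsupp.single v 1) : Bool × (Fin d →₀ ℕ)) ≠ (false, 0) := by
      intro e
      have e2 := congrArg (fun z => z.2 v) e
      simp at e2
    -- inverses of natural numbers
    have hc : ∀ n : ℕ, ∃ c : TT d S, ((n + 1 : ℕ) : TT d S) * c = 1 ∧ ∀ i, der E i c = 0 := by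
      intro n
      refine ⟨algebraMap ℝ (TT d S) ((n + 1 : ℕ) : ℝ)⁻¹, ?_, fun i => Derivation.map_algebraMap _ _⟩
      rw [← map_natCast (algebraMap ℝ (TT d S)), ← map_mul, mul_inv_cancel₀, map_one]
      exact_mod_cast Nat.succ_ne_zero n
    obtain ⟨c2, hc2, -⟩ := hc (k + 1)
    obtain ⟨c1, hc1, hc1d⟩ := hc k
    obtain ⟨b, a, r, e0, e1, -⟩ := kos3 (false, Finsupp.single u 1) (false, Finsupp.single v 1)
      (false, 0) hne1 hne2 hne3 p0 p1
      (-(c2 * (der E u p0 + der E v p1 - ρv ^ k * q))) (by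
        rw [← hfu, ← hfv]
        change _ + _ * ρv = 0
        linear_combination c2 * h - (p0 * der E u ρv + p1 * der E v ρv) * hc2)
    rw [← hfv] at e0
    rw [← hfu] at e1
    change p0 = _ - ρv * a at e0
    change p1 = ρv * b - _ at e1
    have hcomm : der E v (der E u (ρv : TT d S)) = der E u (der E v ρv) := der_comm E hE v u ρv
    have hcr : der E v (der E u r) = der E u (der E v r) := der_comm E hE v u r
    refine ih (-a + c1 * der E v r) (b - c1 * der E u r) ?_
    have h1 : (X (false, 0) : TT d S) * (ρv ^ k * q - (ρv * (der E u (-a + c1 * der E v r)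
        + der E v (b - c1 * der E u r)) - ((k + 1 : ℕ) : TT d S) *
        ((-a + c1 * der E v r) * der E u ρv + (b - c1 * der E u r) * der E v ρv))) = 0 := by
      change ρv * _ = 0
      rw [e0, e1] at h
      simp only [map_add, map_sub, map_neg, Derivation.leibniz, smul_eq_mul, hc1d, hcomm,
        hcr] at h ⊢
      push_cast at h hc1 ⊢
      linear_combination h + ρv * (der E v r * der E u ρv - der E u r * der E v ρv) * hc1
    exact sub_eq_zero.1 (X_mul_cancel _ _ h1)

theorem pole_reduction {d : ℕ} {S : Type} [CommRing S] [Algebra ℝ S]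
    (E : Fin d → Derivation ℝ S S) (hE : Comm E) (R' : Type) [CommRing R'] [Algebra ℝ R']
    [Algebra (TT d S) R'] [IsScalarTower ℝ (TT d S) R'] [IsLocalization.Away (ρv : TT d S) R']
    (L : LocData E R') (u v : Fin d) (huv : u ≠ v) (q : TT d S) (z0 z1 : R')
    (h : algebraMap (TT d S) R' q
      = algebraMap (TT d S) R' ρv ^ 2 * (L.D' u z0 + L.D' v z1)) :
    ∃ X0 X1 : TT d S, q = X0 * der E u ρv + X1 * der E v ρv
      - ρv * (der E u X0 + der E v X1) := by
  have hinj : Function.Injective (algebraMap (TT d S) R') := by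
    refine IsLocalization.injective (M := Submonoid.powers (ρv : TT d S)) R' ?_
    rw [Submonoid.powers_le, mem_nonZeroDivisors_iff_right]
    intro x hx
    exact X_mul_cancel (false, 0) x (by rw [mul_comm]; exact hx)
  obtain ⟨n0, a0, h0⟩ := IsLocalization.Away.surj (ρv : TT d S) z0
  obtain ⟨n1, a1, h1⟩ := IsLocalization.Away.surj (ρv : TT d S) z1
  set F := algebraMap (TT d S) R' ρv with hF
  have e0 : z0 * F ^ (n0 + n1 + 1) = algebraMap (TT d S) R' (a0 * ρv ^ (n1 + 1)) := by
    rw [map_mul, map_pow, ← h0, ← hF]; ring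
  have e1 : z1 * F ^ (n0 + n1 + 1) = algebraMap (TT d S) R' (a1 * ρv ^ (n0 + 1)) := by
    rw [map_mul, map_pow, ← h1, ← hF]; ring
  have hD : ∀ (i : Fin d) (z : R') (p : TT d S),
      z * F ^ (n0 + n1 + 1) = algebraMap (TT d S) R' p →
      F ^ (n0 + n1 + 2) * L.D' i z = F * algebraMap (TT d S) R' (der E i p)
        - ((n0 + n1 + 1 : ℕ) : R') * (algebraMap (TT d S) R' p
          * algebraMap (TT d S) R' (der E i ρv)) := by
    intro i z p hp
    have h2 := congrArg (L.D' i) hp
    have h3 : L.D' i F = algebraMap (TT d S) R' (der E i ρv) := L.hD i ρv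
    rw [Derivation.leibniz, Derivation.leibniz_pow, h3, L.hD i p, smul_eq_mul, smul_eq_mul,
      smul_eq_mul, nsmul_eq_mul, Nat.add_sub_cancel] at h2
    rw [← h2, ← hp]
    push_cast
    ring
  generalize a0 * ρv ^ (n1 + 1) = p0 at e0
  generalize a1 * ρv ^ (n0 + 1) = p1 at e1
  refine pole_step E hE u v huv q (n0 + n1) p0 p1 (hinj ?_)
  have f0 := hD u z0 _ e0
  have f1 := hD v z1 _ e1
  simp only [map_sub, map_mul, map_add, map_pow, map_natCast]
  rw [h, ← hF]
  linear_combination f0 + f1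

end KN
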