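import Pool.Agent.Work.MP_e214ac_gt.N.DKB

/-!
# MODULE PdBasic (calculus, size S/M)

Derivatives `pd i f x = fderiv ℝ f x (Pi.single i 1)` of functions smooth on an open set `U` of
`ι → ℝ`.

* `pd_smooth`: `ContDiffOn.fderiv_of_isOpen`, composed with the evaluation at `Pi.single i 1`
  (`ContDiffOn.clm_apply`).
* `pd_comm`: symmetry of second derivatives at points of `U`
  (`ContDiffAt.isSymmSndFDerivAt` or `second_derivative_symmetric_of_eventually`), and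
  `fderiv (fun y => fderiv f y v) x w = fderiv (fderiv f) x w v` (`fderiv_clm_apply`).
* `pd_congr`: `Filter.EventuallyEq.fderiv_eq` (`U` is a neighbourhood of `x`).
* `DK_pd_smooth`, `DK_pd_add_single`: same induction on the list of directions as for
  `DK_add_single` (file `DKB`), with equalities only at the points of `U`.
-/

open scoped ContDiff

namespace KN

section
variable {ι : Type} [Fintype ι] [DecidableEq ι] {U : Set (ι → ℝ)} (hU : IsOpen U)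

include hU

theorem pd_smooth (i : ι) (f : (ι → ℝ) → ℝ) (hf : ContDiffOn ℝ ∞ f U) :
    ContDiffOn ℝ ∞ (pd i f) U := by
  have h1 : ContDiffOn ℝ ∞ (fun y => fderiv ℝ f y) U := hf.fderiv_of_isOpen hU (by simp)
  exact h1.clm_apply contDiffOn_const

theorem pd_comm (i j : ι) (f : (ι → ℝ) → ℝ) (hf : ContDiffOn ℝ ∞ f U) (x : ι → ℝ) (hx : x ∈ U) :
    pd i (pd j f) x = pd j (pd i f) x := by
  have h1 : ContDiffOn ℝ ∞ (fun y => fderiv ℝ f y) U := hf.fderiv_of_isOpen hU (by simp)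
  have h2 : DifferentiableAt ℝ (fun y => fderiv ℝ f y) x :=
    (h1.differentiableOn (by simp)).differentiableAt (hU.mem_nhds hx)
  have h3 : ∀ i j : ι, pd i (pd j f) x =
      fderiv ℝ (fderiv ℝ f) x (Pi.single i 1) (Pi.single j 1) := by
    intro i j
    change fderiv ℝ (fun y => fderiv ℝ f y (Pi.single j 1)) x (Pi.single i 1) = _
    rw [fderiv_clm_apply h2 (differentiableAt_const _)]
    simp
  have h4 : IsSymmSndFDerivAt ℝ f x :=
    (hf.contDiffAt (hU.mem_nhds hx)).isSymmSndFDerivAt (by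
      simp only [minSmoothness_of_isRCLikeNormedField]
      exact WithTop.coe_le_coe.2 (le_top : (2 : ℕ∞) ≤ ⊤))
  rw [h3, h3]
  exact h4 _ _

theorem pd_congr (i : ι) (f g : (ι → ℝ) → ℝ) (h : ∀ x ∈ U, f x = g x) (x : ι → ℝ) (hx : x ∈ U) :
    pd i f x = pd i g x := by
  have h1 : f =ᶠ[nhds x] g := Filter.eventually_of_mem (hU.mem_nhds hx) h
  unfold pd
  rw [h1.fderiv_eq]

/-- derivation of smooth functions -/
private noncomputable def pdbS (i : ι) (f : {f : (ι → ℝ) → ℝ // ContDiffOn ℝ ∞ f U}) :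
    {f : (ι → ℝ) → ℝ // ContDiffOn ℝ ∞ f U} := ⟨pd i f.1, pd_smooth hU i f.1 f.2⟩

omit [Fintype ι] [DecidableEq ι] hU in
open Classical in
/-- extension by zero -/
private noncomputable def pdbH (U : Set (ι → ℝ)) (f : {f : (ι → ℝ) → ℝ // ContDiffOn ℝ ∞ f U}) :
    {f : (ι → ℝ) → ℝ // ContDiffOn ℝ ∞ f U ∧ ∀ x ∉ U, f x = 0} :=
  ⟨fun x => if x ∈ U then f.1 x else 0, f.2.congr (fun _ hx => if_pos hx), fun _ hx => if_neg hx⟩

omit [DecidableEq ι] hU in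
private theorem pdbH_of_mem (f : {f : (ι → ℝ) → ℝ // ContDiffOn ℝ ∞ f U}) (x : ι → ℝ)
    (hx : x ∈ U) : (pdbH U f).1 x = f.1 x := if_pos hx

/-- derivation of smooth functions extended by zero -/
private noncomputable def pdbZ (i : ι)
    (f : {f : (ι → ℝ) → ℝ // ContDiffOn ℝ ∞ f U ∧ ∀ x ∉ U, f x = 0}) :
    {f : (ι → ℝ) → ℝ // ContDiffOn ℝ ∞ f U ∧ ∀ x ∉ U, f x = 0} :=
  pdbH U ⟨pd i f.1, pd_smooth hU i f.1 f.2.1⟩

private theorem pdb_HS (i : ι) (f : {f : (ι → ℝ) → ℝ // ContDiffOn ℝ ∞ f U}) :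
    pdbH U (pdbS hU i f) = pdbZ hU i (pdbH U f) := by
  apply Subtype.ext
  funext x
  by_cases hx : x ∈ U
  · rw [pdbH_of_mem _ x hx]
    unfold pdbZ
    rw [pdbH_of_mem _ x hx]
    exact pd_congr hU i _ _ (fun y hy => (pdbH_of_mem f y hy).symm) x hx
  · rw [(pdbH U (pdbS hU i f)).2.2 x hx, (pdbZ hU i (pdbH U f)).2.2 x hx]

private theorem pdb_ZZ (i j : ι) (f : {f : (ι → ℝ) → ℝ // ContDiffOn ℝ ∞ f U ∧ ∀ x ∉ U, f x = 0}) :
    pdbZ hU i (pdbZ hU j f) = pdbZ hU j (pdbZ hU i f) := by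
  have h1 : ∀ i j : ι, ∀ x ∈ U, (pdbZ hU i (pdbZ hU j f)).1 x = pd i (pd j f.1) x := by
    intro i j x hx
    unfold pdbZ
    rw [pdbH_of_mem _ x hx]
    exact pd_congr hU i _ _ (fun y hy => pdbH_of_mem _ y hy) x hx
  apply Subtype.ext
  funext x
  by_cases hx : x ∈ U
  · rw [h1 i j x hx, h1 j i x hx]
    exact pd_comm hU i j f.1 f.2.1 x hx
  · rw [(pdbZ hU i (pdbZ hU j f)).2.2 x hx, (pdbZ hU j (pdbZ hU i f)).2.2 x hx]

private theorem pdb_DK {d : ℕ} (inc : Fin d → ι) (K : Fin d →₀ ℕ)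
    (f : {f : (ι → ℝ) → ℝ // ContDiffOn ℝ ∞ f U}) :
    (DK (fun i => pdbS hU (inc i)) K f).1 = DK (fun i => pd (inc i)) K f.1 :=
  DK_map _ _ Subtype.val (fun _ _ => rfl) K f

theorem DK_pd_smooth {d : ℕ} (inc : Fin d → ι) (K : Fin d →₀ ℕ) (f : (ι → ℝ) → ℝ)
    (hf : ContDiffOn ℝ ∞ f U) : ContDiffOn ℝ ∞ (DK (fun i => pd (inc i)) K f) U := by
  have h1 := pdb_DK hU inc K ⟨f, hf⟩
  rw [← h1]
  exact (DK (fun i => pdbS hU (inc i)) K ⟨f, hf⟩).2

theorem DK_pd_add_single {d : ℕ} (inc : Fin d → ι) (K : Fin d →₀ ℕ) (i : Fin d)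
    (f : (ι → ℝ) → ℝ) (hf : ContDiffOn ℝ ∞ f U) (x : ι → ℝ) (hx : x ∈ U) :
    DK (fun i => pd (inc i)) (K + Finsupp.single i 1) f x
      = pd (inc i) (DK (fun i => pd (inc i)) K f) x := by
  have h1 : pdbH U (DK (fun i => pdbS hU (inc i)) (K + Finsupp.single i 1) ⟨f, hf⟩) =
      pdbH U (pdbS hU (inc i) (DK (fun i => pdbS hU (inc i)) K ⟨f, hf⟩)) := by
    rw [pdb_HS]
    rw [DK_map (fun i => pdbS hU (inc i)) (fun i => pdbZ hU (inc i)) (pdbH U)
      (fun i f => pdb_HS hU (inc i) f)]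
    rw [DK_map (fun i => pdbS hU (inc i)) (fun i => pdbZ hU (inc i)) (pdbH U)
      (fun i f => pdb_HS hU (inc i) f)]
    exact DK_add_single _ (fun i j f => pdb_ZZ hU (inc i) (inc j) f) K i _
  have h2 := congrFun (congrArg Subtype.val h1) x
  rw [pdbH_of_mem _ x hx, pdbH_of_mem _ x hx, pdb_DK hU inc] at h2
  rw [h2]
  change pd (inc i) (DK (fun i => pdbS hU (inc i)) K ⟨f, hf⟩).1 x = _
  rw [pdb_DK hU inc]

end

end KN
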