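import Pool.Agent.Work.MP_e214ac_gt.N.EvalJet

/-!
# MODULE Slice (calculus, size S/M)

`DK_inl_restrict`: derivatives in the directions `inl i` at the slice `s = t = 0` only depend on the
restriction of the function to the slice.  Induct on the number of derivatives: let
`j : (Fin d → ℝ) → (Fin d ⊕ Fin 2 → ℝ)`, `j y = Sum.elim y 0`, a continuous linear map with
`j (Pi.single i 1) = Pi.single (inl i) 1`; for `g` differentiable at `j x`,
`pd i (g ∘ j) x = pd (inl i) g (j x)` (chain rule); all iterated derivatives of `f` are smooth on `U`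
(`DK_pd_smooth`, or prove the statement for the foldr over an arbitrary list, on the open set
`j ⁻¹' U`), use `pd_congr` on `j ⁻¹' U`.
-/

open MvPolynomial
open scoped ContDiff

namespace KN

/-- the inclusion of the slice -/
private noncomputable def slj (d : ℕ) : (Fin d → ℝ) →L[ℝ] (Fin d ⊕ Fin 2 → ℝ) :=
  LinearMap.toContinuousLinearMap
    { toFun := fun y => Sum.elim y fun _ => (0 : ℝ)
      map_add' := fun x y => by
        funext i
        rcases i with i | i
        · rfl
        · simp
      map_smul' := fun c x => by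
        funext i
        rcases i with i | i
        · rfl
        · simp }

private theorem slj_apply (d : ℕ) (y : Fin d → ℝ) : slj d y = Sum.elim y fun _ => (0 : ℝ) := rfl

private theorem slj_single (d : ℕ) (i : Fin d) :
    slj d (Pi.single i 1) = Pi.single (Sum.inl i) 1 := by
  rw [slj_apply]
  funext k
  rcases k with k | k
  · simp [Pi.single_apply]
  · simp [Pi.single_apply]

private theorem sl_pd {d : ℕ} (i : Fin d) (g : (Fin d ⊕ Fin 2 → ℝ) → ℝ) (x : Fin d → ℝ)
    (hg : DifferentiableAt ℝ g (slj d x)) :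
    pd i (fun y => g (slj d y)) x = pd (Sum.inl i) g (slj d x) := by
  unfold pd
  have h1 : HasFDerivAt (fun y => g (slj d y)) ((fderiv ℝ g (slj d x)).comp (slj d)) x :=
    hg.hasFDerivAt.comp x (slj d).hasFDerivAt
  rw [h1.fderiv, ContinuousLinearMap.comp_apply, slj_single]

theorem DK_inl_restrict {d : ℕ} (U : Set (Fin d ⊕ Fin 2 → ℝ)) (hU : IsOpen U)
    (f : (Fin d ⊕ Fin 2 → ℝ) → ℝ) (hf : ContDiffOn ℝ ∞ f U) (K : Fin d →₀ ℕ) (x : Fin d → ℝ)
    (hx : Sum.elim x (fun _ => (0 : ℝ)) ∈ U) :
    DK (fun i => pd (Sum.inl i)) K f (Sum.elim x (fun _ => (0 : ℝ)))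
      = DK pd K (fun y => f (Sum.elim y (fun _ => (0 : ℝ)))) x := by
  have hV : IsOpen ((slj d) ⁻¹' U) := hU.preimage (slj d).continuous
  have hfV : ContDiffOn ℝ ∞ (fun y => f (slj d y)) ((slj d) ⁻¹' U) :=
    hf.comp (slj d).contDiff.contDiffOn (fun y hy => hy)
  have key : ∀ x ∈ (slj d) ⁻¹' U, DK (fun i => pd (Sum.inl i)) K f (slj d x) =
      DK (fun i => pd (id i)) K (fun y => f (slj d y)) x := by
    induction K using mi_induction with
    | h0 =>
      intro x _
      rw [DK_zero, DK_zero]
    | h1 K i ih =>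
      intro x hx
      rw [DK_pd_add_single hU Sum.inl K i f hf _ hx,
        DK_pd_add_single hV id K i _ hfV x hx,
        pd_congr hV (id i) _ _ (fun y hy => (ih y hy).symm) x hx]
      symm
      apply sl_pd
      exact ((DK_pd_smooth hU Sum.inl K f hf).differentiableOn (by simp)).differentiableAt
        (hU.mem_nhds hx)
  exact key x hx

end KN
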