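import Pool.Agent.Work.MP_e214ac_gt.N.WDefs
import Pool.Agent.Work.MP_e214ac_gt.N.Slice

/-!
# MODULE TransU (size L)

The symmetry condition in the universal ring.

Let `Φ = Bool ⊕ Fin m` (fields `ρ = inl false`, `b = inl true`, `a_k = inr k`), `W = DP Φ (m+2) ℝ` with
`D = der 0`, `∂_s = evo 0 v`, `v ρ = ρ² Σ_l N^{lq} D_l b`, `v b = 0`, `v a_k = 0`
(`N = nam (D_l a_k)`), and `P~ = Pt (nambu D ρ a) (ρ b N^{kq})` over `W`.  `P~` is Poisson for
`Dt D ∂_s` (`pt_poisson`) and skew (`pt_skew`).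

Step 1: `J := jac (Dt D ∂_s) P~ (F.val (Dt D ∂_s) P~) x y z = 0` in `W`.  By `eq_zero_of_jets` it is
enough to show that the evaluation at the jets at `0` of arbitrary polynomials `ρ₀, b₀, a₀_k` on
`ℝ^{m+2}` vanishes.  On `ℝ^{(m+2) ⊕ 2}` with coordinates (x, s, t)` put
`u_b = b₀(x)`, `u_{a_k} = a₀_k(x)`, `u_ρ = ρ₀(x) / (1 - s ρ₀(x) δ(x))`, where
`δ(x) = Σ_l N^{lq} ∂_l b₀` (polynomial), on the open set `U = {1 - s ρ₀ δ ≠ 0} ∋ 0`.  These are smooth
on `U`, independent of `t`, and `∂_s u_ρ = ρ₀² δ / (1 - s ρ₀ δ)² = u_ρ² δ`, and `δ` is the evaluation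
of `Σ_l N^{lq} D_l b`.  So by `pd_evj`, `pd_evj_s` (directions `s`, and `t` with `v = 0`,
`evo 0 0 = 0`) the hypothesis `hD` of `val_evj`, `jac_evj` holds for `D~ = Dt D ∂_s`, with
`inc = Sum.inl`.  The functions `evj Sum.inl u (P~ i j)` are smooth, skew, with vanishing Jacobi
expression on `U` (`jac_evj`), so `IsSymmetry F` (index type `Fin (m+2) ⊕ Fin 2`) gives
`jac pd (evj P~) (F.val pd (evj P~)) = 0` on `U`, that is `evj J = 0` on `U` (`val_evj`, `jac_congr`,
`jac_evj`).  At the point `0`: `DK (pd ∘ inl) K u_c 0 = DK pd K (u₀_c) 0`, because at `s = 0` the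
function `u_c` restricts to the polynomial `u₀_c` and the derivatives are in the directions `x` only
(`DK_inl_restrict`, module `Slice`: for a function `f` smooth near the slice, (DK (pd ∘ inl) K f) (x, 0) =
DK pd K (fun x => f (x, 0)) x`; induct on the number of derivatives, chain rule for
`x ↦ Sum.elim x 0`).  So `eval (jets) J = 0`.

-/

open MvPolynomial
open scoped ContDiff

namespace KN

private theorem tu_DK_zero {d : ℕ} {Φ : Type} (K : Fin d →₀ ℕ) :
    DK (fn (der (Φ := Φ) (S := ℝ) (fun _ : Fin d => 0))) K 0 = 0 :=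
  (DK_map (fn (der (Φ := Φ) (S := ℝ) (fun _ : Fin d => 0)))
    (fn (der (Φ := Φ) (S := ℝ) (fun _ : Fin d => 0))) (fun _ => 0)
    (fun i x => (map_zero (der (Φ := Φ) (S := ℝ) (fun _ : Fin d => 0) i)).symm) K 0).symm

private theorem tu_evo_zero {d : ℕ} {Φ : Type} (w : DP Φ d ℝ) :
    evo (fun _ : Fin d => (0 : Derivation ℝ ℝ ℝ)) (fun _ => 0) w = 0 := by
  have h : evo (fun _ : Fin d => (0 : Derivation ℝ ℝ ℝ)) (fun _ : Φ => 0) = 0 := by
    apply der_ext
    · intro s
      rw [evo_C]; rfl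
    · intro v
      obtain ⟨c, K⟩ := v
      rw [evo_X, tu_DK_zero]; rfl
  rw [h]; rfl

private theorem tu_pd_of_hasDerivAt {ι : Type} [Fintype ι] [DecidableEq ι] (i : ι)
    (f : (ι → ℝ) → ℝ) (y : ι → ℝ) (hf : DifferentiableAt ℝ f y) (c : ℝ)
    (h : HasDerivAt (fun t : ℝ => f (y + t • (Pi.single i 1 : ι → ℝ))) c 0) : pd i f y = c := by
  unfold pd
  have h1 := (hf.hasFDerivAt.hasLineDerivAt (Pi.single i 1 : ι → ℝ))
  exact HasDerivAt.unique h1 h

private theorem tu_one (a b σ : ℝ → ℝ) (a' b' σ' : ℝ) (ha : HasDerivAt a a' 0)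
    (hb : HasDerivAt b b' 0) (hσ : HasDerivAt σ σ' 0) (hne : 1 - σ 0 * a 0 * b 0 ≠ 0) :
    HasDerivAt (fun t => a t / (1 - σ t * a t * b t))
      ((a' * (1 - σ 0 * a 0 * b 0) - a 0 * (-((σ' * a 0 + σ 0 * a') * b 0 + σ 0 * a 0 * b')))
        / (1 - σ 0 * a 0 * b 0) ^ 2) 0 :=
  ha.fun_div (((hσ.mul ha).mul hb).const_sub 1) (by exact hne)

private theorem tu_quot {ι : Type} [Fintype ι] [DecidableEq ι] (s : ι)
    (A B : (ι → ℝ) → ℝ) (y : ι → ℝ) (hA : DifferentiableAt ℝ A y) (hB : DifferentiableAt ℝ B y)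
    (hA0 : pd s A y = 0) (hB0 : pd s B y = 0) (hne : 1 - y s * A y * B y ≠ 0) :
    pd s (fun y => A y / (1 - y s * A y * B y)) y = (A y / (1 - y s * A y * B y)) ^ 2 * B y := by
  have hs : DifferentiableAt ℝ (fun y : ι → ℝ => y s) y := by fun_prop
  have hf : DifferentiableAt ℝ (fun y : ι → ℝ => A y / (1 - y s * A y * B y)) y := by
    have hd : DifferentiableAt ℝ (fun y : ι → ℝ => 1 - y s * A y * B y) y :=
      (differentiableAt_const _).sub ((hs.mul hA).mul hB)
    have h1 := hA.mul (DifferentiableAt.inv hd hne)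
    exact h1
  apply tu_pd_of_hasDerivAt s _ y hf
  have h1 : HasDerivAt (fun t : ℝ => A (y + t • (Pi.single s 1 : ι → ℝ))) 0 0 := by
    have h1 := (hA.hasFDerivAt.hasLineDerivAt (Pi.single s 1 : ι → ℝ))
    have h2 : fderiv ℝ A y (Pi.single s 1) = 0 := hA0
    rw [h2] at h1
    exact h1
  have h2 : HasDerivAt (fun t : ℝ => B (y + t • (Pi.single s 1 : ι → ℝ))) 0 0 := by
    have h1 := (hB.hasFDerivAt.hasLineDerivAt (Pi.single s 1 : ι → ℝ))
    have h2 : fderiv ℝ B y (Pi.single s 1) = 0 := hB0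
    rw [h2] at h1
    exact h1
  have h3 : HasDerivAt (fun t : ℝ => (y + t • (Pi.single s 1 : ι → ℝ)) s) 1 0 := by
    have : (fun t : ℝ => (y + t • (Pi.single s 1 : ι → ℝ)) s) = fun t => y s + t := by
      funext t; simp
    rw [this]
    exact (hasDerivAt_id (0 : ℝ)).const_add (y s)
  have hy : y + (0 : ℝ) • (Pi.single s 1 : ι → ℝ) = y := by simp
  have h6 := tu_one _ _ _ _ _ _ h1 h2 h3 (by simpa only [hy] using hne)
  simp only [hy] at h6
  have e : (0 * (1 - y s * A y * B y) - A y * -((1 * A y + y s * 0) * B y + y s * A y * 0)) /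
      (1 - y s * A y * B y) ^ 2 = (A y / (1 - y s * A y * B y)) ^ 2 * B y := by
    field_simp
    ring
  rw [← e]
  exact h6

/-- the projection to the first coordinates -/
private def tu_pr {d : ℕ} (y : Fin d ⊕ Fin 2 → ℝ) : Fin d → ℝ := fun i => y (Sum.inl i)

private theorem tu_smooth {d : ℕ} (p : MvPolynomial (Fin d) ℝ) :
    ContDiff ℝ ∞ (fun y : Fin d ⊕ Fin 2 → ℝ => eval (tu_pr y) p) := by
  induction p using MvPolynomial.induction_on with
  | C a =>
    simp only [eval_C]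
    exact contDiff_const
  | add p q hp hq =>
    simp only [map_add]
    exact hp.add hq
  | mul_X p i hp =>
    simp only [map_mul, eval_X]
    refine hp.mul ?_
    exact contDiff_apply ℝ ℝ (Sum.inl i : Fin d ⊕ Fin 2)

private theorem tu_pd_pull {d : ℕ} (c : Fin 2) (p : MvPolynomial (Fin d) ℝ)
    (y : Fin d ⊕ Fin 2 → ℝ) : pd (Sum.inr c) (fun y => eval (tu_pr y) p) y = 0 := by
  have hd : Differentiable ℝ (fun y : Fin d ⊕ Fin 2 → ℝ => eval (tu_pr y) p) :=
    (tu_smooth p).differentiable (by simp)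
  apply tu_pd_of_hasDerivAt _ _ _ hd.differentiableAt
  have : (fun t : ℝ => eval (tu_pr (y + t • (Pi.single (Sum.inr c) 1 : Fin d ⊕ Fin 2 → ℝ))) p)
      = fun _ => eval (tu_pr y) p := by
    funext t
    congr 2
    funext i
    simp [tu_pr]
  rw [this]
  exact hasDerivAt_const _ _

/-- the expression `δ = Σ_l N^{lq} D_l b` -/
private noncomputable def tu_del (m : ℕ) (q : Fin (m + 2)) : WW m :=
  ∑ l, NW m l q * dW m l (bW m)

private theorem tu_del_congr {m : ℕ} (q : Fin (m + 2)) (u u' : Fld m → (Fin (m + 2) ⊕ Fin 2 → ℝ) → ℝ)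
    (hb : u (Sum.inl true) = u' (Sum.inl true)) (ha : ∀ k, u (Sum.inr k) = u' (Sum.inr k))
    (y : Fin (m + 2) ⊕ Fin 2 → ℝ) :
    evj Sum.inl u (tu_del m q) y = evj Sum.inl u' (tu_del m q) y := by
  unfold evj tu_del NW
  rw [map_sum, map_sum]
  refine Finset.sum_congr rfl fun l _ => ?_
  rw [map_mul, map_mul, nam_map, nam_map]
  congr 1
  · congr 1
    funext k l
    simp only [dW, aW, der_X, eval_X, ha]
  · simp only [dW, bW, der_X, eval_X, hb]

theorem transfer_universal (F : Formula) (hF : IsSymmetry F) (m : ℕ) (q : Fin (m + 2))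
    (x y z : Fin (m + 2) ⊕ Fin 2) :
    jac (Dt (fn (dW m)) (evo (fun _ => 0) (vW m q))) (PtW m q)
      (F.val (Dt (fn (dW m)) (evo (fun _ => 0) (vW m q))) (PtW m q)) x y z = 0 := by
  apply eq_zero_of_jets
  intro p
  have hc0 : Comm (fun _ : Fin (m + 2) => (0 : Derivation ℝ ℝ ℝ)) := by
    intro i j _; simp
  set Dtt : Fin (m + 2) ⊕ Fin 2 → WW m → WW m :=
    Dt (fn (dW m)) (evo (fun _ => 0) (vW m q)) with hDtt
  -- the functions
  set up : Fld m → (Fin (m + 2) ⊕ Fin 2 → ℝ) → ℝ := fun c y => eval (tu_pr y) (p c) with hup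
  have hups : ∀ c, ContDiff ℝ ∞ (up c) := fun c => tu_smooth (p c)
  set B : (Fin (m + 2) ⊕ Fin 2 → ℝ) → ℝ := evj Sum.inl up (tu_del m q) with hB
  set A : (Fin (m + 2) ⊕ Fin 2 → ℝ) → ℝ := up (Sum.inl false) with hA
  have hBs : ContDiff ℝ ∞ B := by
    rw [← contDiffOn_univ]
    exact evj_smooth isOpen_univ Sum.inl up (fun c => (hups c).contDiffOn) _
  have hAs : ContDiff ℝ ∞ A := hups _
  have hupd : ∀ (c : Fin 2) (e : Fld m) y, pd (Sum.inr c) (up e) y = 0 :=
    fun c e y => tu_pd_pull c (p e) y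
  have hBd : ∀ (c : Fin 2) y, pd (Sum.inr c) B y = 0 := by
    intro c y
    rw [hB, pd_evj_s isOpen_univ Sum.inl up (fun c => (hups c).contDiffOn) (Sum.inr c)
      (fun _ => 0) (fun e x _ => by rw [hupd]; simp [evj]) _ y (Set.mem_univ y), tu_evo_zero]
    simp [evj]
  set den : (Fin (m + 2) ⊕ Fin 2 → ℝ) → ℝ := fun y => 1 - y (Sum.inr 0) * A y * B y with hden
  have hdens : ContDiff ℝ ∞ den := by
    have h1 : ContDiff ℝ ∞ (fun y : Fin (m + 2) ⊕ Fin 2 → ℝ => y (Sum.inr 0)) :=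
      contDiff_apply ℝ ℝ (Sum.inr 0 : Fin (m + 2) ⊕ Fin 2)
    exact contDiff_const.sub ((h1.mul hAs).mul hBs)
  set U : Set (Fin (m + 2) ⊕ Fin 2 → ℝ) := {y | den y ≠ 0} with hU
  have hUo : IsOpen U := isOpen_ne_fun hdens.continuous continuous_const
  set u : Fld m → (Fin (m + 2) ⊕ Fin 2 → ℝ) → ℝ := fun c =>
    match c with
    | Sum.inl false => fun y => A y / den y
    | Sum.inl true => up (Sum.inl true)
    | Sum.inr k => up (Sum.inr k) with hu
  have hus : ∀ c, ContDiffOn ℝ ∞ (u c) U := by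
    intro c
    rcases c with (_ | _) | k
    · exact hAs.contDiffOn.div hdens.contDiffOn (fun y hy => hy)
    · exact (hups _).contDiffOn
    · exact (hups _).contDiffOn
  have hBu : ∀ y, evj Sum.inl u (tu_del m q) y = B y := fun y =>
    tu_del_congr q u up rfl (fun k => rfl) y
  have hs : ∀ c, ∀ y ∈ U, pd (Sum.inr 0) (u c) y = evj Sum.inl u (vW m q c) y := by
    intro c y hy
    rcases c with (_ | _) | k
    · have h1 := tu_quot (Sum.inr 0) A B y (hAs.differentiable (by simp)).differentiableAt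
        (hBs.differentiable (by simp)).differentiableAt (hupd 0 _ y) (hBd 0 y) hy
      change pd (Sum.inr 0) (fun y => A y / (1 - y (Sum.inr 0) * A y * B y)) y = _
      rw [h1, ← hBu y]
      change _ = evj Sum.inl u (ρW m ^ 2 * tu_del m q) y
      unfold evj
      rw [map_mul, map_pow]
      congr 2
      rw [ρW, eval_X]
      change _ = DK _ 0 (u (Sum.inl false)) y
      rw [DK_zero]
      rw [show (eval fun v => DK (fun i => pd (Sum.inl i)) v.2 (u v.1) y) (tu_del m q) = B y from hBu y]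
    · change pd (Sum.inr 0) (up (Sum.inl true)) y = evj Sum.inl u 0 y
      rw [hupd]; simp [evj]
    · change pd (Sum.inr 0) (up (Sum.inr k)) y = evj Sum.inl u 0 y
      rw [hupd]; simp [evj]
  have ht : ∀ c, ∀ y ∈ U, pd (Sum.inr 1) (u c) y = evj Sum.inl u ((fun _ => 0 : Fld m → WW m) c) y := by
    intro c y hy
    rcases c with (_ | _) | k
    · have hd : DifferentiableAt ℝ (u (Sum.inl false)) y :=
        ((hus (Sum.inl false)).contDiffAt (hUo.mem_nhds hy)).differentiableAt (by simp)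
      rw [show evj Sum.inl u ((fun _ => 0 : Fld m → WW m) (Sum.inl false)) y = 0 by simp [evj]]
      apply tu_pd_of_hasDerivAt _ _ _ hd
      have hA1 := (hAs.differentiable (by simp)).differentiableAt (x := y)
      have hB1 := (hBs.differentiable (by simp)).differentiableAt (x := y)
      have h1 : HasDerivAt (fun t : ℝ => A (y + t • (Pi.single (Sum.inr 1) 1 : Fin (m + 2) ⊕ Fin 2 → ℝ))) 0 0 := by
        have h1 := (hA1.hasFDerivAt.hasLineDerivAt (Pi.single (Sum.inr 1) 1))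
        have h2 : fderiv ℝ A y (Pi.single (Sum.inr 1) 1) = 0 := hupd 1 _ y
        rw [h2] at h1
        exact h1
      have h2 : HasDerivAt (fun t : ℝ => B (y + t • (Pi.single (Sum.inr 1) 1 : Fin (m + 2) ⊕ Fin 2 → ℝ))) 0 0 := by
        have h1 := (hB1.hasFDerivAt.hasLineDerivAt (Pi.single (Sum.inr 1) 1))
        have h2 : fderiv ℝ B y (Pi.single (Sum.inr 1) 1) = 0 := hBd 1 y
        rw [h2] at h1
        exact h1
      have h3 : HasDerivAt (fun t : ℝ => (y + t • (Pi.single (Sum.inr 1) 1 : Fin (m + 2) ⊕ Fin 2 → ℝ)) (Sum.inr 0)) 0 0 := by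
        have : (fun t : ℝ => (y + t • (Pi.single (Sum.inr 1) 1 : Fin (m + 2) ⊕ Fin 2 → ℝ)) (Sum.inr 0))
            = fun _ => y (Sum.inr 0) := by
          funext t; simp
        rw [this]
        exact hasDerivAt_const _ _
      have hy0 : y + (0 : ℝ) • (Pi.single (Sum.inr 1) 1 : Fin (m + 2) ⊕ Fin 2 → ℝ) = y := by simp
      have h6 := tu_one _ _ _ _ _ _ h1 h2 h3 (by simp only [hy0]; exact hy)
      have e : ∀ a b c e : ℝ, (0 * a - b * -((0 * b + c * 0) * e + c * b * 0)) / a ^ 2 = 0 := by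
        intro a b c e
        simp
      rw [e] at h6
      exact h6
    · change pd (Sum.inr 1) (up (Sum.inl true)) y = evj Sum.inl u 0 y
      rw [hupd]; simp [evj]
    · change pd (Sum.inr 1) (up (Sum.inr k)) y = evj Sum.inl u 0 y
      rw [hupd]; simp [evj]
  have hD : ∀ i w, ∀ y ∈ U, pd i (evj Sum.inl u w) y = evj Sum.inl u (Dtt i w) y := by
    intro i w y hy
    rcases i with i | c
    · exact pd_evj hUo Sum.inl u hus i w y hy
    · fin_cases c
      · exact pd_evj_s hUo Sum.inl u hus (Sum.inr 0) (vW m q) hs w y hy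
      · have h1 := pd_evj_s hUo Sum.inl u hus (Sum.inr 1) (fun _ => 0) ht w y hy
        rw [tu_evo_zero] at h1
        exact h1
  -- the Poisson bivector
  have hNs : ∀ i j, nambu (fn (dW m)) (ρW m) (aW m) i j = - nambu (fn (dW m)) (ρW m) (aW m) j i := by
    intro i j
    rw [nambu_eq, nambu_eq, nam_skew]; ring
  have hPs : ∀ i j, PtW m q i j = - PtW m q j i := fun i j => pt_skew _ _ hNs i j
  have hPJ : ∀ i j k, jac Dtt (PtW m q) (PtW m q) i j k = 0 := by
    intro i j k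
    refine pt_poisson (dW m) (fun i j x => der_comm _ hc0 i j x) (evo (fun _ => 0) (vW m q))
      (fun i x => evo_der _ hc0 (vW m q) i x) (ρW m) (bW m) (aW m) q ?_ ?_ ?_ i j k
    · intro k
      rw [aW, evo_X, DK_zero]; rfl
    · rw [bW, evo_X, DK_zero]; rfl
    · rw [ρW, evo_X, DK_zero]; rfl
  have hsym := hF (Fin (m + 2) ⊕ Fin 2) U (fun i j => evj Sum.inl u (PtW m q i j)) hUo
    (fun i j => evj_smooth hUo Sum.inl u hus _)
    (fun i j y hy => by
      rw [hPs i j]
      simp [evj])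
    (fun i j k y hy => by
      rw [jac_evj hUo Sum.inl u hus hD (PtW m q) (PtW m q) i j k y hy, hPJ]
      simp [evj]) x y z
  have h0U : (Sum.elim (0 : Fin (m + 2) → ℝ) (fun _ : Fin 2 => (0 : ℝ))) ∈ U := by
    rw [hU, Set.mem_ofPred_eq, hden]
    simp
  have hfin := hsym _ h0U
  rw [jac_congr hUo _ (fun i j => evj Sum.inl u (PtW m q i j)) _
    (fun i j => evj Sum.inl u (F.val Dtt (PtW m q) i j)) (fun i j x _ => rfl)
    (fun i j x hx => val_evj hUo Sum.inl u hus hD F (PtW m q) i j x hx) x y z _ h0U,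
    jac_evj hUo Sum.inl u hus hD (PtW m q) (F.val Dtt (PtW m q)) x y z _ h0U] at hfin
  rw [← hfin]
  unfold evj
  congr 2
  funext v
  obtain ⟨c, K⟩ := v
  simp only
  have h1 := DK_inl_restrict U hUo (u c) (hus c) K 0 h0U
  rw [h1]
  have hfun : (fun x => eval x (p c)) = fun y => u c (Sum.elim y fun _ => 0) := ?_
  · rw [hfun]
  funext x
  rcases c with (_ | _) | k
  · change eval x (p (Sum.inl false)) = A (Sum.elim x fun _ => 0) / den (Sum.elim x fun _ => 0)
    have e1 : den (Sum.elim x fun _ => 0) = 1 := by rw [hden]; simp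
    rw [e1, div_one]
    rfl
  · rfl
  · rfl

end KN
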