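import Pool.Agent.Work.MP_e214ac_gt.N.VLa

/-!
# MODULE VLb (size M)

The derivation `Λ : R' → OP d R'` with `Λ (ρ_K) = D^K ∘ (-f²)`, zero on coefficients and on the jets
of `b` (the field `ρ` moves with speed `-f² b`, that is `1/f` moves with speed `b`).

* `exists_Lam`: on `T` it is `MvPolynomial.mkDerivation S (fun v => if v.1 = false then
  DK (op L.D') v.2 (single 0 (-f²)) else 0)` restricted to `ℝ`-scalars (`T` acts on `OP d R'` through
  `R'`); extend by `exists_der_loc`.
  `Λ (D'_i g) = op i (Λ g)`: the difference `δ` satisfies `δ (g h) = g δ h + h δ g` (`op_smul`), it is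
  zero on the images of `C s` and `X v` (`DK_add_single` for the commuting maps `op L.D' i`, which
  commute by `op_comm`), hence on the image of `T`, hence on `R'` (`der_loc_ext`; make `δ` a
  `Derivation ℝ R' (OP d R')`).
* `ev_Lam`: if `f φ = 1` then `ev (Λ g) φ = - eu' g`: both sides are derivations of `R'`, compare on
  `C s` (0 = 0), `X (true, K)` (0 = 0) and `X (false, K)`:
  `ev (DK op K (single 0 (-f²))) φ = D'^K (-f² φ) = - D'^K f = - X (false, K)` (`ev_DK_op`, `DK_X`).
* `deg_Lam`: if `eu' g = j g` then all coefficients of `Λ g` are eigenvectors for `j + 1`: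
  the map `g ↦ mapRange eu' (Λ g) - Λ (eu' g) - Λ g` is a derivation vanishing on generators
  (`eu'_comm`, `eu' (f²) = 2 f²`).
* `Lam_phi`: `Λ φ = single 0 1` for `φ = 1/f`: from `0 = Λ (f φ) = f Λ φ + φ Λ f`,
  `Λ f = single 0 (-f²)`.
-/

open MvPolynomial

namespace KN

private theorem vlb_van {d : ℕ} {S : Type} [CommRing S] [Algebra ℝ S]
    (R' : Type) [CommRing R'] [Algebra ℝ R'] [Algebra (TT d S) R']
    [IsScalarTower ℝ (TT d S) R'] [IsLocalization.Away (ρv : TT d S) R']
    {M : Type} [AddCommGroup M] [Module R' M] [Module ℝ M] (δ : Derivation ℝ R' M)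
    (hC : ∀ s, δ (algebraMap (TT d S) R' (C s)) = 0)
    (hX : ∀ v, δ (algebraMap (TT d S) R' (X v)) = 0) (g : R') : δ g = 0 := by
  have h : δ = 0 := by
    apply der_loc_ext (A := TT d S) (Submonoid.powers (ρv : TT d S))
    intro x
    induction x using MvPolynomial.induction_on with
    | C s => exact hC s
    | add p q hp hq =>
      rw [map_add, map_add, hp, hq]
      simp
    | mul_X p v hp =>
      rw [map_mul, Derivation.leibniz, hX, hp]
      simp
  rw [h]
  rfl

variable {d : ℕ} {S : Type} [CommRing S] [Algebra ℝ S] (E : Fin d → Derivation ℝ S S)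
  (hE : Comm E) (R' : Type) [CommRing R'] [Algebra ℝ R'] [Algebra (TT d S) R']
  [IsScalarTower ℝ (TT d S) R'] [IsLocalization.Away (ρv : TT d S) R'] (L : LocData E R')

include hE

theorem exists_Lam : ∃ Λ : Derivation ℝ R' (OP d R'),
    (∀ s, Λ (algebraMap (TT d S) R' (C s)) = 0) ∧
    (∀ K, Λ (algebraMap (TT d S) R' (X (false, K)))
      = DK (op L.D') K (Finsupp.single 0 (-(algebraMap (TT d S) R' ρv) ^ 2))) ∧
    (∀ K, Λ (algebraMap (TT d S) R' (X (true, K))) = 0) ∧
    (∀ i g, Λ (L.D' i g) = op L.D' i (Λ g)) := by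
  classical
  let mS : Module S (OP d R') := Module.compHom (OP d R') (C : S →+* TT d S)
  have hmS : ∀ (s : S) (m : OP d R'), s • m = (C s : TT d S) • m := fun _ _ => rfl
  have : IsScalarTower S (TT d S) (OP d R') := ⟨fun s t m => by
    rw [hmS, smul_smul, MvPolynomial.smul_eq_C_mul]⟩
  let D0 : Derivation S (TT d S) (OP d R') := mkDerivation S (fun v => if v.1 = false then
    DK (op L.D') v.2 (Finsupp.single 0 (-(algebraMap (TT d S) R' ρv) ^ 2)) else 0)
  have hD0X : ∀ v, D0 (X v) = if v.1 = false then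
    DK (op L.D') v.2 (Finsupp.single 0 (-(algebraMap (TT d S) R' ρv) ^ 2)) else 0 :=
    fun v => mkDerivation_X _ _ _
  let D1l : TT d S →ₗ[ℝ] OP d R' :=
    { toFun := fun x => D0 x
      map_add' := fun x y => map_add _ _ _
      map_smul' := by
        intro r x
        have e : r • x = C (algebraMap ℝ S r) * x := by
          rw [Algebra.smul_def]; rfl
        rw [e, Derivation.leibniz, derivation_C, smul_zero, add_zero, RingHom.id_apply]
        exact algebraMap_smul (TT d S) r (D0 x) }
  let D1 : Derivation ℝ (TT d S) (OP d R') := Derivation.mk' D1l (fun x y => D0.leibniz x y)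
  obtain ⟨Λ, hΛ⟩ := exists_der_loc (B := R') (M := OP d R') (Submonoid.powers (ρv : TT d S)) D1
  have hC : ∀ s, Λ (algebraMap (TT d S) R' (C s)) = 0 := by
    intro s
    rw [hΛ]
    exact derivation_C D0 s
  have hXf : ∀ K, Λ (algebraMap (TT d S) R' (X (false, K)))
      = DK (op L.D') K (Finsupp.single 0 (-(algebraMap (TT d S) R' ρv) ^ 2)) := by
    intro K
    rw [hΛ]
    exact (hD0X (false, K)).trans (by simp)
  have hXt : ∀ K, Λ (algebraMap (TT d S) R' (X (true, K))) = 0 := by
    intro K
    rw [hΛ]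
    exact (hD0X (true, K)).trans (by simp)
  refine ⟨Λ, hC, hXf, hXt, fun i g => ?_⟩
  let δl : R' →ₗ[ℝ] OP d R' :=
    { toFun := fun g => Λ (L.D' i g) - op L.D' i (Λ g)
      map_add' := by
        intro x y
        simp only [map_add, op_add]
        abel
      map_smul' := by
        intro r x
        have e : op L.D' i (r • Λ x) = r • op L.D' i (Λ x) := by
          ext K
          simp only [op_apply, Finsupp.smul_apply, Derivation.map_smul]
          split_ifs
          · rw [add_zero, add_zero]
          · rw [smul_add]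
        rw [Derivation.map_smul, Derivation.map_smul, Derivation.map_smul, e, ← smul_sub,
          RingHom.id_apply] }
  let δ : Derivation ℝ R' (OP d R') := Derivation.mk' δl (by
    intro x y
    change Λ (L.D' i (x * y)) - op L.D' i (Λ (x * y)) = x • (Λ (L.D' i y) - op L.D' i (Λ y))
      + y • (Λ (L.D' i x) - op L.D' i (Λ x))
    simp only [Derivation.leibniz, map_add, smul_eq_mul, op_add, op_smul, smul_sub]
    abel)
  have h := vlb_van R' δ (by
    intro s
    change Λ (L.D' i _) - op L.D' i (Λ _) = 0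
    rw [L.hD, der_C, hC, hC, op_zero, sub_zero]) (by
    rintro ⟨c, K⟩
    change Λ (L.D' i _) - op L.D' i (Λ _) = 0
    rw [L.hD, der_X]
    cases c
    · rw [hXf, hXf, DK_add_single (op L.D') (fun i j x => op_comm L.D' L.hDc i j x), sub_self]
    · rw [hXt, hXt, op_zero, sub_zero]) g
  exact sub_eq_zero.1 h

theorem ev_Lam (Λ : Derivation ℝ R' (OP d R'))
    (h0 : ∀ s, Λ (algebraMap (TT d S) R' (C s)) = 0)
    (h1 : ∀ K, Λ (algebraMap (TT d S) R' (X (false, K)))
      = DK (op L.D') K (Finsupp.single 0 (-(algebraMap (TT d S) R' ρv) ^ 2)))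
    (h2 : ∀ K, Λ (algebraMap (TT d S) R' (X (true, K))) = 0)
    (φ : R') (hφ : algebraMap (TT d S) R' ρv * φ = 1) (g : R') :
    ev L.D' (Λ g) φ = - L.eu' g := by
  have ev0 : ev L.D' 0 φ = 0 := Finsupp.sum_zero_index
  let δl : R' →ₗ[ℝ] R' :=
    { toFun := fun g => ev L.D' (Λ g) φ + L.eu' g
      map_add' := by
        intro x y
        simp only [map_add, ev_add]
        ring
      map_smul' := by
        intro r x
        have e : ev L.D' (r • Λ x) φ = r • ev L.D' (Λ x) φ := by
          have : r • Λ x = (algebraMap ℝ R' r) • Λ x := (algebraMap_smul R' r (Λ x)).symm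
          rw [this, ev_smul, Algebra.smul_def]
        rw [Derivation.map_smul, Derivation.map_smul, e, ← smul_add, RingHom.id_apply] }
  let δ : Derivation ℝ R' R' := Derivation.mk' δl (by
    intro x y
    change ev L.D' (Λ (x * y)) φ + L.eu' (x * y) = x * (ev L.D' (Λ y) φ + L.eu' y)
      + y * (ev L.D' (Λ x) φ + L.eu' x)
    simp only [Derivation.leibniz, smul_eq_mul, ev_add, ev_smul]
    ring)
  have h := vlb_van R' δ (by
    intro s
    change ev L.D' (Λ _) φ + L.eu' _ = 0
    rw [h0, ev0, L.heu, eu, exd_C]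
    simp) (by
    rintro ⟨c, K⟩
    change ev L.D' (Λ _) φ + L.eu' _ = 0
    rw [L.heu]
    cases c
    · rw [h1, ev_DK_op _ L.hDc, ev_single, DK_zero]
      have e1 : -(algebraMap (TT d S) R' ρv) ^ 2 * φ = - algebraMap (TT d S) R' ρv := by
        linear_combination (-(algebraMap (TT d S) R' ρv)) * hφ
      rw [e1]
      have e2 := DK_map (fn (der E)) (fn L.D') (fun x => - algebraMap (TT d S) R' x)
        (fun i x => by
          change - algebraMap (TT d S) R' (der E i x) = L.D' i (- algebraMap (TT d S) R' x)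
          rw [map_neg, L.hD]) K (ρv : TT d S)
      rw [← e2, ρv, DK_X E hE, zero_add, eu, exd_X]
      simp [wt]
    · rw [h2, ev0, eu, exd_X]
      simp [wt]) g
  exact eq_neg_of_add_eq_zero_left h

theorem deg_Lam (Λ : Derivation ℝ R' (OP d R'))
    (h0 : ∀ s, Λ (algebraMap (TT d S) R' (C s)) = 0)
    (h1 : ∀ K, Λ (algebraMap (TT d S) R' (X (false, K)))
      = DK (op L.D') K (Finsupp.single 0 (-(algebraMap (TT d S) R' ρv) ^ 2)))
    (h2 : ∀ K, Λ (algebraMap (TT d S) R' (X (true, K))) = 0)
    (j : ℝ) (g : R') (hg : L.eu' g = j • g) (K : Fin d →₀ ℕ) :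
    L.eu' (Λ g K) = (j + 1) • Λ g K := by
  -- the coefficientwise Euler derivation
  set MM : OP d R' → OP d R' := fun c => Finsupp.mapRange (fun r => L.eu' r) (map_zero L.eu') c
    with hMM
  have hMa : ∀ c K, MM c K = L.eu' (c K) := fun c K => Finsupp.mapRange_apply
  have hMadd : ∀ c c', MM (c + c') = MM c + MM c' := by
    intro c c'
    ext K
    rw [hMa, Finsupp.add_apply, Finsupp.add_apply, map_add, hMa, hMa]
  have hMsm : ∀ (r : R') c, MM (r • c) = L.eu' r • c + r • MM c := by
    intro r c
    ext K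
    simp only [hMa, Finsupp.add_apply, Finsupp.smul_apply, smul_eq_mul, Derivation.leibniz]
    ring
  have hMr : ∀ (r : ℝ) c, MM (r • c) = r • MM c := by
    intro r c
    ext K
    simp only [hMa, Finsupp.smul_apply, Derivation.map_smul]
  have hM0 : MM 0 = 0 := by
    ext K; rw [hMa]; simp
  have hMop : ∀ i c, MM (op L.D' i c) = op L.D' i (MM c) := by
    intro i c
    ext K
    rw [hMa, op_apply, op_apply, map_add, hMa, eu'_comm E R' L]
    split_ifs
    · simp
    · rw [hMa]
  let δl : R' →ₗ[ℝ] OP d R' :=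
    { toFun := fun g => MM (Λ g) - Λ (L.eu' g) - Λ g
      map_add' := by
        intro x y
        simp only [map_add, hMadd]
        abel
      map_smul' := by
        intro r x
        rw [Derivation.map_smul, Derivation.map_smul, Derivation.map_smul, hMr, ← smul_sub,
          ← smul_sub, RingHom.id_apply] }
  let δ : Derivation ℝ R' (OP d R') := Derivation.mk' δl (by
    intro x y
    change MM (Λ (x * y)) - Λ (L.eu' (x * y)) - Λ (x * y)
      = x • (MM (Λ y) - Λ (L.eu' y) - Λ y) + y • (MM (Λ x) - Λ (L.eu' x) - Λ x)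
    simp only [Derivation.leibniz, map_add, smul_eq_mul, hMadd, hMsm, smul_sub]
    abel)
  have h := vlb_van R' δ (by
    intro s
    change MM (Λ _) - Λ (L.eu' _) - Λ _ = 0
    rw [h0, hM0, L.heu, eu, exd_C]
    simp) (by
    rintro ⟨c, K⟩
    change MM (Λ _) - Λ (L.eu' _) - Λ _ = 0
    rw [L.heu]
    cases c
    · have e0 : eu false (X (false, K) : TT d S) = X (false, K) := by
        rw [eu, exd_X]; simp [wt]
      rw [e0, h1]
      have e1 := DK_map (op L.D') (op L.D') MM hMop K
        (Finsupp.single 0 (-(algebraMap (TT d S) R' ρv) ^ 2))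
      have e2 : MM (Finsupp.single 0 (-(algebraMap (TT d S) R' ρv) ^ 2))
          = Finsupp.single 0 (-(algebraMap (TT d S) R' ρv) ^ 2)
            + Finsupp.single 0 (-(algebraMap (TT d S) R' ρv) ^ 2) := by
        rw [hMM]
        simp only
        rw [Finsupp.mapRange_single, ← Finsupp.single_add]
        congr 1
        have e3 : L.eu' (algebraMap (TT d S) R' ρv) = algebraMap (TT d S) R' ρv := by
          rw [L.heu, ρv, eu, exd_X]; simp [wt]
        rw [map_neg, Derivation.leibniz_pow, e3, smul_eq_mul, nsmul_eq_mul]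
        push_cast
        ring
      have e4 := DK_map (op L.D') (op L.D') (fun c => c + c) (fun i c => (op_add L.D' i c c).symm) K
        (Finsupp.single 0 (-(algebraMap (TT d S) R' ρv) ^ 2))
      rw [e1, e2, ← e4]
      simp
    · have e0 : eu false (X (true, K) : TT d S) = 0 := by
        rw [eu, exd_X]; simp [wt]
      rw [e0, h2, hM0]
      simp) g
  have h3 : MM (Λ g) - Λ (L.eu' g) - Λ g = 0 := h
  rw [hg, Derivation.map_smul] at h3
  have h4 := congrArg (fun z : OP d R' => z K) h3
  simp only [Finsupp.sub_apply, hMa, Finsupp.smul_apply, Finsupp.zero_apply] at h4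
  rw [add_smul, one_smul]
  linear_combination h4

theorem Lam_phi (Λ : Derivation ℝ R' (OP d R'))
    (h1 : ∀ K, Λ (algebraMap (TT d S) R' (X (false, K)))
      = DK (op L.D') K (Finsupp.single 0 (-(algebraMap (TT d S) R' ρv) ^ 2)))
    (φ : R') (hφ : algebraMap (TT d S) R' ρv * φ = 1) : Λ φ = Finsupp.single 0 1 := by
  have h2 := congrArg Λ hφ
  have h3 : Λ (algebraMap (TT d S) R' ρv)
      = Finsupp.single 0 (-(algebraMap (TT d S) R' ρv) ^ 2) := by
    have := h1 0
    rw [DK_zero] at this
    exact this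
  rw [Derivation.leibniz, Derivation.map_one_eq_zero, h3] at h2
  ext K
  have h4 := congrArg (fun z : OP d R' => φ * z K) h2
  simp only [Finsupp.add_apply, Finsupp.smul_apply, smul_eq_mul, Finsupp.zero_apply,
    mul_zero] at h4
  by_cases hK : K = 0
  · subst hK
    rw [Finsupp.single_eq_same] at h4 ⊢
    linear_combination h4 - (Λ φ 0 - algebraMap (TT d S) R' ρv * φ - 1) * hφ
  · rw [Finsupp.single_apply, if_neg (Ne.symm hK)] at h4 ⊢
    linear_combination h4 - (Λ φ K) * hφ

end KN
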