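import Pool.Agent.Work.MP_e214ac_gt.N.VLDefs

/-!
# MODULE VLc (size M)

Rules for `prt` and `lin` (the components of the ring homomorphism `βhom`).

* `prt_mul`, `lin_mul`, additivity: components of a product in a square zero extension.
* `prt_free`, `lin_free`: for `x` of degree `0` in `b` (`Hom (wt true) 0 x`: no variable
  `X (true, K)` occurs): `prt x` is its image in `R'` and `lin x = 0`.  (`x` is a sum of monomials in the
  `X (false, K)`; or: `MvPolynomial.hom_congr_vars`-type argument comparing `βhom` with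
  `inlHom ∘ algebraMap`.)
* `prt_pos`: `prt x = 0` if `x` has degree `k ≥ 1` in `b`.
* `prt_der`, `lin_der`: `prt (D_i x) = D'_i (prt x)`, `lin (D_i x) = op i (lin x)`: induct on `x`.
* `lin_evo`: for the evolutionary derivation `∂_s` with `∂_s ρ = ρ² D_u b`, `∂_s b = 0`:
  `lin (∂_s x) = - shf u (Λ (prt x))`.  Both sides `δ(x)` satisfy
  `δ (x y) = prt x • δ y + prt y • δ x` (for the left side use `prt (∂_s y) = 0`, which itself is
  proved by induction: it satisfies the same rule and vanishes on generators because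
  `∂_s (X (false, K)) = D^K (ρ² D_u b)` has `prt = 0`).  On coefficients both vanish, on `X (true, K)`
  both vanish, on `X (false, K)`: left `DK (op D') K (f² • single e_u 1)` (`lin_der`, `DK_map`), right
  `- shf u (DK (op D') K (single 0 (-f²))) = DK (op D') K (single e_u f²)` (`shf_DK_op`,
  `shf_single`).
-/

open MvPolynomial

namespace KN

variable {d : ℕ} {S : Type} [CommRing S] [Algebra ℝ S] (E : Fin d → Derivation ℝ S S)
  (R' : Type) [CommRing R'] [Algebra ℝ R'] [Algebra (TT d S) R']

theorem prt_mul (x y : TT d S) : prt R' (x * y) = prt R' x * prt R' y := by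
  unfold prt
  rw [map_mul, TrivSqZeroExt.fst_mul]

theorem prt_add (x y : TT d S) : prt R' (x + y) = prt R' x + prt R' y := by
  unfold prt
  rw [map_add, TrivSqZeroExt.fst_add]

theorem prt_neg (x : TT d S) : prt R' (-x) = - prt R' x := by
  unfold prt
  rw [map_neg, TrivSqZeroExt.fst_neg]

theorem lin_mul (x y : TT d S) :
    lin R' (x * y) = prt R' x • lin R' y + prt R' y • lin R' x := by
  unfold lin prt
  rw [map_mul, TrivSqZeroExt.snd_mul]
  congr 1
  ext K
  simp

theorem lin_add (x y : TT d S) : lin R' (x + y) = lin R' x + lin R' y := by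
  unfold lin
  rw [map_add, TrivSqZeroExt.snd_add]

theorem lin_neg (x : TT d S) : lin R' (-x) = - lin R' x := by
  unfold lin
  rw [map_neg, TrivSqZeroExt.snd_neg]

private theorem βhom_C (s : S) : βhom R' (C s : TT d S)
    = TrivSqZeroExt.inl (algebraMap (TT d S) R' (C s)) := by
  unfold βhom
  rw [coe_eval₂Hom, eval₂_C]
  rfl

private theorem βhom_Xf (K : Fin d →₀ ℕ) : βhom R' (X (false, K) : TT d S)
    = TrivSqZeroExt.inl (algebraMap (TT d S) R' (X (false, K))) := by
  unfold βhom
  rw [coe_eval₂Hom, eval₂_X]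
  simp

private theorem βhom_Xt (K : Fin d →₀ ℕ) : βhom R' (X (true, K) : TT d S)
    = TrivSqZeroExt.inr (Finsupp.single K 1) := by
  unfold βhom
  rw [coe_eval₂Hom, eval₂_X]
  simp

theorem lin_X (K : Fin d →₀ ℕ) : lin R' (X (true, K) : TT d S) = Finsupp.single K 1 := by
  unfold lin
  rw [βhom_Xt]
  rfl

private theorem lin_C (s : S) : lin R' (C s : TT d S) = 0 := by
  unfold lin
  rw [βhom_C]
  rfl

private theorem prt_C (s : S) : prt R' (C s : TT d S) = algebraMap (TT d S) R' (C s) := by
  unfold prt
  rw [βhom_C]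
  rfl

private theorem lin_Xf (K : Fin d →₀ ℕ) : lin R' (X (false, K) : TT d S) = 0 := by
  unfold lin
  rw [βhom_Xf]
  rfl

private theorem prt_Xf (K : Fin d →₀ ℕ) :
    prt R' (X (false, K) : TT d S) = algebraMap (TT d S) R' (X (false, K)) := by
  unfold prt
  rw [βhom_Xf]
  rfl

private theorem prt_Xt (K : Fin d →₀ ℕ) : prt R' (X (true, K) : TT d S) = 0 := by
  unfold prt
  rw [βhom_Xt]
  rfl

private theorem prt_zero : prt R' (0 : TT d S) = 0 := by
  unfold prt
  rw [map_zero]
  rfl

private theorem lin_zero : lin R' (0 : TT d S) = 0 := by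
  unfold lin
  rw [map_zero]
  rfl

/-- induction on homogeneous polynomials via monomials -/
private theorem hom_sum (x : TT d S) (n : ℕ) (hx : Hom (wt true) n x) (P : TT d S → Prop)
    (h0 : P 0) (hadd : ∀ p q, P p → P q → P (p + q))
    (hm : ∀ (u : (Bool × (Fin d →₀ ℕ)) →₀ ℕ) (s : S), Finsupp.weight (wt true) u = n →
      P (monomial u s)) : P x := by
  classical
  rw [x.as_sum]
  have : ∀ t ⊆ x.support, P (∑ v ∈ t, monomial v (coeff v x)) := by
    intro t
    induction t using Finset.induction_on with
    | empty => intro _; rw [Finset.sum_empty]; exact h0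
    | insert a s ha ih =>
      intro hs
      rw [Finset.sum_insert ha]
      refine hadd _ _ (hm _ _ (hx ?_)) (ih fun z hz => hs (Finset.mem_insert_of_mem hz))
      exact mem_support_iff.1 (hs (Finset.mem_insert_self a s))
  exact this x.support (fun _ h => h)

private theorem mono_cases (u : (Bool × (Fin d →₀ ℕ)) →₀ ℕ) (s : S) :
    (Finsupp.weight (wt true) u = 0 → βhom R' (monomial u s : TT d S)
      = TrivSqZeroExt.inl (algebraMap (TT d S) R' (monomial u s))) ∧
    (1 ≤ Finsupp.weight (wt true) u → prt R' (monomial u s : TT d S) = 0) := by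
  classical
  induction u using Finsupp.induction_linear generalizing s with
  | zero =>
    refine ⟨fun _ => βhom_C R' s, fun h => ?_⟩
    simp at h
  | add f g hf hg =>
    have e : (monomial (f + g) s : TT d S) = monomial f s * monomial g 1 := by
      rw [monomial_mul, mul_one]
    rw [map_add]
    refine ⟨fun h => ?_, fun h => ?_⟩
    · rw [e, map_mul, (hf s).1 (by omega), (hg 1).1 (by omega), ← TrivSqZeroExt.inl_mul, ← map_mul]
    · rw [e, prt_mul]
      by_cases hf1 : 1 ≤ Finsupp.weight (wt true) f
      · rw [(hf s).2 hf1, zero_mul]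
      · rw [(hg 1).2 (by omega), mul_zero]
  | single v k =>
    obtain ⟨c, K⟩ := v
    have e : (monomial (Finsupp.single (c, K) k) s : TT d S) = C s * X (c, K) ^ k := by
      rw [C_mul_X_pow_eq_monomial]
    rw [Finsupp.weight_single]
    cases c with
    | false =>
      refine ⟨fun _ => ?_, fun h => ?_⟩
      · rw [e, map_mul, map_pow, βhom_C, βhom_Xf, TrivSqZeroExt.inl_pow,
          ← TrivSqZeroExt.inl_mul, ← map_pow, ← map_mul]
      · simp [wt] at h
    | true =>
      cases k with
      | zero =>
        refine ⟨fun _ => ?_, fun h => ?_⟩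
        · rw [e, pow_zero, mul_one, βhom_C]
        · simp at h
      | succ k =>
        refine ⟨fun h => ?_, fun _ => ?_⟩
        · simp [wt] at h
        · rw [e, pow_succ, prt_mul, prt_mul, prt_Xt, mul_zero, mul_zero]

theorem prt_free (x : TT d S) (hx : Hom (wt true) 0 x) : prt R' x = algebraMap (TT d S) R' x := by
  refine hom_sum x 0 hx (fun x => prt R' x = algebraMap (TT d S) R' x) ?_ ?_ ?_
  · simp only [map_zero]; exact prt_zero R'
  · intro p q hp hq
    simp only [map_add] at *
    rw [prt_add, hp, hq]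
  · intro u s hu
    unfold prt
    rw [(mono_cases R' u s).1 hu]
    rfl

theorem lin_free (x : TT d S) (hx : Hom (wt true) 0 x) : lin R' x = 0 := by
  refine hom_sum x 0 hx (fun x => lin R' x = 0) (lin_zero R') ?_ ?_
  · intro p q hp hq
    rw [lin_add, hp, hq, add_zero]
  · intro u s hu
    unfold lin
    rw [(mono_cases R' u s).1 hu]
    rfl

theorem prt_pos (k : ℕ) (hk : 1 ≤ k) (x : TT d S) (hx : Hom (wt true) k x) : prt R' x = 0 := by
  refine hom_sum x k hx (fun x => prt R' x = 0) (prt_zero R') ?_ ?_
  · intro p q hp hq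
    rw [prt_add, hp, hq, add_zero]
  · intro u s hu
    exact (mono_cases R' u s).2 (by omega)

theorem prt_der (L : LocData E R') (i : Fin d) (x : TT d S) :
    prt R' (der E i x) = L.D' i (prt R' x) := by
  induction x using MvPolynomial.induction_on with
  | C s => rw [der_C, prt_C, prt_C, L.hD, der_C]
  | add p q hp hq => simp only [map_add, prt_add, hp, hq]
  | mul_X p v hp =>
    obtain ⟨c, K⟩ := v
    have h1 : L.D' i (prt R' (X (c, K) : TT d S)) = prt R' (X (c, K + Finsupp.single i 1) : TT d S) := by
      cases c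
      · rw [prt_Xf, prt_Xf, L.hD, der_X]
      · rw [prt_Xt, prt_Xt, map_zero]
    rw [Derivation.leibniz, smul_eq_mul, smul_eq_mul, prt_add, prt_mul, prt_mul, prt_mul,
      Derivation.leibniz, smul_eq_mul, smul_eq_mul, h1, hp, der_X]

theorem lin_der (L : LocData E R') (i : Fin d) (x : TT d S) :
    lin R' (der E i x) = op L.D' i (lin R' x) := by
  induction x using MvPolynomial.induction_on with
  | C s => rw [der_C, lin_C, lin_C, op_zero]
  | add p q hp hq => simp only [map_add, lin_add, op_add, hp, hq]
  | mul_X p v hp =>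
    obtain ⟨c, K⟩ := v
    have h1 : op L.D' i (lin R' (X (c, K) : TT d S)) = lin R' (X (c, K + Finsupp.single i 1) : TT d S) := by
      cases c
      · rw [lin_Xf, lin_Xf, op_zero]
      · rw [lin_X, lin_X]
        unfold op
        rw [Finsupp.mapRange_single, shf_single]
        simp
    have h2 : L.D' i (prt R' (X (c, K) : TT d S)) = prt R' (X (c, K + Finsupp.single i 1) : TT d S) := by
      rw [← prt_der, der_X]
    rw [Derivation.leibniz, smul_eq_mul, smul_eq_mul, lin_add, lin_mul, lin_mul, lin_mul,
      op_add, op_smul, op_smul, h1, h2, hp, der_X, prt_der E R' L]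
    abel

theorem lin_evo (hE : Comm E) (L : LocData E R') (u : Fin d) (w : Bool → TT d S)
    (hw0 : w false = ρv ^ 2 * der E u bv) (hw1 : w true = 0)
    (Λ : Derivation ℝ R' (OP d R'))
    (h0 : ∀ s, Λ (algebraMap (TT d S) R' (C s)) = 0)
    (h1 : ∀ K, Λ (algebraMap (TT d S) R' (X (false, K)))
      = DK (op L.D') K (Finsupp.single 0 (-(algebraMap (TT d S) R' ρv) ^ 2)))
    (x : TT d S) : lin R' (evo E w x) = - shf u (Λ (prt R' x)) := by
  have hDK : ∀ (K : Fin d →₀ ℕ) (y : TT d S), prt R' (DK (fn (der E)) K y)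
      = DK (fn L.D') K (prt R' y) := fun K y =>
    DK_map (fn (der E)) (fn L.D') (fun y => prt R' y) (fun i y => prt_der E R' L i y) K y
  have hDKl : ∀ (K : Fin d →₀ ℕ) (y : TT d S), lin R' (DK (fn (der E)) K y)
      = DK (op L.D') K (lin R' y) := fun K y =>
    DK_map (fn (der E)) (op L.D') (fun y => lin R' y) (fun i y => lin_der E R' L i y) K y
  have hDK0 : ∀ K : Fin d →₀ ℕ, DK (fn L.D') K 0 = 0 := fun K =>
    (DK_map (fn L.D') (fn L.D') (fun _ => 0) (fun i x => (map_zero (L.D' i)).symm) K 0).symm
  have hDKop0 : ∀ K : Fin d →₀ ℕ, DK (op L.D') K 0 = 0 := fun K =>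
    (DK_map (op L.D') (op L.D') (fun _ => 0) (fun i x => (op_zero L.D' i).symm) K 0).symm
  have pb : prt R' (der E u (bv : TT d S)) = 0 := by
    rw [bv, der_X, prt_Xt]
  have lb : lin R' (der E u (bv : TT d S)) = Finsupp.single (Finsupp.single u 1) 1 := by
    rw [bv, der_X, lin_X, zero_add]
  have pρ : prt R' (ρv : TT d S) = algebraMap (TT d S) R' ρv := prt_Xf R' 0
  have lρ : lin R' (ρv : TT d S) = 0 := lin_Xf R' 0
  have pw : ∀ c, prt R' (w c) = 0 := by
    intro c
    cases c
    · rw [hw0, prt_mul, pb, mul_zero]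
    · rw [hw1, prt_zero]
  have lw : lin R' (w false)
      = Finsupp.single (Finsupp.single u 1) ((algebraMap (TT d S) R' ρv) ^ 2) := by
    rw [hw0, pow_two, lin_mul, lin_mul, pb, lb, prt_mul, pρ, lρ]
    simp [pow_two]
  have pevo : ∀ y : TT d S, prt R' (evo E w y) = 0 := by
    intro y
    induction y using MvPolynomial.induction_on with
    | C s => rw [evo_C, prt_zero]
    | add p q hp hq => rw [map_add, prt_add, hp, hq, add_zero]
    | mul_X p v hp =>
      obtain ⟨c, K⟩ := v
      rw [Derivation.leibniz, smul_eq_mul, smul_eq_mul, prt_add, prt_mul, prt_mul, hp, evo_X,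
        hDK, pw, hDK0]
      simp
  induction x using MvPolynomial.induction_on with
  | C s => rw [evo_C, lin_zero, prt_C, h0, shf_zero, neg_zero]
  | add p q hp hq => simp only [map_add, lin_add, prt_add, shf_add, hp, hq]; abel
  | mul_X p v hp =>
    obtain ⟨c, K⟩ := v
    have key : lin R' (evo E w (X (c, K) : TT d S)) = - shf u (Λ (prt R' (X (c, K) : TT d S))) := by
      rw [evo_X, hDKl]
      cases c
      · rw [lw, prt_Xf, h1, shf_DK_op, shf_single, zero_add]
        have h := DK_map (op L.D') (op L.D') (fun c => -c) (fun i c => (op_neg L.D' i c).symm) K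
          (Finsupp.single (Finsupp.single u 1) (-(algebraMap (TT d S) R' ρv) ^ 2))
        rw [h, ← Finsupp.single_neg, neg_neg]
      · rw [hw1, lin_zero, hDKop0, prt_Xt, map_zero, shf_zero, neg_zero]
    rw [Derivation.leibniz, smul_eq_mul, smul_eq_mul, lin_add, lin_mul, lin_mul, pevo, pevo, key,
      hp, prt_mul, Derivation.leibniz, shf_add, shf_smul, shf_smul]
    simp only [zero_smul, add_zero, smul_neg, neg_add_rev]
    abel

end KN
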