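import Pool.Agent.Work.MP_e214ac_gt.N.VLa
import Pool.Agent.Work.MP_e214ac_gt.N.VLb
import Pool.Agent.Work.MP_e214ac_gt.N.VLc
import Pool.Agent.Work.MP_e214ac_gt.N.PR

/-!
# MODULE VL (assembly of the two dimensional theorem with parameters, size M)

Let `q` be homogeneous of degree `n ≥ 3` in `ρ` and free of `b`, and suppose that with
`∂_s ρ = ρ² D_u b`, `∂_s b = 0`, `f = ρv`, and some `Y0, Y1` of degree `1` in `b`
(I)  ∂_s q + f b D_u q - q D_u (f b) + Y0 f_u + Y1 f_v - f (D_u Y0 + D_v Y1) = 0`.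
Then `q = X0 f_u + X1 f_v - f (D_u X0 + D_v X1)` for some `X0, X1`.

Proof.  Take `R' = Localization.Away ρv`, a `LocData` (`exists_fam_loc`, `exists_der_loc` for `eu'`),
`φ = 1/f`, `Λ` from `exists_Lam`, and `L = q φ²` (images in `R'`).  Write `y_i = lin Y_i`, note
`prt Y_i = 0` (`prt_pos`), `prt b = 0`, `lin b = single 0 1`.
`lin` of (I)` (`lin_mul`, `lin_der`, `lin_free`, `lin_evo`):
`- shf u (Λ q) + f q_u δ_0 - q op u (f δ_0) + f_u y0 + f_v y1 - f (op u y0 + op v y1) = 0`,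
where `δ_K = single K 1`, `op u (f δ_0) = f_u δ_0 + f δ_{e_u}`.
`Λ L = φ² Λ q + 2 q φ Λ φ = φ² Λ q + 2 q φ δ_0` (`Lam_phi`), so
`shf u (Λ L) = φ² shf u (Λ q) + 2 q φ δ_{e_u}
 = φ² (f q_u δ_0 - q f_u δ_0 - q f δ_{e_u} + f_u y0 + f_v y1 - f (op u y0 + op v y1)) + 2 q φ δ_{e_u}
 = (φ q_u - φ² q f_u) δ_0 + q φ δ_{e_u} + φ² f_u y0 + φ² f_v y1 - φ (op u y0 + op v y1)
 = op u (q φ δ_0 - φ y0) + op v (- φ y1)`   (`op_smul`, `D' φ = - φ² D' f`).
Now `eu' L = (n - 2) L`, so the coefficients of `Λ L` satisfy `eu' g = (n - 1) g` (`deg_Lam`), and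
`K0loc` with `j = n - 1 ≠ 0` gives the hypothesis `hinj` of `el_zero` for
`H = {g | eu' g = (n - 1) g}`.  So `Λ L = op u h0 + op v h1`.  Evaluate at `φ` (`ev_Lam`, `ev_op`):
`-(n - 2) L = D'_u (ev h0 φ) + D'_v (ev h1 φ)`.  Divide by `-(n - 2) ≠ 0`; then
`q = f² L = f² (D'_u z0 + D'_v z1)` and `pole_reduction` finishes.
-/

open MvPolynomial

namespace KN

theorem VL {d : ℕ} {S : Type} [CommRing S] [Algebra ℝ S] (E : Fin d → Derivation ℝ S S)
    (hE : Comm E) (u v : Fin d) (huv : u ≠ v) (n : ℕ) (hn : 3 ≤ n) (q : TT d S)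
    (hq : Hom (wt false) n q) (hqb : Hom (wt true) 0 q) (Y0 Y1 : TT d S)
    (hY0 : Hom (wt true) 1 Y0) (hY1 : Hom (wt true) 1 Y1) (w : Bool → TT d S)
    (hw0 : w false = ρv ^ 2 * der E u bv) (hw1 : w true = 0)
    (h : evo E w q + ρv * bv * der E u q - q * der E u (ρv * bv)
      + Y0 * der E u ρv + Y1 * der E v ρv - ρv * (der E u Y0 + der E v Y1) = 0) :
    ∃ X0 X1 : TT d S, q = X0 * der E u ρv + X1 * der E v ρv
      - ρv * (der E u X0 + der E v X1) := by
  classical
  let R' := Localization.Away (ρv : TT d S)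
  obtain ⟨D', hD', hDc'⟩ := exists_fam_loc (B := R') (Submonoid.powers (ρv : TT d S)) (der E)
    (fun i j x => der_comm E hE i j x)
  obtain ⟨eu', heu'⟩ := exists_der_loc (B := R') (M := R') (Submonoid.powers (ρv : TT d S))
    ((Algebra.linearMap (TT d S) R').compDer (eu false))
  let L : LocData E R' := ⟨D', eu', hD', hDc', heu'⟩
  obtain ⟨Λ, hΛ0, hΛ1, hΛ2, hΛD⟩ := exists_Lam E hE R' L
  have hLc : Comm L.D' := L.hDc
  set F : R' := algebraMap (TT d S) R' ρv with hF
  set φ : R' := IsLocalization.Away.invSelf (ρv : TT d S) with hφd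
  have hφ : F * φ = 1 := IsLocalization.Away.mul_invSelf (ρv : TT d S)
  set qa : R' := algebraMap (TT d S) R' q with hqa
  have hρt : Hom (wt true) 0 (ρv : TT d S) := by
    have h := isWeightedHomogeneous_X S (wt (d := d) true) ((false, 0) : Bool × (Fin d →₀ ℕ))
    rw [show wt (d := d) true ((false, 0) : Bool × (Fin d →₀ ℕ)) = 0 by simp [wt]] at h
    exact h
  have hbt : Hom (wt true) 1 (bv : TT d S) := by
    have h := isWeightedHomogeneous_X S (wt (d := d) true) ((true, 0) : Bool × (Fin d →₀ ℕ))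
    rw [show wt (d := d) true ((true, 0) : Bool × (Fin d →₀ ℕ)) = 1 by simp [wt]] at h
    exact h
  have hρf : Hom (wt false) 1 (ρv : TT d S) := by
    have h := isWeightedHomogeneous_X S (wt (d := d) false) ((false, 0) : Bool × (Fin d →₀ ℕ))
    rw [show wt (d := d) false ((false, 0) : Bool × (Fin d →₀ ℕ)) = 1 by simp [wt]] at h
    exact h
  -- the linear part of the identity
  have pb : prt R' (bv : TT d S) = 0 := prt_pos R' 1 (le_refl 1) _ hbt
  have lb : lin R' (bv : TT d S) = Finsupp.single 0 1 := lin_X R' 0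
  have pρ : prt R' (ρv : TT d S) = F := prt_free R' _ hρt
  have lρ : lin R' (ρv : TT d S) = 0 := lin_free R' _ hρt
  have pq : prt R' q = qa := prt_free R' _ hqb
  have lq : lin R' q = 0 := lin_free R' _ hqb
  have pY0 : prt R' Y0 = 0 := prt_pos R' 1 (le_refl 1) _ hY0
  have pY1 : prt R' Y1 = 0 := prt_pos R' 1 (le_refl 1) _ hY1
  have hDF : ∀ i, L.D' i F = algebraMap (TT d S) R' (der E i ρv) := fun i => L.hD i ρv
  have hDq : ∀ i, L.D' i qa = algebraMap (TT d S) R' (der E i q) := fun i => L.hD i q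
  set y0 := lin R' Y0 with hy0
  set y1 := lin R' Y1 with hy1
  have opδ : op L.D' u (Finsupp.single 0 1 : OP d R') = Finsupp.single (Finsupp.single u 1) 1 := by
    unfold op
    rw [Finsupp.mapRange_single, shf_single, zero_add]
    simp
  have eq1 : -(shf u (Λ qa)) + (L.D' u qa * F) • (Finsupp.single 0 1 : OP d R')
      - qa • (L.D' u F • (Finsupp.single 0 1 : OP d R')
        + F • (Finsupp.single (Finsupp.single u 1) 1 : OP d R'))
      + L.D' u F • y0 + L.D' v F • y1 - F • (op L.D' u y0 + op L.D' v y1) = 0 := by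
    have h2 := congrArg (lin R') h
    simp only [sub_eq_add_neg] at h2
    have lz : lin R' (0 : TT d S) = 0 := lin_free R' 0 (isWeightedHomogeneous_zero _ _ _)
    rw [lz] at h2
    simp only [lin_add, lin_neg, lin_mul, prt_mul, prt_add] at h2
    rw [lin_evo E R' hE L u w hw0 hw1 Λ hΛ0 hΛ1 q] at h2
    simp only [lin_der E R' L, prt_der E R' L] at h2
    simp only [lin_mul, prt_mul] at h2
    simp only [pb, lb, pρ, lρ, pq, lq, pY0, pY1, mul_zero, smul_zero, add_zero,
      zero_add, map_zero, op_zero] at h2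
    rw [op_smul, opδ] at h2
    rw [← h2]
    simp only [sub_eq_add_neg, mul_smul, hy0, hy1]
  -- `L = q φ²`
  have hDφ : ∀ i, L.D' i φ = -(φ ^ 2 * L.D' i F) := by
    intro i
    have h2 := congrArg (L.D' i) hφ
    rw [Derivation.leibniz, Derivation.map_one_eq_zero, smul_eq_mul, smul_eq_mul] at h2
    linear_combination φ * h2 - L.D' i φ * hφ
  have heF : L.eu' F = F := by
    rw [hF, L.heu, (hom_iff_eu false 1 (ρv : TT d S)).1 hρf]
    simp
  have heφ : L.eu' φ = -φ := by
    have h2 := congrArg L.eu' hφ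
    rw [Derivation.leibniz, Derivation.map_one_eq_zero, smul_eq_mul, smul_eq_mul, heF] at h2
    linear_combination φ * h2 - (L.eu' φ + φ) * hφ
  have heq : L.eu' qa = (n : R') * qa := by
    rw [hqa, L.heu, (hom_iff_eu false n q).1 hq, map_mul, map_natCast]
  set Lq : R' := qa * φ ^ 2 with hLq
  have heL : L.eu' Lq = ((n : ℝ) - 2) • Lq := by
    have hsm : ∀ x : R', ((n : ℝ) - 2) • x = ((n : R') - 2) * x := fun x => by
      rw [Algebra.smul_def, map_sub, map_natCast, map_ofNat]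
    rw [hsm, hLq, Derivation.leibniz, Derivation.leibniz_pow, heq, heφ]
    simp only [smul_eq_mul, nsmul_eq_mul]
    push_cast
    ring
  have hΛφ : Λ φ = Finsupp.single 0 1 := Lam_phi E hE R' L Λ hΛ1 φ hφ
  have hΛL : Λ Lq = φ ^ 2 • Λ qa + (2 * qa * φ) • (Finsupp.single 0 1 : OP d R') := by
    rw [hLq, Derivation.leibniz, Derivation.leibniz_pow, hΛφ]
    simp only [Nat.add_one_sub_one, pow_one]
    rw [add_comm]
    congr 1
    ext K
    simp only [Finsupp.smul_apply, smul_eq_mul, nsmul_eq_mul]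
    push_cast
    ring
  have hshf : shf u (Λ Lq) = op L.D' u ((qa * φ) • (Finsupp.single 0 1 : OP d R') - φ • y0)
      + op L.D' v (-(φ • y1)) := by
    rw [hΛL, shf_add, shf_smul, shf_smul, shf_single, zero_add, op_sub, op_neg, op_smul, op_smul,
      op_smul, opδ, Derivation.leibniz, hDφ, hDφ]
    ext K
    have eK := congrArg (fun z : OP d R' => z K) eq1
    simp only [Finsupp.add_apply, Finsupp.sub_apply, Finsupp.neg_apply, Finsupp.smul_apply,
      smul_eq_mul, Finsupp.zero_apply] at eK ⊢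
    linear_combination (-φ ^ 2) * eK + φ * (-qa * (Finsupp.single (Finsupp.single u 1) 1 : OP d R') K
      + L.D' u qa * (Finsupp.single 0 1 : OP d R') K - op L.D' u y0 K - op L.D' v y1 K) * hφ
  -- the Euler-Lagrange argument
  have hn1 : ((n : ℝ) - 1) ≠ 0 := by
    have : (3 : ℝ) ≤ n := by exact_mod_cast hn
    linarith
  have hn2 : ((n : ℝ) - 2) ≠ 0 := by
    have : (3 : ℝ) ≤ n := by exact_mod_cast hn
    linarith
  let H : AddSubgroup R' :=
    { carrier := {g | L.eu' g = ((n : ℝ) - 1) • g}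
      zero_mem' := by
        change L.eu' 0 = _
        rw [map_zero, smul_zero]
      add_mem' := by
        intro a b ha hb
        change L.eu' (a + b) = _
        rw [map_add, smul_add]
        exact congrArg₂ (· + ·) ha hb
      neg_mem' := by
        intro a ha
        change L.eu' (-a) = _
        rw [map_neg, smul_neg]
        exact congrArg Neg.neg ha }
  have hHD : ∀ i, ∀ x ∈ H, L.D' i x ∈ H := by
    intro i x hx
    change L.eu' (L.D' i x) = _
    rw [eu'_comm E R' L i x, show L.eu' x = ((n : ℝ) - 1) • x from hx, Derivation.map_smul]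
  obtain ⟨h0, h1, h01⟩ := el_zero L.D' hLc u v huv H (hHD u) (hHD v)
    (fun x hx hx0 => K0loc E R' L u ((n : ℝ) - 1) hn1 x hx hx0) (Λ Lq)
    (fun K => by
      have h3 := deg_Lam E hE R' L Λ hΛ0 hΛ1 hΛ2 ((n : ℝ) - 2) Lq heL K
      change L.eu' _ = _
      rw [h3]
      congr 1
      ring) _ _ hshf
  have hev := ev_Lam E hE R' L Λ hΛ0 hΛ1 hΛ2 φ hφ Lq
  rw [h01, ev_add, ev_op _ hLc, ev_op _ hLc, heL] at hev
  have hLdiv : Lq = L.D' u ((-((n : ℝ) - 2)⁻¹) • ev L.D' h0 φ)
      + L.D' v ((-((n : ℝ) - 2)⁻¹) • ev L.D' h1 φ) := by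
    rw [Derivation.map_smul, Derivation.map_smul, ← smul_add, hev, smul_neg, neg_smul, neg_neg,
      smul_smul, inv_mul_cancel₀ hn2, one_smul]
  refine pole_reduction E hE R' L u v huv q ((-((n : ℝ) - 2)⁻¹) • ev L.D' h0 φ)
    ((-((n : ℝ) - 2)⁻¹) • ev L.D' h1 φ) ?_
  rw [← hLdiv]
  change qa = F ^ 2 * (qa * φ ^ 2)
  linear_combination (-qa) * (F * φ + 1) * hφ

end KN
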