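import Pool.Agent.Work.MP_e214ac_gt.N.OpB
import Pool.Agent.Work.MP_e214ac_gt.N.Proj
import Pool.Agent.Work.MP_e214ac_gt.N.K0
import Pool.Agent.Work.MP_e214ac_gt.N.Kos3
import Pool.Agent.Work.MP_e214ac_gt.N.Loc

/-!
# Setting of the modules VL* (fixed file)

`T = TT d S` with total derivatives `der E i`, `f = ρv = X (false, 0)`.
`R'` is the localization of `T` at `f`, with derivations `D'` extending `der E` (and commuting), and
`eu'` extending the Euler derivation `eu false`.
The structure `LocData` collects these data.
`βhom` is the ring homomorphism from `T` to the square zero extension `R' ⊕ OP d R'` which is the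
localization map on coefficients and on the jets of `ρ`, and sends `X (true, K)` to `ε • single K 1`.
`prt x` and `lin x` are its components: `prt` sets `b = 0`, `lin x` is the part of `x` linear in `b`,
as a differential operator applied to `b`.
-/

open MvPolynomial

namespace KN

/-- the localization of the ring of differential polynomials at `f = ρv`, with its derivations -/
structure LocData {d : ℕ} {S : Type} [CommRing S] [Algebra ℝ S]
    (E : Fin d → Derivation ℝ S S) (R' : Type) [CommRing R'] [Algebra ℝ R']
    [Algebra (TT d S) R'] where
  /-- the extended total derivatives -/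
  D' : Fin d → Derivation ℝ R' R'
  /-- the extended Euler derivation of the field `ρ` -/
  eu' : Derivation ℝ R' R'
  hD : ∀ i x, D' i (algebraMap (TT d S) R' x) = algebraMap (TT d S) R' (der E i x)
  hDc : ∀ i j x, D' i (D' j x) = D' j (D' i x)
  heu : ∀ x, eu' (algebraMap (TT d S) R' x) = algebraMap (TT d S) R' (eu false x)

section
variable {d : ℕ} {S : Type} [CommRing S] [Algebra ℝ S] (R' : Type) [CommRing R'] [Algebra ℝ R']
  [Algebra (TT d S) R']

/-- see the header -/
noncomputable def βhom : TT d S →+* TrivSqZeroExt R' (OP d R') :=
  eval₂Hom ((TrivSqZeroExt.inlHom R' (OP d R')).comp ((algebraMap (TT d S) R').comp C))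
    (fun v => if v.1 = false then TrivSqZeroExt.inl (algebraMap (TT d S) R' (X v))
      else TrivSqZeroExt.inr (Finsupp.single v.2 1))

/-- the part of degree zero in `b` -/
noncomputable def prt (x : TT d S) : R' := (βhom R' x).fst

/-- the part linear in `b`, as a differential operator -/
noncomputable def lin (x : TT d S) : OP d R' := (βhom R' x).snd

end

end KN
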