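import Pool.Agent.Work.MP_e214ac_gt.N.VLDefs

/-!
# MODULE VLa (size M)

`K0loc`: an element `g` of the localization `R' = T[1/f]` with `D'_u g = 0` and `eu' g = j g`,
`j ≠ 0`, is zero.

Proof.  Write `f^k g = p`, `p ∈ T` (`IsLocalization.Away.surj` or similar; `T → R'` is injective
because `f = X (false, 0)` is a nonzerodivisor, `X_mul_cancel`, `IsLocalization.injective`).
Then in `T`: `f * der E u p = k * p * f_u` (`f_u = der E u f = X (false, e_u)`) and
`eu p = (j + k) p`.
Claim: `pderiv (c, K) p = 0` for (c, K) ≠ (false, 0)`, and `f * pderiv (false, 0) p = k p`.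
Descending induction on `K u` as in module `K0` (`exists_bound`): suppose
`pderiv (c', K') p = 0` whenever `K' u ≥ K u + 1`, apply `pderiv (c, K + e_u)` to
`f * der E u p = k * p * f_u`; since (c, K + e_u) ≠ (false, 0)` and by `pderiv_der` one gets
`f * pderiv (c, K) p = k * p * [c = false and K = 0]`.
Now `eu p = Σ_v wt false v X_v pderiv v p = f * pderiv (false, 0) p = k p`
(`eu false x = Σ_{v ∈ vars} …`: both sides are derivations; or use `eu_eq_sum` below), so
`j p = 0`, `p = 0`, `g = 0`.
-/

open MvPolynomial

namespace KN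

variable {d : ℕ} {S : Type} [CommRing S] [Algebra ℝ S] (E : Fin d → Derivation ℝ S S)

/-- the Euler derivation as a sum over the variables -/
theorem eu_eq_sum (c : Bool) (x : TT d S) :
    eu c x = ∑ v ∈ x.vars, (wt c v : TT d S) * X v * pderiv v x := by
  classical
  set euS : Derivation S (TT d S) (TT d S) :=
    mkDerivation S (fun v => (wt c v : TT d S) * X v) with heuS
  have h1 : ∀ y : TT d S, eu c y = euS y := by
    intro y
    induction y using MvPolynomial.induction_on with
    | C s =>
      rw [derivation_C, eu, exd_C]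
      simp
    | add p q hp hq => rw [map_add, map_add, hp, hq]
    | mul_X p v hp =>
      rw [Derivation.leibniz, Derivation.leibniz, hp, heuS, mkDerivation_X, eu, exd_X]
  rw [h1]
  set DV : Derivation S (TT d S) (TT d S) :=
    ∑ v ∈ x.vars, ((wt c v : TT d S) * X v) • pderiv v with hDV
  have h2 : ∀ y, DV y = ∑ v ∈ x.vars, (wt c v : TT d S) * X v * pderiv v y := by
    intro y
    rw [hDV]
    generalize x.vars = s
    induction s using Finset.induction_on with
    | empty => simp
    | insert a s ha ih =>
      rw [Finset.sum_insert ha, Finset.sum_insert ha, Derivation.add_apply, ih]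
      rfl
  rw [← h2]
  apply derivation_eq_of_forall_mem_vars
  intro v hv
  rw [h2, heuS, mkDerivation_X, Finset.sum_eq_single v]
  · rw [pderiv_X_self, mul_one]
  · intro w _ hw
    rw [pderiv_X_of_ne hw.symm, mul_zero]
  · intro h; exact absurd hv h

theorem loc_inj (R' : Type) [CommRing R'] [Algebra (TT d S) R']
    [IsLocalization.Away (ρv : TT d S) R'] : Function.Injective (algebraMap (TT d S) R') := by
  refine IsLocalization.injective (M := Submonoid.powers (ρv : TT d S)) R' ?_
  rw [Submonoid.powers_le, mem_nonZeroDivisors_iff_right]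
  intro x hx
  exact X_mul_cancel (false, 0) x (by rw [mul_comm]; exact hx)

/-- `eu'` commutes with the `D'` (`der_loc_ext` applied to the commutator, `eu_der`) -/
theorem eu'_comm (R' : Type) [CommRing R'] [Algebra ℝ R'] [Algebra (TT d S) R']
    [IsScalarTower ℝ (TT d S) R'] [IsLocalization.Away (ρv : TT d S) R'] (L : LocData E R')
    (i : Fin d) (x : R') : L.eu' (L.D' i x) = L.D' i (L.eu' x) := by
  have h1 : ⁅L.eu', L.D' i⁆ = 0 := by
    apply der_loc_ext (A := TT d S) (Submonoid.powers (ρv : TT d S))
    intro a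
    rw [Derivation.commutator_apply, L.hD, L.heu, L.heu, L.hD, eu_der, sub_self]
    rfl
  have h2 := congrArg (fun z : Derivation ℝ R' R' => z x) h1
  simp only [Derivation.commutator_apply] at h2
  exact sub_eq_zero.1 h2

theorem K0loc (R' : Type) [CommRing R'] [Algebra ℝ R'] [Algebra (TT d S) R']
    [IsScalarTower ℝ (TT d S) R'] [IsLocalization.Away (ρv : TT d S) R'] (L : LocData E R')
    (u : Fin d) (j : ℝ) (hj : j ≠ 0) (g : R') (hg : L.eu' g = j • g) (h : L.D' u g = 0) : g = 0 := by
  classical
  obtain ⟨k, p, hp⟩ := IsLocalization.Away.surj (ρv : TT d S) g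
  set F := algebraMap (TT d S) R' ρv with hF
  have hfu : der E u (ρv : TT d S) = X (false, Finsupp.single u 1) := by
    rw [ρv, der_X, zero_add]
  have heρ : eu false (ρv : TT d S) = ρv := by
    rw [ρv, eu, exd_X]
    simp [wt]
  have hDF : L.D' u F = algebraMap (TT d S) R' (der E u ρv) := L.hD u ρv
  have heF : L.eu' F = F := by
    rw [hF, L.heu, heρ]
  have hpow : ∀ (D : Derivation ℝ R' R'), F * D (F ^ k) = (k : R') * (F ^ k * D F) := by
    intro D
    rw [Derivation.leibniz_pow]
    cases k with
    | zero => simp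
    | succ k =>
      rw [Nat.add_sub_cancel, smul_eq_mul, nsmul_eq_mul]
      ring
  have h1 : ρv * der E u p = (k : TT d S) * (p * der E u ρv) := by
    apply loc_inj R'
    have h2 := congrArg (L.D' u) hp
    rw [Derivation.leibniz, h, L.hD, smul_zero, add_zero, smul_eq_mul] at h2
    rw [map_mul, map_mul, map_mul, map_natCast, ← hF, ← h2, ← hp, ← hDF]
    linear_combination g * hpow (L.D' u)
  have h2 : eu false p = algebraMap ℝ (TT d S) j * p + (k : TT d S) * p := by
    apply loc_inj R'
    have h3 := congrArg L.eu' hp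
    rw [Derivation.leibniz, hg, L.heu, smul_eq_mul, smul_eq_mul] at h3
    have h4 := hpow L.eu'
    rw [heF] at h4
    have hFu : IsUnit F := IsLocalization.Away.algebraMap_isUnit (ρv : TT d S)
    have h5 : L.eu' (F ^ k) = (k : R') * F ^ k := by
      have : F * (L.eu' (F ^ k) - (k : R') * F ^ k) = 0 := by linear_combination h4
      exact sub_eq_zero.1 ((hFu.mul_right_eq_zero).1 this)
    rw [← h3, h5, map_add, map_mul, map_mul, map_natCast, ← hp, Algebra.smul_def,
      ← IsScalarTower.algebraMap_apply ℝ (TT d S) R']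
    ring
  -- descent
  have step : ∀ (c : Bool) (K : Fin d →₀ ℕ),
      (∀ (c' : Bool) (K' : Fin d →₀ ℕ), K u + 1 ≤ K' u → pderiv (c', K') p = 0) →
      X (false, 0) * pderiv (c, K) p = if c = false ∧ K = 0 then (k : TT d S) * p else 0 := by
    intro c K hK
    have a1 := congrArg (pderiv (c, K + Finsupp.single u 1)) h1
    have z1 : pderiv (c, K + Finsupp.single u 1) p = 0 := hK c _ (by simp)
    have z2 : pderiv (c, K + Finsupp.single u 1) (der E u p) = pderiv (c, K) p := by
      rw [pderiv_der, z1, map_zero, zero_add, if_neg (by simp), add_tsub_cancel_right]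
    have z3 : pderiv (c, K + Finsupp.single u 1) (ρv : TT d S) = 0 := by
      apply pderiv_X_of_ne
      intro e
      have e2 := congrArg (fun z => z.2 u) e
      simp at e2
    have z4 : pderiv (c, K + Finsupp.single u 1) ((k : TT d S)) = 0 := Derivation.map_natCast _ _
    rw [pderiv_mul, z2, z3, pderiv_mul, z4, pderiv_mul, z1, hfu] at a1
    simp only [zero_mul, zero_add] at a1
    change ρv * _ = _
    rw [a1]
    split_ifs with hc
    · rw [hc.1, hc.2, zero_add, pderiv_X_self, mul_one]
    · rw [pderiv_X_of_ne, mul_zero, mul_zero]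
      intro e
      apply hc
      have e1 := congrArg Prod.fst e
      have e2 := congrArg Prod.snd e
      simp only at e1 e2
      exact ⟨e1.symm, left_eq_add.1 (e2.trans (add_comm _ _))⟩
  obtain ⟨N, hN⟩ := exists_bound u p
  have hP : ∀ N : ℕ, (∀ (c : Bool) (K : Fin d →₀ ℕ), N + 1 ≤ K u → pderiv (c, K) p = 0) →
      ∀ (c : Bool) (K : Fin d →₀ ℕ), 1 ≤ K u → pderiv (c, K) p = 0 := by
    intro N
    induction N with
    | zero => exact fun h => h
    | succ M ih =>
      intro hM
      apply ih
      intro c K hK
      rcases Nat.lt_or_ge (M + 1) (K u) with h3 | h3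
      · exact hM c K h3
      · have h4 := step c K fun c' K' hK' => hM c' K' (by omega)
        rw [if_neg] at h4
        · exact X_mul_cancel _ _ h4
        · rintro ⟨-, rfl⟩
          simp at hK
  have hP1 := hP N fun c K hK => hN c K (by omega)
  have hQ : ∀ (c : Bool) (K : Fin d →₀ ℕ),
      X (false, 0) * pderiv (c, K) p = if c = false ∧ K = 0 then (k : TT d S) * p else 0 :=
    fun c K => step c K fun c' K' hK' => hP1 c' K' (by omega)
  have h3 : eu false p = (k : TT d S) * p := by
    rw [eu_eq_sum, Finset.sum_eq_single (false, 0)]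
    · have h4 := hQ false 0
      rw [if_pos ⟨rfl, rfl⟩] at h4
      rw [← h4]
      simp [wt]
    · rintro ⟨c, K⟩ _ hne
      have h4 := hQ c K
      rw [if_neg (by
        rintro ⟨rfl, rfl⟩
        exact hne rfl)] at h4
      rw [X_mul_cancel _ _ h4, mul_zero]
    · intro hv
      rw [pderiv_eq_zero_of_notMem_vars hv, mul_zero]
  have h4 : algebraMap ℝ (TT d S) j * p = 0 := by
    rw [h3] at h2
    linear_combination -h2
  have h5 : p = 0 := by
    have h6 := congrArg (fun z => algebraMap ℝ (TT d S) j⁻¹ * z) h4
    simp only [mul_zero] at h6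
    rwa [← mul_assoc, ← map_mul, inv_mul_cancel₀ hj, map_one, one_mul] at h6
  rw [h5, map_zero] at hp
  have hFu : IsUnit (F ^ k) := (IsLocalization.Away.algebraMap_isUnit (ρv : TT d S)).pow k
  exact (hFu.mul_left_eq_zero).1 hp

end KN
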