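import Pool.Agent.Work.MP_e214ac_gt.N.Jets
import Pool.Agent.Work.MP_e214ac_gt.N.PtPoisson
import Pool.Agent.Work.MP_e214ac_gt.N.GrDeg

/-!
# The universal ring of differential polynomials in `ρ, b, a_1, …, a_m` (fixed file)
-/

open MvPolynomial
open scoped ContDiff

namespace KN

/-- the fields of the universal ring -/
abbrev Fld (m : ℕ) := Bool ⊕ Fin m

/-- the universal ring -/
abbrev WW (m : ℕ) := DP (Fld m) (m + 2) ℝ

/-- its total derivatives -/
noncomputable def dW (m : ℕ) : Fin (m + 2) → Derivation ℝ (WW m) (WW m) := der (fun _ => 0)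

noncomputable def ρW (m : ℕ) : WW m := X (Sum.inl false, 0)
noncomputable def bW (m : ℕ) : WW m := X (Sum.inl true, 0)
noncomputable def aW (m : ℕ) (k : Fin m) : WW m := X (Sum.inr k, 0)

/-- `N^{ij}` in the universal ring -/
noncomputable def NW (m : ℕ) (i j : Fin (m + 2)) : WW m :=
  nam (fun k l => dW m l (aW m k)) i j

/-- the values of `∂_s` on the fields -/
noncomputable def vW (m : ℕ) (q : Fin (m + 2)) : Fld m → WW m
  | Sum.inl false => ρW m ^ 2 * ∑ l, NW m l q * dW m l (bW m)
  | Sum.inl true => 0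
  | Sum.inr _ => 0

/-- the Poisson bivector of the universal ring -/
noncomputable def PtW (m : ℕ) (q : Fin (m + 2)) :
    Fin (m + 2) ⊕ Fin 2 → Fin (m + 2) ⊕ Fin 2 → WW m :=
  Pt (nambu (fn (dW m)) (ρW m) (aW m)) (fun k => ρW m * bW m * NW m k q)

end KN
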